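import Mathlib

/-!
# The objects in the statement of the theorem on problem MP_803beb_al

* `resKer p`: the kernel of the map of the free group of rank two onto the restricted Burnside
  group of exponent `p`;
* `IsLieOf`: the associated Lie ring of a group, up to isomorphism;
* `engel p`: the ideal of the free Lie algebra generated by all `(ad u)^(p-1) v`;
* `Lam p`: the quotient (the relatively free Lie algebra on two generators);
* `IsNatural`: the natural homomorphism.
-/

namespace Helper44.BL

/-- The intersection of all normal subgroups `N` of finite index of the free group on two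
generators such that the quotient has exponent `p`. The quotient by it is `B̄(2, p)`. -/
def resKer (p : ℕ) : Subgroup (FreeGroup Bool) :=
  sInf {N | N.Normal ∧ N.FiniteIndex ∧ ∀ g : FreeGroup Bool, g ^ p ∈ N}

instance (p : ℕ) : (resKer p).Normal := by
  constructor
  intro n hn g
  rw [resKer, Subgroup.mem_sInf] at hn ⊢
  intro N hN
  exact hN.1.conj_mem n (hn N hN) g

/-- `L`, together with the maps `c i`, is the associated Lie ring `⨁ γ_{i+1}(G) / γ_{i+2}(G)`
(`i ≥ 0`) of the group `G`: on `γ_{i+1}(G)`, which is `lowerCentralSeries i`, the map `c i` is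
additive with kernel `γ_{i+2}(G)`, the bracket of two classes is the class of the commutator, and
`L` is the direct sum of the images of the `γ_{i+1}(G)` under the maps `c i`. -/
structure IsLieOf {G L : Type} [Group G] [LieRing L] (c : ℕ → G → L) : Prop where
  add : ∀ i, ∀ x ∈ (⊤ : Subgroup G).lowerCentralSeries i,
    ∀ y ∈ (⊤ : Subgroup G).lowerCentralSeries i, c i (x * y) = c i x + c i y
  ker : ∀ i, ∀ x ∈ (⊤ : Subgroup G).lowerCentralSeries i,
    (c i x = 0 ↔ x ∈ (⊤ : Subgroup G).lowerCentralSeries (i + 1))
  lie : ∀ i, ∀ x ∈ (⊤ : Subgroup G).lowerCentralSeries i, ∀ j,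
    ∀ y ∈ (⊤ : Subgroup G).lowerCentralSeries j,
      ⁅c i x, c j y⁆ = c (i + j + 1) (x * y * x⁻¹ * y⁻¹)
  span : ∀ z : L, ∃ (n : ℕ) (x : ℕ → G),
    (∀ i, x i ∈ (⊤ : Subgroup G).lowerCentralSeries i) ∧ z = ∑ i ∈ Finset.range n, c i (x i)
  indep : ∀ (n : ℕ) (x : ℕ → G), (∀ i, x i ∈ (⊤ : Subgroup G).lowerCentralSeries i) →
    ∑ i ∈ Finset.range n, c i (x i) = 0 → ∀ i < n, c i (x i) = 0

/-! ### The relatively free Lie algebra -/

section free

variable (p : ℕ)

/-- the free Lie algebra over `ZMod p` on two generators -/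
abbrev FL : Type := FreeLieAlgebra (ZMod p) Bool

/-- the ideal generated by all `(ad u)^(p-1) v` -/
noncomputable def engel : LieIdeal (ZMod p) (FL p) :=
  LieSubmodule.lieSpan (ZMod p) (FL p)
    {z | ∃ u v : FL p, z = ((LieAlgebra.ad (ZMod p) (FL p) u) ^ (p - 1)) v}

/-- the relatively free Lie algebra of rank two in the variety `E_{p-1, p}` -/
abbrev Lam : Type := FL p ⧸ engel p

/-- `ν` maps the two generators of `Λ(2)` to the classes (under `c 0`) of the two generators of
`B̄(2, p)`, the quotient of the free group by `resKer p` -/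
def IsNatural {L : Type} [LieRing L] [LieAlgebra (ZMod p) L]
    (c : ℕ → FreeGroup Bool ⧸ resKer p → L) (ν : Lam p →ₗ⁅ZMod p⁆ L) : Prop :=
  ∀ a : Bool, ν (LieSubmodule.Quotient.mk (N := engel p) (FreeLieAlgebra.of (ZMod p) a)) =
    c 0 (QuotientGroup.mk (FreeGroup.of a))

end free

end Helper44.BL
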