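import Pool.Agent.Helper27.BE.GrData
import Pool.Agent.Helper31.BE.Comm
import Pool.Agent.Helper44.BL.Base

/-!
# BL-0: the objects of problem MP_803beb_al

* `RB p`: the restricted Burnside group of rank two and exponent `p`;
* `LG G`: the associated Lie ring `⨁ γ_i(G) / γ_{i+1}(G)`;
* `engel p`: the ideal of the free Lie algebra generated by all `(ad u)^(p-1) v`;
* `Lam p`: the quotient (the relatively free Lie algebra on two generators);
* `natMap p`: the Lie homomorphism from the free Lie algebra to `LG (RB p)`;
* `zet p i j`: explicit elements of the free Lie algebra.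
-/

namespace Helper44.BL

open Pool.Agent.Helper27.BE Pool.Agent.Helper27.BE.Gr

/-! ### The group -/

/-- The restricted Burnside group of rank two and exponent `p`. -/
def RB (p : ℕ) : Type := FreeGroup Bool ⧸ resKer p

instance (p : ℕ) : Group (RB p) := inferInstanceAs (Group (FreeGroup Bool ⧸ resKer p))

/-- the two generators -/
def gen (p : ℕ) (a : Bool) : RB p := QuotientGroup.mk' (resKer p) (FreeGroup.of a)

/-- `G` has exponent `p` -/
class ExpP (p : ℕ) (G : Type) [Group G] : Prop where
  pow_eq : ∀ g : G, g ^ p = 1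

instance (p : ℕ) : ExpP p (RB p) where
  pow_eq := by
    intro g
    obtain ⟨x, rfl⟩ := QuotientGroup.mk'_surjective (resKer p) g
    have h : (QuotientGroup.mk' (resKer p) x) ^ p = 1 := by
      rw [← map_pow]
      refine (QuotientGroup.eq_one_iff _).2 ?_
      rw [resKer, Subgroup.mem_sInf]
      intro N hN
      exact hN.2.2 x
    exact h

/-! ### The associated Lie ring -/

instance (G : Type) [Group G] : Fact (GamCalc G) := ⟨Pool.Agent.Helper31.BE.gamCalc G⟩

/-- `⨁_i γ_i(G) / γ_{i+1}(G)`; the component with index `0` is trivial, the component with index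
`i ≥ 1` is `γ_i(G) / γ_{i+1}(G)`, written additively. -/
def LG (G : Type) [Group G] : Type := DirectSum ℕ (fun i => Vv G i)

section lie

variable {G : Type} [Group G]

instance : AddCommGroup (LG G) := inferInstanceAs (AddCommGroup (DirectSum ℕ fun i => Vv G i))

/-- the inclusion of a component -/
def LG.of (i : ℕ) : Vv G i →+ LG G := DirectSum.of (fun i => Vv G i) i

/-- the class of an element of `γ_i(G)` -/
def LG.cls (i : ℕ) (g : gam G i) : LG G := LG.of i (qq i g)

/-- the bracket of `LG G`: on components it is induced by the group commutator (`br0`) -/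
noncomputable def LG.br : LG G →+ LG G →+ LG G :=
  DirectSum.toAddMonoid (fun i => AddMonoidHom.flip (DirectSum.toAddMonoid (fun j =>
    AddMonoidHom.flip ((AddMonoidHom.compHom (LG.of (i + j))).comp
      (br0 (G := G) (i := i) (j := j) rfl)))))

theorem LG.br_of (i j : ℕ) (x : Vv G i) (y : Vv G j) :
    LG.br (LG.of i x) (LG.of j y) = LG.of (i + j) (br0 rfl x y) := by
  have h1 : LG.br (LG.of i x) = (DirectSum.toAddMonoid (fun j =>
      AddMonoidHom.flip ((AddMonoidHom.compHom (LG.of (G := G) (i + j))).comp
      (br0 (G := G) (i := i) (j := j) rfl)))).flip x :=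
    DirectSum.toAddMonoid_of _ i x
  have h2 : (DirectSum.toAddMonoid (fun j =>
      AddMonoidHom.flip ((AddMonoidHom.compHom (LG.of (G := G) (i + j))).comp
      (br0 (G := G) (i := i) (j := j) rfl)))) (LG.of j y) =
      AddMonoidHom.flip ((AddMonoidHom.compHom (LG.of (G := G) (i + j))).comp
      (br0 (G := G) (i := i) (j := j) rfl)) y := DirectSum.toAddMonoid_of _ j y
  rw [h1]
  exact congrArg (fun f : Vv G i →+ LG G => f x) h2

/-- The bracket of the classes of `x` and `y` is the class of the commutator `x y x⁻¹ y⁻¹`. -/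
theorem LG.br_cls (i j : ℕ) (hi : 1 ≤ i) (hj : 1 ≤ j) (x : gam G i) (y : gam G j)
    (h : cm (x : G) (y : G) ∈ gam G (i + j)) :
    LG.br (LG.cls i x) (LG.cls j y) = LG.cls (i + j) ⟨_, h⟩ := by
  unfold LG.cls
  rw [LG.br_of, br0_qq rfl hi hj x y h]

theorem LG.cls_congr {i j : ℕ} (h : i = j) (g : G) (hi : g ∈ gam G i) (hj : g ∈ gam G j) :
    LG.cls i ⟨g, hi⟩ = LG.cls j ⟨g, hj⟩ := by
  subst h
  rfl

theorem LG.of_zero_index (x : Vv G 0) : LG.of 0 x = 0 := by
  obtain ⟨x, rfl⟩ := qq_surj 0 x
  have : qq (G := G) 0 x = 0 := by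
    have h1 : pr G 0 x = 1 := by
      rw [pr_eq_one, Nn_zero]
      trivial
    unfold qq
    rw [h1]
    rfl
  rw [this, map_zero]

theorem LG.ind {P : LG G → Prop} (h0 : P 0)
    (hc : ∀ i, 1 ≤ i → ∀ x : gam G i, P (LG.cls i x)) (ha : ∀ x y, P x → P y → P (x + y))
    (x : LG G) : P x := by
  induction x using DirectSum.induction_on with
  | zero => exact h0
  | of i x =>
    rcases Nat.eq_zero_or_pos i with hi | hi
    · subst hi
      have h : P (LG.of 0 x) := by
        rw [LG.of_zero_index x]
        exact h0
      exact h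
    · obtain ⟨x, rfl⟩ := qq_surj i x
      exact hc i hi x
  | add x y hx hy => exact ha x y hx hy

theorem LG.br_comm (x y : LG G) : LG.br x y = - LG.br y x := by
  induction x using LG.ind with
  | h0 => rw [map_zero, map_zero, neg_zero]; rfl
  | ha x x' hx hx' => rw [map_add, map_add, AddMonoidHom.add_apply, hx, hx', neg_add]
  | hc i hi x =>
    induction y using LG.ind with
    | h0 => rw [map_zero, map_zero, AddMonoidHom.zero_apply, neg_zero]
    | ha y y' hy hy' => rw [map_add, map_add, AddMonoidHom.add_apply, hy, hy', neg_add]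
    | hc j hj y =>
      have h1 : cm (x : G) (y : G) ∈ gam G (i + j) :=
        (Pool.Agent.Helper31.BE.gamCalc G).comm i j hi hj x x.2 y y.2
      have h2 : cm (y : G) (x : G) ∈ gam G (j + i) :=
        (Pool.Agent.Helper31.BE.gamCalc G).comm j i hj hi y y.2 x x.2
      have h2' : cm (y : G) (x : G) ∈ gam G (i + j) := by rwa [add_comm i j]
      rw [LG.br_cls i j hi hj x y h1, LG.br_cls j i hj hi y x h2,
        LG.cls_congr (add_comm j i) _ h2 h2', eq_neg_iff_add_eq_zero]
      unfold LG.cls
      rw [← map_add, ← qq_mul]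
      have : (⟨cm (x : G) (y : G), h1⟩ * ⟨cm (y : G) (x : G), h2'⟩ : gam G (i + j)) = 1 := by
        apply Subtype.ext
        show cm (x : G) (y : G) * cm (y : G) (x : G) = 1
        unfold cm
        group
      rw [this, qq_one, map_zero]

theorem LG.br_self (x : LG G) : LG.br x x = 0 := by
  induction x using LG.ind with
  | h0 => rw [map_zero]
  | ha x y hx hy =>
    rw [map_add LG.br x y, AddMonoidHom.add_apply, map_add (LG.br x), map_add (LG.br y), hx, hy,
      LG.br_comm x y]
    abel
  | hc i hi x =>
    have h1 : cm (x : G) (x : G) ∈ gam G (i + i) :=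
      (Pool.Agent.Helper31.BE.gamCalc G).comm i i hi hi x x.2 x x.2
    rw [LG.br_cls i i hi hi x x h1]
    have : (⟨cm (x : G) (x : G), h1⟩ : gam G (i + i)) = 1 := by
      apply Subtype.ext
      show cm (x : G) (x : G) = 1
      unfold cm
      group
    rw [this]
    unfold LG.cls
    rw [qq_one, map_zero]

theorem LG.br_jac (x y z : LG G) :
    LG.br x (LG.br y z) = LG.br (LG.br x y) z + LG.br y (LG.br x z) := by
  induction x using LG.ind with
  | h0 => simp only [map_zero, AddMonoidHom.zero_apply, add_zero]
  | ha x x' hx hx' =>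
    simp only [map_add, AddMonoidHom.add_apply, hx, hx']
    abel
  | hc a ha x =>
    induction y using LG.ind with
    | h0 => simp only [map_zero, AddMonoidHom.zero_apply, add_zero]
    | ha y y' hy hy' =>
      simp only [map_add, AddMonoidHom.add_apply, hy, hy']
      abel
    | hc b hb y =>
      induction z using LG.ind with
      | h0 => simp only [map_zero, add_zero]
      | ha z z' hz hz' =>
        simp only [map_add, hz, hz']
        abel
      | hc c hc z =>
        have hC := Pool.Agent.Helper31.BE.gamCalc G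
        have m1 : cm (y : G) (z : G) ∈ gam G (b + c) := hC.comm b c hb hc y y.2 z z.2
        have m2 : cm (x : G) (y : G) ∈ gam G (a + b) := hC.comm a b ha hb x x.2 y y.2
        have m3 : cm (x : G) (z : G) ∈ gam G (a + c) := hC.comm a c ha hc x x.2 z z.2
        have n1 : cm (x : G) (cm (y : G) (z : G)) ∈ gam G (a + (b + c)) :=
          hC.comm a (b + c) ha (by omega) x x.2 _ m1
        have n2 : cm (cm (x : G) (y : G)) (z : G) ∈ gam G (a + b + c) :=
          hC.comm (a + b) c (by omega) hc _ m2 z z.2
        have n3 : cm (y : G) (cm (x : G) (z : G)) ∈ gam G (b + (a + c)) :=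
          hC.comm b (a + c) hb (by omega) y y.2 _ m3
        have n1' : cm (x : G) (cm (y : G) (z : G)) ∈ gam G (a + b + c) := by
          rwa [add_assoc]
        have n3' : cm (y : G) (cm (x : G) (z : G)) ∈ gam G (a + b + c) := by
          have e : a + b + c = b + (a + c) := by omega
          rwa [e]
        rw [LG.br_cls b c hb hc y z m1, LG.br_cls a b ha hb x y m2, LG.br_cls a c ha hc x z m3,
          LG.br_cls a (b + c) ha (by omega) x ⟨_, m1⟩ n1,
          LG.br_cls (a + b) c (by omega) hc ⟨_, m2⟩ z n2,
          LG.br_cls b (a + c) hb (by omega) y ⟨_, m3⟩ n3,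
          LG.cls_congr (by omega : a + (b + c) = a + b + c) _ n1 n1',
          LG.cls_congr (by omega : b + (a + c) = a + b + c) _ n3 n3']
        unfold LG.cls
        rw [← map_add, ← qq_mul]
        congr 1
        rw [qq_eq _ _ _ (by omega)]
        exact hC.jacobi a b c ha hb hc x x.2 y y.2 z z.2

noncomputable instance : Bracket (LG G) (LG G) := ⟨fun x y => LG.br x y⟩

noncomputable instance : LieRing (LG G) where
  add_lie x y z := by
    show LG.br (x + y) z = LG.br x z + LG.br y z
    rw [map_add, AddMonoidHom.add_apply]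
  lie_add x y z := by
    show LG.br x (y + z) = LG.br x y + LG.br x z
    rw [map_add]
  lie_self x := LG.br_self x
  leibniz_lie x y z := LG.br_jac x y z

variable (p : ℕ) [ExpP p G]

theorem LG.nsmul_eq_zero (x : LG G) : p • x = 0 := by
  induction x using LG.ind with
  | h0 => rw [nsmul_zero]
  | ha x y hx hy => rw [nsmul_add, hx, hy, add_zero]
  | hc i hi x =>
    unfold LG.cls
    have h : ∀ n : ℕ, n • qq i x = qq i (x ^ n) := by
      intro n
      induction n with
      | zero => rw [zero_nsmul, pow_zero, qq_one]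
      | succ n ih => rw [succ_nsmul, ih, pow_succ, qq_mul]
    rw [← map_nsmul, h, show x ^ p = 1 from Subtype.ext (ExpP.pow_eq (x : G)), qq_one, map_zero]

/-- the associated Lie ring of a group of exponent `p` is a Lie algebra over `ZMod p` -/
instance : Module (ZMod p) (LG G) := AddCommGroup.zmodModule (LG.nsmul_eq_zero p)

noncomputable instance : LieAlgebra (ZMod p) (LG G) where
  lie_smul c x y := by
    show LG.br x (c • y) = c • LG.br x y
    exact ZMod.map_smul (LG.br x) c y

end lie

/-! ### The relatively free Lie algebra -/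

section free

variable (p : ℕ)

/-- the homomorphism which maps the generators to the classes of the generators of the group -/
noncomputable def natMap : FL p →ₗ⁅ZMod p⁆ LG (RB p) :=
  FreeLieAlgebra.lift (ZMod p) fun a => LG.cls 1 ⟨gen p a, trivial⟩

end free

/-! ### The elements `zet p i j` -/

section arr

variable {K M : Type} [Field K] [AddCommGroup M] [Module K M]

/-- The coefficient of `σ^i τ^j` in `(E(τ B) E(σ A))^n c`, where `E` is the exponential. -/
def arr (A B : Module.End K M) (c : M) : ℕ → ℕ → ℕ → M
  | 0, i, j => if i = 0 ∧ j = 0 then c else 0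
  | n + 1, i, j => ∑ a ∈ Finset.range (i + 1), ∑ b ∈ Finset.range (j + 1),
      ((a.factorial : K)⁻¹ * (b.factorial : K)⁻¹) • (B ^ b) ((A ^ a) (arr A B c n (i - a) (j - b)))

/-- `∑_{n < p}` of the coefficient of `σ^i τ^j` in `(E(τ B) E(σ A))^n c` -/
def arrS (p : ℕ) (A B : Module.End K M) (c : M) (i j : ℕ) : M :=
  ∑ n ∈ Finset.range p, arr A B c n i j

end arr

/-- `∑_{n < p}` of the coefficient of `σ^i τ^j` in `(E(τ ad y) E(σ ad x))^n [x, y]` -/
noncomputable def zet (p : ℕ) [Fact p.Prime] (i j : ℕ) : FL p :=
  arrS p (LieAlgebra.ad (ZMod p) (FL p) (FreeLieAlgebra.of (ZMod p) true))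
    (LieAlgebra.ad (ZMod p) (FL p) (FreeLieAlgebra.of (ZMod p) false))
    ⁅FreeLieAlgebra.of (ZMod p) true, FreeLieAlgebra.of (ZMod p) false⁆ i j

end Helper44.BL
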