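import Mathlib

/-!
# BL-3: algebras over the prime field: inverses of factorials, power sums
-/

namespace Helper44.BL

open Polynomial Finset

section ring

variable (p : ℕ) [Fact p.Prime] (R : Type) [CommRing R] [Algebra (ZMod p) R]

/-- the inverse of `k!` -/
noncomputable def iv (k : ℕ) : R := algebraMap (ZMod p) R ((k.factorial : ZMod p)⁻¹)

private theorem fact_ne {k : ℕ} (hk : k < p) : (k.factorial : ZMod p) ≠ 0 := by
  intro h
  rw [ZMod.natCast_eq_zero_iff] at h
  exact absurd ((Nat.Prime.dvd_factorial (Fact.out : p.Prime)).1 h) (by omega)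

theorem iv_mul {k : ℕ} (hk : k < p) : (k.factorial : R) * iv p R k = 1 := by
  unfold iv
  rw [← map_natCast (algebraMap (ZMod p) R) k.factorial, ← map_mul,
    mul_inv_cancel₀ (fact_ne p hk), map_one]

theorem iv_zero : iv p R 0 = 1 := by
  simp [iv]

theorem iv_one : iv p R 1 = 1 := by
  simp [iv]

theorem iv_succ {k : ℕ} (hk : k + 1 < p) : ((k + 1 : ℕ) : R) * iv p R (k + 1) = iv p R k := by
  unfold iv
  rw [← map_natCast (algebraMap (ZMod p) R) (k + 1), ← map_mul]
  congr 1
  have h1 := fact_ne p (k := k) (by omega)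
  have h2 := fact_ne p hk
  rw [Nat.factorial_succ] at h2 ⊢
  push_cast at h2 ⊢
  have h3 : ((k : ZMod p) + 1) ≠ 0 := left_ne_zero_of_mul h2
  field_simp

theorem natCast_p : (p : R) = 0 := by
  rw [← map_natCast (algebraMap (ZMod p) R) p, CharP.cast_eq_zero, map_zero]

/-- an integer prime to `p` can be cancelled -/
theorem nat_cancel {n : ℕ} (hn : ¬ p ∣ n) {a b : R} (h : (n : R) * a = n * b) : a = b := by
  have h0 : (n : ZMod p) ≠ 0 := by
    intro h0
    rw [ZMod.natCast_eq_zero_iff] at h0
    exact hn h0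
  have h1 : algebraMap (ZMod p) R ((n : ZMod p)⁻¹) * (n : R) = 1 := by
    rw [← map_natCast (algebraMap (ZMod p) R) n, ← map_mul, inv_mul_cancel₀ h0, map_one]
  calc a = (algebraMap (ZMod p) R ((n : ZMod p)⁻¹) * (n : R)) * a := by rw [h1, one_mul]
    _ = algebraMap (ZMod p) R ((n : ZMod p)⁻¹) * ((n : R) * a) := by ring
    _ = (algebraMap (ZMod p) R ((n : ZMod p)⁻¹) * (n : R)) * b := by rw [h]; ring
    _ = b := by rw [h1, one_mul]

private theorem sum_pow_zmod (k : ℕ) : ∑ n ∈ range p, (n : ZMod p) ^ k =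
    ∑ x : ZMod p, x ^ k := by
  have : NeZero p := ⟨(Fact.out : p.Prime).ne_zero⟩
  refine Finset.sum_nbij' (fun n => (n : ZMod p)) (fun x => x.val) ?_ ?_ ?_ ?_ ?_
  · intro n _
    exact mem_univ _
  · intro x _
    exact Finset.mem_range.2 (ZMod.val_lt x)
  · intro n hn
    exact ZMod.val_cast_of_lt (Finset.mem_range.1 hn)
  · intro x _
    exact ZMod.natCast_zmod_val x
  · intro n _
    rfl

private theorem sum_pow_pos {k : ℕ} (hk : 0 < k) : ∑ x : ZMod p, x ^ k =
    if p - 1 ∣ k then (-1 : ZMod p) else 0 := by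
  classical
  have h1 := FiniteField.sum_pow_units (ZMod p) k
  rw [ZMod.card] at h1
  rw [← h1]
  have h2 : ∑ x : (ZMod p)ˣ, ((x : ZMod p) ^ k) =
      ∑ x ∈ (univ : Finset (ZMod p)).erase 0, x ^ k := by
    refine Finset.sum_bij (fun x _ => (x : ZMod p)) ?_ ?_ ?_ ?_
    · intro x _
      simp
    · intro x _ y _ h
      exact Units.ext h
    · intro x hx
      rw [Finset.mem_erase] at hx
      exact ⟨Units.mk0 x hx.1, mem_univ _, rfl⟩
    · intro x _
      rfl
  rw [h2, ← Finset.add_sum_erase univ (fun x : ZMod p => x ^ k) (mem_univ 0)]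
  simp [hk.ne']

private theorem sum_pow_R {k : ℕ} (hk : k ≤ 2 * p - 2) : ∑ n ∈ range p, (n : R) ^ k =
    -((if k = p - 1 then 1 else 0) + (if k = 2 * p - 2 then 1 else 0)) := by
  have hp := (Fact.out : p.Prime).two_le
  have h1 : ∑ n ∈ range p, (n : R) ^ k =
      algebraMap (ZMod p) R (∑ n ∈ range p, (n : ZMod p) ^ k) := by
    rw [map_sum]
    exact Finset.sum_congr rfl fun n _ => by rw [map_pow, map_natCast]
  rw [h1]
  rcases Nat.eq_zero_or_pos k with rfl | hk0
  · have e1 : ¬ (0 = p - 1) := by omega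
    have e2 : ¬ (0 = 2 * p - 2) := by omega
    rw [if_neg e1, if_neg e2]
    simp
  · rw [sum_pow_zmod, sum_pow_pos p hk0]
    have h2 : p - 1 ∣ k ↔ k = p - 1 ∨ k = 2 * p - 2 := by
      constructor
      · rintro ⟨c, hc⟩
        have hc3 : c < 3 := by
          by_contra h
          push Not at h
          have : (p - 1) * 3 ≤ (p - 1) * c := Nat.mul_le_mul_left _ h
          omega
        interval_cases c
        · omega
        · left; omega
        · right; omega
      · rintro (rfl | rfl)
        · exact dvd_rfl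
        · exact ⟨2, by omega⟩
    by_cases h3 : k = p - 1
    · have h4 : ¬ (k = 2 * p - 2) := by omega
      rw [if_pos (h2.2 (Or.inl h3)), if_pos h3, if_neg h4]
      simp
    · by_cases h4 : k = 2 * p - 2
      · rw [if_pos (h2.2 (Or.inr h4)), if_neg h3, if_pos h4]
        simp
      · rw [if_neg (by rw [h2]; tauto), if_neg h3, if_neg h4]
        simp

/-- power sums over the prime field -/
theorem sum_eval (q : R[X]) (hq : q.natDegree ≤ 2 * p - 2) :
    ∑ n ∈ range p, q.eval (n : R) = -(q.coeff (p - 1) + q.coeff (2 * p - 2)) := by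
  have hp := (Fact.out : p.Prime).two_le
  have h1 : ∀ n : ℕ, q.eval (n : R) = ∑ k ∈ range (2 * p - 2 + 1), q.coeff k * (n : R) ^ k := by
    intro n
    exact eval_eq_sum_range' (by omega) _
  simp only [h1]
  rw [Finset.sum_comm]
  have h2 : ∀ k ∈ range (2 * p - 2 + 1), ∑ n ∈ range p, q.coeff k * (n : R) ^ k =
      -(q.coeff k * (if k = p - 1 then 1 else 0) + q.coeff k * (if k = 2 * p - 2 then 1 else 0)) := by
    intro k hk
    rw [← Finset.mul_sum, sum_pow_R p R (by have := Finset.mem_range.1 hk; omega)]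
    ring
  rw [Finset.sum_congr rfl h2, Finset.sum_neg_distrib, Finset.sum_add_distrib]
  congr 2
  · rw [Finset.sum_eq_single (p - 1)]
    · simp
    · intro k _ hk
      rw [if_neg hk, mul_zero]
    · intro h
      exact absurd (Finset.mem_range.2 (by omega)) h
  · rw [Finset.sum_eq_single (2 * p - 2)]
    · simp
    · intro k _ hk
      rw [if_neg hk, mul_zero]
    · intro h
      exact absurd (Finset.mem_range.2 (by omega)) h

end ring

end Helper44.BL
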