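import Pool.Agent.Helper44.BL.Iv

/-!
# BL-5: the logarithm of `(1 + τ z) exp(L)` with `τ^2 = 0`, in a nilpotent algebra
-/

namespace Helper44.BL

open Finset

section abstract

variable (p : ℕ) [Fact p.Prime] {A B : Type} [CommRing A] [Algebra (ZMod p) A] [Ring B]
  [Algebra A B]

/-- truncated exponential in an algebra -/
noncomputable def eB (L : B) : B := ∑ k ∈ range 10, iv p A k • L ^ k

/-- `(L + τ M)^n = L^n + τ ∑ L^i M L^(n-1-i)` if `τ^2 = 0` -/
theorem add_smul_pow (τ : A) (hτ : τ * τ = 0) (L M : B) (n : ℕ) :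
    (L + τ • M) ^ n = L ^ n + τ • ∑ i ∈ range n, L ^ i * M * L ^ (n - 1 - i) := by
  induction n with
  | zero => simp
  | succ n ih =>
    have hS : ∑ i ∈ range (n + 1), L ^ i * M * L ^ (n + 1 - 1 - i) =
        (∑ i ∈ range n, L ^ i * M * L ^ (n - 1 - i)) * L + L ^ n * M := by
      rw [sum_range_succ, sum_mul]
      congr 1
      · apply sum_congr rfl
        intro i hi
        have hi' := mem_range.1 hi
        rw [mul_assoc _ (L ^ (n - 1 - i)) L, ← pow_succ]
        congr 2
        omega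
      · simp
    rw [pow_succ, ih, hS, add_mul, mul_add, mul_add, smul_mul_assoc, smul_mul_assoc,
      mul_smul_comm, mul_smul_comm, smul_smul, hτ, zero_smul, add_zero, smul_add, ← pow_succ]
    abel

/-- iterated commutators `(ad L)^n M` -/
def adn (L M : B) : ℕ → B
  | 0 => M
  | n + 1 => L * adn L M n - adn L M n * L

theorem adn_eq (L M : B) (n : ℕ) :
    adn L M n = ∑ k ∈ range (n + 1), ((-1 : ℤ) ^ k * (n.choose k : ℤ)) • (L ^ (n - k) * M * L ^ k) := by
  have h1 : ∀ n, adn L M n = ((-LinearMap.mulRight ℤ L + LinearMap.mulLeft ℤ L) ^ n) M := by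
    intro n
    induction n with
    | zero => simp [adn]
    | succ n ih =>
      rw [pow_succ', Module.End.mul_apply, ← ih]
      simp only [adn, LinearMap.add_apply, LinearMap.neg_apply, LinearMap.mulRight_apply,
        LinearMap.mulLeft_apply]
      abel
  have hc : Commute (-LinearMap.mulRight ℤ L) (LinearMap.mulLeft ℤ L) := by
    apply Commute.neg_left
    apply LinearMap.ext
    intro x
    simp [Module.End.mul_apply, mul_assoc]
  rw [h1, hc.add_pow, LinearMap.sum_apply]
  apply sum_congr rfl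
  intro k hk
  have h2 : ((-LinearMap.mulRight ℤ L : Module.End ℤ B) ^ k) =
      (-1 : ℤ) ^ k • LinearMap.mulRight ℤ (L ^ k) := by
    rw [← LinearMap.pow_mulRight, neg_pow, zsmul_eq_mul]
    simp
  rw [h2, LinearMap.pow_mulLeft]
  have h3 : ((n.choose k : ℕ) : Module.End ℤ B) M = (n.choose k : ℤ) • M := by
    simp
  rw [Module.End.mul_apply, Module.End.mul_apply, h3]
  simp only [map_smul, LinearMap.mulLeft_apply, LinearMap.smul_apply, LinearMap.mulRight_apply]
  rw [smul_smul, mul_comm ((n.choose k : ℕ) : ℤ)]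

/-- `∑_k (-1)^k C(i+k, k) C(i+j+1, j-k) = 1` -/
theorem choose_sum (i j : ℕ) : ∑ k ∈ range (j + 1),
    (-1 : ℤ) ^ k * ((i + k).choose k : ℤ) * ((i + j + 1).choose (j - k) : ℤ) = 1 := by
  have h := Ring.add_choose_eq (R := ℤ) (r := -((i : ℤ) + 1)) (s := ((i + j + 1 : ℕ) : ℤ)) j
    (Commute.all _ _)
  rw [show -((i : ℤ) + 1) + ((i + j + 1 : ℕ) : ℤ) = ((j : ℕ) : ℤ) by push_cast; ring,
    Ring.choose_natCast, Nat.choose_self, Finset.Nat.sum_antidiagonal_eq_sum_range_succ_mk] at h
  have h' : ((1 : ℕ) : ℤ) = 1 := Nat.cast_one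
  rw [h'] at h
  refine Eq.trans ?_ h.symm
  apply sum_congr rfl
  intro k _
  rw [Ring.choose_neg, show ((i : ℤ) + 1 + (k : ℤ) - 1) = ((i + k : ℕ) : ℤ) by push_cast; ring,
    Ring.choose_natCast, Ring.choose_natCast]
  congr 1

private theorem box {E : Type} [AddCommMonoid E] (N : ℕ) (f : ℕ → ℕ → E)
    (h : ∀ i k, N ≤ i + k → f i k = 0) :
    ∑ m ∈ range N, ∑ k ∈ range (m + 1), f (m - k) k = ∑ i ∈ range N, ∑ k ∈ range N, f i k := by
  rw [sum_sigma', ← sum_product']
  rw [← sum_filter_of_ne (s := range N ×ˢ range N) (p := fun x => x.1 + x.2 < N)]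
  · refine sum_bij' (fun x _ => (x.1 - x.2, x.2)) (fun x _ => ⟨x.1 + x.2, x.2⟩) ?_ ?_ ?_ ?_ ?_
    · rintro ⟨m, k⟩ hx
      simp only [mem_sigma, mem_range, mem_filter, mem_product] at hx ⊢
      omega
    · rintro ⟨m, k⟩ hx
      simp only [mem_sigma, mem_range, mem_filter, mem_product] at hx ⊢
      omega
    · rintro ⟨m, k⟩ hx
      simp only [mem_sigma, mem_range] at hx
      have : m - k + k = m := by omega
      simp [this]
    · rintro ⟨m, k⟩ hx
      simp
    · rintro ⟨m, k⟩ hx
      rfl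
  · rintro ⟨i, k⟩ _ hne
    by_contra hcon
    exact hne (h i k (not_lt.1 hcon))

/-- the coefficient identity for `exp_deriv` -/
private theorem coef (hp : 11 ≤ p) (i j : ℕ) (hij : i + j < 9) :
    ∑ k ∈ range (j + 1), iv p A (i + k + 1) * iv p A (j - k) *
      (((-1 : ℤ) ^ k * ((i + k).choose k : ℤ) : ℤ) : A) = iv p A (i + j + 1) := by
  have hnd : ¬ p ∣ (i + j + 1).factorial := by
    rw [(Fact.out : p.Prime).dvd_factorial]
    omega
  apply nat_cancel p A hnd
  rw [iv_mul p A (by omega), mul_sum]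
  have hc := congrArg (Int.cast : ℤ → A) (choose_sum i j)
  rw [Int.cast_sum, Int.cast_one] at hc
  rw [← hc]
  apply sum_congr rfl
  intro k hk
  have hk' : k ≤ j := Nat.lt_succ_iff.1 (mem_range.1 hk)
  have h1 := iv_mul p A (k := i + k + 1) (by omega)
  have h2 := iv_mul p A (k := j - k) (by omega)
  have h3 : ((i + j + 1).factorial : A) =
      ((i + j + 1).choose (j - k) : A) * ((j - k).factorial : A) * ((i + k + 1).factorial : A) := by
    have := Nat.choose_mul_factorial_mul_factorial (n := i + j + 1) (k := j - k) (by omega)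
    rw [show i + j + 1 - (j - k) = i + k + 1 by omega] at this
    rw [← this]
    push_cast
    ring
  rw [h3]
  push_cast
  calc _ = (((i + k + 1).factorial : A) * iv p A (i + k + 1)) *
        (((j - k).factorial : A) * iv p A (j - k)) *
        ((-1 : A) ^ k * ((i + k).choose k : A) * ((i + j + 1).choose (j - k) : A)) := by ring
    _ = _ := by rw [h1, h2]; ring

/-- The derivative of the exponential: if `L^i M L^j = 0` for `i + j ≥ 9` and `L ^ 10 = 0`, then
`∑_{1 ≤ n ≤ 9} (1/n!) ∑_{i+j=n-1} L^i M L^j = (∑_{m ≤ 8} (1/(m+1)!) (ad L)^m M) exp(L)`.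
(Compare the coefficients of `L^i M L^j` with `adn_eq` and `choose_sum`.) -/
theorem exp_deriv (hp : 11 ≤ p) (L M : B) (hn : ∀ i j, 9 ≤ i + j → L ^ i * M * L ^ j = 0) :
    ∑ n ∈ range 10, iv p A n • ∑ i ∈ range n, L ^ i * M * L ^ (n - 1 - i) =
      (∑ m ∈ range 9, iv p A (m + 1) • adn L M m) * eB (A := A) p L := by
  -- the left side
  have hl : ∑ n ∈ range 10, iv p A n • ∑ i ∈ range n, L ^ i * M * L ^ (n - 1 - i) =
      ∑ i ∈ range 9, ∑ j ∈ range 9, iv p A (i + j + 1) • (L ^ i * M * L ^ j) := by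
    rw [sum_comm, ← box 9 (fun j i => iv p A (i + j + 1) • (L ^ i * M * L ^ j))]
    · rw [sum_range_succ']
      simp only [range_zero, sum_empty, smul_zero, add_zero]
      apply sum_congr rfl
      intro m _
      rw [smul_sum]
      apply sum_congr rfl
      intro k hk
      have hk' := mem_range.1 hk
      rw [show k + (m - k) + 1 = m + 1 by omega, show m + 1 - 1 - k = m - k by omega]
    · intro j i hij
      rw [hn i j (by omega), smul_zero]
  rw [hl]
  -- the right side
  have hr : (∑ m ∈ range 9, iv p A (m + 1) • adn L M m) * eB (A := A) p L =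
      ∑ m ∈ range 9, ∑ k ∈ range (m + 1), ∑ l ∈ range 10,
        (iv p A ((m - k) + k + 1) * iv p A l *
          (((-1 : ℤ) ^ k * (((m - k) + k).choose k : ℤ) : ℤ) : A)) •
          (L ^ (m - k) * M * L ^ (k + l)) := by
    rw [sum_mul]
    apply sum_congr rfl
    intro m _
    rw [adn_eq, smul_sum, sum_mul]
    apply sum_congr rfl
    intro k hk
    have hk' := mem_range.1 hk
    rw [eB, mul_sum]
    apply sum_congr rfl
    intro l _
    rw [show m - k + k = m by omega, ← Int.cast_smul_eq_zsmul A, smul_smul, smul_mul_smul_comm,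
      mul_assoc (L ^ (m - k) * M), ← pow_add]
    congr 1
    push_cast
    ring
  rw [hr, box 9 (fun i k => ∑ l ∈ range 10,
        (iv p A (i + k + 1) * iv p A l * (((-1 : ℤ) ^ k * ((i + k).choose k : ℤ) : ℤ) : A)) •
          (L ^ i * M * L ^ (k + l)))]
  · apply sum_congr rfl
    intro i _
    have hb := box 9 (fun l k =>
        (iv p A (i + k + 1) * iv p A l * (((-1 : ℤ) ^ k * ((i + k).choose k : ℤ) : ℤ) : A)) •
          (L ^ i * M * L ^ (k + l)))
      (by intro l k hlk; rw [hn i (k + l) (by omega), smul_zero])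
    rw [sum_comm] at hb
    have h10 : ∀ k ∈ range 9, ∑ l ∈ range 10,
        (iv p A (i + k + 1) * iv p A l * (((-1 : ℤ) ^ k * ((i + k).choose k : ℤ) : ℤ) : A)) •
          (L ^ i * M * L ^ (k + l)) = ∑ l ∈ range 9,
        (iv p A (i + k + 1) * iv p A l * (((-1 : ℤ) ^ k * ((i + k).choose k : ℤ) : ℤ) : A)) •
          (L ^ i * M * L ^ (k + l)) := by
      intro k _
      rw [sum_range_succ, hn i (k + 9) (by omega), smul_zero, add_zero]
    rw [sum_congr rfl h10, ← hb]
    apply sum_congr rfl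
    intro j _
    by_cases hij : i + j < 9
    · rw [← coef p hp i j hij, sum_smul]
      apply sum_congr rfl
      intro k hk
      have hk' := mem_range.1 hk
      rw [show k + (j - k) = j by omega]
    · rw [hn i j (by omega), smul_zero]
      symm
      apply sum_eq_zero
      intro k hk
      have hk' := mem_range.1 hk
      rw [hn i (k + (j - k)) (by omega), smul_zero]
  · intro i k hik
    apply sum_eq_zero
    intro l _
    rw [hn i (k + l) (by omega), smul_zero]

private theorem unit_of {E : Type} [Ring E] [Algebra A E] (D : E) (hD9 : D ^ 9 = 0) :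
    IsUnit (∑ m ∈ range 9, iv p A (m + 1) • D ^ m) := by
  rw [sum_range_succ']
  rw [zero_add, iv_one, one_smul, pow_zero]
  apply IsNilpotent.isUnit_add_one
  have hfac : ∑ k ∈ range 8, iv p A (k + 1 + 1) • D ^ (k + 1) =
      D * ∑ k ∈ range 8, iv p A (k + 1 + 1) • D ^ k := by
    rw [mul_sum]
    apply sum_congr rfl
    intro k _
    rw [mul_smul_comm, ← pow_succ']
  rw [hfac]
  apply Commute.isNilpotent_mul_right
  · apply Commute.sum_right
    intro k _
    apply Commute.smul_right
    exact Commute.self_pow D k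
  · exact ⟨9, hD9⟩

/-- Let `g` be a submodule closed under commutators such that all products of ten elements vanish.
For `L, z ∈ g` and `τ^2 = 0` there is `M ∈ g` with `(1 + τ z) exp(L) = exp(L + τ M)`.
Proof: by `add_smul_pow` and `exp_deriv` it is enough to find `M` with
`∑_{m ≤ 8} (1/(m+1)!) (ad L)^m M = z`. The left side is `M - N(M)` with `N` nilpotent on `g`
(`N = -∑_{1 ≤ m ≤ 8} (1/(m+1)!) (ad L)^m`, `N^9 = 0` on `g`), so `M = ∑_{k < 9} N^k z`. -/
theorem exp_step (hp : 11 ≤ p) (g : Submodule A B) (hbr : ∀ u ∈ g, ∀ v ∈ g, u * v - v * u ∈ g)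
    (hnil : g ^ 10 = ⊥) {L z : B} (hL : L ∈ g) (hz : z ∈ g) (τ : A) (hτ : τ * τ = 0) :
    ∃ M ∈ g, (1 + τ • z) * eB (A := A) p L = eB (A := A) p (L + τ • M) := by
  have hn : ∀ M ∈ g, ∀ i j, 9 ≤ i + j → L ^ i * M * L ^ j = 0 := by
    intro M hM i j hij
    have h1 : L ^ i * M * L ^ j ∈ g ^ i * g ^ 1 * g ^ j := by
      rw [pow_one]
      exact Submodule.mul_mem_mul (Submodule.mul_mem_mul (Submodule.pow_mem_pow g hL i) hM)
        (Submodule.pow_mem_pow g hL j)
    rw [← pow_add, ← pow_add, show i + 1 + j = 10 + (i + 1 + j - 10) by omega, pow_add, hnil,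
      Submodule.bot_mul, Submodule.mem_bot] at h1
    exact h1
  -- the adjoint operator on `g`
  let D0 : B →ₗ[A] B := LinearMap.mulLeft A L - LinearMap.mulRight A L
  have hD0 : ∀ x ∈ g, D0 x ∈ g := by
    intro x hx
    simpa [D0] using hbr L hL x hx
  let D : Module.End A g := D0.restrict hD0
  have hDadn : ∀ (m : ℕ) (x : g), (((D ^ m) x : g) : B) = adn L (x : B) m := by
    intro m
    induction m with
    | zero => intro x; simp [adn]
    | succ m ih =>
      intro x
      rw [pow_succ', Module.End.mul_apply]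
      have : ((D ((D ^ m) x) : g) : B) = D0 (((D ^ m) x : g) : B) := rfl
      rw [this, ih]
      simp [D0, adn]
  have hD9 : D ^ 9 = 0 := by
    apply LinearMap.ext
    intro x
    apply Subtype.ext
    rw [hDadn, adn_eq]
    simp only [LinearMap.zero_apply, ZeroMemClass.coe_zero]
    apply sum_eq_zero
    intro k hk
    have hk' := mem_range.1 hk
    rw [hn x x.2 _ _ (by omega), smul_zero]
  have hunit : IsUnit (∑ m ∈ range 9, iv p A (m + 1) • D ^ m) := unit_of p D hD9
  obtain ⟨u, hu⟩ := hunit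
  let M : g := ((u⁻¹ : (Module.End A g)ˣ) : Module.End A g) ⟨z, hz⟩
  have hM : (∑ m ∈ range 9, iv p A (m + 1) • D ^ m) M = ⟨z, hz⟩ := by
    rw [← hu]
    change ((u : Module.End A g) * ((u⁻¹ : (Module.End A g)ˣ) : Module.End A g)) ⟨z, hz⟩ = _
    rw [Units.mul_inv]
    rfl
  have hM' : ∑ m ∈ range 9, iv p A (m + 1) • adn L (M : B) m = z := by
    have h := congrArg (Subtype.val) hM
    rw [LinearMap.sum_apply, AddSubmonoidClass.coe_finsetSum] at h
    refine Eq.trans ?_ h
    apply sum_congr rfl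
    intro m _
    rw [LinearMap.smul_apply, Submodule.coe_smul, hDadn]
  refine ⟨M, M.2, ?_⟩
  have h1 : eB (A := A) p (L + τ • (M : B)) = eB (A := A) p L +
      τ • ∑ n ∈ range 10, iv p A n • ∑ i ∈ range n, L ^ i * (M : B) * L ^ (n - 1 - i) := by
    rw [eB, eB, smul_sum, ← sum_add_distrib]
    apply sum_congr rfl
    intro n _
    rw [add_smul_pow τ hτ, smul_add, smul_comm τ]
  rw [h1, exp_deriv p hp L M (hn M M.2), hM', add_mul, one_mul, smul_mul_assoc]

end abstract

end Helper44.BL
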