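import Pool.Agent.Helper44.BL.Lie
import Pool.Agent.Helper44.BL.Defs
import Pool.Agent.Helper44.BL.Iv
import Pool.Agent.Helper44.BL.StepA

/-!
# BL-19: the action of the free Lie algebra on the shuffle algebra
-/

namespace Helper44.BL

open Sh

section induction

variable {K : Type} [CommRing K] {X : Type}

/-- induction on the free Lie algebra (a Lie subalgebra which contains the generators is
everything: lift the generators to it and use `FreeLieAlgebra.hom_ext`) -/
theorem FL_induction (P : FreeLieAlgebra K X → Prop)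
    (of : ∀ x, P (FreeLieAlgebra.of K x)) (zero : P 0) (add : ∀ u v, P u → P v → P (u + v))
    (smul : ∀ (c : K) u, P u → P (c • u)) (lie : ∀ u v, P u → P v → P ⁅u, v⁆)
    (z : FreeLieAlgebra K X) : P z := by
  let S : LieSubalgebra K (FreeLieAlgebra K X) :=
    { carrier := {u | P u}
      add_mem' := fun {u v} hu hv => add u v hu hv
      zero_mem' := zero
      smul_mem' := fun c u hu => smul c u hu
      lie_mem' := fun {u v} hu hv => lie u v hu hv }
  let j : FreeLieAlgebra K X →ₗ⁅K⁆ S :=
    FreeLieAlgebra.lift K (fun x => (⟨FreeLieAlgebra.of K x, of x⟩ : S))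
  have h : S.incl.comp j = LieHom.id := by
    apply FreeLieAlgebra.hom_ext
    intro x
    show ((j (FreeLieAlgebra.of K x) : S) : FreeLieAlgebra K X) = FreeLieAlgebra.of K x
    rw [FreeLieAlgebra.lift_of_apply]
  have h2 : ((j z : S) : FreeLieAlgebra K X) = z := by
    have := congrArg (fun F : FreeLieAlgebra K X →ₗ⁅K⁆ FreeLieAlgebra K X => F z) h
    exact this
  rw [← h2]
  exact (j z).2

end induction

/-- The action of the free Lie algebra over `ZMod p` on `Sh R`, as a bare function with its
properties. -/
structure Act (p : ℕ) (R : Type) [CommRing R] [Algebra (ZMod p) R] where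
  D : FL p → Module.End R (Sh R)
  map_zero : D 0 = 0
  map_add : ∀ u v, D (u + v) = D u + D v
  map_smul : ∀ (c : ZMod p) u, D (c • u) = algebraMap (ZMod p) R c • D u
  map_lie : ∀ u v, D ⁅u, v⁆ = D u * D v - D v * D u
  map_of : ∀ a, D (FreeLieAlgebra.of (ZMod p) a) = d a

/-- from `FreeLieAlgebra.lift`, with the `ZMod p`-algebra structure
`Algebra.compHom _ (algebraMap (ZMod p) R)` on `Module.End R (Sh R)` and the Lie ring structure
`LieRing.ofAssociativeRing` -/
theorem exists_act (p : ℕ) (R : Type) [CommRing R] [Algebra (ZMod p) R] : Nonempty (Act p R) := by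
  let _ : Algebra (ZMod p) (Module.End R (Sh R)) := Algebra.compHom _ (algebraMap (ZMod p) R)
  let _ : LieRing (Module.End R (Sh R)) := LieRing.ofAssociativeRing
  let _ : LieAlgebra (ZMod p) (Module.End R (Sh R)) := LieAlgebra.ofAssociativeAlgebra
  let F : FL p →ₗ⁅ZMod p⁆ Module.End R (Sh R) := FreeLieAlgebra.lift (ZMod p) (fun a => d a)
  exact ⟨{ D := fun u => F u
           map_zero := _root_.map_zero F
           map_add := fun u v => _root_.map_add F u v
           map_smul := fun c u => _root_.map_smul F c u
           map_lie := fun u v => LieHom.map_lie F u v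
           map_of := fun a => FreeLieAlgebra.lift_of_apply _ a }⟩

variable {p : ℕ} [Fact p.Prime] {R : Type} [CommRing R] [Algebra (ZMod p) R]

namespace Act

theorem isLF (A : Act p R) (z : FL p) : IsLF R (A.D z) := by
  refine FL_induction (fun z => IsLF R (A.D z)) ?_ ?_ ?_ ?_ ?_ z
  · intro a
    rw [A.map_of]
    exact IsLF.gen a
  · rw [A.map_zero]
    exact IsLF.zero
  · intro u v hu hv
    rw [A.map_add]
    exact IsLF.add hu hv
  · intro c u hu
    rw [A.map_smul]
    exact IsLF.smul _ hu
  · intro u v hu hv
    rw [A.map_lie]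
    exact IsLF.br hu hv

theorem map_nsmul (A : Act p R) (n : ℕ) (z : FL p) : A.D (n • z) = n • A.D z := by
  induction n with
  | zero => rw [zero_smul, zero_smul, A.map_zero]
  | succ n ih => rw [succ_nsmul, succ_nsmul, A.map_add, ih]

theorem map_ad_pow (A : Act p R) (u v : FL p) (n : ℕ) :
    A.D (((LieAlgebra.ad (ZMod p) (FL p) u) ^ n) v) =
      (fun z => A.D u * z - z * A.D u)^[n] (A.D v) := by
  induction n with
  | zero => rfl
  | succ n ih =>
    rw [pow_succ', Module.End.mul_apply, LieAlgebra.ad_apply, A.map_lie, ih,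
      Function.iterate_succ_apply']

/-- the action as an additive homomorphism -/
def toAdd (A : Act p R) : FL p →+ Module.End R (Sh R) where
  toFun := A.D
  map_zero' := A.map_zero
  map_add' := A.map_add

theorem map_sum' (A : Act p R) {ι : Type} (s : Finset ι) (f : ι → FL p) :
    A.D (∑ i ∈ s, f i) = ∑ i ∈ s, A.D (f i) :=
  _root_.map_sum A.toAdd f s

theorem map_ad_pow' (A : Act p R) (u v : FL p) (n : ℕ) :
    A.D (((LieAlgebra.ad (ZMod p) (FL p) u) ^ n) v) = adn (A.D u) (A.D v) n := by
  rw [A.map_ad_pow]
  induction n with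
  | zero => rfl
  | succ n ih =>
    rw [Function.iterate_succ_apply', ih]
    rfl

end Act

/-- the array of `Defs.lean` in an associative algebra -/
noncomputable def arrE (p : ℕ) [Fact p.Prime] {R B : Type} [CommRing R] [Algebra (ZMod p) R]
    [Ring B] [Algebra R B] (A A' c : B) : ℕ → ℕ → ℕ → B
  | 0, i, j => if i = 0 ∧ j = 0 then c else 0
  | n + 1, i, j => ∑ a ∈ Finset.range (i + 1), ∑ b ∈ Finset.range (j + 1),
      (iv p R a * iv p R b) • adn A' (adn A (arrE p (R := R) A A' c n (i - a) (j - b)) a) b

theorem Act.map_arr (A : Act p R) (n i j : ℕ) :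
    A.D (arr (LieAlgebra.ad (ZMod p) (FL p) (FreeLieAlgebra.of (ZMod p) true))
      (LieAlgebra.ad (ZMod p) (FL p) (FreeLieAlgebra.of (ZMod p) false))
      ⁅FreeLieAlgebra.of (ZMod p) true, FreeLieAlgebra.of (ZMod p) false⁆ n i j) =
    arrE p (R := R) (d true) (d false)
      (d true * d false - d false * d true : Module.End R (Sh R)) n i j := by
  induction n generalizing i j with
  | zero =>
    unfold arr arrE
    split_ifs
    · rw [A.map_lie, A.map_of, A.map_of]
    · exact A.map_zero
  | succ n ih =>
    unfold arr arrE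
    rw [A.map_sum']
    refine Finset.sum_congr rfl fun a _ => ?_
    rw [A.map_sum']
    refine Finset.sum_congr rfl fun b _ => ?_
    rw [A.map_smul, A.map_ad_pow', A.map_ad_pow', A.map_of, A.map_of, ih, _root_.map_mul]
    rfl

theorem Act.map_zet (A : Act p R) (i j : ℕ) : A.D (zet p i j) =
    ∑ n ∈ Finset.range p, arrE p (R := R) (d true) (d false)
      (d true * d false - d false * d true : Module.End R (Sh R)) n i j := by
  unfold zet arrS
  rw [A.map_sum']
  exact Finset.sum_congr rfl fun n _ => A.map_arr n i j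

end Helper44.BL
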