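import Pool.Agent.Helper44.BL.PartB

/-!
# The truncated form of part (B)
-/

namespace Helper44.BL

open Sh Finset Helper44.HU

section fin

variable {R : Type} [CommRing R]

/-- functions supported in bounded length -/
def finS (R : Type) [CommRing R] : Subalgebra R (Sh R) where
  carrier := {g | ∃ n, g ∈ W R (n + 1)}
  mul_mem' := by
    rintro g h ⟨m, hm⟩ ⟨n, hn⟩
    exact ⟨m + n, mul_mem_W hm hn⟩
  add_mem' := by
    rintro g h ⟨m, hm⟩ ⟨n, hn⟩
    exact ⟨max m n, (W R _).add_mem (W_mono (by omega) hm) (W_mono (by omega) hn)⟩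
  algebraMap_mem' := by
    intro r
    refine ⟨0, ?_⟩
    rw [algebraMap_eq]
    exact (W R 1).smul_mem r one_mem_W

private theorem finS_of {n : ℕ} {g : Sh R} (h : g ∈ W R n) : g ∈ finS R :=
  ⟨n, W_mono (by omega) h⟩

private theorem ent_mem_fin (φ : Q R → T4 R) (h0 : φ 0 = 0) :
    ∃ g : T4 (finS R), t4mp (fun x : finS R => (x : Sh R)) g = ent R φ := by
  have h : (ent R φ).e0 ∈ W R 10 ∧ (ent R φ).e1 ∈ W R 10 ∧ (ent R φ).e2 ∈ W R 10 ∧
      (ent R φ).e3 ∈ W R 10 := by
    refine ⟨?_, ?_, ?_, ?_⟩ <;> intro w hw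
    · show (φ (gw R w)).e0 = 0
      rw [gw_eq_zero w (by omega), h0, T4.zero_e0]
    · show (φ (gw R w)).e1 = 0
      rw [gw_eq_zero w (by omega), h0, T4.zero_e1]
    · show (φ (gw R w)).e2 = 0
      rw [gw_eq_zero w (by omega), h0, T4.zero_e2]
    · show (φ (gw R w)).e3 = 0
      rw [gw_eq_zero w (by omega), h0, T4.zero_e3]
  obtain ⟨h1, h2, h3, h4⟩ := h
  exact ⟨⟨⟨_, finS_of h1⟩, ⟨_, finS_of h2⟩, ⟨_, finS_of h3⟩, ⟨_, finS_of h4⟩⟩, rfl⟩

private theorem lift_GM_fin : ∃ g : Q (finS R), qmp (fun x : finS R => (x : Sh R)) g = GM R := by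
  obtain ⟨a, ha⟩ := ent_mem_fin Q.a (Q.zero_a (K := R))
  obtain ⟨b, hb⟩ := ent_mem_fin Q.b (Q.zero_b (K := R))
  obtain ⟨c, hc⟩ := ent_mem_fin Q.c (Q.zero_c (K := R))
  obtain ⟨d, hd⟩ := ent_mem_fin Q.d (Q.zero_d (K := R))
  obtain ⟨e, he⟩ := ent_mem_fin Q.u (Q.zero_u (K := R))
  obtain ⟨f, hf⟩ := ent_mem_fin Q.v (Q.zero_v (K := R))
  obtain ⟨r, hr⟩ := ent_mem_fin Q.r (Q.zero_r (K := R))
  obtain ⟨s, hs⟩ := ent_mem_fin Q.s (Q.zero_s (K := R))
  obtain ⟨x, hx⟩ := ent_mem_fin Q.x (Q.zero_x (K := R))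
  refine ⟨⟨a, b, c, d, e, f, r, s, x⟩, ?_⟩
  exact Q.ext ha hb hc hd he hf hr hs hx

theorem phi_mem_fin (p a b : ℕ) : phi p a b R ∈ finS R := by
  obtain ⟨g, hg⟩ := lift_GM_fin (R := R)
  have h4 : f4 (GM R) ∈ finS R := by
    rw [← hg]; exact f4_mem _ g
  have h6 : f6 (GM R) ∈ finS R := by
    rw [← hg]; exact f6_mem _ g
  have e (n : ℕ) : (OfNat.ofNat (n + 2) : Sh R) ∈ finS R := by
    have h : (OfNat.ofNat (n + 2) : Sh R) = ((n + 2 : ℕ) : Sh R) := rfl
    rw [h]
    exact natCast_mem _ _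
  unfold phi Theta
  have hs := finS_of (sS_mem (R := R))
  have ht := finS_of (tS_mem (R := R))
  refine add_mem (mul_mem (mul_mem (finS_of fxs_mem) (pow_mem h4 _)) (pow_mem h6 _))
    (mul_mem (e 8) ?_)
  refine add_mem (add_mem (add_mem (sub_mem (sub_mem ?_ ?_) ?_) ?_) ?_) ?_
  · exact mul_mem (mul_mem (mul_mem (e 5) (finS_of l01_mem)) (pow_mem hs _)) (pow_mem ht _)
  · exact mul_mem (mul_mem (mul_mem (e 22) (finS_of l11_mem)) (pow_mem hs _)) (pow_mem ht _)
  · exact mul_mem (mul_mem (mul_mem (e 4) (finS_of l02_mem)) (pow_mem hs _)) (pow_mem ht _)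
  · exact mul_mem (mul_mem (mul_mem (e 16) (finS_of l21_mem)) (pow_mem hs _)) (pow_mem ht _)
  · exact mul_mem (mul_mem (mul_mem (e 4) (finS_of l12_mem)) (pow_mem hs _)) (pow_mem ht _)
  · exact mul_mem (mul_mem (mul_mem (e 0) (finS_of l03_mem)) (pow_mem hs _)) (pow_mem ht _)

theorem fp_mem_fin (p a b : ℕ) : ∃ n, fp p a b R ∈ W R n := by
  obtain ⟨n, hn⟩ := phi_mem_fin (R := R) p a b
  refine ⟨n + 2, ?_⟩
  intro w hw
  rcases List.eq_nil_or_concat w with h | ⟨v, c, h⟩
  · subst h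
    simp at hw
  · subst h
    have hlen : n + 1 ≤ v.length := by
      rw [List.length_concat] at hw
      omega
    rw [List.concat_eq_append]
    cases c with
    | true =>
      have h1 := congrArg (fun g : Sh R => g v) (ll_left1_true (phi p a b R))
      exact h1.trans (hn v hlen)
    | false =>
      exact congrArg (fun g : Sh R => g v) (ll_left1_false (phi p a b R))

end fin

variable {p : ℕ} [Fact p.Prime]

/-- the content of part (B): a function in `N0` of bounded length not killed by all `zet` -/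
theorem exists_test (hp : 11 ≤ p) : ∃ (R : Type) (_ : CommRing R) (_ : Algebra (ZMod p) R)
    (A : Act p R) (f : Sh R), f ∈ A.N0 ∧ (∃ n, f ∈ W R n) ∧
      ∃ i < p, ∃ j < p, A.D (zet p i j) f ≠ 0 := by
  have hprime : p.Prime := Fact.out
  obtain ⟨a, b, hab⟩ := exists_ab' hp
  obtain ⟨q, hq⟩ : ∃ q, q = p - 1 := ⟨_, rfl⟩
  obtain ⟨R, hR, hA, τ, hsq, hprod⟩ := exists_dual p (1 + (q + q))
  obtain ⟨A⟩ := exists_act p R
  have hN0 := fp_mem_N0 hp hab A
  refine ⟨R, hR, hA, A, fp p a b R, hN0, fp_mem_fin p a b, ?_⟩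
  by_contra hcon
  have hall : ∀ i < p, ∀ j < p, A.D (zet p i j) (fp p a b R) = 0 := by
    intro i hi j hj
    by_contra h
    exact hcon ⟨i, hi, j, hj, h⟩
  obtain ⟨η, hηdef⟩ : ∃ η, η = τ (Fin.castAdd (q + q) 0) := ⟨_, rfl⟩
  obtain ⟨lx, hlx⟩ : ∃ lx : List R,
      lx = List.ofFn (fun i : Fin q => τ (Fin.natAdd 1 (Fin.castAdd q i))) := ⟨_, rfl⟩
  obtain ⟨ly, hly⟩ : ∃ ly : List R,
      ly = List.ofFn (fun i : Fin q => τ (Fin.natAdd 1 (Fin.natAdd q i))) := ⟨_, rfl⟩
  have hη : η * η = 0 := by rw [hηdef]; exact hsq _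
  have hx : ∀ t ∈ lx, t * t = 0 := by
    intro t ht
    rw [hlx, List.mem_ofFn] at ht
    obtain ⟨i, rfl⟩ := ht
    exact hsq _
  have hy : ∀ t ∈ ly, t * t = 0 := by
    intro t ht
    rw [hly, List.mem_ofFn] at ht
    obtain ⟨i, rfl⟩ := ht
    exact hsq _
  have hxl : lx.length = q := by rw [hlx, List.length_ofFn]
  have hyl : ly.length = q := by rw [hly, List.length_ofFn]
  have hxp : lx.length < p := by omega
  have hyp : ly.length < p := by omega
  have hval := eval_Z hp hab hη hx hy hxp hyp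
  have hzero : ((∑ n ∈ range p, H0 lx ly ^ n * dc R * H0i lx ly ^ n : Module.End R (Sh R))
      (fp p a b R)) = 0 := by
    have h1 : (∑ n ∈ range p, H0 lx ly ^ n * dc R * H0i lx ly ^ n : Module.End R (Sh R)) =
        ∑ i ∈ range p, ∑ j ∈ range p, (lx.sum ^ i * ly.sum ^ j) • A.D (zet p i j) := by
      have h2 : ∀ n ∈ range p, (H0 lx ly ^ n * dc R * H0i lx ly ^ n : Module.End R (Sh R)) =
          ∑ i ∈ range p, ∑ j ∈ range p, (lx.sum ^ i * ly.sum ^ j) •
            arrE p (R := R) (d true) (d false) (dc R) n i j := fun n _ =>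
        conj_pow (p := p) (d true) (d false) (dc R) lx ly hx hy hxp hyp n
      rw [Finset.sum_congr rfl h2, Finset.sum_comm]
      refine Finset.sum_congr rfl fun i _ => ?_
      rw [Finset.sum_comm]
      refine Finset.sum_congr rfl fun j _ => ?_
      rw [A.map_zet, Finset.smul_sum]
      rfl
    rw [h1, LinearMap.sum_apply]
    refine Finset.sum_eq_zero fun i hi => ?_
    rw [LinearMap.sum_apply]
    refine Finset.sum_eq_zero fun j hj => ?_
    rw [LinearMap.smul_apply, hall i (mem_range.1 hi) j (mem_range.1 hj), smul_zero]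
  rw [hzero, Sh.zero_apply, mul_zero, ← hq] at hval
  have hsx := sum_pow_eq lx hx
  have hsy := sum_pow_eq ly hy
  rw [hxl] at hsx
  rw [hyl] at hsy
  rw [hsx, hsy] at hval
  have hpr : ∏ i, τ i = η * (lx.prod * ly.prod) := by
    rw [Fin.prod_univ_add, Fin.prod_univ_add, Fin.prod_univ_one, hlx, hly, List.prod_ofFn,
      List.prod_ofFn, hηdef]
  have hnd : ¬ p ∣ 5 * (q.factorial * q.factorial) := by
    intro h
    rcases (Nat.Prime.dvd_mul hprime).1 h with h | h
    · exact absurd (Nat.le_of_dvd (by norm_num) h) (by omega)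
    · rcases (Nat.Prime.dvd_mul hprime).1 h with h | h <;>
      · rw [Nat.Prime.dvd_factorial hprime] at h
        omega
  apply hprod
  apply nat_cancel p R hnd
  rw [hpr, mul_zero]
  push_cast
  calc (5 : R) * ((q.factorial : R) * (q.factorial : R)) * (η * (lx.prod * ly.prod))
      = 5 * η * ((q.factorial : R) * lx.prod) * ((q.factorial : R) * ly.prod) := by ring
    _ = 0 := hval.symm


section kill

variable {R : Type} [CommRing R] [Algebra (ZMod p) R]

/-- the ideal of elements which kill the functions in `N0` of length `< n` -/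
private def killT (A : Act p R) (n : ℕ) : LieIdeal (ZMod p) (FL p) where
  carrier := {z | ∀ f ∈ A.N0, f ∈ W R n → A.D z f = 0}
  zero_mem' := by
    intro f _ _
    rw [A.map_zero]
    rfl
  add_mem' := by
    intro x y hx hy f hf hn
    rw [A.map_add, LinearMap.add_apply, hx f hf hn, hy f hf hn, add_zero]
  smul_mem' := by
    intro c x hx f hf hn
    rw [A.map_smul, LinearMap.smul_apply, hx f hf hn, smul_zero]
  lie_mem := by
    intro x m hm f hf hn
    rw [A.map_lie, LinearMap.sub_apply, Module.End.mul_apply, Module.End.mul_apply, hm f hf hn,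
      _root_.map_zero, hm _ (A.N0_stable hf x) (W_mono (Nat.sub_le _ _) ((A.isLF x).map_W hn)),
      sub_zero]

/-- the ideal of elements which lower the length by `k + 1` -/
private def lowT (A : Act p R) (k : ℕ) : LieIdeal (ZMod p) (FL p) where
  carrier := {z | ∀ m f, f ∈ W R m → A.D z f ∈ W R (m - (k + 1))}
  zero_mem' := by
    intro m f _
    rw [A.map_zero]
    exact (W R _).zero_mem
  add_mem' := by
    intro x y hx hy m f hf
    rw [A.map_add, LinearMap.add_apply]
    exact (W R _).add_mem (hx m f hf) (hy m f hf)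
  smul_mem' := by
    intro c x hx m f hf
    rw [A.map_smul, LinearMap.smul_apply]
    exact (W R _).smul_mem _ (hx m f hf)
  lie_mem := by
    intro x z hz m f hf
    rw [A.map_lie, LinearMap.sub_apply, Module.End.mul_apply, Module.End.mul_apply]
    exact (W R _).sub_mem (W_mono (by omega) ((A.isLF x).map_W (hz m f hf)))
      (W_mono (by omega) (hz _ _ ((A.isLF x).map_W hf)))

private theorem lcs_le_lowT (A : Act p R) (k : ℕ) :
    LieModule.lowerCentralSeries (ZMod p) (FL p) (FL p) k ≤ lowT A k := by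
  induction k with
  | zero =>
    intro z _ m f hf
    exact (A.isLF z).map_W hf
  | succ k ih =>
    rw [LieModule.lowerCentralSeries_succ, LieSubmodule.lie_le_iff]
    intro x _ z hz m f hf
    have hz' := ih hz
    rw [A.map_lie, LinearMap.sub_apply, Module.End.mul_apply, Module.End.mul_apply]
    exact (W R _).sub_mem (W_mono (by omega) ((A.isLF x).map_W (hz' m f hf)))
      (W_mono (by omega) (hz' _ _ ((A.isLF x).map_W hf)))

end kill

/-- **Part (B), truncated form.** Some `zet p i j` is not in the sum of the Engel ideal and of a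
term of the lower central series. -/
theorem exists_zet_not_mem_lcs (hp : 11 ≤ p) : ∃ i < p, ∃ j < p, ∃ n,
    zet p i j ∉ engel p ⊔ LieModule.lowerCentralSeries (ZMod p) (FL p) (FL p) n := by
  obtain ⟨R, _, _, A, f, hf, ⟨n, hn⟩, i, hi, j, hj, hne⟩ := exists_test hp
  refine ⟨i, hi, j, hj, n, fun hmem => hne ?_⟩
  have h1 : engel p ≤ killT A n := fun z hz g hg _ => A.engel hg hz
  have h2 : LieModule.lowerCentralSeries (ZMod p) (FL p) (FL p) n ≤ killT A n := by
    intro z hz g _ hgn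
    have h := lcs_le_lowT A n hz n g hgn
    rw [Nat.sub_eq_zero_of_le (by omega)] at h
    exact W_zero h
  exact (sup_le h1 h2) hmem f hf hn

end Helper44.BL
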