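import Mathlib

/-!
# BL-18: polarisation over the prime field
-/

namespace Helper44.BL

variable {p : ℕ} [Fact p.Prime] {B M : Type} [Ring B] [AddCommGroup M] [Module B M]

private theorem bl18_sum_pow_zmod (k : ℕ) : ∑ n ∈ Finset.range p, (n : ZMod p) ^ k =
    ∑ x : ZMod p, x ^ k := by
  have : NeZero p := ⟨(Fact.out : p.Prime).ne_zero⟩
  refine Finset.sum_nbij' (fun n => (n : ZMod p)) (fun x => x.val) ?_ ?_ ?_ ?_ ?_
  · intro n _
    exact Finset.mem_univ _
  · intro x _
    exact Finset.mem_range.2 (ZMod.val_lt x)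
  · intro n hn
    exact ZMod.val_cast_of_lt (Finset.mem_range.1 hn)
  · intro x _
    exact ZMod.natCast_zmod_val x
  · intro n _
    rfl

private theorem bl18_sum_pow_pos {k : ℕ} (hk : 0 < k) : ∑ x : ZMod p, x ^ k =
    if p - 1 ∣ k then (-1 : ZMod p) else 0 := by
  classical
  have h1 := FiniteField.sum_pow_units (ZMod p) k
  rw [ZMod.card] at h1
  rw [← h1]
  have h2 : ∑ x : (ZMod p)ˣ, ((x : ZMod p) ^ k) =
      ∑ x ∈ (Finset.univ : Finset (ZMod p)).erase 0, x ^ k := by
    refine Finset.sum_bij (fun x _ => (x : ZMod p)) ?_ ?_ ?_ ?_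
    · intro x _
      simp
    · intro x _ y _ h
      exact Units.ext h
    · intro x hx
      rw [Finset.mem_erase] at hx
      exact ⟨Units.mk0 x hx.1, Finset.mem_univ _, rfl⟩
    · intro x _
      rfl
  rw [h2, ← Finset.add_sum_erase Finset.univ (fun x : ZMod p => x ^ k) (Finset.mem_univ 0)]
  simp [hk.ne']

private theorem bl18_sum_pow {k : ℕ} (hk : k ≤ 2 * p - 2) :
    ∑ n ∈ Finset.range p, (n : ZMod p) ^ k =
    -((if k = p - 1 then 1 else 0) + (if k = 2 * p - 2 then 1 else 0)) := by
  have hp := (Fact.out : p.Prime).two_le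
  rcases Nat.eq_zero_or_pos k with rfl | hk0
  · have e1 : ¬ (0 = p - 1) := by omega
    have e2 : ¬ (0 = 2 * p - 2) := by omega
    rw [if_neg e1, if_neg e2]
    simp
  · rw [bl18_sum_pow_zmod, bl18_sum_pow_pos hk0]
    have h2 : p - 1 ∣ k ↔ k = p - 1 ∨ k = 2 * p - 2 := by
      constructor
      · rintro ⟨c, hc⟩
        have hc3 : c < 3 := by
          by_contra h
          push Not at h
          have : (p - 1) * 3 ≤ (p - 1) * c := Nat.mul_le_mul_left _ h
          omega
        interval_cases c
        · omega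
        · left; omega
        · right; omega
      · rintro (rfl | rfl)
        · exact dvd_rfl
        · exact ⟨2, by omega⟩
    by_cases h3 : k = p - 1
    · have h4 : ¬ (k = 2 * p - 2) := by omega
      rw [if_pos (h2.2 (Or.inl h3)), if_pos h3, if_neg h4]
      simp
    · by_cases h4 : k = 2 * p - 2
      · rw [if_pos (h2.2 (Or.inr h4)), if_neg h3, if_pos h4]
        simp
      · rw [if_neg (by rw [h2]; tauto), if_neg h3, if_neg h4]
        simp

/-- the coefficients of `(U + X V)^n` -/
private def pS (U V : B) : ℕ → ℕ → B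
  | 0, 0 => 1
  | 0, _ + 1 => 0
  | n + 1, 0 => pS U V n 0 * U
  | n + 1, i + 1 => pS U V n (i + 1) * U + pS U V n i * V

private theorem pS_big (U V : B) (n i : ℕ) (h : n < i) : pS U V n i = 0 := by
  induction n generalizing i with
  | zero =>
    obtain ⟨j, rfl⟩ : ∃ j, i = j + 1 := ⟨i - 1, by omega⟩
    rfl
  | succ n ih =>
    obtain ⟨j, rfl⟩ : ∃ j, i = j + 1 := ⟨i - 1, by omega⟩
    rw [pS, ih (j + 1) (by omega), ih j (by omega), zero_mul, zero_mul, add_zero]

private theorem pS_zero (U V : B) (n : ℕ) : pS U V n 0 = U ^ n := by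
  induction n with
  | zero => rw [pow_zero]; rfl
  | succ n ih => rw [pS, ih, pow_succ]

private theorem pS_self (U V : B) (n : ℕ) : pS U V n n = V ^ n := by
  induction n with
  | zero => rw [pow_zero]; rfl
  | succ n ih => rw [pS, ih, pS_big U V n (n + 1) (by omega), zero_mul, zero_add, pow_succ]

private theorem pS_one (U V : B) (n : ℕ) :
    pS U V n 1 = ∑ i ∈ Finset.range n, U ^ i * V * U ^ (n - 1 - i) := by
  induction n with
  | zero => simp [pS]
  | succ n ih =>
    rw [pS, ih, pS_zero, Finset.sum_range_succ, Finset.sum_mul]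
    congr 1
    · apply Finset.sum_congr rfl
      intro i hi
      have hi' := Finset.mem_range.1 hi
      rw [mul_assoc _ (U ^ (n - 1 - i)) U, ← pow_succ]
      congr 2
      omega
    · simp

private theorem pS_expand (U V : B) (l n : ℕ) :
    (U + l • V) ^ n = ∑ i ∈ Finset.range (n + 1), (l ^ i) • pS U V n i := by
  induction n with
  | zero => simp [pS]
  | succ n ih =>
    rw [pow_succ, ih, Finset.sum_mul]
    have h1 : ∀ i, (l ^ i • pS U V n i) * (U + l • V) =
        l ^ i • (pS U V n i * U) + l ^ (i + 1) • (pS U V n i * V) := by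
      intro i
      rw [mul_add, smul_mul_assoc, smul_mul_assoc, mul_smul_comm, smul_smul, pow_succ]
    simp only [h1]
    rw [Finset.sum_add_distrib, Finset.sum_range_succ' (fun i => l ^ i • pS U V (n + 1) i)]
    have h2 : ∑ i ∈ Finset.range (n + 1), l ^ i • (pS U V n i * U) =
        ∑ i ∈ Finset.range (n + 1), l ^ (i + 1) • (pS U V n (i + 1) * U) +
          l ^ 0 • (pS U V n 0 * U) := by
      rw [← Finset.sum_range_succ' (fun i => l ^ i • (pS U V n i * U)),
        Finset.sum_range_succ _ (n + 1), pS_big U V n (n + 1) (by omega), zero_mul, smul_zero,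
        add_zero]
    have h3 : ∀ i, l ^ (i + 1) • pS U V (n + 1) (i + 1) =
        l ^ (i + 1) • (pS U V n (i + 1) * U) + l ^ (i + 1) • (pS U V n i * V) := by
      intro i
      rw [pS, smul_add]
    simp only [h3]
    rw [Finset.sum_add_distrib, h2, pS]
    abel

/-- Polarisation: if `(U + l V)^n` kills `g` for all natural numbers `l`, `1 ≤ n ≤ p`, then so does
the part linear in `V`. Write `(U + l V)^n = ∑_i l^i S_i` (coefficients of `(C U + X C V)^n` in
`B[X]`), `S_1 = ∑_i U^i V U^(n-1-i)`, `S_n = V^n`, and apply `∑_{l < p} l^(p-2) (U + l V)^n`: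
the power sum `∑_{l < p} l^(p-2+i)` is `-1` for `i = 1` and `i = p`, and `0` for the other
`i ≤ n ≤ p` (in `M`, which is killed by `p`). For `n = p` use that `V^p` kills `g`. -/
theorem polar (hM : ∀ m : M, p • m = 0) (U V : B) (n : ℕ) (hn : 1 ≤ n) (hnp : n ≤ p) (g : M)
    (hV : n = p → V ^ p • g = 0) (h : ∀ l : ℕ, (U + l • V) ^ n • g = 0) :
    (∑ i ∈ Finset.range n, U ^ i * V * U ^ (n - 1 - i)) • g = 0 := by
  have hp := (Fact.out : p.Prime).two_le
  let _ : Module (ZMod p) M := AddCommGroup.zmodModule hM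
  have key : ∑ l ∈ Finset.range p, (l ^ (p - 2)) • ((U + l • V) ^ n • g) = 0 :=
    Finset.sum_eq_zero fun l _ => by rw [h l, smul_zero]
  have e1 : ∀ l : ℕ, (l ^ (p - 2)) • ((U + l • V) ^ n • g) =
      ∑ i ∈ Finset.range (n + 1), (l ^ (p - 2 + i)) • (pS U V n i • g) := by
    intro l
    rw [pS_expand, Finset.sum_smul, Finset.smul_sum]
    apply Finset.sum_congr rfl
    intro i _
    rw [smul_assoc, smul_smul, ← pow_add]
  simp only [e1] at key
  rw [Finset.sum_comm] at key
  have e2 : ∀ i ∈ Finset.range (n + 1),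
      ∑ l ∈ Finset.range p, (l ^ (p - 2 + i)) • (pS U V n i • g) =
        -((if i = 1 then pS U V n i • g else 0) + (if i = p then pS U V n i • g else 0)) := by
    intro i hi
    have hi' := Finset.mem_range.1 hi
    have e3 : ∑ l ∈ Finset.range p, (l ^ (p - 2 + i)) • (pS U V n i • g) =
        (∑ l ∈ Finset.range p, (l : ZMod p) ^ (p - 2 + i)) • (pS U V n i • g) := by
      rw [Finset.sum_smul]
      apply Finset.sum_congr rfl
      intro l _
      rw [← Nat.cast_smul_eq_nsmul (ZMod p), Nat.cast_pow]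
    rw [e3, bl18_sum_pow (by omega)]
    have c1 : (p - 2 + i = p - 1) = (i = 1) := by
      apply propext
      constructor <;> intro h <;> omega
    have c2 : (p - 2 + i = 2 * p - 2) = (i = p) := by
      apply propext
      constructor <;> intro h <;> omega
    simp only [c1, c2]
    rw [neg_smul, add_smul]
    split_ifs <;> simp
  rw [Finset.sum_congr rfl e2, Finset.sum_neg_distrib, neg_eq_zero, Finset.sum_add_distrib,
    Finset.sum_ite_eq', Finset.sum_ite_eq', if_pos (Finset.mem_range.2 (by omega)), pS_one] at key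
  have e4 : (if p ∈ Finset.range (n + 1) then pS U V n p • g else 0) = 0 := by
    split_ifs with hmem
    · have : n = p := by
        have := Finset.mem_range.1 hmem
        omega
      subst this
      rw [pS_self]
      exact hV rfl
    · rfl
  rw [e4, add_zero] at key
  exact key

/-- iterated commutators -/
private theorem iter_eq (U V : B) (n : ℕ) : (fun z => U * z - z * U)^[n] V =
    ∑ k ∈ Finset.range (n + 1), ((-1 : ℤ) ^ k * (n.choose k : ℤ)) • (U ^ (n - k) * V * U ^ k) := by
  have h1 : ∀ n, (fun z => U * z - z * U)^[n] V =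
      ((-LinearMap.mulRight ℤ U + LinearMap.mulLeft ℤ U) ^ n) V := by
    intro n
    induction n with
    | zero => simp
    | succ n ih =>
      rw [pow_succ', Module.End.mul_apply, ← ih, Function.iterate_succ_apply']
      simp only [LinearMap.add_apply, LinearMap.neg_apply, LinearMap.mulRight_apply,
        LinearMap.mulLeft_apply]
      abel
  have hc : Commute (-LinearMap.mulRight ℤ U) (LinearMap.mulLeft ℤ U) := by
    apply Commute.neg_left
    apply LinearMap.ext
    intro x
    simp [Module.End.mul_apply, mul_assoc]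
  rw [h1, hc.add_pow, LinearMap.sum_apply]
  apply Finset.sum_congr rfl
  intro k hk
  have h2 : ((-LinearMap.mulRight ℤ U : Module.End ℤ B) ^ k) =
      (-1 : ℤ) ^ k • LinearMap.mulRight ℤ (U ^ k) := by
    rw [← LinearMap.pow_mulRight, neg_pow, zsmul_eq_mul]
    simp
  rw [h2, LinearMap.pow_mulLeft]
  have h3 : ((n.choose k : ℕ) : Module.End ℤ B) V = (n.choose k : ℤ) • V := by
    simp
  rw [Module.End.mul_apply, Module.End.mul_apply, h3]
  simp only [map_smul, LinearMap.mulLeft_apply, LinearMap.smul_apply, LinearMap.mulRight_apply]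
  rw [smul_smul, mul_comm ((n.choose k : ℕ) : ℤ)]

/-- `(-1)^k C(p-1, k) = 1` modulo `p` -/
private theorem choose_pred (k : ℕ) (hk : k < p) :
    (p : ℤ) ∣ (-1 : ℤ) ^ k * ((p - 1).choose k : ℤ) - 1 := by
  have hp := (Fact.out : p.Prime)
  have hp2 := hp.two_le
  induction k with
  | zero => simp
  | succ k ih =>
    obtain ⟨c, hc⟩ := ih (by omega)
    have h1 : p ∣ p.choose (k + 1) := hp.dvd_choose_self (by omega) hk
    have h2 : p.choose (k + 1) = (p - 1).choose k + (p - 1).choose (k + 1) := by
      obtain ⟨q, rfl⟩ : ∃ q, p = q + 1 := ⟨p - 1, by omega⟩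
      rw [Nat.choose_succ_succ]
      rfl
    obtain ⟨d, hd⟩ := h1
    have h3 : ((p - 1).choose (k + 1) : ℤ) = p * d - ((p - 1).choose k : ℤ) := by
      have : ((p.choose (k + 1) : ℕ) : ℤ) = ((p * d : ℕ) : ℤ) := by rw [hd]
      rw [h2] at this
      push_cast at this
      linarith
    refine ⟨c + (-1) ^ (k + 1) * d, ?_⟩
    rw [h3]
    have h4 : (-1 : ℤ) ^ (k + 1) = -(-1) ^ k := by rw [pow_succ]; ring
    rw [h4]
    linear_combination hc

/-- `(ad U)^(p-1) V = ∑_{i < p} U^i V U^(p-1-i)` in characteristic `p`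
(`(-1)^i C(p-1, i) = 1` modulo `p`). -/
theorem ad_pow_pred (hB : ∀ b : B, p • b = 0) (U V : B) :
    (fun z => U * z - z * U)^[p - 1] V = ∑ i ∈ Finset.range p, U ^ i * V * U ^ (p - 1 - i) := by
  have hp2 := (Fact.out : p.Prime).two_le
  rw [iter_eq, show p - 1 + 1 = p by omega, ← Finset.sum_range_reflect]
  apply Finset.sum_congr rfl
  intro i hi
  have hi' := Finset.mem_range.1 hi
  obtain ⟨c, hc⟩ := choose_pred (p := p) (p - 1 - i) (by omega)
  have e : (-1 : ℤ) ^ (p - 1 - i) * ((p - 1).choose (p - 1 - i) : ℤ) = 1 + c * (p : ℤ) := by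
    linarith
  have e' : p - 1 - (p - 1 - i) = i := by omega
  rw [e, e', add_smul, one_smul, mul_smul]
  have : ((p : ℤ) • (U ^ i * V * U ^ (p - 1 - i)) : B) = 0 := by
    rw [natCast_zsmul]
    exact hB _
  rw [this, smul_zero, add_zero]

/-- `U^n V = V U^n + ∑_{i < n} U^i [U, V] U^(n-1-i)` -/
theorem pow_mul_comm_sum (U V : B) (n : ℕ) :
    U ^ n * V = V * U ^ n + ∑ i ∈ Finset.range n, U ^ i * (U * V - V * U) * U ^ (n - 1 - i) := by
  induction n with
  | zero => simp
  | succ n ih =>
    have h1 : ∑ i ∈ Finset.range (n + 1), U ^ i * (U * V - V * U) * U ^ (n + 1 - 1 - i) =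
        (U * V - V * U) * U ^ n +
          U * ∑ i ∈ Finset.range n, U ^ i * (U * V - V * U) * U ^ (n - 1 - i) := by
      rw [Finset.sum_range_succ', add_comm, Finset.mul_sum]
      congr 1
      · simp
      · apply Finset.sum_congr rfl
        intro i hi
        have hi' := Finset.mem_range.1 hi
        rw [show n + 1 - 1 - (i + 1) = n - 1 - i by omega, pow_succ']
        simp only [mul_assoc]
    rw [h1, pow_succ', mul_assoc, ih]
    have h2 : ∀ S : B, U * (V * U ^ n + S) = V * (U * U ^ n) + ((U * V - V * U) * U ^ n + U * S) := by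
      intro S
      rw [sub_mul, mul_add]
      simp only [mul_assoc]
      abel
    exact h2 _

end Helper44.BL
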