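import Pool.Agent.Helper44.BL.Act
import Pool.Agent.Helper44.BL.Polar

/-!
# BL-20: functions killed by the Engel ideal
-/

namespace Helper44.BL

open Sh

variable {p : ℕ} [Fact p.Prime] {R : Type} [CommRing R] [Algebra (ZMod p) R]

namespace Act

private theorem nsmul_sh (m : Sh R) : p • m = 0 := by
  apply Sh.ext'
  intro w
  show p • m w = 0
  rw [nsmul_eq_mul, natCast_p (p := p), zero_mul]

private theorem nsmul_end (b : Module.End R (Sh R)) : p • b = 0 := by
  apply LinearMap.ext
  intro m
  rw [LinearMap.smul_apply, LinearMap.zero_apply]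
  exact nsmul_sh (b m)

private theorem ll_algebraMap (a : Bool) (r : R) : ll a (algebraMap R (Sh R) r) = 0 := by
  rw [algebraMap_eq]
  apply Sh.ext'
  intro w
  rw [ll_smul, Sh.smul_apply, ll_apply, Sh.zero_apply]
  cases w with
  | nil => rw [List.nil_append, one_cons, mul_zero]
  | cons b w => rw [List.cons_append, one_cons, mul_zero]

private theorem pow_map_ll {u : Module.End R (Sh R)} (hu : IsLF R u) (a : Bool) (n : ℕ) (g : Sh R) :
    ll a ((u ^ n) g) = (u ^ n) (ll a g) := by
  induction n generalizing g with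
  | zero => rfl
  | succ n ih => rw [pow_succ, Module.End.mul_apply, Module.End.mul_apply, ih, hu.map_ll]

/-- the functions killed by all `(D z)^(p-1)` -/
def M0 (A : Act p R) : Set (Sh R) := {g | ∀ z, ((A.D z) ^ (p - 1)) g = 0}

/-- `U^(p-1) V g = V U^(p-1) g + ∑ U^i [U, V] U^(p-2-i) g` (`pow_mul_comm_sum`), and the sum
vanishes by `polar` with `n = p - 1`, `U + l [U, V] = D (z + l [z, v])`. -/
theorem M0_stable (A : Act p R) {g : Sh R} (hg : g ∈ A.M0) (v : FL p) : A.D v g ∈ A.M0 := by
  intro z
  have hp2 : 2 ≤ p := (Fact.out : p.Prime).two_le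
  have h1 : ((A.D z) ^ (p - 1) * A.D v) g = 0 := by
    rw [pow_mul_comm_sum, LinearMap.add_apply, Module.End.mul_apply, hg z, _root_.map_zero, zero_add,
      ← A.map_lie]
    refine polar (p := p) (B := Module.End R (Sh R)) (M := Sh R) nsmul_sh (A.D z)
      (A.D ⁅z, v⁆) (p - 1) (by omega) (by omega) g (fun h => by omega) (fun l => ?_)
    rw [← A.map_nsmul, ← A.map_add]
    exact hg _
  exact h1

/-- functions both of whose left removals are in `M0` -/
def N0 (A : Act p R) : Set (Sh R) := {f | ∀ a, ll a f ∈ A.M0}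

theorem N0_stable (A : Act p R) {f : Sh R} (hf : f ∈ A.N0) (v : FL p) : A.D v f ∈ A.N0 := by
  intro a
  rw [(A.isLF v).map_ll]
  exact A.M0_stable (hf a) v

/-- a function with vanishing left removals is constant, so it is killed by `D z` -/
theorem D_eq_zero (A : Act p R) {g : Sh R} (hg : ∀ a, ll a g = 0) (z : FL p) : A.D z g = 0 := by
  have h : g = algebraMap R (Sh R) (g []) := by
    apply ext_ll
    · rw [algebraMap_nil]
    · intro a
      rw [hg, ll_algebraMap]
  rw [h]
  exact (A.isLF z).map_const _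

/-- `(D z)^p f = D z ((D z)^(p-1) f)` and the left removals of `(D z)^(p-1) f` vanish -/
theorem pow_p_N0 (A : Act p R) {f : Sh R} (hf : f ∈ A.N0) (z : FL p) : ((A.D z) ^ p) f = 0 := by
  have hp2 : 2 ≤ p := (Fact.out : p.Prime).two_le
  have h : (A.D z) ^ p = A.D z * (A.D z) ^ (p - 1) := by
    rw [← pow_succ']
    congr 1
    omega
  rw [h, Module.End.mul_apply]
  apply A.D_eq_zero
  intro a
  rw [pow_map_ll (A.isLF z)]
  exact hf a z

/-- the generators of the Engel ideal kill `N0`: `polar` with `n = p`, `ad_pow_pred` -/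
theorem engel_gen (A : Act p R) {f : Sh R} (hf : f ∈ A.N0) (u v : FL p) :
    A.D (((LieAlgebra.ad (ZMod p) (FL p) u) ^ (p - 1)) v) f = 0 := by
  rw [A.map_ad_pow, ad_pow_pred nsmul_end]
  refine polar (p := p) (B := Module.End R (Sh R)) (M := Sh R) nsmul_sh (A.D u)
    (A.D v) p (Fact.out : p.Prime).one_le le_rfl f (fun _ => A.pow_p_N0 hf v) (fun l => ?_)
  rw [← A.map_nsmul, ← A.map_add]
  exact A.pow_p_N0 hf _

/-- the ideal of elements which kill `N0` -/
private def killIdeal (A : Act p R) : LieIdeal (ZMod p) (FL p) where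
  carrier := {z | ∀ f ∈ A.N0, A.D z f = 0}
  zero_mem' := by
    intro f _
    rw [A.map_zero]
    rfl
  add_mem' := by
    intro x y hx hy f hf
    rw [A.map_add, LinearMap.add_apply, hx f hf, hy f hf, add_zero]
  smul_mem' := by
    intro c x hx f hf
    rw [A.map_smul, LinearMap.smul_apply, hx f hf, smul_zero]
  lie_mem := by
    intro x m hm f hf
    rw [A.map_lie, LinearMap.sub_apply, Module.End.mul_apply, Module.End.mul_apply, hm f hf,
      _root_.map_zero, hm _ (A.N0_stable hf x), sub_zero]

/-- The elements of the free Lie algebra which kill `N0` form an ideal. -/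
theorem engel (A : Act p R) {f : Sh R} (hf : f ∈ A.N0) {z : FL p} (hz : z ∈ engel p) :
    A.D z f = 0 := by
  have h : Helper44.BL.engel p ≤ A.killIdeal := by
    unfold Helper44.BL.engel
    rw [LieSubmodule.lieSpan_le]
    rintro w ⟨u, v, rfl⟩ g hg
    exact A.engel_gen hg u v
  exact h hz f hf

end Act

end Helper44.BL
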