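import Mathlib

/-!
# BL-21: algebras with many elements of square zero
-/

namespace Helper44.BL

/-- There is a commutative `ZMod p`-algebra with `m` elements of square zero whose product is not
zero. (Induction on `m`: `ZMod p` and iterated dual numbers `DualNumber`.) -/
theorem exists_dual (p : ℕ) [Fact p.Prime] (m : ℕ) :
    ∃ (R : Type) (_ : CommRing R) (_ : Algebra (ZMod p) R) (τ : Fin m → R),
      (∀ i, τ i * τ i = 0) ∧ ∏ i, τ i ≠ 0 := by
  induction m with
  | zero =>
    exact ⟨ZMod p, inferInstance, inferInstance, Fin.elim0, fun i => i.elim0, by simp⟩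
  | succ m ih =>
    obtain ⟨R, hR, hA, τ, h1, h2⟩ := ih
    let f : R →+* TrivSqZeroExt R R := TrivSqZeroExt.inlHom R R
    refine ⟨TrivSqZeroExt R R, inferInstance, inferInstance,
      Fin.cons (TrivSqZeroExt.inr 1) (fun i => f (τ i)), ?_, ?_⟩
    · intro i
      refine Fin.cases ?_ (fun j => ?_) i
      · rw [Fin.cons_zero, TrivSqZeroExt.inr_mul_inr]
      · rw [Fin.cons_succ, ← map_mul, h1, map_zero]
    · rw [Fin.prod_univ_succ, Fin.cons_zero]
      simp only [Fin.cons_succ]
      rw [← map_prod]
      intro h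
      apply h2
      have h3 := congrArg TrivSqZeroExt.snd h
      have h4 : (f (∏ i, τ i)).fst = ∏ i, τ i := rfl
      rw [TrivSqZeroExt.snd_mul, TrivSqZeroExt.snd_zero, TrivSqZeroExt.fst_inr, zero_smul, zero_add,
        TrivSqZeroExt.snd_inr, h4, op_smul_eq_mul, one_mul] at h3
      exact h3

section

variable {R : Type} [CommRing R]

private theorem add_pow_sq (t s : R) (ht : t * t = 0) (k : ℕ) :
    (t + s) ^ (k + 1) = s ^ (k + 1) + (k + 1 : ℕ) * t * s ^ k := by
  induction k with
  | zero => simp; ring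
  | succ k ih =>
    rw [pow_succ, ih]
    have h : (s ^ (k + 1) + ((k + 1 : ℕ) : R) * t * s ^ k) * (t + s) =
        s ^ (k + 1 + 1) + ((k + 1 + 1 : ℕ) : R) * t * s ^ (k + 1) +
          ((k + 1 : ℕ) : R) * s ^ k * (t * t) := by
      push_cast
      ring
    rw [h, ht, mul_zero, add_zero]

private theorem sum_pow_zero_aux (l : List R) :
    (∀ τ ∈ l, τ * τ = 0) → ∀ k : ℕ, l.length < k → l.sum ^ k = 0 := by
  induction l with
  | nil =>
    intro _ k hk
    rw [List.sum_nil]
    exact zero_pow (by simp at hk; omega)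
  | cons t l ih =>
    intro hl k hk
    rw [List.length_cons] at hk
    obtain ⟨k, rfl⟩ : ∃ j, k = j + 1 := ⟨k - 1, by omega⟩
    have h1 := ih (fun τ h => hl τ (List.mem_cons_of_mem _ h))
    rw [List.sum_cons, add_pow_sq t l.sum (hl t (List.mem_cons_self)) k, h1 (k + 1) (by omega),
      h1 k (by omega)]
    simp

/-- elements of square zero: `(∑ τ)^k = k! e_k`, in particular `(∑ τ)^m = m! ∏ τ` for `m` elements -/
theorem sum_pow_eq (l : List R) (hl : ∀ τ ∈ l, τ * τ = 0) :
    l.sum ^ l.length = (l.length.factorial : R) * l.prod := by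
  induction l with
  | nil => simp
  | cons t l ih =>
    have h0 : ∀ τ ∈ l, τ * τ = 0 := fun τ h => hl τ (List.mem_cons_of_mem _ h)
    rw [List.sum_cons, List.length_cons, add_pow_sq t l.sum (hl t (List.mem_cons_self)),
      sum_pow_zero_aux l h0 (l.length + 1) (by omega), ih h0, List.prod_cons, Nat.factorial_succ]
    push_cast
    ring

/-- the power of the sum vanishes beyond the number of elements -/
theorem sum_pow_zero (l : List R) (hl : ∀ τ ∈ l, τ * τ = 0) {k : ℕ} (hk : l.length < k) :
    l.sum ^ k = 0 :=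
  sum_pow_zero_aux l hl k hk

end

end Helper44.BL
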