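import Pool.Agent.Helper44.BL.Act
import Pool.Agent.Helper44.BL.Dual

/-!
# BL-22: conjugation with products of `1 + τ A` and the array `arrE`
-/

namespace Helper44.BL

open Finset

variable {p : ℕ} [Fact p.Prime] {R B : Type} [CommRing R] [Algebra (ZMod p) R] [Ring B]
  [Algebra R B]

/-- `∏ (1 + τ A)` over a list -/
def lprod (A : B) (l : List R) : B := (l.map fun τ => 1 + τ • A).prod

private theorem lprod_nil (A : B) : lprod A ([] : List R) = 1 := rfl

private theorem lprod_cons (A : B) (τ : R) (l : List R) :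
    lprod A (τ :: l) = (1 + τ • A) * lprod A l := by
  rw [lprod, List.map_cons, List.prod_cons]
  rfl

private theorem one_add_comm (A : B) (τ : R) (l : List R) :
    Commute (1 + τ • A) (lprod A l) := by
  apply Commute.list_prod_right
  intro x hx
  obtain ⟨σ, -, rfl⟩ := List.mem_map.mp hx
  refine Commute.add_left (Commute.one_left _) (Commute.add_right (Commute.one_right _) ?_)
  exact (Commute.refl A).smul_left τ |>.smul_right σ

private theorem one_add_mul (A : B) (τ : R) (hτ : τ * τ = 0) :
    (1 + τ • A) * (1 + (-τ) • A) = 1 := by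
  rw [add_mul, mul_add, mul_add, one_mul, one_mul, mul_one, smul_mul_smul_comm, mul_neg, hτ,
    neg_zero, zero_smul, add_zero, neg_smul]
  abel

/-- the factors commute -/
theorem lprod_inv (A : B) (l : List R) (hl : ∀ τ ∈ l, τ * τ = 0) :
    lprod A l * lprod A (l.map fun τ => -τ) = 1 ∧ lprod A (l.map fun τ => -τ) * lprod A l = 1 := by
  induction l with
  | nil => simp [lprod]
  | cons τ l ih =>
    obtain ⟨h1, h2⟩ := ih fun σ hσ => hl σ (List.mem_cons_of_mem _ hσ)
    have hτ := hl τ List.mem_cons_self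
    have hτ' : (-τ) * (-τ) = 0 := by rw [neg_mul_neg, hτ]
    have e1 := one_add_mul A τ hτ
    have e2 := one_add_mul A (-τ) hτ'
    rw [neg_neg] at e2
    rw [List.map_cons, lprod_cons, lprod_cons]
    constructor
    · calc (1 + τ • A) * lprod A l * ((1 + (-τ) • A) * lprod A (l.map fun τ => -τ))
          = (1 + τ • A) * (lprod A l * (1 + (-τ) • A)) * lprod A (l.map fun τ => -τ) := by
            simp only [mul_assoc]
        _ = (1 + τ • A) * (1 + (-τ) • A) * (lprod A l * lprod A (l.map fun τ => -τ)) := by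
            rw [← (one_add_comm A (-τ) l).eq]
            simp only [mul_assoc]
        _ = 1 := by rw [e1, h1, one_mul]
    · calc (1 + (-τ) • A) * lprod A (l.map fun τ => -τ) * ((1 + τ • A) * lprod A l)
          = (1 + (-τ) • A) * (lprod A (l.map fun τ => -τ) * (1 + τ • A)) * lprod A l := by
            simp only [mul_assoc]
        _ = (1 + (-τ) • A) * (1 + τ • A) * (lprod A (l.map fun τ => -τ) * lprod A l) := by
            rw [← (one_add_comm A τ (l.map fun τ => -τ)).eq]
            simp only [mul_assoc]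
        _ = 1 := by rw [e2, h2, one_mul]

private theorem conj_one (A w : B) (τ : R) (hτ : τ * τ = 0) :
    (1 + τ • A) * w * (1 + (-τ) • A) = w + τ • (A * w - w * A) := by
  have h : (τ • A) * w * ((-τ) • A) = 0 := by
    rw [smul_mul_assoc, smul_mul_smul_comm, mul_neg, hτ, neg_zero, zero_smul]
  have e : (1 + τ • A) * w * (1 + (-τ) • A) =
      w + ((τ • A) * w + w * ((-τ) • A)) + (τ • A) * w * ((-τ) • A) := by
    rw [add_mul, one_mul, mul_add, mul_one, add_mul]
    abel
  rw [e, h, add_zero, smul_mul_assoc, mul_smul_comm, neg_smul, smul_sub, sub_eq_add_neg]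

/-- `∏ (1 + τ A) z ∏ (1 - τ A) = ∑_{a < p} (α^a / a!) (ad A)^a z` with `α = ∑ τ`, for a list of
less than `p` elements of square zero (induction: `(1 + τ A) z (1 - τ A) = z + τ [A, z]`, the
factors commute with each other) -/
theorem lprod_conj (A z : B) (l : List R) (hl : ∀ τ ∈ l, τ * τ = 0) (hp : l.length < p) :
    lprod A l * z * lprod A (l.map fun τ => -τ) =
      ∑ a ∈ range p, (l.sum ^ a * iv p R a) • adn A z a := by
  have hp0 := (Fact.out : p.Prime).two_le
  induction l with
  | nil =>
    obtain ⟨q, hq⟩ : ∃ q, p = q + 1 := ⟨p - 1, by omega⟩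
    have h0 : ∀ a ∈ range p, a ≠ 0 → ((([] : List R).sum ^ a * iv p R a) • adn A z a) = 0 := by
      intro a _ ha
      rw [List.sum_nil, zero_pow ha, zero_mul, zero_smul]
    rw [Finset.sum_eq_single 0 h0 (fun h => absurd (mem_range.2 (by omega)) h), List.map_nil,
      lprod_nil, one_mul, mul_one, pow_zero, iv_zero, mul_one, one_smul]
    rfl
  | cons τ l ih =>
    rw [List.length_cons] at hp
    have hl' : ∀ σ ∈ l, σ * σ = 0 := fun σ hσ => hl σ (List.mem_cons_of_mem _ hσ)
    have hτ := hl τ List.mem_cons_self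
    have ih' := ih hl' (by omega)
    have e1 : lprod A (τ :: l) * z * lprod A ((τ :: l).map fun τ => -τ) =
        (1 + τ • A) * (lprod A l * z * lprod A (l.map fun τ => -τ)) * (1 + (-τ) • A) := by
      rw [List.map_cons, lprod_cons, lprod_cons, (one_add_comm A (-τ) _).eq]
      simp only [mul_assoc]
    rw [e1, ih', conj_one _ _ _ hτ]
    obtain ⟨q, hq⟩ : ∃ q, p = q + 1 := ⟨p - 1, by omega⟩
    have hσ : l.sum ^ q = 0 := sum_pow_zero l hl' (by omega)
    set σ := l.sum with hσdef
    have e2 : A * (∑ a ∈ range p, (σ ^ a * iv p R a) • adn A z a) -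
        (∑ a ∈ range p, (σ ^ a * iv p R a) • adn A z a) * A =
        ∑ a ∈ range p, (σ ^ a * iv p R a) • adn A z (a + 1) := by
      rw [mul_sum, sum_mul, ← sum_sub_distrib]
      apply sum_congr rfl
      intro a _
      rw [mul_smul_comm, smul_mul_assoc, ← smul_sub]
      rfl
    have e3 : τ • ∑ a ∈ range p, (σ ^ a * iv p R a) • adn A z (a + 1) =
        ∑ a ∈ range q, (τ * σ ^ a * iv p R a) • adn A z (a + 1) := by
      have hr : range p = range (q + 1) := by rw [hq]
      rw [hr, sum_range_succ, smul_add, smul_sum, hσ, zero_mul, zero_smul, smul_zero, add_zero]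
      apply sum_congr rfl
      intro a _
      rw [smul_smul, mul_assoc]
    have e4 : ∀ a, (τ + σ) ^ (a + 1) = σ ^ (a + 1) + ((a + 1 : ℕ) : R) * (τ * σ ^ a) := by
      intro a
      induction a with
      | zero => simp [add_comm]
      | succ a iha =>
        rw [pow_succ, iha]
        have h2 : τ * τ = 0 := hτ
        push_cast
        have : (σ ^ (a + 1) + ((a : R) + 1) * (τ * σ ^ a)) * (τ + σ) =
          σ ^ (a + 1 + 1) + ((a : R) + 1 + 1) * (τ * σ ^ (a + 1)) +
            ((a : R) + 1) * (τ * τ) * σ ^ a := by ring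
        rw [this, h2]
        ring
    rw [e2, e3, List.sum_cons, ← hσdef]
    have hr : range p = range (q + 1) := by rw [hq]
    rw [hr, sum_range_succ', sum_range_succ']
    simp only [pow_zero]
    have e5 : ∀ a ∈ range q, ((τ + σ) ^ (a + 1) * iv p R (a + 1)) • adn A z (a + 1) =
        (σ ^ (a + 1) * iv p R (a + 1)) • adn A z (a + 1) +
          (τ * σ ^ a * iv p R a) • adn A z (a + 1) := by
      intro a ha
      have ha' := mem_range.1 ha
      rw [e4, ← iv_succ p R (k := a) (by omega), ← add_smul]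
      congr 1
      ring
    rw [sum_congr rfl e5, sum_add_distrib]
    abel

private theorem box' {E : Type} [AddCommMonoid E] (N : ℕ) (f : ℕ → ℕ → E)
    (h : ∀ i k, N ≤ i + k → f i k = 0) :
    ∑ m ∈ range N, ∑ k ∈ range (m + 1), f (m - k) k = ∑ i ∈ range N, ∑ k ∈ range N, f i k := by
  rw [sum_sigma', ← sum_product']
  rw [← sum_filter_of_ne (s := range N ×ˢ range N) (p := fun x => x.1 + x.2 < N)]
  · refine sum_bij' (fun x _ => (x.1 - x.2, x.2)) (fun x _ => ⟨x.1 + x.2, x.2⟩) ?_ ?_ ?_ ?_ ?_
    · rintro ⟨m, k⟩ hx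
      simp only [mem_sigma, mem_range, mem_filter, mem_product] at hx ⊢
      omega
    · rintro ⟨m, k⟩ hx
      simp only [mem_sigma, mem_range, mem_filter, mem_product] at hx ⊢
      omega
    · rintro ⟨m, k⟩ hx
      simp only [mem_sigma, mem_range] at hx
      have : m - k + k = m := by omega
      simp [this]
    · rintro ⟨m, k⟩ hx
      simp
    · rintro ⟨m, k⟩ hx
      rfl
  · rintro ⟨i, k⟩ _ hne
    by_contra hcon
    exact hne (h i k (not_lt.1 hcon))

private theorem conv {R B : Type} [CommRing R] [Ring B] [Algebra R B] (p : ℕ) (α : R)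
    (hα : ∀ k, p ≤ k → α ^ k = 0) (f : ℕ → ℕ → B) :
    ∑ i ∈ range p, ∑ a ∈ range p, α ^ (i + a) • f i a =
      ∑ i ∈ range p, α ^ i • ∑ a ∈ range (i + 1), f (i - a) a := by
  rw [← box' p (fun i a => α ^ (i + a) • f i a)
    (fun i k h => by rw [hα _ h, zero_smul])]
  apply sum_congr rfl
  intro i _
  rw [smul_sum]
  apply sum_congr rfl
  intro a ha
  have ha' := mem_range.1 ha
  rw [show i - a + a = i by omega]

/-- `(∏ (1 + τ A') ∏ (1 + τ A))^n c (...)^(-n) = ∑_{i, j < p} α^i β^j arrE n i j` -/
theorem conj_pow (A A' c : B) (lx ly : List R) (hx : ∀ τ ∈ lx, τ * τ = 0)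
    (hy : ∀ τ ∈ ly, τ * τ = 0) (hxp : lx.length < p) (hyp : ly.length < p) (n : ℕ) :
    (lprod A' ly * lprod A lx) ^ n * c *
      (lprod A (lx.map fun τ => -τ) * lprod A' (ly.map fun τ => -τ)) ^ n =
      ∑ i ∈ range p, ∑ j ∈ range p, (lx.sum ^ i * ly.sum ^ j) •
        arrE p (R := R) A A' c n i j := by
  have hp0 := (Fact.out : p.Prime).two_le
  induction n with
  | zero =>
    have h0 : ∀ i ∈ range p, i ≠ 0 → ∑ j ∈ range p, (lx.sum ^ i * ly.sum ^ j) •
        arrE p (R := R) A A' c 0 i j = 0 := by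
      intro i _ hi
      apply sum_eq_zero
      intro j _
      rw [arrE, if_neg (fun h => hi h.1), smul_zero]
    have h1 : ∀ j ∈ range p, j ≠ 0 → (lx.sum ^ 0 * ly.sum ^ j) •
        arrE p (R := R) A A' c 0 0 j = 0 := by
      intro j _ hj
      rw [arrE, if_neg (fun h => hj h.2), smul_zero]
    rw [sum_eq_single 0 h0 (fun h => absurd (mem_range.2 (by omega)) h),
      sum_eq_single 0 h1 (fun h => absurd (mem_range.2 (by omega)) h)]
    simp [arrE]
  | succ n ih =>
    set α := lx.sum with hα
    set β := ly.sum with hβ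
    have hα0 : ∀ k, p ≤ k → α ^ k = 0 := fun k hk => sum_pow_zero lx hx (by omega)
    have hβ0 : ∀ k, p ≤ k → β ^ k = 0 := fun k hk => sum_pow_zero ly hy (by omega)
    have e1 : (lprod A' ly * lprod A lx) ^ (n + 1) * c *
        (lprod A (lx.map fun τ => -τ) * lprod A' (ly.map fun τ => -τ)) ^ (n + 1) =
        lprod A' ly * (lprod A lx * ((lprod A' ly * lprod A lx) ^ n * c *
          (lprod A (lx.map fun τ => -τ) * lprod A' (ly.map fun τ => -τ)) ^ n) *
          lprod A (lx.map fun τ => -τ)) * lprod A' (ly.map fun τ => -τ) := by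
      rw [pow_succ' (lprod A' ly * lprod A lx), pow_succ (lprod A (lx.map fun τ => -τ) * _)]
      simp only [mul_assoc]
    have e2 : ∀ w : ℕ → ℕ → B, lprod A lx * (∑ i ∈ range p, ∑ j ∈ range p, (α ^ i * β ^ j) •
        w i j) * lprod A (lx.map fun τ => -τ) = ∑ i ∈ range p, ∑ j ∈ range p, (α ^ i * β ^ j) •
          ∑ a ∈ range p, (α ^ a * iv p R a) • adn A (w i j) a := by
      intro w
      rw [mul_sum, sum_mul]
      apply sum_congr rfl
      intro i _
      rw [mul_sum, sum_mul]
      apply sum_congr rfl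
      intro j _
      rw [mul_smul_comm, smul_mul_assoc, lprod_conj A _ lx hx hxp]
    have e3 : ∀ w : ℕ → ℕ → ℕ → B, lprod A' ly * (∑ i ∈ range p, ∑ j ∈ range p,
        (α ^ i * β ^ j) • ∑ a ∈ range p, (α ^ a * iv p R a) • w i j a) *
        lprod A' (ly.map fun τ => -τ) = ∑ i ∈ range p, ∑ j ∈ range p, (α ^ i * β ^ j) •
          ∑ a ∈ range p, (α ^ a * iv p R a) •
            ∑ b ∈ range p, (β ^ b * iv p R b) • adn A' (w i j a) b := by
      intro w
      rw [mul_sum, sum_mul]
      apply sum_congr rfl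
      intro i _
      rw [mul_sum, sum_mul]
      apply sum_congr rfl
      intro j _
      rw [mul_smul_comm, smul_mul_assoc, mul_sum, sum_mul]
      congr 1
      apply sum_congr rfl
      intro a _
      rw [mul_smul_comm, smul_mul_assoc, lprod_conj A' _ ly hy hyp]
    rw [e1, ih, e2, e3]
    -- regroup
    have e4 : ∑ i ∈ range p, ∑ j ∈ range p, (α ^ i * β ^ j) •
          ∑ a ∈ range p, (α ^ a * iv p R a) •
            ∑ b ∈ range p, (β ^ b * iv p R b) • adn A' (adn A (arrE p (R := R) A A' c n i j) a) b =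
        ∑ i ∈ range p, ∑ a ∈ range p, α ^ (i + a) •
          ∑ j ∈ range p, ∑ b ∈ range p, β ^ (j + b) •
            ((iv p R a * iv p R b) • adn A' (adn A (arrE p (R := R) A A' c n i j) a) b) := by
      apply sum_congr rfl
      intro i _
      simp only [smul_sum]
      rw [sum_comm]
      apply sum_congr rfl
      intro a _
      apply sum_congr rfl
      intro j _
      apply sum_congr rfl
      intro b _
      simp only [smul_smul]
      congr 1
      ring
    rw [e4, conv p α hα0 (fun i a => ∑ j ∈ range p, ∑ b ∈ range p, β ^ (j + b) •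
            ((iv p R a * iv p R b) • adn A' (adn A (arrE p (R := R) A A' c n i j) a) b))]
    apply sum_congr rfl
    intro i _
    have e5 : ∀ a, ∑ j ∈ range p, ∑ b ∈ range p, β ^ (j + b) •
            ((iv p R a * iv p R b) • adn A' (adn A (arrE p (R := R) A A' c n (i - a) j) a) b) =
        ∑ j ∈ range p, β ^ j • ∑ b ∈ range (j + 1),
          ((iv p R a * iv p R b) •
            adn A' (adn A (arrE p (R := R) A A' c n (i - a) (j - b)) a) b) := fun a =>
      conv p β hβ0 (fun j b =>
        (iv p R a * iv p R b) • adn A' (adn A (arrE p (R := R) A A' c n (i - a) j) a) b)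
    simp only [e5]
    rw [sum_comm, smul_sum]
    apply sum_congr rfl
    intro j _
    rw [arrE, mul_smul, smul_sum (r := β ^ j)]

end Helper44.BL
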