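import Pool.Agent.Helper44.BL.Lie

/-!
# BL-2: coordinates on the Lie algebra generated by the two derivations
-/

namespace Helper44.BL

open Sh

variable {R : Type} [CommRing R]

/-! ### Coordinates -/

/-- the operator of the left normed bracket `[x, y, w_1, ..., w_k]`, the word `w` being stored
reversed (head = last letter) -/
def opW : List Bool → Module.End R (Sh R)
  | [] => d true * d false - d false * d true
  | z :: w => opW w * d z - d z * opW w

theorem isLF_opW (w : List Bool) : IsLF R (opW w) := by
  induction w with
  | nil => exact .br (.gen true) (.gen false)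
  | cons z w ih => exact .br ih (.gen z)

/-- the operator of `[x, y, w]` lowers the weight by the length `|w| + 2` -/
theorem opW_W (w : List Bool) {n : ℕ} {g : Sh R} (hg : g ∈ W R n) :
    opW w g ∈ W R (n - (w.length + 2)) := by
  have hd : ∀ (a : Bool) {n : ℕ} {g : Sh R}, g ∈ W R n → d a g ∈ W R (n - 1) := fun a {n} {g} hg =>
    (IsLF.gen (R := R) a).map_W hg
  induction w generalizing n g with
  | nil =>
    have e : opW (R := R) [] g = d true (d false g) - d false (d true g) := rfl
    rw [e]
    have h1 := hd true (hd false hg)
    have h2 := hd false (hd true hg)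
    have h3 : n - 1 - 1 = n - (([] : List Bool).length + 2) := by simp only [List.length_nil]; omega
    rw [h3] at h1 h2
    exact sub_mem h1 h2
  | cons z w ih =>
    have e : opW (R := R) (z :: w) g = opW w (d z g) - d z (opW w g) := rfl
    rw [e]
    have h1 := ih (hd z hg)
    have h2 := hd z (ih hg)
    have h3 : n - 1 - (w.length + 2) = n - ((z :: w).length + 2) := by
      simp only [List.length_cons]; omega
    have h4 : n - (w.length + 2) - 1 = n - ((z :: w).length + 2) := by
      simp only [List.length_cons]; omega
    rw [h3] at h1
    rw [h4] at h2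
    exact sub_mem h1 h2

/-- The words of length at most four (reversed). -/
def W4 : List (List Bool) :=
  [[]] ++ [[true], [false]] ++
  [[true, true], [false, true], [true, false], [false, false]] ++
  ([[true, true], [false, true], [true, false], [false, false]].flatMap fun w =>
    [true :: w, false :: w]) ++
  (([[true, true], [false, true], [true, false], [false, false]].flatMap fun w =>
    [true :: w, false :: w]).flatMap fun w => [true :: w, false :: w])

theorem mem_W4 (w : List Bool) (h : w.length ≤ 4) : w ∈ W4 := by
  match w, h with
  | [], _ => decide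
  | [a], _ => cases a <;> decide
  | [a, b], _ => cases a <;> cases b <;> decide
  | [a, b, c], _ => cases a <;> cases b <;> cases c <;> decide
  | [a, b, c, e], _ => cases a <;> cases b <;> cases c <;> cases e <;> decide
  | _ :: _ :: _ :: _ :: _ :: _, h =>
    exfalso
    simp only [List.length_cons] at h
    omega

theorem W4_nodup : W4.Nodup := by
  decide

theorem length_of_mem_W4 {w : List Bool} (h : w ∈ W4) : w.length ≤ 4 := by
  have key : ∀ w ∈ W4, w.length ≤ 4 := by decide
  exact key w h

/-- the operator with coordinates `α`, `β`, `e w` (`|w| ≤ 4`) -/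
def opT (α β : R) (e : List Bool → R) : Module.End R (Sh R) :=
  α • d true + β • d false + (W4.map fun w => e w • opW w).sum

/-- `u` has the coordinates `α`, `β`, `e w` up to weight six -/
structure Co (u : Module.End R (Sh R)) (α β : R) (e : List Bool → R) : Prop where
  rem : ∀ (n : ℕ) (g : Sh R), g ∈ W R n → u g - opT α β e g ∈ W R (n - 7)

/-- Every element of the Lie algebra is a linear combination of `d true`, `d false` and of the
operators `opW w` (all words `w`). Proof: let `T` be the span of these operators; `T` is stable
under commutators with `d true` and `d false` (`[d a, opW w] = - opW (a :: w)`), hence (Jacobi) the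
set of all `u` with `[u, T] ⊆ T` is closed under commutators, contains `d true`, `d false`; so
`[T, T] ⊆ T` because all of `T` is in the Lie algebra. -/
theorem IsLF.mem_span {u : Module.End R (Sh R)} (hu : IsLF R u) :
    u ∈ Submodule.span R ({d true, d false} ∪ Set.range (opW (R := R))) := by
  set T := Submodule.span R ({d true, d false} ∪ Set.range (opW (R := R))) with hT
  have hd : ∀ a : Bool, (d a : Module.End R (Sh R)) ∈ T := by
    intro a
    apply Submodule.subset_span
    left
    cases a
    · exact Or.inr rfl
    · exact Or.inl rfl
  have hop : ∀ w : List Bool, (opW w : Module.End R (Sh R)) ∈ T := fun w =>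
    Submodule.subset_span (Or.inr ⟨w, rfl⟩)
  have hA : ∀ (a : Bool), ∀ t ∈ T, (d a : Module.End R (Sh R)) * t - t * d a ∈ T := by
    intro a t ht
    refine Submodule.span_induction (p := fun t _ => (d a : Module.End R (Sh R)) * t - t * d a ∈ T)
      ?_ ?_ ?_ ?_ ht
    · rintro t (ht | ⟨w, rfl⟩)
      · have hb : ∃ b : Bool, t = d b := by
          rcases ht with rfl | rfl
          · exact ⟨true, rfl⟩
          · exact ⟨false, rfl⟩
        obtain ⟨b, rfl⟩ := hb
        cases a <;> cases b
        · rw [sub_self]; exact zero_mem _
        · have e : (d false : Module.End R (Sh R)) * d true - d true * d false = -opW [] := by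
            rw [opW, neg_sub]
          rw [e]
          exact neg_mem (hop [])
        · exact hop []
        · rw [sub_self]; exact zero_mem _
      · have e : (d a : Module.End R (Sh R)) * opW w - opW w * d a = -opW (a :: w) := by
          rw [opW, neg_sub]
        rw [e]
        exact neg_mem (hop _)
    · rw [mul_zero, zero_mul, sub_zero]; exact zero_mem _
    · intro x y _ _ hx hy
      have e : (d a : Module.End R (Sh R)) * (x + y) - (x + y) * d a =
          (d a * x - x * d a) + (d a * y - y * d a) := by noncomm_ring
      rw [e]
      exact add_mem hx hy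
    · intro r x _ hx
      have e : (d a : Module.End R (Sh R)) * (r • x) - (r • x) * d a =
          r • (d a * x - x * d a) := by
        rw [mul_smul_comm, smul_mul_assoc, smul_sub]
      rw [e]
      exact Submodule.smul_mem _ _ hx
  have key : u ∈ T ∧ ∀ t ∈ T, u * t - t * u ∈ T := by
    induction hu with
    | gen a => exact ⟨hd a, hA a⟩
    | zero => exact ⟨zero_mem _, fun t _ => by rw [mul_zero, zero_mul, sub_zero]; exact zero_mem _⟩
    | @add u v _ _ hu hv =>
      refine ⟨add_mem hu.1 hv.1, fun t ht => ?_⟩
      have e : (u + v) * t - t * (u + v) = (u * t - t * u) + (v * t - t * v) := by noncomm_ring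
      rw [e]
      exact add_mem (hu.2 t ht) (hv.2 t ht)
    | @smul r u _ hu =>
      refine ⟨Submodule.smul_mem _ _ hu.1, fun t ht => ?_⟩
      rw [mul_smul_comm, smul_mul_assoc, ← smul_sub]
      exact Submodule.smul_mem _ _ (hu.2 t ht)
    | @br u v _ _ hu hv =>
      refine ⟨hu.2 v hv.1, fun t ht => ?_⟩
      have e : (u * v - v * u) * t - t * (u * v - v * u) =
          (u * (v * t - t * v) - (v * t - t * v) * u) -
            (v * (u * t - t * u) - (u * t - t * u) * v) := by noncomm_ring
      rw [e]
      exact sub_mem (hu.2 _ (hv.2 t ht)) (hv.2 _ (hu.2 t ht))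
  exact key.1

private theorem co_list_add (l : List (List Bool)) (e e' : List Bool → R) :
    (l.map fun w => (e w + e' w) • (opW w : Module.End R (Sh R))).sum =
      (l.map fun w => e w • (opW w : Module.End R (Sh R))).sum +
        (l.map fun w => e' w • (opW w : Module.End R (Sh R))).sum := by
  induction l with
  | nil => simp
  | cons a l ih =>
    rw [List.map_cons, List.sum_cons, ih, add_smul, List.map_cons, List.sum_cons, List.map_cons,
      List.sum_cons]
    abel

private theorem co_list_smul (l : List (List Bool)) (r : R) (e : List Bool → R) :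
    (l.map fun w => (r * e w) • (opW w : Module.End R (Sh R))).sum =
      r • (l.map fun w => e w • (opW w : Module.End R (Sh R))).sum := by
  induction l with
  | nil => simp
  | cons a l ih =>
    rw [List.map_cons, List.sum_cons, ih, List.map_cons, List.sum_cons, smul_add, mul_smul]

private theorem co_list_zero (l : List (List Bool)) :
    (l.map fun w => (0 : R) • (opW w : Module.End R (Sh R))).sum = 0 := by
  induction l with
  | nil => simp
  | cons a l ih =>
    rw [List.map_cons, List.sum_cons, ih, zero_smul, add_zero]

private theorem co_list_single (w : List Bool) (hw : w ∈ W4) :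
    (W4.map fun v => (if v = w then (1 : R) else 0) • (opW v : Module.End R (Sh R))).sum =
      opW w := by
  classical
  rw [← List.sum_toFinset _ W4_nodup, Finset.sum_eq_single w]
  · rw [if_pos rfl, one_smul]
  · intro v _ hv
    rw [if_neg hv, zero_smul]
  · intro h
    exact absurd (List.mem_toFinset.2 hw) h

/-- from `IsLF.mem_span`: the words of length at least five contribute only to the remainder -/
theorem IsLF.exists_co {u : Module.End R (Sh R)} (hu : IsLF R u) :
    ∃ (α β : R) (e : List Bool → R), Co u α β e := by
  refine Submodule.span_induction (p := fun u _ => ∃ (α β : R) (e : List Bool → R), Co u α β e)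
    ?_ ?_ ?_ ?_ hu.mem_span
  · rintro t ((rfl | rfl) | ⟨w, rfl⟩)
    · refine ⟨1, 0, fun _ => 0, ⟨fun n g _ => ?_⟩⟩
      rw [opT, co_list_zero, one_smul, zero_smul, add_zero, add_zero, sub_self]
      exact zero_mem _
    · refine ⟨0, 1, fun _ => 0, ⟨fun n g _ => ?_⟩⟩
      rw [opT, co_list_zero, one_smul, zero_smul, zero_add, add_zero, sub_self]
      exact zero_mem _
    · by_cases hw : w.length ≤ 4
      · refine ⟨0, 0, fun v => if v = w then 1 else 0, ⟨fun n g _ => ?_⟩⟩
        rw [opT, co_list_single w (mem_W4 w hw), zero_smul, zero_smul, zero_add, zero_add, sub_self]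
        exact zero_mem _
      · refine ⟨0, 0, fun _ => 0, ⟨fun n g hg => ?_⟩⟩
        rw [opT, co_list_zero, zero_smul, zero_smul, add_zero, add_zero, LinearMap.zero_apply,
          sub_zero]
        exact W_mono (by omega) (opW_W w hg)
  · refine ⟨0, 0, fun _ => 0, ⟨fun n g _ => ?_⟩⟩
    rw [opT, co_list_zero, zero_smul, zero_smul, add_zero, add_zero, sub_self]
    exact zero_mem _
  · rintro x y _ _ ⟨α, β, e, h⟩ ⟨α', β', e', h'⟩
    refine ⟨α + α', β + β', fun w => e w + e' w, ⟨fun n g hg => ?_⟩⟩
    have h1 : (x + y) g - opT (α + α') (β + β') (fun w => e w + e' w) g =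
        (x g - opT α β e g) + (y g - opT α' β' e' g) := by
      have h2 : opT (α + α') (β + β') (fun w => e w + e' w) = opT α β e + opT α' β' e' := by
        rw [opT, opT, opT, co_list_add, add_smul, add_smul]
        abel
      rw [h2, LinearMap.add_apply, LinearMap.add_apply]
      abel
    rw [h1]
    exact add_mem (h.rem n g hg) (h'.rem n g hg)
  · rintro r x _ ⟨α, β, e, h⟩
    refine ⟨r * α, r * β, fun w => r * e w, ⟨fun n g hg => ?_⟩⟩
    have h1 : (r • x) g - opT (r * α) (r * β) (fun w => r * e w) g = r • (x g - opT α β e g) := by
      have h2 : opT (r * α) (r * β) (fun w => r * e w) = r • opT α β e := by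
        rw [opT, opT, co_list_smul, mul_smul, mul_smul, smul_add, smul_add]
      rw [h2, LinearMap.smul_apply, LinearMap.smul_apply, smul_sub]
    rw [h1]
    exact Submodule.smul_mem _ _ (h.rem n g hg)

end Helper44.BL
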