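import Pool.Agent.Helper44.BL.Coord

/-!
# BL-10: the metabelian functions `s, t, l01, l11, l02, l21, l12, l03`
-/

set_option linter.unusedSimpArgs false

namespace Helper44.BL

open Sh

section

variable (R : Type) [CommRing R]

/-- `∫ P ds`: the function `g` with `dl true g = P`, `dl false g = 0`, `g [] = 0` -/
def intx {R : Type} [CommRing R] (P : Sh R) : Sh R :=
  ⟨fun w => match w with
    | [] => 0
    | a :: w => if a then P w else 0⟩

/-- the number of letters `x`, on words of length one -/
def sS : Sh R := Sh.dlt [true]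
/-- the number of letters `y`, on words of length one -/
def tS : Sh R := Sh.dlt [false]
/-- `∫ t ds` -/
def l01 : Sh R := intx (tS R)
/-- `∫ s t ds` -/
def l11 : Sh R := intx (sS R * tS R)
/-- `∫ t^2 ds` -/
def l02 : Sh R := intx (tS R ^ 2)
/-- `∫ s^2 t ds` -/
def l21 : Sh R := intx (sS R ^ 2 * tS R)
/-- `∫ s t^2 ds` -/
def l12 : Sh R := intx (sS R * tS R ^ 2)
/-- `∫ t^3 ds` -/
def l03 : Sh R := intx (tS R ^ 3)

end

variable {R : Type} [CommRing R]

@[simp] theorem intx_nil (P : Sh R) : intx P [] = 0 := rfl
@[simp] theorem dl_intx_true (P : Sh R) : dl true (intx P) = P := rfl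
@[simp] theorem dl_intx_false (P : Sh R) : dl false (intx P) = 0 := rfl
@[simp] theorem sS_nil : sS R [] = 0 := rfl
@[simp] theorem tS_nil : tS R [] = 0 := rfl
@[simp] theorem dl_sS_true : dl true (sS R) = 1 := by
  apply Sh.ext'
  intro w
  cases w <;> simp [sS, Sh.dlt]
@[simp] theorem dl_sS_false : dl false (sS R) = 0 := by
  apply Sh.ext'
  intro w
  cases w <;> simp [sS, Sh.dlt]
@[simp] theorem dl_tS_true : dl true (tS R) = 0 := by
  apply Sh.ext'
  intro w
  cases w <;> simp [tS, Sh.dlt]
@[simp] theorem dl_tS_false : dl false (tS R) = 1 := by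
  apply Sh.ext'
  intro w
  cases w <;> simp [tS, Sh.dlt]

theorem sS_mem : sS R ∈ W R 2 := by
  intro w hw
  refine if_neg ?_
  rintro rfl
  simp at hw
theorem tS_mem : tS R ∈ W R 2 := by
  intro w hw
  refine if_neg ?_
  rintro rfl
  simp at hw
theorem intx_mem {n : ℕ} {P : Sh R} (hP : P ∈ W R n) : intx P ∈ W R (n + 1) := by
  intro w hw
  cases w with
  | nil => rfl
  | cons a w =>
    rw [List.length_cons] at hw
    show (if a then P w else 0) = 0
    rw [hP w (by omega), ite_self]
theorem l01_mem : l01 R ∈ W R 3 := intx_mem tS_mem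
theorem l11_mem : l11 R ∈ W R 4 := intx_mem (mul_mem_W (m := 1) (n := 1) sS_mem tS_mem)
theorem l02_mem : l02 R ∈ W R 4 := by
  unfold l02
  rw [pow_two]
  exact intx_mem (mul_mem_W (m := 1) (n := 1) tS_mem tS_mem)
theorem l21_mem : l21 R ∈ W R 5 := by
  unfold l21
  rw [pow_two]
  exact intx_mem (mul_mem_W (m := 2) (n := 1) (mul_mem_W (m := 1) (n := 1) sS_mem sS_mem) tS_mem)
theorem l12_mem : l12 R ∈ W R 5 := by
  unfold l12
  rw [pow_two]
  exact intx_mem (mul_mem_W (m := 1) (n := 2) sS_mem (mul_mem_W (m := 1) (n := 1) tS_mem tS_mem))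
theorem l03_mem : l03 R ∈ W R 5 := by
  unfold l03
  rw [pow_succ, pow_two]
  exact intx_mem (mul_mem_W (m := 2) (n := 1) (mul_mem_W (m := 1) (n := 1) tS_mem tS_mem) tS_mem)

private theorem opT_list (l : List (List Bool)) (e : List Bool → R) (g : Sh R) :
    ((l.map fun w => e w • (opW w : Module.End R (Sh R))).sum) g =
      (l.map fun w => e w • opW w g).sum := by
  induction l with
  | nil => rfl
  | cons a l ih =>
    rw [List.map_cons, List.sum_cons, LinearMap.add_apply, ih, List.map_cons, List.sum_cons,
      LinearMap.smul_apply]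

private theorem W4_split : W4 = [[], [true], [false], [true, true], [false, true], [true, false],
    [false, false]] ++ W4.drop 7 := by
  decide

private theorem W4_drop : ∀ w ∈ W4.drop 7, 3 ≤ w.length := by
  decide

/-- only the words of length at most two contribute on functions of weight at most four -/
theorem Co.apply {u : Module.End R (Sh R)} {α β : R} {e : List Bool → R} (h : Co u α β e)
    {g : Sh R} (hg : g ∈ W R 5) :
    u g = α • dl true g + β • dl false g + (e [] • opW [] g + (e [true] • opW [true] g +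
      (e [false] • opW [false] g + (e [true, true] • opW [true, true] g +
      (e [false, true] • opW [false, true] g + (e [true, false] • opW [true, false] g +
      e [false, false] • opW [false, false] g)))))) := by
  have h0 : u g = opT α β e g := sub_eq_zero.1 (W_zero (W_mono (by omega) (h.rem 5 g hg)))
  have h3 : ∀ w : List Bool, 3 ≤ w.length → opW w g = 0 := fun w hw =>
    W_zero (W_mono (by omega) (opW_W w hg))
  rw [h0]
  unfold opT
  rw [LinearMap.add_apply, LinearMap.add_apply, LinearMap.smul_apply, LinearMap.smul_apply,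
    opT_list, W4_split, List.map_append, List.sum_append]
  have h4 : ((W4.drop 7).map fun w => e w • opW w g).sum = 0 := by
    apply List.sum_eq_zero
    intro x hx
    obtain ⟨w, hw, rfl⟩ := List.mem_map.1 hx
    rw [h3 w (W4_drop w hw), smul_zero]
  rw [h4, add_zero]
  simp only [List.map_cons, List.map_nil, List.sum_cons, List.sum_nil, add_zero, d_apply]

/-- The value of an operator `u` with coordinates `α, β, e` on the functions. (For a function `g`
of weight `≤ 4` the remainder in `Co` is `0`, so `u g = opT α β e g`; only the words of length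
`≤ 2` contribute; `opW [] (∫ P ds) = - dl false P`, `opW [z] (∫ P ds) = dl z (dl false P)`,
`opW [z, z'] (∫ P ds) = - dl z (dl z' (dl false P))` for `P` in the algebra generated by `s, t`,
and `opW w s = opW w t = 0`.) -/
theorem Co.s {u : Module.End R (Sh R)} {α β : R} {e : List Bool → R} (h : Co u α β e) :
    u (sS R) = algebraMap R (Sh R) α := by
  rw [h.apply (W_mono (by omega) sS_mem)]
  simp only [opW, LinearMap.sub_apply, Module.End.mul_apply, d_apply, dl_intx_true, dl_intx_false,
    dl_sS_true, dl_sS_false, dl_tS_true, dl_tS_false, dl_sub, dl_add, dl_zero, dl_one, dl_mul,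
    pow_succ, pow_zero, Algebra.smul_def, map_mul, map_ofNat, map_add]
  ring

theorem Co.t {u : Module.End R (Sh R)} {α β : R} {e : List Bool → R} (h : Co u α β e) :
    u (tS R) = algebraMap R (Sh R) β := by
  rw [h.apply (W_mono (by omega) tS_mem)]
  simp only [opW, LinearMap.sub_apply, Module.End.mul_apply, d_apply, dl_intx_true, dl_intx_false,
    dl_sS_true, dl_sS_false, dl_tS_true, dl_tS_false, dl_sub, dl_add, dl_zero, dl_one, dl_mul,
    pow_succ, pow_zero, Algebra.smul_def, map_mul, map_ofNat, map_add]
  ring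

theorem Co.l01 {u : Module.End R (Sh R)} {α β : R} {e : List Bool → R} (h : Co u α β e) :
    u (l01 R) = α • tS R - algebraMap R (Sh R) (e []) := by
  rw [h.apply (W_mono (by omega) l01_mem)]
  unfold Helper44.BL.l01
  simp only [opW, LinearMap.sub_apply, Module.End.mul_apply, d_apply, dl_intx_true, dl_intx_false,
    dl_sS_true, dl_sS_false, dl_tS_true, dl_tS_false, dl_sub, dl_add, dl_zero, dl_one, dl_mul,
    pow_succ, pow_zero, Algebra.smul_def, map_mul, map_ofNat, map_add]
  ring

theorem Co.l11 {u : Module.End R (Sh R)} {α β : R} {e : List Bool → R} (h : Co u α β e) :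
    u (l11 R) = α • (sS R * tS R) - e [] • sS R + algebraMap R (Sh R) (e [true]) := by
  rw [h.apply (W_mono (by omega) l11_mem)]
  unfold Helper44.BL.l11
  simp only [opW, LinearMap.sub_apply, Module.End.mul_apply, d_apply, dl_intx_true, dl_intx_false,
    dl_sS_true, dl_sS_false, dl_tS_true, dl_tS_false, dl_sub, dl_add, dl_zero, dl_one, dl_mul,
    pow_succ, pow_zero, Algebra.smul_def, map_mul, map_ofNat, map_add]
  ring

theorem Co.l02 {u : Module.End R (Sh R)} {α β : R} {e : List Bool → R} (h : Co u α β e) :
    u (l02 R) = α • tS R ^ 2 - (2 * e []) • tS R + algebraMap R (Sh R) (2 * e [false]) := by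
  rw [h.apply (W_mono (by omega) l02_mem)]
  unfold Helper44.BL.l02
  simp only [opW, LinearMap.sub_apply, Module.End.mul_apply, d_apply, dl_intx_true, dl_intx_false,
    dl_sS_true, dl_sS_false, dl_tS_true, dl_tS_false, dl_sub, dl_add, dl_zero, dl_one, dl_mul,
    pow_succ, pow_zero, Algebra.smul_def, map_mul, map_ofNat, map_add]
  ring

theorem Co.l21 {u : Module.End R (Sh R)} {α β : R} {e : List Bool → R} (h : Co u α β e) :
    u (l21 R) = α • (sS R ^ 2 * tS R) - e [] • sS R ^ 2 + (2 * e [true]) • sS R -
      algebraMap R (Sh R) (2 * e [true, true]) := by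
  rw [h.apply (W_mono (by omega) l21_mem)]
  unfold Helper44.BL.l21
  simp only [opW, LinearMap.sub_apply, Module.End.mul_apply, d_apply, dl_intx_true, dl_intx_false,
    dl_sS_true, dl_sS_false, dl_tS_true, dl_tS_false, dl_sub, dl_add, dl_zero, dl_one, dl_mul,
    pow_succ, pow_zero, Algebra.smul_def, map_mul, map_ofNat, map_add]
  ring

theorem Co.l12 {u : Module.End R (Sh R)} {α β : R} {e : List Bool → R} (h : Co u α β e) :
    u (l12 R) = α • (sS R * tS R ^ 2) - (2 * e []) • (sS R * tS R) + (2 * e [true]) • tS R +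
      (2 * e [false]) • sS R - algebraMap R (Sh R) (2 * (e [true, false] + e [false, true])) := by
  rw [h.apply (W_mono (by omega) l12_mem)]
  unfold Helper44.BL.l12
  simp only [opW, LinearMap.sub_apply, Module.End.mul_apply, d_apply, dl_intx_true, dl_intx_false,
    dl_sS_true, dl_sS_false, dl_tS_true, dl_tS_false, dl_sub, dl_add, dl_zero, dl_one, dl_mul,
    pow_succ, pow_zero, Algebra.smul_def, map_mul, map_ofNat, map_add]
  ring

theorem Co.l03 {u : Module.End R (Sh R)} {α β : R} {e : List Bool → R} (h : Co u α β e) :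
    u (l03 R) = α • tS R ^ 3 - (3 * e []) • tS R ^ 2 + (6 * e [false]) • tS R -
      algebraMap R (Sh R) (6 * e [false, false]) := by
  rw [h.apply (W_mono (by omega) l03_mem)]
  unfold Helper44.BL.l03
  simp only [opW, LinearMap.sub_apply, Module.End.mul_apply, d_apply, dl_intx_true, dl_intx_false,
    dl_sS_true, dl_sS_false, dl_tS_true, dl_tS_false, dl_sub, dl_add, dl_zero, dl_one, dl_mul,
    pow_succ, pow_zero, Algebra.smul_def, map_mul, map_ofNat, map_add]
  ring

end Helper44.BL
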