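import Mathlib

/-!
# BL: the polynomial `S1` and the expression `Theta`
-/

namespace Helper44.BL

section

variable {A : Type} [CommRing A]

/-- The symbol: `u^4 fxs = 120 ω S1` with `ω = β s - α t`. -/
def S1 (α β g0 gx gy gxx gxy gyy s t l01 l11 l02 l21 l12 l03 : A) : A :=
  -14 * β * (β * s - α * t) ^ 2 * l01 + 48 * β ^ 2 * (β * s - α * t) * l11 -
    24 * α * β * (β * s - α * t) * l02 - 36 * β ^ 3 * l21 + 36 * α * β ^ 2 * l12 -
    12 * α ^ 2 * β * l03 - 72 * t * β ^ 2 * gxx + 24 * β * (β * s + 2 * α * t) * gxy -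
    24 * α * (2 * β * s + α * t) * gyy + 24 * β * t * (β * s - α * t) * gx -
    12 * (β * s - α * t) * (β * s + α * t) * gy - 2 * t * (β * s - α * t) ^ 2 * g0 +
    α * β * s * t ^ 2 * (β * s + 2 * α * t)

/-- The truncated part of the functional, `l02 = ∫ t^2 ds` etc. -/
def Theta (p : ℕ) (s t l01 l11 l02 l21 l12 l03 : A) : A :=
  7 * l01 * s ^ (p - 2) * t ^ (p - 1) - 24 * l11 * s ^ (p - 3) * t ^ (p - 1) -
    6 * l02 * s ^ (p - 2) * t ^ (p - 2) + 18 * l21 * s ^ (p - 4) * t ^ (p - 1) +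
    6 * l12 * s ^ (p - 3) * t ^ (p - 2) + 2 * l03 * s ^ (p - 2) * t ^ (p - 3)

end

end Helper44.BL
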