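import Pool.Agent.Helper44.BL.Tab
import Pool.Agent.Helper44.BL.Lam
import Pool.Agent.Helper44.BL.SDef

/-!
# BL-12: the function `fxs` and its symbol
-/

namespace Helper44.BL

open Sh Tr

/-- integer constants -/
def cT (k : ℤ) : Tr := tC [(1, k)]
/-- variables -/
def vT (q : ℕ) : Tr := tC [(q, 1)]
def aT : Tr := vT 2
def bT : Tr := vT 3
def sT : Tr := n [] (n [(1, 1)] o o) o
def tT : Tr := n [] o (n [(1, 1)] o o)
def intxT (t : Tr) : Tr := n [] t o
def l01T : Tr := intxT tT
def l11T : Tr := intxT (tmul sT tT)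
def l02T : Tr := intxT (tmul tT tT)
def l21T : Tr := intxT (tmul (tmul sT sT) tT)
def l12T : Tr := intxT (tmul sT (tmul tT tT))
def l03T : Tr := intxT (tmul tT (tmul tT tT))
def omT : Tr := tsub (tmul bT sT) (tmul aT tT)

/-- the tree of `S1` -/
def S1T : Tr :=
  tadd (tmul (cT (-14)) (tmul bT (tmul (tmul omT omT) l01T)))
  (tadd (tmul (cT 48) (tmul (tmul bT bT) (tmul omT l11T)))
  (tadd (tmul (cT (-24)) (tmul (tmul aT bT) (tmul omT l02T)))
  (tadd (tmul (cT (-36)) (tmul (tmul bT (tmul bT bT)) l21T))
  (tadd (tmul (cT 36) (tmul (tmul aT (tmul bT bT)) l12T))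
  (tadd (tmul (cT (-12)) (tmul (tmul aT (tmul aT bT)) l03T))
  (tadd (tmul (cT (-72)) (tmul (tmul tT (tmul bT bT)) (vT 13)))
  (tadd (tmul (cT 24) (tmul bT (tmul (tadd (tmul bT sT) (tmul (cT 2) (tmul aT tT)))
    (tadd (vT 17) (vT 19)))))
  (tadd (tmul (cT (-24)) (tmul aT (tmul (tadd (tmul (cT 2) (tmul bT sT)) (tmul aT tT)) (vT 23))))
  (tadd (tmul (cT 24) (tmul bT (tmul tT (tmul omT (vT 7)))))
  (tadd (tmul (cT (-12)) (tmul omT (tmul (tadd (tmul bT sT) (tmul aT tT)) (vT 11))))
  (tadd (tmul (cT (-2)) (tmul tT (tmul (tmul omT omT) (vT 5))))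
    (tmul aT (tmul bT (tmul sT (tmul (tmul tT tT)
      (tadd (tmul bT sT) (tmul (cT 2) (tmul aT tT))))))))))))))))))

theorem F4_eq : (F4.tsub (tmul (cT 120) (tmul omT S1T))).isZ = true := by
  decide +kernel

variable {R : Type} [CommRing R]

variable (R) in
/-- the function `fxs`: the integer table `F0`, as a function with values in `R` -/
def fxs : Sh R := toSh (fun _ => 1) F0

theorem fxs_mem : fxs R ∈ W R 10 :=
  toSh_mem _ F0 (by decide +kernel)

/-- all codes are `1` -/
def codes1 : Tr → Bool
  | .o => true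
  | .n p l r => p.all (fun x => Nat.beq x.1 1) && codes1 l && codes1 r

private theorem evP_codes1 (v v' : ℕ → R) (p : Pol) (h : p.all (fun x => Nat.beq x.1 1) = true) :
    evP v p = evP v' p := by
  induction p with
  | nil => rfl
  | cons x p ih =>
    rw [List.all_cons, Bool.and_eq_true] at h
    rw [evP_cons, evP_cons, ih h.2, Nat.eq_of_beq_eq_true h.1, evM_one, evM_one]

private theorem toSh_codes1 (v v' : ℕ → R) (t : Tr) (h : codes1 t = true) :
    toSh v t = toSh v' t := by
  induction t with
  | o => rw [toSh_o, toSh_o]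
  | n p l r ihl ihr =>
    rw [codes1, Bool.and_eq_true, Bool.and_eq_true] at h
    apply ext_dl
    · rw [toSh_nil, toSh_nil]
      exact evP_codes1 v v' p h.1.1
    · intro a
      rw [dl_toSh, dl_toSh]
      cases a
      · exact ihr h.2
      · exact ihl h.1.2

/-- all codes in `F0` are `1`, so the valuation does not matter -/
theorem fxs_eq (v : ℕ → R) : fxs R = toSh v F0 :=
  toSh_codes1 _ _ F0 (by decide +kernel)

/-! ### evaluation of the trees -/

private theorem toSh_cT (v : ℕ → R) (k : ℤ) : toSh v (cT k) = (k : Sh R) := by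
  unfold cT
  rw [toSh_tC, evP_cons, evP_nil, evM_one, mul_one, add_zero, map_intCast]

private theorem toSh_vT (v : ℕ → R) {q : ℕ} (hq : q.Prime) :
    toSh v (vT q) = algebraMap R (Sh R) (v q) := by
  unfold vT
  rw [toSh_tC, evP_cons, evP_nil, evM_prime v hq, Int.cast_one, one_mul, add_zero]

private theorem toSh_one (v : ℕ → R) : toSh v (n [(1, 1)] o o) = 1 := by
  have h := toSh_tC v [(1, 1)]
  rw [evP_cons, evP_nil, evM_one, Int.cast_one, mul_one, add_zero, map_one] at h
  exact h

private theorem toSh_sT (v : ℕ → R) : toSh v sT = sS R := by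
  apply ext_dl
  · rw [toSh_nil, sS_nil]
    rfl
  · intro a
    rw [dl_toSh]
    cases a
    · rw [dl_sS_false]
      exact toSh_o v
    · rw [dl_sS_true]
      exact toSh_one v

private theorem toSh_tT (v : ℕ → R) : toSh v tT = tS R := by
  apply ext_dl
  · rw [toSh_nil, tS_nil]
    rfl
  · intro a
    rw [dl_toSh]
    cases a
    · rw [dl_tS_false]
      exact toSh_one v
    · rw [dl_tS_true]
      exact toSh_o v

private theorem toSh_intxT (v : ℕ → R) (t : Tr) : toSh v (intxT t) = intx (toSh v t) := by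
  apply ext_dl
  · rw [toSh_nil, intx_nil]
    rfl
  · intro a
    rw [dl_toSh]
    cases a
    · rw [dl_intx_false]
      exact toSh_o v
    · rw [dl_intx_true]
      rfl

private theorem toSh_S1T (v : ℕ → R) : toSh v S1T =
    S1 (algebraMap R (Sh R) (v 2)) (algebraMap R (Sh R) (v 3)) (algebraMap R (Sh R) (v 5))
      (algebraMap R (Sh R) (v 7)) (algebraMap R (Sh R) (v 11)) (algebraMap R (Sh R) (v 13))
      (algebraMap R (Sh R) (v 17) + algebraMap R (Sh R) (v 19))
      (algebraMap R (Sh R) (v 23)) (sS R) (tS R) (l01 R) (l11 R) (l02 R) (l21 R) (l12 R)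
      (l03 R) := by
  have h01 : toSh v l01T = l01 R := by
    rw [l01T, toSh_intxT, toSh_tT, l01]
  have h11 : toSh v l11T = l11 R := by
    rw [l11T, toSh_intxT, toSh_tmul, toSh_sT, toSh_tT, l11]
  have h02 : toSh v l02T = l02 R := by
    rw [l02T, toSh_intxT, toSh_tmul, toSh_tT, l02, pow_two]
  have h21 : toSh v l21T = l21 R := by
    rw [l21T, toSh_intxT, toSh_tmul, toSh_tmul, toSh_sT, toSh_tT, l21, pow_two]
  have h12 : toSh v l12T = l12 R := by
    rw [l12T, toSh_intxT, toSh_tmul, toSh_tmul, toSh_sT, toSh_tT, l12, pow_two]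
  have h03 : toSh v l03T = l03 R := by
    rw [l03T, toSh_intxT, toSh_tmul, toSh_tmul, toSh_tT, l03]
    congr 1
    ring
  have hom : toSh v omT = algebraMap R (Sh R) (v 3) * sS R - algebraMap R (Sh R) (v 2) * tS R := by
    rw [omT, toSh_tsub, toSh_tmul, toSh_tmul, toSh_sT, toSh_tT, bT, aT,
      toSh_vT v (by norm_num), toSh_vT v (by norm_num)]
  unfold S1T S1
  simp only [toSh_tadd, toSh_tmul, toSh_cT, h01, h11, h02, h21, h12, h03, hom, toSh_sT, toSh_tT,
    aT, bT, toSh_vT v (show Nat.Prime 2 by norm_num), toSh_vT v (show Nat.Prime 3 by norm_num),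
    toSh_vT v (show Nat.Prime 5 by norm_num), toSh_vT v (show Nat.Prime 7 by norm_num),
    toSh_vT v (show Nat.Prime 11 by norm_num), toSh_vT v (show Nat.Prime 13 by norm_num),
    toSh_vT v (show Nat.Prime 17 by norm_num), toSh_vT v (show Nat.Prime 19 by norm_num),
    toSh_vT v (show Nat.Prime 23 by norm_num)]
  push_cast
  ring

private theorem toSh_omT (v : ℕ → R) : toSh v omT =
    algebraMap R (Sh R) (v 3) * sS R - algebraMap R (Sh R) (v 2) * tS R := by
  rw [omT, toSh_tsub, toSh_tmul, toSh_tmul, toSh_sT, toSh_tT, bT, aT,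
    toSh_vT v (by norm_num), toSh_vT v (by norm_num)]

/-- the words with a code, and their codes -/
private theorem vcode_inj : ∀ w ∈ W4, ∀ w' ∈ W4, vcode w = vcode w' → w = w' := by
  decide +kernel

private theorem vcode_ne : ∀ w ∈ W4, vcode w ≠ 2 ∧ vcode w ≠ 3 := by
  decide +kernel

/-- a valuation with given values -/
private noncomputable def val (α β : R) (e : List Bool → R) (m : ℕ) : R :=
  open Classical in
  if m = 2 then α else if m = 3 then β else
    if h : ∃ w ∈ W4, vcode w = m then e h.choose else 0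

private theorem val_two (α β : R) (e : List Bool → R) : val α β e 2 = α := by
  unfold val
  rw [if_pos rfl]

private theorem val_three (α β : R) (e : List Bool → R) : val α β e 3 = β := by
  unfold val
  rw [if_neg (by norm_num), if_pos rfl]

private theorem val_vcode (α β : R) (e : List Bool → R) {w : List Bool} (hw : w ∈ W4) :
    val α β e (vcode w) = e w := by
  have h : ∃ w' ∈ W4, vcode w' = vcode w := ⟨w, hw, rfl⟩
  unfold val
  rw [if_neg (vcode_ne w hw).1, if_neg (vcode_ne w hw).2, dif_pos h]
  congr 1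
  exact vcode_inj _ h.choose_spec.1 _ hw h.choose_spec.2

private theorem opT_congr (α β : R) {e e' : List Bool → R} (h : ∀ w ∈ W4, e w = e' w) :
    opT α β e = opT α β e' := by
  unfold opT
  congr 2
  apply List.map_congr_left
  intro w hw
  rw [h w hw]

/-- `u^4 fxs = toSh F4` by four applications of `toSh_step`, then `F4_eq`; the valuation is
`v 2 = α`, `v 3 = β`, `v (vcode w) = e w` for `w ∈ W4` (a function `ℕ → R` with these values
exists; replace `e` outside of `W4` by a constant, this does not change `Co`). -/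
theorem fxs_four {u : Module.End R (Sh R)} (hu : IsLF R u) {α β : R} {e : List Bool → R}
    (hco : Co u α β e) : (u ^ 4) (fxs R) = 120 *
      ((algebraMap R (Sh R) β * sS R - algebraMap R (Sh R) α * tS R) *
        S1 (algebraMap R (Sh R) α) (algebraMap R (Sh R) β) (algebraMap R (Sh R) (e []))
          (algebraMap R (Sh R) (e [true])) (algebraMap R (Sh R) (e [false]))
          (algebraMap R (Sh R) (e [true, true]))
          (algebraMap R (Sh R) (e [true, false] + e [false, true]))
          (algebraMap R (Sh R) (e [false, false])) (sS R) (tS R) (l01 R) (l11 R) (l02 R) (l21 R)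
          (l12 R) (l03 R)) := by
  have h2 := val_two α β e
  have h3 := val_three α β e
  have hv : ∀ w ∈ W4, val α β e (vcode w) = e w := fun w hw => val_vcode α β e hw
  generalize val α β e = v at h2 h3 hv
  have hco' : Co u (v 2) (v 3) fun w => v (Tr.vcode w) := by
    refine ⟨fun n g hg => ?_⟩
    rw [opT_congr (v 2) (v 3) (e' := e) (fun w hw => hv w hw), h2, h3]
    exact hco.rem n g hg
  have s0 : fxs R - toSh v F0 ∈ W R 0 := by
    rw [fxs_eq v, sub_self]
    exact zero_mem _
  have s1 := toSh_step v hu hco' s0 (k := 10) (by decide +kernel) (m' := 3) (by norm_num)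
    (by norm_num) F0_step
  have s2 := toSh_step v hu hco' s1 (k := 9) (by decide +kernel) (m' := 2) (by norm_num)
    (by norm_num) F1_step
  have s3 := toSh_step v hu hco' s2 (k := 8) (by decide +kernel) (m' := 1) (by norm_num)
    (by norm_num) F2_step
  have s4 := toSh_step v hu hco' s3 (k := 7) (by decide +kernel) (m' := 0) (by norm_num)
    (by norm_num) F3_step
  have s5 := sub_eq_zero.1 (W_zero s4)
  have s6 := toSh_isZ v F4_eq
  rw [toSh_tsub, toSh_tmul, toSh_tmul, toSh_cT, toSh_omT, toSh_S1T, sub_eq_zero] at s6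
  have e1 : (u ^ 4) (fxs R) = u (u (u (u (fxs R)))) := rfl
  have c0 : v 5 = e [] := hv [] (by decide)
  have c1 : v 7 = e [true] := hv [true] (by decide)
  have c2 : v 11 = e [false] := hv [false] (by decide)
  have c3 : v 13 = e [true, true] := hv [true, true] (by decide)
  have c4 : v 17 = e [false, true] := hv [false, true] (by decide)
  have c5 : v 19 = e [true, false] := hv [true, false] (by decide)
  have c6 : v 23 = e [false, false] := hv [false, false] (by decide)
  rw [e1, s5, s6, h2, h3, c0, c1, c2, c3, c4, c5, c6, map_add, add_comm (algebraMap R (Sh R)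
    (e [false, true]))]
  push_cast
  ring

/-- `u` kills `ω`, and `u S1 = 0` (a polynomial identity from the formulas `Co.s, ..., Co.l03`),
so `u^5 fxs = 0` -/
theorem fxs_five {u : Module.End R (Sh R)} (hu : IsLF R u) {α β : R} {e : List Bool → R}
    (hco : Co u α β e) : (u ^ 5) (fxs R) = 0 := by
  have e1 : (u ^ 5) (fxs R) = u ((u ^ 4) (fxs R)) := by
    rw [pow_succ', Module.End.mul_apply]
  have hc : ∀ r : R, u (algebraMap R (Sh R) r) = 0 := hu.map_const
  have hL := hu.leibniz
  have hnum : ∀ k : ℕ, u (k : Sh R) = 0 := by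
    intro k
    rw [← map_natCast (algebraMap R (Sh R)) k]
    exact hc _
  rw [e1, fxs_four hu hco]
  unfold S1
  have h120 := hnum 120
  have h14 := hnum 14
  have h48 := hnum 48
  have h24 := hnum 24
  have h36 := hnum 36
  have h12 := hnum 12
  have h72 := hnum 72
  have h2 := hnum 2
  push_cast at h120 h14 h48 h24 h36 h12 h72 h2
  simp only [pow_succ, pow_zero, one_mul, hL, map_add, map_sub, map_neg, hc, h120, h14, h48, h24,
    h36, h12, h72, h2, hco.s, hco.t, hco.l01, hco.l11, hco.l02, hco.l21, hco.l12, hco.l03,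
    Algebra.smul_def, map_mul, map_ofNat]
  ring

end Helper44.BL
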