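import Pool.Agent.Helper44.BL.Iv
import Pool.Agent.Helper44.BL.SDef

/-!
# BL-13: the coefficients of `Theta` along a flow (characteristic `p`)
-/

namespace Helper44.BL

open Polynomial

section flows

variable {A : Type} [CommRing A]

/-- the flows of `s`, `t`, `l01`, ..., `l03`; `c2` is one half, `c3` is one third -/
noncomputable def sX (α s : A) : A[X] := C s + C α * X
noncomputable def l01X (c2 α β g0 t l01 : A) : A[X] :=
  C l01 + C (α * t - g0) * X + C (c2 * (α * β)) * X ^ 2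
noncomputable def l11X (c2 c3 α β g0 gx s t l11 : A) : A[X] :=
  C l11 + C (α * s * t - g0 * s + gx) * X + C (c2 * (α * (α * t + β * s) - g0 * α)) * X ^ 2 +
    C (c3 * (α ^ 2 * β)) * X ^ 3
noncomputable def l02X (c3 α β g0 gy t l02 : A) : A[X] :=
  C l02 + C (α * t ^ 2 - 2 * g0 * t + 2 * gy) * X + C (α * β * t - g0 * β) * X ^ 2 +
    C (c3 * (α * β ^ 2)) * X ^ 3
noncomputable def l21X (c2 c3 α β g0 gx gxx s t l21 : A) : A[X] :=
  C l21 + C (α * s ^ 2 * t - g0 * s ^ 2 + 2 * gx * s - 2 * gxx) * X +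
    C (c2 * (α * (2 * s * α * t + s ^ 2 * β) - 2 * g0 * s * α + 2 * gx * α)) * X ^ 2 +
    C (c3 * (α * (α ^ 2 * t + 2 * s * α * β) - g0 * α ^ 2)) * X ^ 3 +
    C (c2 * c2 * (α ^ 3 * β)) * X ^ 4
noncomputable def l12X (c2 c3 α β g0 gx gy gxy s t l12 : A) : A[X] :=
  C l12 + C (α * s * t ^ 2 - 2 * g0 * s * t + 2 * gx * t + 2 * gy * s - 2 * gxy) * X +
    C (c2 * (α * (α * t ^ 2 + 2 * s * t * β) - 2 * g0 * (α * t + β * s) + 2 * gx * β +
      2 * gy * α)) * X ^ 2 +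
    C (c3 * (α * (2 * α * t * β + s * β ^ 2) - 2 * g0 * α * β)) * X ^ 3 +
    C (c2 * c2 * (α ^ 2 * β ^ 2)) * X ^ 4
noncomputable def l03X (c2 α β g0 gy gyy t l03 : A) : A[X] :=
  C l03 + C (α * t ^ 3 - 3 * g0 * t ^ 2 + 6 * gy * t - 6 * gyy) * X +
    C (c2 * (3 * α * β * t ^ 2 - 6 * g0 * t * β + 6 * gy * β)) * X ^ 2 +
    C (α * β ^ 2 * t - g0 * β ^ 2) * X ^ 3 + C (c2 * c2 * (α * β ^ 3)) * X ^ 4

/-- `Theta` along the flow -/
noncomputable def ThX (p : ℕ) (c2 c3 α β g0 gx gy gxx gxy gyy s t l01 l11 l02 l21 l12 l03 : A) :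
    A[X] :=
  Theta p (sX α s) (sX β t) (l01X c2 α β g0 t l01) (l11X c2 c3 α β g0 gx s t l11)
    (l02X c3 α β g0 gy t l02) (l21X c2 c3 α β g0 gx gxx s t l21)
    (l12X c2 c3 α β g0 gx gy gxy s t l12) (l03X c2 α β g0 gy gyy t l03)

/-- naturality -/
theorem ThX_map {B : Type} [CommRing B] (φ : A →+* B) (p : ℕ)
    (c2 c3 α β g0 gx gy gxx gxy gyy s t l01 l11 l02 l21 l12 l03 : A) :
    (ThX p c2 c3 α β g0 gx gy gxx gxy gyy s t l01 l11 l02 l21 l12 l03).map φ =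
      ThX p (φ c2) (φ c3) (φ α) (φ β) (φ g0) (φ gx) (φ gy) (φ gxx) (φ gxy) (φ gyy) (φ s) (φ t)
        (φ l01) (φ l11) (φ l02) (φ l21) (φ l12) (φ l03) := by
  unfold ThX Theta sX l01X l11X l02X l21X l12X l03X
  simp only [Polynomial.map_add, Polynomial.map_sub, Polynomial.map_mul, Polynomial.map_pow,
    map_C, map_X, Polynomial.map_ofNat, map_add, map_sub, map_mul, map_pow, map_ofNat]

/-- The polynomial of degree five: `ThX = s(X)^(p-4) t(X)^(p-3) N(X)`. -/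
noncomputable def NX (c2 c3 α β g0 gx gy gxx gxy gyy s t l01 l11 l02 l21 l12 l03 : A) : A[X] :=
  7 * l01X c2 α β g0 t l01 * sX α s ^ 2 * sX β t ^ 2 -
    24 * l11X c2 c3 α β g0 gx s t l11 * sX α s * sX β t ^ 2 -
    6 * l02X c3 α β g0 gy t l02 * sX α s ^ 2 * sX β t +
    18 * l21X c2 c3 α β g0 gx gxx s t l21 * sX β t ^ 2 +
    6 * l12X c2 c3 α β g0 gx gy gxy s t l12 * sX α s * sX β t +
    2 * l03X c2 α β g0 gy gyy t l03 * sX α s ^ 2

theorem ThX_eq (p : ℕ) (hp : 11 ≤ p)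
    (c2 c3 α β g0 gx gy gxx gxy gyy s t l01 l11 l02 l21 l12 l03 : A) :
    ThX p c2 c3 α β g0 gx gy gxx gxy gyy s t l01 l11 l02 l21 l12 l03 =
      sX α s ^ (p - 4) * sX β t ^ (p - 3) *
        NX c2 c3 α β g0 gx gy gxx gxy gyy s t l01 l11 l02 l21 l12 l03 := by
  obtain ⟨k, rfl⟩ : ∃ k, p = k + 4 := ⟨p - 4, by omega⟩
  have e2 : k + 4 - 2 = k + 2 := by omega
  have e1 : k + 4 - 1 = k + 3 := by omega
  have e3 : k + 4 - 3 = k + 1 := by omega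
  have e4 : k + 4 - 4 = k := by omega
  unfold ThX Theta NX
  rw [e1, e2, e3, e4]
  ring

/-- `N` has degree five: explicit coefficients (`2 c2 = 1`, `3 c3 = 1`); in particular the
coefficient at degree six vanishes and the coefficient at degree five is
`-c2 α^2 β^2 (2 g0 + (β s - α t))`. Moreover `∑ N_k c_k = - c2 ω ω S1` where `c_k` is the
coefficient of `S^3 T^2` in `(s T - t S)^k (β S - α T)^(5-k)`:
`c_0 = 10 α^2 β^3`, `c_1 = -4 s α β^3 - 6 t α^2 β^2`, `c_2 = 6 s t α β^2 + s^2 β^3 + 3 t^2 α^2 β`,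
`c_3 = -6 s t^2 α β - 3 s^2 t β^2 - t^3 α^2`, `c_4 = 4 s t^3 α + 6 s^2 t^2 β`,
`c_5 = -10 s^2 t^3`. -/
theorem NX_coeffs {c2 c3 : A} (h2 : 2 * c2 = 1) (h3 : 3 * c3 = 1)
    (α β g0 gx gy gxx gxy gyy s t l01 l11 l02 l21 l12 l03 : A) :
    ∃ n0 n1 n2 n3 n4 n5 : A,
      NX c2 c3 α β g0 gx gy gxx gxy gyy s t l01 l11 l02 l21 l12 l03 =
        C n0 + C n1 * X + C n2 * X ^ 2 + C n3 * X ^ 3 + C n4 * X ^ 4 + C n5 * X ^ 5 ∧
      n5 = -(c2 * (α ^ 2 * β ^ 2 * (2 * g0 + (β * s - α * t)))) ∧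
      n0 * (10 * α ^ 2 * β ^ 3) + n1 * (-4 * s * α * β ^ 3 - 6 * t * α ^ 2 * β ^ 2) +
        n2 * (6 * s * t * α * β ^ 2 + s ^ 2 * β ^ 3 + 3 * t ^ 2 * α ^ 2 * β) +
        n3 * (-6 * s * t ^ 2 * α * β - 3 * s ^ 2 * t * β ^ 2 - t ^ 3 * α ^ 2) +
        n4 * (4 * s * t ^ 3 * α + 6 * s ^ 2 * t ^ 2 * β) + n5 * (-10 * s ^ 2 * t ^ 3) =
        -(c2 * ((β * s - α * t) ^ 2 *
          S1 α β g0 gx gy gxx gxy gyy s t l01 l11 l02 l21 l12 l03)) := by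
  have H2 : (2 : A[X]) * C c2 = 1 := by
    rw [← C_ofNat, ← C_mul, h2, C_1]
  have H3 : (3 : A[X]) * C c3 = 1 := by
    rw [← C_ofNat, ← C_mul, h3, C_1]
  have e01 : (7 : A[X]) * l01X c2 α β g0 t l01 =
      7 * C l01 + 7 * (C α * C t - C g0) * X + 7 * C c2 * (C α * C β) * X ^ 2 := by
    unfold l01X
    simp only [map_sub, map_mul]
    ring
  have e11 : (24 : A[X]) * l11X c2 c3 α β g0 gx s t l11 =
      24 * C l11 + 24 * (C α * C s * C t - C g0 * C s + C gx) * X +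
      12 * (C α * (C α * C t + C β * C s) - C g0 * C α) * X ^ 2 + 8 * (C α ^ 2 * C β) * X ^ 3 := by
    unfold l11X
    simp only [map_add, map_sub, map_mul, map_pow]
    linear_combination 12 * (C α * (C α * C t + C β * C s) - C g0 * C α) * X ^ 2 * H2 +
      8 * (C α ^ 2 * C β) * X ^ 3 * H3
  have e02 : (6 : A[X]) * l02X c3 α β g0 gy t l02 =
      6 * C l02 + 6 * (C α * C t ^ 2 - 2 * C g0 * C t + 2 * C gy) * X +
      6 * (C α * C β * C t - C g0 * C β) * X ^ 2 + 2 * (C α * C β ^ 2) * X ^ 3 := by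
    unfold l02X
    simp only [map_add, map_sub, map_mul, map_pow, map_ofNat]
    linear_combination 2 * (C α * C β ^ 2) * X ^ 3 * H3
  have e21 : (18 : A[X]) * l21X c2 c3 α β g0 gx gxx s t l21 =
      18 * C l21 + 18 * (C α * C s ^ 2 * C t - C g0 * C s ^ 2 + 2 * C gx * C s - 2 * C gxx) * X +
      9 * (C α * (2 * C s * C α * C t + C s ^ 2 * C β) - 2 * C g0 * C s * C α +
        2 * C gx * C α) * X ^ 2 +
      6 * (C α * (C α ^ 2 * C t + 2 * C s * C α * C β) - C g0 * C α ^ 2) * X ^ 3 +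
      9 * C c2 * (C α ^ 3 * C β) * X ^ 4 := by
    unfold l21X
    simp only [map_add, map_sub, map_mul, map_pow, map_ofNat]
    linear_combination (9 * (C α * (2 * C s * C α * C t + C s ^ 2 * C β) - 2 * C g0 * C s * C α +
        2 * C gx * C α) * X ^ 2 + 9 * C c2 * (C α ^ 3 * C β) * X ^ 4) * H2 +
      6 * (C α * (C α ^ 2 * C t + 2 * C s * C α * C β) - C g0 * C α ^ 2) * X ^ 3 * H3
  have e12 : (6 : A[X]) * l12X c2 c3 α β g0 gx gy gxy s t l12 =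
      6 * C l12 + 6 * (C α * C s * C t ^ 2 - 2 * C g0 * C s * C t + 2 * C gx * C t +
        2 * C gy * C s - 2 * C gxy) * X +
      3 * (C α * (C α * C t ^ 2 + 2 * C s * C t * C β) - 2 * C g0 * (C α * C t + C β * C s) +
        2 * C gx * C β + 2 * C gy * C α) * X ^ 2 +
      2 * (C α * (2 * C α * C t * C β + C s * C β ^ 2) - 2 * C g0 * C α * C β) * X ^ 3 +
      3 * C c2 * (C α ^ 2 * C β ^ 2) * X ^ 4 := by
    unfold l12X
    simp only [map_add, map_sub, map_mul, map_pow, map_ofNat]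
    linear_combination (3 * (C α * (C α * C t ^ 2 + 2 * C s * C t * C β) -
        2 * C g0 * (C α * C t + C β * C s) + 2 * C gx * C β + 2 * C gy * C α) * X ^ 2 +
        3 * C c2 * (C α ^ 2 * C β ^ 2) * X ^ 4) * H2 +
      2 * (C α * (2 * C α * C t * C β + C s * C β ^ 2) - 2 * C g0 * C α * C β) * X ^ 3 * H3
  have e03 : (2 : A[X]) * l03X c2 α β g0 gy gyy t l03 =
      2 * C l03 + 2 * (C α * C t ^ 3 - 3 * C g0 * C t ^ 2 + 6 * C gy * C t - 6 * C gyy) * X +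
      (3 * C α * C β * C t ^ 2 - 6 * C g0 * C t * C β + 6 * C gy * C β) * X ^ 2 +
      2 * (C α * C β ^ 2 * C t - C g0 * C β ^ 2) * X ^ 3 + C c2 * (C α * C β ^ 3) * X ^ 4 := by
    unfold l03X
    simp only [map_add, map_sub, map_mul, map_pow, map_ofNat]
    linear_combination ((3 * C α * C β * C t ^ 2 - 6 * C g0 * C t * C β + 6 * C gy * C β) * X ^ 2 +
      C c2 * (C α * C β ^ 3) * X ^ 4) * H2
  refine ⟨7 * s ^ 2 * t ^ 2 * l01 - 6 * s ^ 2 * t * l02 + 2 * s ^ 2 * l03 - 24 * s * t ^ 2 * l11 + 6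
    * s * t * l12 + 18 * t ^ 2 * l21,
    3 * α * s ^ 2 * t ^ 3 + 14 * α * s * t ^ 2 * l01 - 12 * α * s * t * l02 + 4 * α * s * l03 -
    24 * α * t ^ 2 * l11 + 6 * α * t * l12 + 14 * β * s ^ 2 * t * l01 - 6 * β * s ^ 2 * l02 -
    48 * β * s * t * l11 + 6 * β * s * l12 + 36 * β * t * l21 - 7 * g0 * s ^ 2 * t ^ 2 + 24 *
    gx * s * t ^ 2 + 12 * gy * s ^ 2 * t - 36 * gxx * t ^ 2 - 12 * gxy * s * t - 12 * gyy * s ^
    2,
    7 * c2 * α * β * s ^ 2 * t ^ 2 - 3 * α ^ 2 * s * t ^ 3 + 7 * α ^ 2 * t ^ 2 * l01 - 6 * α ^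
    2 * t * l02 + 2 * α ^ 2 * l03 + 2 * α * β * s ^ 2 * t ^ 2 + 28 * α * β * s * t * l01 - 12 *
    α * β * s * l02 - 48 * α * β * t * l11 + 6 * α * β * l12 - 2 * α * g0 * s * t ^ 2 + 6 * α *
    gx * t ^ 2 + 18 * α * gy * s * t - 12 * α * gxy * t - 24 * α * gyy * s + 7 * β ^ 2 * s ^ 2
    * l01 - 24 * β ^ 2 * s * l11 + 18 * β ^ 2 * l21 - 8 * β * g0 * s ^ 2 * t + 42 * β * gx * s
    * t + 6 * β * gy * s ^ 2 - 72 * β * gxx * t - 12 * β * gxy * s,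
    14 * c2 * α ^ 2 * β * s * t ^ 2 + 14 * c2 * α * β ^ 2 * s ^ 2 * t - 15 * α ^ 2 * β * s * t
    ^ 2 + 14 * α ^ 2 * β * t * l01 - 6 * α ^ 2 * β * l02 - α ^ 2 * g0 * t ^ 2 + 6 * α ^ 2 * gy
    * t - 12 * α ^ 2 * gyy - 3 * α * β ^ 2 * s ^ 2 * t + 14 * α * β ^ 2 * s * l01 - 24 * α * β
    ^ 2 * l11 + 4 * α * β * g0 * s * t + 6 * α * β * gx * t + 6 * α * β * gy * s - 12 * α * β *
    gxy - 3 * β ^ 2 * g0 * s ^ 2 + 18 * β ^ 2 * gx * s - 36 * β ^ 2 * gxx,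
    16 * c2 * α ^ 3 * β * t ^ 2 + 31 * c2 * α ^ 2 * β ^ 2 * s * t + 8 * c2 * α * β ^ 3 * s ^ 2
    - 8 * α ^ 3 * β * t ^ 2 - 20 * α ^ 2 * β ^ 2 * s * t + 7 * α ^ 2 * β ^ 2 * l01 - 3 * α * β
    ^ 3 * s ^ 2 + 2 * α * β ^ 2 * g0 * s,
    -(c2 * (α ^ 2 * β ^ 2 * (2 * g0 + (β * s - α * t)))), ?_, rfl, ?_⟩
  · unfold NX sX
    rw [e01, e11, e02, e21, e12, e03]
    simp only [map_add, map_sub, map_mul, map_pow, map_ofNat, map_neg]
    linear_combination (10 * C α ^ 3 * C β ^ 3 * X ^ 6 + (17 * C α ^ 3 * C β ^ 2 * C t +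
      10 * C α ^ 2 * C β ^ 3 * C s + C α ^ 2 * C β ^ 2 * C g0) * X ^ 5) * H2
  · unfold S1
    linear_combination (-(
      -26 * α ^ 4 * β * s * t ^ 5 + 7 * α ^ 4 * β * t ^ 4 * l01 - 12 * α ^ 4 * β * t ^ 3 * l02
      + 6 * α ^ 4 * β * t ^ 2 * l03 + α ^ 4 * g0 * t ^ 5 - 6 * α ^ 4 * gy * t ^ 4 + 12 * α ^ 4
      * gyy * t ^ 3 - 65 * α ^ 3 * β ^ 2 * s ^ 2 * t ^ 4 - 28 * α ^ 3 * β ^ 2 * s * t ^ 3 * l01
      + 36 * α ^ 3 * β ^ 2 * s * t ^ 2 * l02 - 12 * α ^ 3 * β ^ 2 * s * t * l03 + 24 * α ^ 3 *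
      β ^ 2 * t ^ 3 * l11 - 18 * α ^ 3 * β ^ 2 * t ^ 2 * l12 - 4 * α ^ 3 * β * g0 * s * t ^ 4 +
      12 * α ^ 3 * β * gx * t ^ 4 + 12 * α ^ 3 * β * gy * s * t ^ 3 - 24 * α ^ 3 * β * gxy * t
      ^ 3 - 72 * α ^ 2 * β ^ 3 * s ^ 3 * t ^ 3 + 42 * α ^ 2 * β ^ 3 * s ^ 2 * t ^ 2 * l01 - 36
      * α ^ 2 * β ^ 3 * s ^ 2 * t * l02 + 6 * α ^ 2 * β ^ 3 * s ^ 2 * l03 - 72 * α ^ 2 * β ^ 3
      * s * t ^ 2 * l11 + 36 * α ^ 2 * β ^ 3 * s * t * l12 + 18 * α ^ 2 * β ^ 3 * t ^ 2 * l21 -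
      4 * α ^ 2 * β ^ 2 * g0 * s ^ 2 * t ^ 3 - 36 * α ^ 2 * β ^ 2 * gx * s * t ^ 3 + 36 * α ^ 2
      * β ^ 2 * gxx * t ^ 3 + 36 * α ^ 2 * β ^ 2 * gxy * s * t ^ 2 - 36 * α ^ 2 * β ^ 2 * gyy *
      s ^ 2 * t - 7 * α * β ^ 4 * s ^ 4 * t ^ 2 - 28 * α * β ^ 4 * s ^ 3 * t * l01 + 12 * α * β
      ^ 4 * s ^ 3 * l02 + 72 * α * β ^ 4 * s ^ 2 * t * l11 - 18 * α * β ^ 4 * s ^ 2 * l12 - 36
      * α * β ^ 4 * s * t * l21 - 4 * α * β ^ 3 * g0 * s ^ 3 * t ^ 2 + 36 * α * β ^ 3 * gx * s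
      ^ 2 * t ^ 2 - 12 * α * β ^ 3 * gy * s ^ 3 * t - 72 * α * β ^ 3 * gxx * s * t ^ 2 + 24 * α
      * β ^ 3 * gyy * s ^ 3 + 7 * β ^ 5 * s ^ 4 * l01 - 24 * β ^ 5 * s ^ 3 * l11 + 18 * β ^ 5 *
      s ^ 2 * l21 + β ^ 4 * g0 * s ^ 4 * t - 12 * β ^ 4 * gx * s ^ 3 * t + 6 * β ^ 4 * gy * s ^
      4 + 36 * β ^ 4 * gxx * s ^ 2 * t - 12 * β ^ 4 * gxy * s ^ 3)) * h2

end flows

section domain

variable {p : ℕ} [Fact p.Prime] {D : Type} [CommRing D] [IsDomain D] [CharP D p]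

/-- `[X^(p-1)] (s + α X)^(p-1) (t + β X)^(p-1) = (β s - α t)^(p-1)` -/
theorem coeff_mid (α β s t : D) :
    (sX α s ^ (p - 1) * sX β t ^ (p - 1)).coeff (p - 1) = (β * s - α * t) ^ (p - 1) := by
  have hp1 : 0 < p := (Fact.out : p.Prime).pos
  have hcoef : ∀ (u v : D) (n i : ℕ), ((C u + C v * X : D[X]) ^ n).coeff i =
      (n.choose i : D) * u ^ (n - i) * v ^ i := by
    intro u v n i
    have h1 : (C u + C v * X : D[X]) ^ n = ((X + C u) ^ n).comp (C v * X) := by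
      rw [pow_comp, add_comp, X_comp, C_comp, add_comm]
    rw [h1, comp_C_mul_X_coeff, coeff_X_add_C_pow]
    ring
  have hbin : ∀ i, i < p → ((p - 1).choose i : D) = (-1) ^ i := by
    intro i
    induction i with
    | zero => intro _; simp
    | succ i ih =>
      intro hi
      have h1 := ih (by omega)
      have h2 : p.choose (i + 1) = (p - 1).choose i + (p - 1).choose (i + 1) := by
        conv_lhs => rw [← Nat.sub_add_cancel hp1]
        exact Nat.choose_succ_succ _ _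
      have h3 : ((p.choose (i + 1) : ℕ) : D) = 0 := by
        rw [CharP.cast_eq_zero_iff D p]
        exact (Fact.out : p.Prime).dvd_choose_self (by omega) hi
      rw [h2] at h3
      push_cast at h3
      rw [h1] at h3
      rw [pow_succ]
      linear_combination h3
  have hsum : (sX α s ^ (p - 1) * sX β t ^ (p - 1)).coeff (p - 1) =
      ∑ i ∈ Finset.range p, (α * t) ^ i * (β * s) ^ (p - 1 - i) := by
    unfold sX
    rw [coeff_mul, Finset.Nat.sum_antidiagonal_eq_sum_range_succ_mk, Nat.succ_eq_add_one,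
      Nat.sub_add_cancel hp1]
    refine Finset.sum_congr rfl fun i hi => ?_
    rw [Finset.mem_range] at hi
    rw [hcoef, hcoef, hbin i hi, hbin (p - 1 - i) (by omega)]
    have h4 : p - 1 - (p - 1 - i) = i := by omega
    have h5 : ((-1 : D) ^ i) * (-1) ^ (p - 1 - i) = 1 := by
      rw [← pow_add, show i + (p - 1 - i) = p - 1 by omega]
      have h6 := hbin (p - 1) (by omega)
      rw [Nat.choose_self, Nat.cast_one] at h6
      exact h6.symm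
    rw [h4, mul_pow, mul_pow]
    linear_combination (s ^ (p - 1 - i) * α ^ i * t ^ i * β ^ (p - 1 - i)) * h5
  rw [hsum]
  have h7 : (∑ i ∈ Finset.range p, (α * t) ^ i * (β * s) ^ (p - 1 - i)) * (α * t - β * s) =
      (α * t - β * s) ^ p := by
    rw [(Commute.all (α * t) (β * s)).geom_sum₂_mul, sub_pow_char]
  by_cases h8 : α * t - β * s = 0
  · have h9 : α * t = β * s := sub_eq_zero.1 h8
    have h10 : p - 1 ≠ 0 := by
      have := (Fact.out : p.Prime).two_le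
      omega
    rw [h9, sub_self, zero_pow h10]
    have h11 : ∀ i ∈ Finset.range p, (β * s) ^ i * (β * s) ^ (p - 1 - i) = (β * s) ^ (p - 1) := by
      intro i hi
      rw [Finset.mem_range] at hi
      rw [← pow_add, show i + (p - 1 - i) = p - 1 by omega]
    rw [Finset.sum_congr rfl h11, Finset.sum_const, Finset.card_range, nsmul_eq_mul,
      CharP.cast_eq_zero, zero_mul]
  · apply mul_right_cancel₀ h8
    rw [h7]
    have h12 : (β * s - α * t) ^ (p - 1) = (α * t - β * s) ^ (p - 1) := by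
      have h6 := hbin (p - 1) (by omega)
      rw [Nat.choose_self, Nat.cast_one] at h6
      rw [← neg_sub (α * t) (β * s), neg_eq_neg_one_mul, mul_pow, ← h6, one_mul]
    rw [h12, ← pow_succ, Nat.sub_add_cancel hp1]

/-- `[X^(p-1)] (s + α X)^(p-4+i) (t + β X)^(p+2-i) = 0` for `i ≤ 5`, `i ≠ 3`: one of the exponents
is `≥ p`; take out the `p`-th power `(t + β X)^p = t^p + β^p X^p`, what is left has degree
`p - 2`. -/
theorem coeff_side (hp : 11 ≤ p) (α β s t : D) (i : ℕ) (hi : i ≤ 5) (h3 : i ≠ 3) :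
    (sX α s ^ (p - 4 + i) * sX β t ^ (p + 2 - i)).coeff (p - 1) = 0 := by
  have hside : ∀ (u v : D) (Q : D[X]), Q.natDegree < p - 1 →
      ((C u + C v * X : D[X]) ^ p * Q).coeff (p - 1) = 0 := by
    intro u v Q hQ
    rw [add_pow_char, mul_pow, add_mul, coeff_add, ← C_pow, coeff_C_mul,
      coeff_eq_zero_of_natDegree_lt hQ, mul_zero, zero_add, ← C_pow, mul_assoc, coeff_C_mul,
      coeff_X_pow_mul', if_neg (by omega), mul_zero]
  have hdeg1 : ∀ u v : D, (C u + C v * X : D[X]).natDegree ≤ 1 := by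
    intro u v
    refine (natDegree_add_le _ _).trans (max_le ?_ ?_)
    · rw [natDegree_C]
      exact Nat.zero_le _
    · exact (natDegree_C_mul_le v X).trans natDegree_X_le
  have hdeg : ∀ (u v u' v' : D) (a b : ℕ), a + b < p - 1 →
      ((C u + C v * X : D[X]) ^ a * (C u' + C v' * X : D[X]) ^ b).natDegree < p - 1 := by
    intro u v u' v' a b hab
    refine lt_of_le_of_lt (natDegree_mul_le.trans (add_le_add
      (natDegree_pow_le_of_le a (hdeg1 u v)) (natDegree_pow_le_of_le b (hdeg1 u' v')))) ?_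
    omega
  unfold sX
  have hcase : i ≤ 2 ∨ 4 ≤ i := by omega
  rcases hcase with hi2 | hi4
  · have e1 : p + 2 - i = p + (2 - i) := by omega
    have e2 : (C s + C α * X : D[X]) ^ (p - 4 + i) * (C t + C β * X) ^ (p + 2 - i) =
        (C t + C β * X) ^ p * ((C s + C α * X) ^ (p - 4 + i) * (C t + C β * X) ^ (2 - i)) := by
      rw [e1, pow_add]
      ring
    rw [e2]
    exact hside _ _ _ (hdeg _ _ _ _ _ _ (by omega))
  · have e1 : p - 4 + i = p + (i - 4) := by omega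
    have e2 : (C s + C α * X : D[X]) ^ (p - 4 + i) * (C t + C β * X) ^ (p + 2 - i) =
        (C s + C α * X) ^ p * ((C s + C α * X) ^ (i - 4) * (C t + C β * X) ^ (p + 2 - i)) := by
      rw [e1, pow_add]
      ring
    rw [e2]
    exact hside _ _ _ (hdeg _ _ _ _ _ _ (by omega))

/-- For a polynomial `N` of degree `≤ 5`: write `ω^5 N(X) = ∑ N_k (ω X)^k ω^(5-k)` with
`ω X = s t(X) - t s(X)` and `ω = β s(X) - α t(X)` and use `coeff_mid`, `coeff_side`; only the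
coefficient of `s(X)^3 t(X)^2` contributes. -/
theorem coeff_N (hp : 11 ≤ p) (α β s t n0 n1 n2 n3 n4 n5 : D) :
    (β * s - α * t) ^ 5 * (sX α s ^ (p - 4) * sX β t ^ (p - 3) *
      (C n0 + C n1 * X + C n2 * X ^ 2 + C n3 * X ^ 3 + C n4 * X ^ 4 + C n5 * X ^ 5)).coeff (p - 1) =
      (n0 * (10 * α ^ 2 * β ^ 3) + n1 * (-4 * s * α * β ^ 3 - 6 * t * α ^ 2 * β ^ 2) +
        n2 * (6 * s * t * α * β ^ 2 + s ^ 2 * β ^ 3 + 3 * t ^ 2 * α ^ 2 * β) +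
        n3 * (-6 * s * t ^ 2 * α * β - 3 * s ^ 2 * t * β ^ 2 - t ^ 3 * α ^ 2) +
        n4 * (4 * s * t ^ 3 * α + 6 * s ^ 2 * t ^ 2 * β) + n5 * (-10 * s ^ 2 * t ^ 3)) *
      (β * s - α * t) ^ (p - 1) := by
  have h1 : (C (β * s - α * t) : D[X]) * X = C s * sX β t - C t * sX α s := by
    unfold sX
    simp only [map_sub, map_mul]
    ring
  have h2 : (C (β * s - α * t) : D[X]) = C β * sX α s - C α * sX β t := by
    unfold sX
    simp only [map_sub, map_mul]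
    ring
  have key : C ((β * s - α * t) ^ 5) * (C n0 + C n1 * X + C n2 * X ^ 2 + C n3 * X ^ 3 +
      C n4 * X ^ 4 + C n5 * X ^ 5) =
      C (
        -α ^ 5 * n0 + α ^ 4 * s * n1 - α ^ 3 * s ^ 2 * n2 + α ^ 2 * s ^ 3 * n3 - α * s ^ 4 * n4
        + s ^ 5 * n5) * (sX α s ^ 0 * sX β t ^ 5) +
      C (
        5 * α ^ 4 * β * n0 - α ^ 4 * t * n1 - 4 * α ^ 3 * β * s * n1 + 2 * α ^ 3 * s * t * n2 +
        3 * α ^ 2 * β * s ^ 2 * n2 - 3 * α ^ 2 * s ^ 2 * t * n3 - 2 * α * β * s ^ 3 * n3 + 4 *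
        α * s ^ 3 * t * n4 + β * s ^ 4 * n4 - 5 * s ^ 4 * t * n5) * (sX α s ^ 1 * sX β t ^ 4) +
      C (
        -10 * α ^ 3 * β ^ 2 * n0 + 4 * α ^ 3 * β * t * n1 - α ^ 3 * t ^ 2 * n2 + 6 * α ^ 2 * β
        ^ 2 * s * n1 - 6 * α ^ 2 * β * s * t * n2 + 3 * α ^ 2 * s * t ^ 2 * n3 - 3 * α * β ^ 2
        * s ^ 2 * n2 + 6 * α * β * s ^ 2 * t * n3 - 6 * α * s ^ 2 * t ^ 2 * n4 + β ^ 2 * s ^ 3
        * n3 - 4 * β * s ^ 3 * t * n4 + 10 * s ^ 3 * t ^ 2 * n5) * (sX α s ^ 2 * sX β t ^ 3) +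
      C (
        10 * α ^ 2 * β ^ 3 * n0 - 6 * α ^ 2 * β ^ 2 * t * n1 + 3 * α ^ 2 * β * t ^ 2 * n2 - α ^
        2 * t ^ 3 * n3 - 4 * α * β ^ 3 * s * n1 + 6 * α * β ^ 2 * s * t * n2 - 6 * α * β * s *
        t ^ 2 * n3 + 4 * α * s * t ^ 3 * n4 + β ^ 3 * s ^ 2 * n2 - 3 * β ^ 2 * s ^ 2 * t * n3 +
        6 * β * s ^ 2 * t ^ 2 * n4 - 10 * s ^ 2 * t ^ 3 * n5) * (sX α s ^ 3 * sX β t ^ 2) +
      C (
        -5 * α * β ^ 4 * n0 + 4 * α * β ^ 3 * t * n1 - 3 * α * β ^ 2 * t ^ 2 * n2 + 2 * α * β *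
        t ^ 3 * n3 - α * t ^ 4 * n4 + β ^ 4 * s * n1 - 2 * β ^ 3 * s * t * n2 + 3 * β ^ 2 * s *
        t ^ 2 * n3 - 4 * β * s * t ^ 3 * n4 + 5 * s * t ^ 4 * n5) * (sX α s ^ 4 * sX β t ^ 1) +
      C (
        β ^ 5 * n0 - β ^ 4 * t * n1 + β ^ 3 * t ^ 2 * n2 - β ^ 2 * t ^ 3 * n3 + β * t ^ 4 * n4
        - t ^ 5 * n5) * (sX α s ^ 5 * sX β t ^ 0) := by
    have e0 : C ((β * s - α * t) ^ 5) * (C n0 + C n1 * X + C n2 * X ^ 2 + C n3 * X ^ 3 +
        C n4 * X ^ 4 + C n5 * X ^ 5 : D[X]) =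
        C n0 * C (β * s - α * t) ^ 5 +
        C n1 * (C (β * s - α * t) * X) * C (β * s - α * t) ^ 4 +
        C n2 * (C (β * s - α * t) * X) ^ 2 * C (β * s - α * t) ^ 3 +
        C n3 * (C (β * s - α * t) * X) ^ 3 * C (β * s - α * t) ^ 2 +
        C n4 * (C (β * s - α * t) * X) ^ 4 * C (β * s - α * t) +
        C n5 * (C (β * s - α * t) * X) ^ 5 := by
      rw [C_pow]
      ring
    rw [e0, h1, h2]
    generalize sX α s = S
    generalize sX β t = T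
    simp only [map_add, map_sub, map_mul, map_pow, map_ofNat, map_neg]
    ring
  have h3 := coeff_mid (p := p) α β s t
  have hS : ∀ i, i ≤ 5 → i ≠ 3 → (sX α s ^ (p - 4) * sX β t ^ (p - 3) *
      (sX α s ^ i * sX β t ^ (5 - i))).coeff (p - 1) = 0 := by
    intro i hi hi3
    have e1 : sX α s ^ (p - 4) * sX β t ^ (p - 3) * (sX α s ^ i * sX β t ^ (5 - i)) =
        sX α s ^ (p - 4 + i) * sX β t ^ (p + 2 - i) := by
      rw [show p + 2 - i = (p - 3) + (5 - i) by omega, pow_add, pow_add]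
      ring
    rw [e1]
    exact coeff_side hp α β s t i hi hi3
  have hS3 : (sX α s ^ (p - 4) * sX β t ^ (p - 3) *
      (sX α s ^ 3 * sX β t ^ (5 - 3))).coeff (p - 1) = (β * s - α * t) ^ (p - 1) := by
    have e1 : sX α s ^ (p - 4) * sX β t ^ (p - 3) * (sX α s ^ 3 * sX β t ^ (5 - 3)) =
        sX α s ^ (p - 1) * sX β t ^ (p - 1) := by
      rw [show p - 1 = (p - 4) + 3 by omega, pow_add,
        show sX β t ^ (p - 4 + 3) = sX β t ^ (p - 3) * sX β t ^ (5 - 3) by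
          rw [← pow_add]; congr 1; omega]
      ring
    rw [e1]
    exact h3
  rw [← coeff_C_mul]
  have e2 : C ((β * s - α * t) ^ 5) * (sX α s ^ (p - 4) * sX β t ^ (p - 3) *
      (C n0 + C n1 * X + C n2 * X ^ 2 + C n3 * X ^ 3 + C n4 * X ^ 4 + C n5 * X ^ 5)) =
      sX α s ^ (p - 4) * sX β t ^ (p - 3) * (C ((β * s - α * t) ^ 5) *
      (C n0 + C n1 * X + C n2 * X ^ 2 + C n3 * X ^ 3 + C n4 * X ^ 4 + C n5 * X ^ 5)) := by
    ring
  rw [e2, key]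
  have hpush : ∀ (e : D) (Q P : D[X]), P * (C e * Q) = C e * (P * Q) := by
    intro e Q P
    ring
  simp only [mul_add, coeff_add, hpush, coeff_C_mul]
  rw [hS 0 (by omega) (by omega), hS 1 (by omega) (by omega), hS 2 (by omega) (by omega), hS3,
    hS 4 (by omega) (by omega), hS 5 (by omega) (by omega)]
  ring

end domain

end Helper44.BL
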