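import Pool.Agent.Helper44.BL.Exp
import Pool.Agent.Helper44.BL.FX
import Pool.Agent.Helper44.BL.Theta

/-!
# BL-15: the flows of the functions `s, t, l01, ..., l03, fxs`
-/

set_option linter.unusedSimpArgs false

namespace Helper44.BL

open Sh Polynomial

variable {p : ℕ} [Fact p.Prime] {R : Type} [CommRing R] [Algebra (ZMod p) R]
  {u : Module.End R (Sh R)} {α β : R} {e : List Bool → R}

/-! ### private lemmas -/

private theorem ca_expand (u : Module.End R (Sh R)) {g g1 g2 g3 g4 q2 q3 q4 : Sh R}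
    (h1 : u g = g1) (h2 : u g1 = g2) (h3 : u g2 = g3) (h4 : u g3 = g4) (h5 : u g4 = 0)
    (e2 : algebraMap R (Sh R) (iv p R 2) * g2 = q2)
    (e3 : algebraMap R (Sh R) (iv p R 3) * g3 = q3)
    (e4 : algebraMap R (Sh R) (iv p R 4) * g4 = q4) :
    fl p u g = C g + C g1 * X + C q2 * X ^ 2 + C q3 * X ^ 3 + C q4 * X ^ 4 := by
  have p0 : (u ^ 0) g = g := rfl
  have p1 : (u ^ 1) g = g1 := by rw [pow_one, h1]
  have p2 : (u ^ 2) g = g2 := by rw [pow_succ', Module.End.mul_apply, p1, h2]
  have p3 : (u ^ 3) g = g3 := by rw [pow_succ', Module.End.mul_apply, p2, h3]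
  have p4 : (u ^ 4) g = g4 := by rw [pow_succ', Module.End.mul_apply, p3, h4]
  have p5 : (u ^ 5) g = 0 := by rw [pow_succ', Module.End.mul_apply, p4, h5]
  have p6 : (u ^ 6) g = 0 := by rw [pow_succ', Module.End.mul_apply, p5, map_zero]
  have p7 : (u ^ 7) g = 0 := by rw [pow_succ', Module.End.mul_apply, p6, map_zero]
  have p8 : (u ^ 8) g = 0 := by rw [pow_succ', Module.End.mul_apply, p7, map_zero]
  have p9 : (u ^ 9) g = 0 := by rw [pow_succ', Module.End.mul_apply, p8, map_zero]
  unfold fl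
  simp only [Finset.sum_range_succ, Finset.sum_range_zero]
  rw [p0, p1, p2, p3, p4, p5, p6, p7, p8, p9, iv_zero, iv_one, one_smul, one_smul, smul_zero,
    smul_zero, smul_zero, smul_zero, smul_zero, Algebra.smul_def, Algebra.smul_def,
    Algebra.smul_def, e2, e3, e4]
  simp only [C_0, zero_mul, add_zero, zero_add, pow_zero, mul_one, pow_one]

private theorem ca_num (hu : IsLF R u) (k : ℕ) : u (k : Sh R) = 0 := by
  rw [← map_natCast (algebraMap R (Sh R)) k]
  exact hu.map_const _

private theorem ca_half (hp : 11 ≤ p) :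
    2 * algebraMap R (Sh R) (iv p R 2) = 1 := by
  have h := iv_mul p R (k := 2) (by omega)
  have h' := congrArg (algebraMap R (Sh R)) h
  rw [map_mul, map_natCast, map_one] at h'
  have e : ((Nat.factorial 2 : ℕ) : Sh R) = 2 := by norm_num [Nat.factorial]
  rwa [e] at h'

private theorem ca_six (hp : 11 ≤ p) :
    6 * algebraMap R (Sh R) (iv p R 3) = 1 := by
  have h := iv_mul p R (k := 3) (by omega)
  have h' := congrArg (algebraMap R (Sh R)) h
  rw [map_mul, map_natCast, map_one] at h'
  have e : ((Nat.factorial 3 : ℕ) : Sh R) = 6 := by norm_num [Nat.factorial]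
  rwa [e] at h'

private theorem ca_24 (hp : 11 ≤ p) :
    24 * algebraMap R (Sh R) (iv p R 4) = 1 := by
  have h := iv_mul p R (k := 4) (by omega)
  have h' := congrArg (algebraMap R (Sh R)) h
  rw [map_mul, map_natCast, map_one] at h'
  have e : ((Nat.factorial 4 : ℕ) : Sh R) = 24 := by norm_num [Nat.factorial]
  rwa [e] at h'

private theorem ca_quarter (hp : 11 ≤ p) :
    6 * algebraMap R (Sh R) (iv p R 4) =
      algebraMap R (Sh R) (iv p R 2) * algebraMap R (Sh R) (iv p R 2) := by
  have h2 := ca_half (R := R) hp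
  have h4 := ca_24 (R := R) hp
  linear_combination (algebraMap R (Sh R) (iv p R 2)) ^ 2 * h4 -
    6 * algebraMap R (Sh R) (iv p R 4) * (2 * algebraMap R (Sh R) (iv p R 2) + 1) * h2

/-- one half and one third -/
theorem half_iv (hp : 11 ≤ p) : 2 * iv p R 2 = 1 := by
  have h := iv_mul p R (k := 2) (by omega)
  have e : ((Nat.factorial 2 : ℕ) : R) = 2 := by norm_num [Nat.factorial]
  rwa [e] at h

theorem third_iv (hp : 11 ≤ p) : 3 * (2 * iv p R 3) = 1 := by
  have h := iv_mul p R (k := 3) (by omega)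
  have e : ((Nat.factorial 3 : ℕ) : R) = 6 := by norm_num [Nat.factorial]
  rw [e] at h
  linear_combination h

/-- In all these statements compute `u g`, `u (u g)`, ... with `Co.s, ...` and the Leibniz rule;
the powers vanish from `u^5 g` on. Here `c2 = algebraMap (iv p R 2)`,
`c3 = algebraMap (2 * iv p R 3)`. -/
theorem fl_sS (hu : IsLF R u) (hco : Co u α β e) :
    fl p u (sS R) = sX (algebraMap R (Sh R) α) (sS R) := by
  have ha := hu.map_const α
  rw [ca_expand (p := p) u (g1 := algebraMap R (Sh R) α) (g2 := 0) (g3 := 0) (g4 := 0) (q2 := 0)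
    (q3 := 0) (q4 := 0) hco.s ha (map_zero u) (map_zero u) (map_zero u) (mul_zero _) (mul_zero _)
    (mul_zero _)]
  simp only [sX, C_0, zero_mul, add_zero]

theorem fl_tS (hu : IsLF R u) (hco : Co u α β e) :
    fl p u (tS R) = sX (algebraMap R (Sh R) β) (tS R) := by
  have ha := hu.map_const β
  rw [ca_expand (p := p) u (g1 := algebraMap R (Sh R) β) (g2 := 0) (g3 := 0) (g4 := 0) (q2 := 0)
    (q3 := 0) (q4 := 0) hco.t ha (map_zero u) (map_zero u) (map_zero u) (mul_zero _) (mul_zero _)
    (mul_zero _)]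
  simp only [sX, C_0, zero_mul, add_zero]

theorem fl_l01 (hu : IsLF R u) (hco : Co u α β e) :
    fl p u (l01 R) = l01X (algebraMap R (Sh R) (iv p R 2)) (algebraMap R (Sh R) α)
      (algebraMap R (Sh R) β) (algebraMap R (Sh R) (e [])) (tS R) (l01 R) := by
  have hL := hu.leibniz
  have ha := hu.map_const α
  have hb := hu.map_const β
  have hg := hu.map_const (e [])
  have hx := hu.map_const (e [true])
  have hy := hu.map_const (e [false])
  have hxx := hu.map_const (e [true, true])
  have hxy := hu.map_const (e [true, false] + e [false, true])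
  have hyy := hu.map_const (e [false, false])
  have hz := hu.map_const (e [true, false])
  have hw := hu.map_const (e [false, true])
  have hs := hco.s
  have ht := hco.t
  have n2 := ca_num hu 2
  have n3 := ca_num hu 3
  have n4 := ca_num hu 4
  have n6 := ca_num hu 6
  push_cast at n2 n3 n4 n6
  have d1 : u (l01 R) = (algebraMap R (Sh R) α) * tS R - (algebraMap R (Sh R) (e [])) := by
    rw [hco.l01]
    simp only [Algebra.smul_def, map_mul, map_ofNat, map_add]
  have d2 : u ((algebraMap R (Sh R) α) * tS R - (algebraMap R (Sh R) (e []))) = (algebraMap R (Sh R) α) * (algebraMap R (Sh R) β) := by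
    simp only [pow_succ, pow_zero, one_mul, hL, map_add, map_sub, map_neg, ha, hb, hg, hx, hy,
      hxx, hxy, hyy, hz, hw, hs, ht, n2, n3, n4, n6, map_zero]
    ring
  have d3 : u ((algebraMap R (Sh R) α) * (algebraMap R (Sh R) β)) = 0 := by
    simp only [pow_succ, pow_zero, one_mul, hL, map_add, map_sub, map_neg, ha, hb, hg, hx, hy,
      hxx, hxy, hyy, hz, hw, hs, ht, n2, n3, n4, n6, map_zero]
    ring
  have d4 : u (0 : Sh R) = 0 := map_zero u
  have d5 : u (0 : Sh R) = 0 := map_zero u
  have e2 : algebraMap R (Sh R) (iv p R 2) * ((algebraMap R (Sh R) α) * (algebraMap R (Sh R) β)) = (algebraMap R (Sh R) (iv p R 2)) * ((algebraMap R (Sh R) α) * (algebraMap R (Sh R) β)) := by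
    rfl
  have e3 : algebraMap R (Sh R) (iv p R 3) * (0) = 0 := by
    exact mul_zero _
  have e4 : algebraMap R (Sh R) (iv p R 4) * (0) = 0 := by
    exact mul_zero _
  rw [ca_expand (p := p) u d1 d2 d3 d4 d5 e2 e3 e4]
  simp only [l01X, C_0, zero_mul, add_zero]

theorem fl_l11 (hp : 11 ≤ p) (hu : IsLF R u) (hco : Co u α β e) :
    fl p u (l11 R) = l11X (algebraMap R (Sh R) (iv p R 2))
      (algebraMap R (Sh R) (2 * iv p R 3)) (algebraMap R (Sh R) α)
      (algebraMap R (Sh R) β) (algebraMap R (Sh R) (e [])) (algebraMap R (Sh R) (e [true]))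
      (sS R) (tS R) (l11 R) := by
  have hL := hu.leibniz
  have ha := hu.map_const α
  have hb := hu.map_const β
  have hg := hu.map_const (e [])
  have hx := hu.map_const (e [true])
  have hy := hu.map_const (e [false])
  have hxx := hu.map_const (e [true, true])
  have hxy := hu.map_const (e [true, false] + e [false, true])
  have hyy := hu.map_const (e [false, false])
  have hz := hu.map_const (e [true, false])
  have hw := hu.map_const (e [false, true])
  have hs := hco.s
  have ht := hco.t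
  have n2 := ca_num hu 2
  have n3 := ca_num hu 3
  have n4 := ca_num hu 4
  have n6 := ca_num hu 6
  push_cast at n2 n3 n4 n6
  have k3 : algebraMap R (Sh R) (2 * iv p R 3) = 2 * algebraMap R (Sh R) (iv p R 3) := by
    rw [map_mul, map_ofNat]
  have k2 := ca_half (R := R) hp
  have k6 := ca_six (R := R) hp
  have k4 := ca_quarter (R := R) hp
  have d1 : u (l11 R) = (algebraMap R (Sh R) α) * sS R * tS R - (algebraMap R (Sh R) (e [])) * sS R + (algebraMap R (Sh R) (e [true])) := by
    rw [hco.l11]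
    simp only [Algebra.smul_def, map_mul, map_ofNat, map_add]
    ring
  have d2 : u ((algebraMap R (Sh R) α) * sS R * tS R - (algebraMap R (Sh R) (e [])) * sS R + (algebraMap R (Sh R) (e [true]))) = (algebraMap R (Sh R) α) * ((algebraMap R (Sh R) α) * tS R + (algebraMap R (Sh R) β) * sS R) - (algebraMap R (Sh R) (e [])) * (algebraMap R (Sh R) α) := by
    simp only [pow_succ, pow_zero, one_mul, hL, map_add, map_sub, map_neg, ha, hb, hg, hx, hy,
      hxx, hxy, hyy, hz, hw, hs, ht, n2, n3, n4, n6, map_zero]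
    ring
  have d3 : u ((algebraMap R (Sh R) α) * ((algebraMap R (Sh R) α) * tS R + (algebraMap R (Sh R) β) * sS R) - (algebraMap R (Sh R) (e [])) * (algebraMap R (Sh R) α)) = 2 * ((algebraMap R (Sh R) α) ^ 2 * (algebraMap R (Sh R) β)) := by
    simp only [pow_succ, pow_zero, one_mul, hL, map_add, map_sub, map_neg, ha, hb, hg, hx, hy,
      hxx, hxy, hyy, hz, hw, hs, ht, n2, n3, n4, n6, map_zero]
    ring
  have d4 : u (2 * ((algebraMap R (Sh R) α) ^ 2 * (algebraMap R (Sh R) β))) = 0 := by
    simp only [pow_succ, pow_zero, one_mul, hL, map_add, map_sub, map_neg, ha, hb, hg, hx, hy,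
      hxx, hxy, hyy, hz, hw, hs, ht, n2, n3, n4, n6, map_zero]
    ring
  have d5 : u (0 : Sh R) = 0 := map_zero u
  have e2 : algebraMap R (Sh R) (iv p R 2) * ((algebraMap R (Sh R) α) * ((algebraMap R (Sh R) α) * tS R + (algebraMap R (Sh R) β) * sS R) - (algebraMap R (Sh R) (e [])) * (algebraMap R (Sh R) α)) = (algebraMap R (Sh R) (iv p R 2)) * ((algebraMap R (Sh R) α) * ((algebraMap R (Sh R) α) * tS R + (algebraMap R (Sh R) β) * sS R) - (algebraMap R (Sh R) (e [])) * (algebraMap R (Sh R) α)) := by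
    rfl
  have e3 : algebraMap R (Sh R) (iv p R 3) * (2 * ((algebraMap R (Sh R) α) ^ 2 * (algebraMap R (Sh R) β))) = (algebraMap R (Sh R) (2 * iv p R 3)) * ((algebraMap R (Sh R) α) ^ 2 * (algebraMap R (Sh R) β)) := by
    rw [k3]; ring
  have e4 : algebraMap R (Sh R) (iv p R 4) * (0) = 0 := by
    exact mul_zero _
  rw [ca_expand (p := p) u d1 d2 d3 d4 d5 e2 e3 e4]
  simp only [l11X, C_0, zero_mul, add_zero]

theorem fl_l02 (hp : 11 ≤ p) (hu : IsLF R u) (hco : Co u α β e) :
    fl p u (l02 R) = l02X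
      (algebraMap R (Sh R) (2 * iv p R 3)) (algebraMap R (Sh R) α)
      (algebraMap R (Sh R) β) (algebraMap R (Sh R) (e [])) (algebraMap R (Sh R) (e [false]))
      (tS R) (l02 R) := by
  have hL := hu.leibniz
  have ha := hu.map_const α
  have hb := hu.map_const β
  have hg := hu.map_const (e [])
  have hx := hu.map_const (e [true])
  have hy := hu.map_const (e [false])
  have hxx := hu.map_const (e [true, true])
  have hxy := hu.map_const (e [true, false] + e [false, true])
  have hyy := hu.map_const (e [false, false])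
  have hz := hu.map_const (e [true, false])
  have hw := hu.map_const (e [false, true])
  have hs := hco.s
  have ht := hco.t
  have n2 := ca_num hu 2
  have n3 := ca_num hu 3
  have n4 := ca_num hu 4
  have n6 := ca_num hu 6
  push_cast at n2 n3 n4 n6
  have k3 : algebraMap R (Sh R) (2 * iv p R 3) = 2 * algebraMap R (Sh R) (iv p R 3) := by
    rw [map_mul, map_ofNat]
  have k2 := ca_half (R := R) hp
  have k6 := ca_six (R := R) hp
  have k4 := ca_quarter (R := R) hp
  have d1 : u (l02 R) = (algebraMap R (Sh R) α) * tS R ^ 2 - 2 * (algebraMap R (Sh R) (e [])) * tS R + 2 * (algebraMap R (Sh R) (e [false])) := by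
    rw [hco.l02]
    simp only [Algebra.smul_def, map_mul, map_ofNat, map_add]
  have d2 : u ((algebraMap R (Sh R) α) * tS R ^ 2 - 2 * (algebraMap R (Sh R) (e [])) * tS R + 2 * (algebraMap R (Sh R) (e [false]))) = 2 * ((algebraMap R (Sh R) α) * (algebraMap R (Sh R) β) * tS R - (algebraMap R (Sh R) (e [])) * (algebraMap R (Sh R) β)) := by
    simp only [pow_succ, pow_zero, one_mul, hL, map_add, map_sub, map_neg, ha, hb, hg, hx, hy,
      hxx, hxy, hyy, hz, hw, hs, ht, n2, n3, n4, n6, map_zero]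
    ring
  have d3 : u (2 * ((algebraMap R (Sh R) α) * (algebraMap R (Sh R) β) * tS R - (algebraMap R (Sh R) (e [])) * (algebraMap R (Sh R) β))) = 2 * ((algebraMap R (Sh R) α) * (algebraMap R (Sh R) β) ^ 2) := by
    simp only [pow_succ, pow_zero, one_mul, hL, map_add, map_sub, map_neg, ha, hb, hg, hx, hy,
      hxx, hxy, hyy, hz, hw, hs, ht, n2, n3, n4, n6, map_zero]
    ring
  have d4 : u (2 * ((algebraMap R (Sh R) α) * (algebraMap R (Sh R) β) ^ 2)) = 0 := by
    simp only [pow_succ, pow_zero, one_mul, hL, map_add, map_sub, map_neg, ha, hb, hg, hx, hy,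
      hxx, hxy, hyy, hz, hw, hs, ht, n2, n3, n4, n6, map_zero]
    ring
  have d5 : u (0 : Sh R) = 0 := map_zero u
  have e2 : algebraMap R (Sh R) (iv p R 2) * (2 * ((algebraMap R (Sh R) α) * (algebraMap R (Sh R) β) * tS R - (algebraMap R (Sh R) (e [])) * (algebraMap R (Sh R) β))) = (algebraMap R (Sh R) α) * (algebraMap R (Sh R) β) * tS R - (algebraMap R (Sh R) (e [])) * (algebraMap R (Sh R) β) := by
    linear_combination ((algebraMap R (Sh R) α) * (algebraMap R (Sh R) β) * tS R - (algebraMap R (Sh R) (e [])) * (algebraMap R (Sh R) β)) * k2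
  have e3 : algebraMap R (Sh R) (iv p R 3) * (2 * ((algebraMap R (Sh R) α) * (algebraMap R (Sh R) β) ^ 2)) = (algebraMap R (Sh R) (2 * iv p R 3)) * ((algebraMap R (Sh R) α) * (algebraMap R (Sh R) β) ^ 2) := by
    rw [k3]; ring
  have e4 : algebraMap R (Sh R) (iv p R 4) * (0) = 0 := by
    exact mul_zero _
  rw [ca_expand (p := p) u d1 d2 d3 d4 d5 e2 e3 e4]
  simp only [l02X, C_0, zero_mul, add_zero]

theorem fl_l21 (hp : 11 ≤ p) (hu : IsLF R u) (hco : Co u α β e) :
    fl p u (l21 R) = l21X (algebraMap R (Sh R) (iv p R 2))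
      (algebraMap R (Sh R) (2 * iv p R 3)) (algebraMap R (Sh R) α)
      (algebraMap R (Sh R) β) (algebraMap R (Sh R) (e [])) (algebraMap R (Sh R) (e [true]))
      (algebraMap R (Sh R) (e [true, true])) (sS R) (tS R) (l21 R) := by
  have hL := hu.leibniz
  have ha := hu.map_const α
  have hb := hu.map_const β
  have hg := hu.map_const (e [])
  have hx := hu.map_const (e [true])
  have hy := hu.map_const (e [false])
  have hxx := hu.map_const (e [true, true])
  have hxy := hu.map_const (e [true, false] + e [false, true])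
  have hyy := hu.map_const (e [false, false])
  have hz := hu.map_const (e [true, false])
  have hw := hu.map_const (e [false, true])
  have hs := hco.s
  have ht := hco.t
  have n2 := ca_num hu 2
  have n3 := ca_num hu 3
  have n4 := ca_num hu 4
  have n6 := ca_num hu 6
  push_cast at n2 n3 n4 n6
  have k3 : algebraMap R (Sh R) (2 * iv p R 3) = 2 * algebraMap R (Sh R) (iv p R 3) := by
    rw [map_mul, map_ofNat]
  have k2 := ca_half (R := R) hp
  have k6 := ca_six (R := R) hp
  have k4 := ca_quarter (R := R) hp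
  have d1 : u (l21 R) = (algebraMap R (Sh R) α) * sS R ^ 2 * tS R - (algebraMap R (Sh R) (e [])) * sS R ^ 2 + 2 * (algebraMap R (Sh R) (e [true])) * sS R - 2 * (algebraMap R (Sh R) (e [true, true])) := by
    rw [hco.l21]
    simp only [Algebra.smul_def, map_mul, map_ofNat, map_add]
    ring
  have d2 : u ((algebraMap R (Sh R) α) * sS R ^ 2 * tS R - (algebraMap R (Sh R) (e [])) * sS R ^ 2 + 2 * (algebraMap R (Sh R) (e [true])) * sS R - 2 * (algebraMap R (Sh R) (e [true, true]))) = (algebraMap R (Sh R) α) * (2 * sS R * (algebraMap R (Sh R) α) * tS R + sS R ^ 2 * (algebraMap R (Sh R) β)) - 2 * (algebraMap R (Sh R) (e [])) * sS R * (algebraMap R (Sh R) α) + 2 * (algebraMap R (Sh R) (e [true])) * (algebraMap R (Sh R) α) := by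
    simp only [pow_succ, pow_zero, one_mul, hL, map_add, map_sub, map_neg, ha, hb, hg, hx, hy,
      hxx, hxy, hyy, hz, hw, hs, ht, n2, n3, n4, n6, map_zero]
    ring
  have d3 : u ((algebraMap R (Sh R) α) * (2 * sS R * (algebraMap R (Sh R) α) * tS R + sS R ^ 2 * (algebraMap R (Sh R) β)) - 2 * (algebraMap R (Sh R) (e [])) * sS R * (algebraMap R (Sh R) α) + 2 * (algebraMap R (Sh R) (e [true])) * (algebraMap R (Sh R) α)) = 2 * ((algebraMap R (Sh R) α) * ((algebraMap R (Sh R) α) ^ 2 * tS R + 2 * sS R * (algebraMap R (Sh R) α) * (algebraMap R (Sh R) β)) - (algebraMap R (Sh R) (e [])) * (algebraMap R (Sh R) α) ^ 2) := by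
    simp only [pow_succ, pow_zero, one_mul, hL, map_add, map_sub, map_neg, ha, hb, hg, hx, hy,
      hxx, hxy, hyy, hz, hw, hs, ht, n2, n3, n4, n6, map_zero]
    ring
  have d4 : u (2 * ((algebraMap R (Sh R) α) * ((algebraMap R (Sh R) α) ^ 2 * tS R + 2 * sS R * (algebraMap R (Sh R) α) * (algebraMap R (Sh R) β)) - (algebraMap R (Sh R) (e [])) * (algebraMap R (Sh R) α) ^ 2)) = 6 * ((algebraMap R (Sh R) α) ^ 3 * (algebraMap R (Sh R) β)) := by
    simp only [pow_succ, pow_zero, one_mul, hL, map_add, map_sub, map_neg, ha, hb, hg, hx, hy,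
      hxx, hxy, hyy, hz, hw, hs, ht, n2, n3, n4, n6, map_zero]
    ring
  have d5 : u (6 * ((algebraMap R (Sh R) α) ^ 3 * (algebraMap R (Sh R) β))) = 0 := by
    simp only [pow_succ, pow_zero, one_mul, hL, map_add, map_sub, map_neg, ha, hb, hg, hx, hy,
      hxx, hxy, hyy, hz, hw, hs, ht, n2, n3, n4, n6, map_zero]
    ring
  have e2 : algebraMap R (Sh R) (iv p R 2) * ((algebraMap R (Sh R) α) * (2 * sS R * (algebraMap R (Sh R) α) * tS R + sS R ^ 2 * (algebraMap R (Sh R) β)) - 2 * (algebraMap R (Sh R) (e [])) * sS R * (algebraMap R (Sh R) α) + 2 * (algebraMap R (Sh R) (e [true])) * (algebraMap R (Sh R) α)) = (algebraMap R (Sh R) (iv p R 2)) * ((algebraMap R (Sh R) α) * (2 * sS R * (algebraMap R (Sh R) α) * tS R + sS R ^ 2 * (algebraMap R (Sh R) β)) - 2 * (algebraMap R (Sh R) (e [])) * sS R * (algebraMap R (Sh R) α) + 2 * (algebraMap R (Sh R) (e [true])) * (algebraMap R (Sh R) α)) := by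
    rfl
  have e3 : algebraMap R (Sh R) (iv p R 3) * (2 * ((algebraMap R (Sh R) α) * ((algebraMap R (Sh R) α) ^ 2 * tS R + 2 * sS R * (algebraMap R (Sh R) α) * (algebraMap R (Sh R) β)) - (algebraMap R (Sh R) (e [])) * (algebraMap R (Sh R) α) ^ 2)) = (algebraMap R (Sh R) (2 * iv p R 3)) * ((algebraMap R (Sh R) α) * ((algebraMap R (Sh R) α) ^ 2 * tS R + 2 * sS R * (algebraMap R (Sh R) α) * (algebraMap R (Sh R) β)) - (algebraMap R (Sh R) (e [])) * (algebraMap R (Sh R) α) ^ 2) := by
    rw [k3]; ring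
  have e4 : algebraMap R (Sh R) (iv p R 4) * (6 * ((algebraMap R (Sh R) α) ^ 3 * (algebraMap R (Sh R) β))) = (algebraMap R (Sh R) (iv p R 2)) * (algebraMap R (Sh R) (iv p R 2)) * ((algebraMap R (Sh R) α) ^ 3 * (algebraMap R (Sh R) β)) := by
    linear_combination ((algebraMap R (Sh R) α) ^ 3 * (algebraMap R (Sh R) β)) * k4
  rw [ca_expand (p := p) u d1 d2 d3 d4 d5 e2 e3 e4]
  simp only [l21X, C_0, zero_mul, add_zero]

theorem fl_l12 (hp : 11 ≤ p) (hu : IsLF R u) (hco : Co u α β e) :
    fl p u (l12 R) = l12X (algebraMap R (Sh R) (iv p R 2))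
      (algebraMap R (Sh R) (2 * iv p R 3)) (algebraMap R (Sh R) α)
      (algebraMap R (Sh R) β) (algebraMap R (Sh R) (e [])) (algebraMap R (Sh R) (e [true]))
      (algebraMap R (Sh R) (e [false]))
      (algebraMap R (Sh R) (e [true, false] + e [false, true])) (sS R) (tS R) (l12 R) := by
  have hL := hu.leibniz
  have ha := hu.map_const α
  have hb := hu.map_const β
  have hg := hu.map_const (e [])
  have hx := hu.map_const (e [true])
  have hy := hu.map_const (e [false])
  have hxx := hu.map_const (e [true, true])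
  have hxy := hu.map_const (e [true, false] + e [false, true])
  have hyy := hu.map_const (e [false, false])
  have hz := hu.map_const (e [true, false])
  have hw := hu.map_const (e [false, true])
  have hs := hco.s
  have ht := hco.t
  have n2 := ca_num hu 2
  have n3 := ca_num hu 3
  have n4 := ca_num hu 4
  have n6 := ca_num hu 6
  push_cast at n2 n3 n4 n6
  have k3 : algebraMap R (Sh R) (2 * iv p R 3) = 2 * algebraMap R (Sh R) (iv p R 3) := by
    rw [map_mul, map_ofNat]
  have k2 := ca_half (R := R) hp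
  have k6 := ca_six (R := R) hp
  have k4 := ca_quarter (R := R) hp
  have d1 : u (l12 R) = (algebraMap R (Sh R) α) * sS R * tS R ^ 2 - 2 * (algebraMap R (Sh R) (e [])) * sS R * tS R + 2 * (algebraMap R (Sh R) (e [true])) * tS R + 2 * (algebraMap R (Sh R) (e [false])) * sS R - 2 * (algebraMap R (Sh R) (e [true, false] + e [false, true])) := by
    rw [hco.l12]
    simp only [Algebra.smul_def, map_mul, map_ofNat, map_add]
    ring
  have d2 : u ((algebraMap R (Sh R) α) * sS R * tS R ^ 2 - 2 * (algebraMap R (Sh R) (e [])) * sS R * tS R + 2 * (algebraMap R (Sh R) (e [true])) * tS R + 2 * (algebraMap R (Sh R) (e [false])) * sS R - 2 * (algebraMap R (Sh R) (e [true, false] + e [false, true]))) = (algebraMap R (Sh R) α) * ((algebraMap R (Sh R) α) * tS R ^ 2 + 2 * sS R * tS R * (algebraMap R (Sh R) β)) - 2 * (algebraMap R (Sh R) (e [])) * ((algebraMap R (Sh R) α) * tS R + (algebraMap R (Sh R) β) * sS R) + 2 * (algebraMap R (Sh R) (e [true])) * (algebraMap R (Sh R) β) + 2 * (algebraMap R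 (Sh R) (e [false])) * (algebraMap R (Sh R) α) := by
    simp only [pow_succ, pow_zero, one_mul, hL, map_add, map_sub, map_neg, ha, hb, hg, hx, hy,
      hxx, hxy, hyy, hz, hw, hs, ht, n2, n3, n4, n6, map_zero]
    ring
  have d3 : u ((algebraMap R (Sh R) α) * ((algebraMap R (Sh R) α) * tS R ^ 2 + 2 * sS R * tS R * (algebraMap R (Sh R) β)) - 2 * (algebraMap R (Sh R) (e [])) * ((algebraMap R (Sh R) α) * tS R + (algebraMap R (Sh R) β) * sS R) + 2 * (algebraMap R (Sh R) (e [true])) * (algebraMap R (Sh R) β) + 2 * (algebraMap R (Sh R) (e [false])) * (algebraMap R (Sh R) α)) = 2 * ((algebraMap R (Sh R) α) * (2 * (algebraMap R (Sh R) α) * tS R * (algebraMap R (Sh R) β) + sS R * (algebraMap R (Sh R) β) ^ 2) - 2 * (algebraMap R (Sh R) (e [])) * (algebraMap R (Sh R) α) * (algebraMap R (Sh R) β)) := by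
    simp only [pow_succ, pow_zero, one_mul, hL, map_add, map_sub, map_neg, ha, hb, hg, hx, hy,
      hxx, hxy, hyy, hz, hw, hs, ht, n2, n3, n4, n6, map_zero]
    ring
  have d4 : u (2 * ((algebraMap R (Sh R) α) * (2 * (algebraMap R (Sh R) α) * tS R * (algebraMap R (Sh R) β) + sS R * (algebraMap R (Sh R) β) ^ 2) - 2 * (algebraMap R (Sh R) (e [])) * (algebraMap R (Sh R) α) * (algebraMap R (Sh R) β))) = 6 * ((algebraMap R (Sh R) α) ^ 2 * (algebraMap R (Sh R) β) ^ 2) := by
    simp only [pow_succ, pow_zero, one_mul, hL, map_add, map_sub, map_neg, ha, hb, hg, hx, hy,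
      hxx, hxy, hyy, hz, hw, hs, ht, n2, n3, n4, n6, map_zero]
    ring
  have d5 : u (6 * ((algebraMap R (Sh R) α) ^ 2 * (algebraMap R (Sh R) β) ^ 2)) = 0 := by
    simp only [pow_succ, pow_zero, one_mul, hL, map_add, map_sub, map_neg, ha, hb, hg, hx, hy,
      hxx, hxy, hyy, hz, hw, hs, ht, n2, n3, n4, n6, map_zero]
    ring
  have e2 : algebraMap R (Sh R) (iv p R 2) * ((algebraMap R (Sh R) α) * ((algebraMap R (Sh R) α) * tS R ^ 2 + 2 * sS R * tS R * (algebraMap R (Sh R) β)) - 2 * (algebraMap R (Sh R) (e [])) * ((algebraMap R (Sh R) α) * tS R + (algebraMap R (Sh R) β) * sS R) + 2 * (algebraMap R (Sh R) (e [true])) * (algebraMap R (Sh R) β) + 2 * (algebraMap R (Sh R) (e [false])) * (algebraMap R (Sh R) α)) = (algebraMap R (Sh R) (iv p R 2)) * ((algebraMap R (Sh R) α) * ((algebraMap R (Sh R) α) * tS R ^ 2 + 2 * sS R * tS R * (algebraMap R (Sh R) β)) - 2 * (algebraMap R (Sh R) (e [])) * ((algebraMap R (Sh R) α) * tS R + (algebraMap R (Sh R) β) * sS R) + 2 * (algebraMap R (Sh R) (e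 [true])) * (algebraMap R (Sh R) β) + 2 * (algebraMap R (Sh R) (e [false])) * (algebraMap R (Sh R) α)) := by
    rfl
  have e3 : algebraMap R (Sh R) (iv p R 3) * (2 * ((algebraMap R (Sh R) α) * (2 * (algebraMap R (Sh R) α) * tS R * (algebraMap R (Sh R) β) + sS R * (algebraMap R (Sh R) β) ^ 2) - 2 * (algebraMap R (Sh R) (e [])) * (algebraMap R (Sh R) α) * (algebraMap R (Sh R) β))) = (algebraMap R (Sh R) (2 * iv p R 3)) * ((algebraMap R (Sh R) α) * (2 * (algebraMap R (Sh R) α) * tS R * (algebraMap R (Sh R) β) + sS R * (algebraMap R (Sh R) β) ^ 2) - 2 * (algebraMap R (Sh R) (e [])) * (algebraMap R (Sh R) α) * (algebraMap R (Sh R) β)) := by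
    rw [k3]; ring
  have e4 : algebraMap R (Sh R) (iv p R 4) * (6 * ((algebraMap R (Sh R) α) ^ 2 * (algebraMap R (Sh R) β) ^ 2)) = (algebraMap R (Sh R) (iv p R 2)) * (algebraMap R (Sh R) (iv p R 2)) * ((algebraMap R (Sh R) α) ^ 2 * (algebraMap R (Sh R) β) ^ 2) := by
    linear_combination ((algebraMap R (Sh R) α) ^ 2 * (algebraMap R (Sh R) β) ^ 2) * k4
  rw [ca_expand (p := p) u d1 d2 d3 d4 d5 e2 e3 e4]
  simp only [l12X, C_0, zero_mul, add_zero]

theorem fl_l03 (hp : 11 ≤ p) (hu : IsLF R u) (hco : Co u α β e) :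
    fl p u (l03 R) = l03X (algebraMap R (Sh R) (iv p R 2)) (algebraMap R (Sh R) α)
      (algebraMap R (Sh R) β) (algebraMap R (Sh R) (e [])) (algebraMap R (Sh R) (e [false]))
      (algebraMap R (Sh R) (e [false, false])) (tS R) (l03 R) := by
  have hL := hu.leibniz
  have ha := hu.map_const α
  have hb := hu.map_const β
  have hg := hu.map_const (e [])
  have hx := hu.map_const (e [true])
  have hy := hu.map_const (e [false])
  have hxx := hu.map_const (e [true, true])
  have hxy := hu.map_const (e [true, false] + e [false, true])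
  have hyy := hu.map_const (e [false, false])
  have hz := hu.map_const (e [true, false])
  have hw := hu.map_const (e [false, true])
  have hs := hco.s
  have ht := hco.t
  have n2 := ca_num hu 2
  have n3 := ca_num hu 3
  have n4 := ca_num hu 4
  have n6 := ca_num hu 6
  push_cast at n2 n3 n4 n6
  have k3 : algebraMap R (Sh R) (2 * iv p R 3) = 2 * algebraMap R (Sh R) (iv p R 3) := by
    rw [map_mul, map_ofNat]
  have k2 := ca_half (R := R) hp
  have k6 := ca_six (R := R) hp
  have k4 := ca_quarter (R := R) hp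
  have d1 : u (l03 R) = (algebraMap R (Sh R) α) * tS R ^ 3 - 3 * (algebraMap R (Sh R) (e [])) * tS R ^ 2 + 6 * (algebraMap R (Sh R) (e [false])) * tS R - 6 * (algebraMap R (Sh R) (e [false, false])) := by
    rw [hco.l03]
    simp only [Algebra.smul_def, map_mul, map_ofNat, map_add]
  have d2 : u ((algebraMap R (Sh R) α) * tS R ^ 3 - 3 * (algebraMap R (Sh R) (e [])) * tS R ^ 2 + 6 * (algebraMap R (Sh R) (e [false])) * tS R - 6 * (algebraMap R (Sh R) (e [false, false]))) = 3 * (algebraMap R (Sh R) α) * (algebraMap R (Sh R) β) * tS R ^ 2 - 6 * (algebraMap R (Sh R) (e [])) * tS R * (algebraMap R (Sh R) β) + 6 * (algebraMap R (Sh R) (e [false])) * (algebraMap R (Sh R) β) := by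
    simp only [pow_succ, pow_zero, one_mul, hL, map_add, map_sub, map_neg, ha, hb, hg, hx, hy,
      hxx, hxy, hyy, hz, hw, hs, ht, n2, n3, n4, n6, map_zero]
    ring
  have d3 : u (3 * (algebraMap R (Sh R) α) * (algebraMap R (Sh R) β) * tS R ^ 2 - 6 * (algebraMap R (Sh R) (e [])) * tS R * (algebraMap R (Sh R) β) + 6 * (algebraMap R (Sh R) (e [false])) * (algebraMap R (Sh R) β)) = 6 * ((algebraMap R (Sh R) α) * (algebraMap R (Sh R) β) ^ 2 * tS R - (algebraMap R (Sh R) (e [])) * (algebraMap R (Sh R) β) ^ 2) := by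
    simp only [pow_succ, pow_zero, one_mul, hL, map_add, map_sub, map_neg, ha, hb, hg, hx, hy,
      hxx, hxy, hyy, hz, hw, hs, ht, n2, n3, n4, n6, map_zero]
    ring
  have d4 : u (6 * ((algebraMap R (Sh R) α) * (algebraMap R (Sh R) β) ^ 2 * tS R - (algebraMap R (Sh R) (e [])) * (algebraMap R (Sh R) β) ^ 2)) = 6 * ((algebraMap R (Sh R) α) * (algebraMap R (Sh R) β) ^ 3) := by
    simp only [pow_succ, pow_zero, one_mul, hL, map_add, map_sub, map_neg, ha, hb, hg, hx, hy,
      hxx, hxy, hyy, hz, hw, hs, ht, n2, n3, n4, n6, map_zero]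
    ring
  have d5 : u (6 * ((algebraMap R (Sh R) α) * (algebraMap R (Sh R) β) ^ 3)) = 0 := by
    simp only [pow_succ, pow_zero, one_mul, hL, map_add, map_sub, map_neg, ha, hb, hg, hx, hy,
      hxx, hxy, hyy, hz, hw, hs, ht, n2, n3, n4, n6, map_zero]
    ring
  have e2 : algebraMap R (Sh R) (iv p R 2) * (3 * (algebraMap R (Sh R) α) * (algebraMap R (Sh R) β) * tS R ^ 2 - 6 * (algebraMap R (Sh R) (e [])) * tS R * (algebraMap R (Sh R) β) + 6 * (algebraMap R (Sh R) (e [false])) * (algebraMap R (Sh R) β)) = (algebraMap R (Sh R) (iv p R 2)) * (3 * (algebraMap R (Sh R) α) * (algebraMap R (Sh R) β) * tS R ^ 2 - 6 * (algebraMap R (Sh R) (e [])) * tS R * (algebraMap R (Sh R) β) + 6 * (algebraMap R (Sh R) (e [false])) * (algebraMap R (Sh R) β)) := by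
    rfl
  have e3 : algebraMap R (Sh R) (iv p R 3) * (6 * ((algebraMap R (Sh R) α) * (algebraMap R (Sh R) β) ^ 2 * tS R - (algebraMap R (Sh R) (e [])) * (algebraMap R (Sh R) β) ^ 2)) = (algebraMap R (Sh R) α) * (algebraMap R (Sh R) β) ^ 2 * tS R - (algebraMap R (Sh R) (e [])) * (algebraMap R (Sh R) β) ^ 2 := by
    linear_combination ((algebraMap R (Sh R) α) * (algebraMap R (Sh R) β) ^ 2 * tS R - (algebraMap R (Sh R) (e [])) * (algebraMap R (Sh R) β) ^ 2) * k6
  have e4 : algebraMap R (Sh R) (iv p R 4) * (6 * ((algebraMap R (Sh R) α) * (algebraMap R (Sh R) β) ^ 3)) = (algebraMap R (Sh R) (iv p R 2)) * (algebraMap R (Sh R) (iv p R 2)) * ((algebraMap R (Sh R) α) * (algebraMap R (Sh R) β) ^ 3) := by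
    linear_combination ((algebraMap R (Sh R) α) * (algebraMap R (Sh R) β) ^ 3) * k4
  rw [ca_expand (p := p) u d1 d2 d3 d4 d5 e2 e3 e4]
  simp only [l03X, C_0, zero_mul, add_zero]

/-- the flow of `fxs` has degree `≤ 4` and leading coefficient `5 ω S1` (from `fxs_four`,
`fxs_five`) -/
theorem fl_fxs_natDegree (hu : IsLF R u) (hco : Co u α β e) :
    (fl p u (fxs R)).natDegree ≤ 4 := by
  rw [Polynomial.natDegree_le_iff_coeff_eq_zero]
  intro N hN
  rw [fl_coeff]
  split_ifs with h
  · obtain ⟨m, rfl⟩ : ∃ m, N = m + 5 := ⟨N - 5, by omega⟩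
    rw [pow_add, Module.End.mul_apply, fxs_five hu hco, map_zero, smul_zero]
  · rfl

theorem fl_fxs_coeff (hp : 11 ≤ p) (hu : IsLF R u) (hco : Co u α β e) :
    (fl p u (fxs R)).coeff 4 = 5 *
      ((algebraMap R (Sh R) β * sS R - algebraMap R (Sh R) α * tS R) *
        S1 (algebraMap R (Sh R) α) (algebraMap R (Sh R) β) (algebraMap R (Sh R) (e []))
          (algebraMap R (Sh R) (e [true])) (algebraMap R (Sh R) (e [false]))
          (algebraMap R (Sh R) (e [true, true]))
          (algebraMap R (Sh R) (e [true, false] + e [false, true]))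
          (algebraMap R (Sh R) (e [false, false])) (sS R) (tS R) (l01 R) (l11 R) (l02 R) (l21 R)
          (l12 R) (l03 R)) := by
  rw [fl_coeff, if_pos (by norm_num), fxs_four hu hco, Algebra.smul_def]
  have h4 := ca_24 (R := R) hp
  generalize S1 (algebraMap R (Sh R) α) (algebraMap R (Sh R) β) (algebraMap R (Sh R) (e []))
    (algebraMap R (Sh R) (e [true])) (algebraMap R (Sh R) (e [false]))
    (algebraMap R (Sh R) (e [true, true]))
    (algebraMap R (Sh R) (e [true, false] + e [false, true]))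
    (algebraMap R (Sh R) (e [false, false])) (sS R) (tS R) (l01 R) (l11 R) (l02 R) (l21 R)
    (l12 R) (l03 R) = S
  linear_combination 5 * ((algebraMap R (Sh R) β * sS R - algebraMap R (Sh R) α * tS R) * S) * h4

end Helper44.BL
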