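import Pool.Agent.Helper44.BL.Exp
import Pool.Agent.Helper44.BL.StepA

/-!
# BL-6: the logarithm of a product of operators `1 + τ z` with `τ^2 = 0` on the shuffle algebra
-/

namespace Helper44.BL

open Sh Finset

variable (p : ℕ) [Fact p.Prime] {R : Type} [CommRing R] [Algebra (ZMod p) R]

variable (R) in
/-- products of operators `1 + τ u` with `τ^2 = 0` and `u` in the Lie algebra -/
inductive IsProd : Module.End R (Sh R) → Prop
  | one : IsProd 1
  | cons (τ : R) (hτ : τ * τ = 0) {u H : Module.End R (Sh R)} (hu : IsLF R u) (hH : IsProd H) :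
      IsProd ((1 + τ • u) * H)

namespace IsProd

variable {R : Type} [CommRing R] {H : Module.End R (Sh R)}

theorem trans {H' : Module.End R (Sh R)} (h : IsProd R H) (h' : IsProd R H') :
    IsProd R (H * H') := by
  induction h with
  | one => rw [one_mul]; exact h'
  | cons τ hτ hu hH ih =>
    rw [mul_assoc]
    exact IsProd.cons τ hτ hu ih

theorem map_one (h : IsProd R H) : H 1 = 1 := by
  induction h with
  | one => rfl
  | cons τ hτ hu hH ih =>
    rw [Module.End.mul_apply, ih, LinearMap.add_apply, Module.End.one_apply,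
      LinearMap.smul_apply, hu.map_one, smul_zero, add_zero]

theorem map_mul (h : IsProd R H) (f g : Sh R) : H (f * g) = H f * H g := by
  induction h with
  | one => rfl
  | cons τ hτ hu hH ih =>
    rw [Module.End.mul_apply, ih, Module.End.mul_apply, Module.End.mul_apply]
    simp only [LinearMap.add_apply, Module.End.one_apply, LinearMap.smul_apply]
    rw [hu.leibniz, add_mul, mul_add, mul_add, smul_mul_smul_comm, hτ, zero_smul, add_zero,
      smul_add, smul_mul_assoc, mul_smul_comm]
    abel

theorem map_W (h : IsProd R H) {n : ℕ} {g : Sh R} (hg : g ∈ W R n) : H g ∈ W R n := by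
  induction h with
  | one => exact hg
  | cons τ hτ hu hH ih =>
    rw [Module.End.mul_apply, LinearMap.add_apply, Module.End.one_apply, LinearMap.smul_apply]
    exact add_mem ih (Submodule.smul_mem _ _ (W_mono (Nat.sub_le n 1) (hu.map_W ih)))

theorem map_ll (h : IsProd R H) (a : Bool) (g : Sh R) : ll a (H g) = H (ll a g) := by
  induction h with
  | one => rfl
  | cons τ hτ hu hH ih =>
    rw [Module.End.mul_apply, Module.End.mul_apply]
    simp only [LinearMap.add_apply, Module.End.one_apply, LinearMap.smul_apply]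
    rw [ll_add, ll_smul, hu.map_ll, ih]

end IsProd

/-- the restrictions of the elements of the Lie algebra to the functions of weight `< 10` -/
private def resLF (R : Type) [CommRing R] : Submodule R (Module.End R (W R 10)) where
  carrier := {b | ∃ u, IsLF R u ∧ ∀ x : W R 10, (b x : Sh R) = u x}
  zero_mem' := ⟨0, IsLF.zero, fun _ => rfl⟩
  add_mem' := by
    rintro a b ⟨u, hu, h⟩ ⟨v, hv, h'⟩
    refine ⟨u + v, hu.add hv, fun x => ?_⟩
    rw [LinearMap.add_apply, LinearMap.add_apply, Submodule.coe_add, h, h']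
  smul_mem' := by
    rintro r a ⟨u, hu, h⟩
    refine ⟨r • u, hu.smul r, fun x => ?_⟩
    rw [LinearMap.smul_apply, LinearMap.smul_apply, Submodule.coe_smul, h]

private theorem mem_resLF {R : Type} [CommRing R] {b : Module.End R (W R 10)} :
    b ∈ resLF R ↔ ∃ u, IsLF R u ∧ ∀ x : W R 10, (b x : Sh R) = u x := Iff.rfl

private theorem resLF_br {R : Type} [CommRing R] : ∀ a ∈ resLF R, ∀ b ∈ resLF R,
    a * b - b * a ∈ resLF R := by
  rintro a ⟨u, hu, h⟩ b ⟨v, hv, h'⟩
  refine mem_resLF.mpr ⟨u * v - v * u, hu.br hv, fun x => ?_⟩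
  rw [LinearMap.sub_apply, LinearMap.sub_apply, Module.End.mul_apply, Module.End.mul_apply,
    Module.End.mul_apply, Module.End.mul_apply, Submodule.coe_sub, h, h', h', h]

private theorem resLF_pow {R : Type} [CommRing R] (k : ℕ) : ∀ b ∈ (resLF R) ^ k,
    ∀ (n : ℕ) (x : W R 10), (x : Sh R) ∈ W R n → (b x : Sh R) ∈ W R (n - k) := by
  induction k with
  | zero =>
    intro b hb n x hx
    rw [pow_zero, Submodule.mem_one] at hb
    obtain ⟨r, rfl⟩ := hb
    rw [Module.algebraMap_end_apply, Submodule.coe_smul]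
    exact Submodule.smul_mem _ _ hx
  | succ k ih =>
    intro b hb n x hx
    rw [pow_succ] at hb
    induction hb using Submodule.mul_induction_on' with
    | mem_mul_mem a ha c hc =>
      obtain ⟨u, hu, h⟩ := mem_resLF.mp hc
      rw [Module.End.mul_apply]
      have h1 : ((c x : W R 10) : Sh R) ∈ W R (n - 1) := by
        rw [h]
        exact hu.map_W hx
      have h2 := ih a ha (n - 1) (c x) h1
      rwa [Nat.sub_sub, add_comm 1 k] at h2
    | add a ha c hc h1 h2 =>
      rw [LinearMap.add_apply, Submodule.coe_add]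
      exact add_mem h1 h2

private theorem resLF_nil {R : Type} [CommRing R] : (resLF R) ^ 10 = ⊥ := by
  rw [eq_bot_iff]
  intro b hb
  rw [Submodule.mem_bot]
  refine LinearMap.ext fun x => Subtype.ext ?_
  exact W_zero (resLF_pow 10 b hb 10 x x.2)

private theorem res_pow {R : Type} [CommRing R] {b : Module.End R (W R 10)}
    {u : Module.End R (Sh R)} (h : ∀ x : W R 10, (b x : Sh R) = u x) (k : ℕ) (x : W R 10) :
    ((b ^ k) x : Sh R) = (u ^ k) x := by
  induction k with
  | zero => rfl
  | succ k ih =>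
    rw [pow_succ', pow_succ', Module.End.mul_apply, Module.End.mul_apply, h, ih]

private theorem res_exp (p : ℕ) [Fact p.Prime] {R : Type} [CommRing R] [Algebra (ZMod p) R]
    {b : Module.End R (W R 10)} {u : Module.End R (Sh R)}
    (h : ∀ x : W R 10, (b x : Sh R) = u x) (x : W R 10) :
    (eB (A := R) p b x : Sh R) = E10 p u x := by
  unfold eB E10
  rw [LinearMap.sum_apply, LinearMap.sum_apply, Submodule.coe_sum]
  refine Finset.sum_congr rfl fun k _ => ?_
  rw [LinearMap.smul_apply, LinearMap.smul_apply, Submodule.coe_smul, res_pow h]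

/-- Restriction of `exp_step` to the functions of weight `< 10`: apply it in
`B = Module.End R (W R 10)`, with `g` the set of restrictions of the elements of the Lie algebra
(ten of them kill `W R 10` by `IsLF.map_W`). -/
theorem IsLF.step {p : ℕ} [Fact p.Prime] {R : Type} [CommRing R] [Algebra (ZMod p) R]
    (hp : 11 ≤ p) {u z : Module.End R (Sh R)} (hu : IsLF R u) (hz : IsLF R z) (τ : R)
    (hτ : τ * τ = 0) :
    ∃ v, IsLF R v ∧ ∀ g ∈ W R 10, (1 + τ • z) (E10 p u g) = E10 p v g := by
  have hres : ∀ {w : Module.End R (Sh R)}, IsLF R w → ∀ x ∈ W R 10, w x ∈ W R 10 :=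
    fun hw x hx => W_mono (by norm_num) (hw.map_W hx)
  have hLu : ∀ x : W R 10, ((u.restrict (hres hu)) x : Sh R) = u x := fun _ => rfl
  have hLz : ∀ x : W R 10, ((z.restrict (hres hz)) x : Sh R) = z x := fun _ => rfl
  obtain ⟨M, hM, h⟩ := exp_step p hp (resLF R) resLF_br resLF_nil
    (mem_resLF.mpr ⟨u, hu, hLu⟩) (mem_resLF.mpr ⟨z, hz, hLz⟩) τ hτ
  obtain ⟨m, hm, h'⟩ := mem_resLF.mp hM
  refine ⟨u + τ • m, hu.add (hm.smul τ), fun g hg => ?_⟩
  have h1 : ∀ x : W R 10, ((u.restrict (hres hu) + τ • M) x : Sh R) = (u + τ • m) x := by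
    intro x
    rw [LinearMap.add_apply, LinearMap.add_apply, LinearMap.smul_apply, LinearMap.smul_apply,
      Submodule.coe_add, Submodule.coe_smul, hLu, h']
  have h2 := congrArg (fun b : Module.End R (W R 10) => ((b ⟨g, hg⟩ : W R 10) : Sh R)) h
  rw [res_exp p h1, Module.End.mul_apply, LinearMap.add_apply, Module.End.one_apply,
    LinearMap.smul_apply, Submodule.coe_add, Submodule.coe_smul, hLz, res_exp p hLu] at h2
  exact h2

/-- The logarithm of a product. -/
theorem IsProd.exists_log {p : ℕ} [Fact p.Prime] {R : Type} [CommRing R] [Algebra (ZMod p) R]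
    (hp : 11 ≤ p) {H : Module.End R (Sh R)} (h : IsProd R H) :
    ∃ u, IsLF R u ∧ ∀ g ∈ W R 10, H g = E10 p u g := by
  induction h with
  | one =>
    refine ⟨0, IsLF.zero, fun g _ => ?_⟩
    unfold E10
    rw [Finset.sum_range_succ', LinearMap.add_apply, LinearMap.sum_apply]
    rw [Finset.sum_eq_zero fun k _ => ?_]
    · simp [iv]
    · rw [pow_succ, mul_zero, smul_zero, LinearMap.zero_apply]
  | cons τ hτ hz hH ih =>
    obtain ⟨u, hu, h⟩ := ih
    obtain ⟨v, hv, h'⟩ := IsLF.step hp hu hz τ hτ
    refine ⟨v, hv, fun g hg => ?_⟩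
    rw [Module.End.mul_apply, h g hg, h' g hg]

end Helper44.BL
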