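import Pool.Agent.Helper44.BL.GMat
import Pool.Agent.Helper44.BL.StepB
import Pool.Agent.Helper44.BL.FX

/-!
# BL-16: the functional `phi` and its flow
-/

namespace Helper44.BL

open Sh Polynomial Helper44.HU

/-- the functional `φ` -/
def phi (p a b : ℕ) (R : Type) [CommRing R] : Sh R :=
  fxs R * f4 (GM R) ^ a * f6 (GM R) ^ b +
    10 * Theta p (sS R) (tS R) (l01 R) (l11 R) (l02 R) (l21 R) (l12 R) (l03 R)

variable {p : ℕ} [Fact p.Prime] {R : Type} [CommRing R] [Algebra (ZMod p) R]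

/-- the flow of `φ` -/
noncomputable def phX (p a b : ℕ) [Fact p.Prime] {R : Type} [CommRing R] [Algebra (ZMod p) R]
    (u : Module.End R (Sh R)) : (Sh R)[X] :=
  fl p u (fxs R) * f4 (qmp (fl p u) (GM R)) ^ a * f6 (qmp (fl p u) (GM R)) ^ b +
    10 * Theta p (fl p u (sS R)) (fl p u (tS R)) (fl p u (l01 R)) (fl p u (l11 R))
      (fl p u (l02 R)) (fl p u (l21 R)) (fl p u (l12 R)) (fl p u (l03 R))

/-- `f4` of a matrix with entries in a subalgebra lies in the subalgebra (write the matrix as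
`qmp S.val g'` and use `f4_qmp`) -/
theorem f4_mem {B : Type} [CommRing B] [Algebra R B] (S : Subalgebra R B) (g : Q S) :
    f4 (qmp (fun x : S => (x : B)) g) ∈ S := by
  have h := f4_qmp (S.val : S →+* B) g
  have e : qmp (fun x : S => (x : B)) g = qmp (S.val : S →+* B) g := rfl
  rw [e, h]
  exact (f4 g).2

theorem f6_mem {B : Type} [CommRing B] [Algebra R B] (S : Subalgebra R B) (g : Q S) :
    f6 (qmp (fun x : S => (x : B)) g) ∈ S := by
  have h := f6_qmp (S.val : S →+* B) g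
  have e : qmp (fun x : S => (x : B)) g = qmp (S.val : S →+* B) g := rfl
  rw [e, h]
  exact (f6 g).2

/-- the entries of the generic matrix have weight `< 10` -/
private theorem ent_mem (φ : Q R → T4 R) (h0 : φ 0 = 0) :
    (ent R φ).e0 ∈ W R 10 ∧ (ent R φ).e1 ∈ W R 10 ∧ (ent R φ).e2 ∈ W R 10 ∧
      (ent R φ).e3 ∈ W R 10 := by
  refine ⟨?_, ?_, ?_, ?_⟩ <;> intro w hw
  · show (φ (gw R w)).e0 = 0
    rw [gw_eq_zero w (by omega), h0, T4.zero_e0]
  · show (φ (gw R w)).e1 = 0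
    rw [gw_eq_zero w (by omega), h0, T4.zero_e1]
  · show (φ (gw R w)).e2 = 0
    rw [gw_eq_zero w (by omega), h0, T4.zero_e2]
  · show (φ (gw R w)).e3 = 0
    rw [gw_eq_zero w (by omega), h0, T4.zero_e3]

private theorem t4_lift (hp : 11 ≤ p) {u : Module.End R (Sh R)} (hu : IsLF R u)
    (φ : Q R → T4 R) (h0 : φ 0 = 0) :
    ∃ g : T4 (flowAlg hu), t4mp (fun x : flowAlg hu => (x : (Sh R)[X])) g =
      t4mp (fl p u) (ent R φ) := by
  obtain ⟨h1, h2, h3, h4⟩ := ent_mem φ h0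
  exact ⟨⟨⟨_, fl_mem hp hu h1⟩, ⟨_, fl_mem hp hu h2⟩, ⟨_, fl_mem hp hu h3⟩,
    ⟨_, fl_mem hp hu h4⟩⟩, rfl⟩

/-- all 36 entries of the generic matrix have weight `< 10` (`gw_eq_zero`); hence their flows lie
in `flowAlg hu` -/
theorem exists_lift_GM (hp : 11 ≤ p) {u : Module.End R (Sh R)} (hu : IsLF R u) :
    ∃ g : Q (flowAlg hu), qmp (fun x : flowAlg hu => (x : (Sh R)[X])) g = qmp (fl p u) (GM R) := by
  obtain ⟨a, ha⟩ := t4_lift hp hu Q.a Q.zero_a
  obtain ⟨b, hb⟩ := t4_lift hp hu Q.b Q.zero_b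
  obtain ⟨c, hc⟩ := t4_lift hp hu Q.c Q.zero_c
  obtain ⟨d, hd⟩ := t4_lift hp hu Q.d Q.zero_d
  obtain ⟨e, he⟩ := t4_lift hp hu Q.u Q.zero_u
  obtain ⟨f, hf⟩ := t4_lift hp hu Q.v Q.zero_v
  obtain ⟨r, hr⟩ := t4_lift hp hu Q.r Q.zero_r
  obtain ⟨s, hs⟩ := t4_lift hp hu Q.s Q.zero_s
  obtain ⟨x, hx⟩ := t4_lift hp hu Q.x Q.zero_x
  refine ⟨⟨a, b, c, d, e, f, r, s, x⟩, ?_⟩
  exact Q.ext ha hb hc hd he hf hr hs hx

/-- two maps which agree on the functions of weight `< 10` agree on the generic matrix -/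
private theorem qmp_GM_congr {L : Type} {φ ψ : Sh R → L} (h : ∀ g ∈ W R 10, φ g = ψ g) :
    qmp φ (GM R) = qmp ψ (GM R) := by
  have key : ∀ χ : Q R → T4 R, χ 0 = 0 → t4mp φ (ent R χ) = t4mp ψ (ent R χ) := by
    intro χ h0
    obtain ⟨h1, h2, h3, h4⟩ := ent_mem χ h0
    exact T4.ext (h _ h1) (h _ h2) (h _ h3) (h _ h4)
  exact Q.ext (key Q.a Q.zero_a) (key Q.b Q.zero_b) (key Q.c Q.zero_c) (key Q.d Q.zero_d)
    (key Q.u Q.zero_u) (key Q.v Q.zero_v) (key Q.r Q.zero_r) (key Q.s Q.zero_s)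
    (key Q.x Q.zero_x)

omit [Fact p.Prime] [Algebra (ZMod p) R] in
private theorem Theta_mem {B : Type} [CommRing B] [Algebra R B] (S : Subalgebra R B)
    {s t l01 l11 l02 l21 l12 l03 : B} (hs : s ∈ S) (ht : t ∈ S) (h01 : l01 ∈ S) (h11 : l11 ∈ S)
    (h02 : l02 ∈ S) (h21 : l21 ∈ S) (h12 : l12 ∈ S) (h03 : l03 ∈ S) :
    Theta p s t l01 l11 l02 l21 l12 l03 ∈ S := by
  have e7 : (7 : B) ∈ S := by simp
  have e24 : (24 : B) ∈ S := by simp
  have e6 : (6 : B) ∈ S := by simp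
  have e18 : (18 : B) ∈ S := by simp
  have e2 : (2 : B) ∈ S := by simp
  unfold Theta
  refine add_mem (add_mem (add_mem (sub_mem (sub_mem ?_ ?_) ?_) ?_) ?_) ?_
  · exact mul_mem (mul_mem (mul_mem e7 h01) (pow_mem hs _)) (pow_mem ht _)
  · exact mul_mem (mul_mem (mul_mem e24 h11) (pow_mem hs _)) (pow_mem ht _)
  · exact mul_mem (mul_mem (mul_mem e6 h02) (pow_mem hs _)) (pow_mem ht _)
  · exact mul_mem (mul_mem (mul_mem e18 h21) (pow_mem hs _)) (pow_mem ht _)
  · exact mul_mem (mul_mem (mul_mem e6 h12) (pow_mem hs _)) (pow_mem ht _)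
  · exact mul_mem (mul_mem (mul_mem e2 h03) (pow_mem hs _)) (pow_mem ht _)

private theorem Theta_map {A B : Type} [CommRing A] [CommRing B] (φ : A →+* B) (p : ℕ)
    (s t l01 l11 l02 l21 l12 l03 : A) :
    φ (Theta p s t l01 l11 l02 l21 l12 l03) =
      Theta p (φ s) (φ t) (φ l01) (φ l11) (φ l02) (φ l21) (φ l12) (φ l03) := by
  unfold Theta
  simp only [map_add, map_sub, map_mul, map_pow, map_ofNat]

theorem phX_mem (hp : 11 ≤ p) (a b : ℕ) {u : Module.End R (Sh R)} (hu : IsLF R u) :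
    phX p a b u ∈ flowAlg hu := by
  obtain ⟨g, hg⟩ := exists_lift_GM hp hu
  have h4 : f4 (qmp (fl p u) (GM R)) ∈ flowAlg hu := by
    rw [← hg]; exact f4_mem _ g
  have h6 : f6 (qmp (fl p u) (GM R)) ∈ flowAlg hu := by
    rw [← hg]; exact f6_mem _ g
  have h10 : (10 : (Sh R)[X]) ∈ flowAlg hu := by simp
  have hm : ∀ {n : ℕ} {g : Sh R}, n ≤ 10 → g ∈ W R n → fl p u g ∈ flowAlg hu :=
    fun hn hg => fl_mem hp hu (W_mono hn hg)
  unfold phX
  refine add_mem (mul_mem (mul_mem (hm le_rfl fxs_mem) (pow_mem h4 _)) (pow_mem h6 _))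
    (mul_mem h10 ?_)
  exact Theta_mem _ (hm (by norm_num) sS_mem) (hm (by norm_num) tS_mem)
    (hm (by norm_num) l01_mem) (hm (by norm_num) l11_mem) (hm (by norm_num) l02_mem)
    (hm (by norm_num) l21_mem) (hm (by norm_num) l12_mem) (hm (by norm_num) l03_mem)

/-- the value of the flow of `φ` under a ring homomorphism -/
private theorem map_phX (a b : ℕ) (u : Module.End R (Sh R)) {L : Type} [CommRing L]
    (ψ : (Sh R)[X] →+* L) : ψ (phX p a b u) =
      ψ (fl p u (fxs R)) * f4 (qmp (fun g => ψ (fl p u g)) (GM R)) ^ a *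
        f6 (qmp (fun g => ψ (fl p u g)) (GM R)) ^ b +
      10 * Theta p (ψ (fl p u (sS R))) (ψ (fl p u (tS R))) (ψ (fl p u (l01 R)))
        (ψ (fl p u (l11 R))) (ψ (fl p u (l02 R))) (ψ (fl p u (l21 R))) (ψ (fl p u (l12 R)))
        (ψ (fl p u (l03 R))) := by
  have e : qmp (fun g => ψ (fl p u g)) (GM R) = qmp ψ (qmp (fl p u) (GM R)) := rfl
  rw [e, f4_qmp, f6_qmp, ← Theta_map]
  unfold phX
  simp only [map_add, map_mul, map_pow, map_ofNat]

/-- evaluation at `0` is a ring homomorphism; `fl_coeff_zero`, `f4_qmp`, `f6_qmp` -/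
theorem phX_coeff_zero (a b : ℕ) (u : Module.End R (Sh R)) :
    (phX p a b u).coeff 0 = phi p a b R := by
  have h := map_phX (p := p) a b u (Polynomial.constantCoeff (R := Sh R))
  have hc : ∀ g : Sh R, Polynomial.constantCoeff (fl p u g) = g := fun g => fl_coeff_zero u g
  simp only [hc] at h
  rw [qmp_id] at h
  exact h

/-- `H^n φ` is the value of the flow at `n`: `H^n` and the evaluation at `n` are ring
homomorphisms, they agree on the entries of the generic matrix, on `s, t, l01, ...` and on `fxs` by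
`pow_eq_eval` -/
theorem pow_phi_eq_eval (hp : 11 ≤ p) (a b : ℕ) {u : Module.End R (Sh R)} (hu : IsLF R u)
    {H : Module.End R (Sh R)} (hprod : IsProd R H) (hH : ∀ g ∈ W R 10, H g = E10 p u g) (n : ℕ) :
    (H ^ n) (phi p a b R) = (phX p a b u).eval (n : Sh R) := by
  have hpow : ∀ m : ℕ, IsProd R (H ^ m) := by
    intro m
    induction m with
    | zero => rw [pow_zero]; exact IsProd.one
    | succ m ih => rw [pow_succ]; exact ih.trans hprod
  let φ : Sh R →+* Sh R :=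
    { toFun := fun g => (H ^ n) g
      map_one' := (hpow n).map_one
      map_mul' := (hpow n).map_mul
      map_zero' := map_zero _
      map_add' := map_add _ }
  have hφ : ∀ g, φ g = (H ^ n) g := fun _ => rfl
  have hag : ∀ {m : ℕ} {g : Sh R}, m ≤ 10 → g ∈ W R m →
      (Polynomial.evalRingHom (n : Sh R)) (fl p u g) = φ g := fun hm hg => by
    rw [hφ, pow_eq_eval hp hu hH (W_mono hm hg)]
    rfl
  have h := map_phX (p := p) a b u (Polynomial.evalRingHom (n : Sh R))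
  rw [qmp_GM_congr (φ := fun g => (Polynomial.evalRingHom (n : Sh R)) (fl p u g)) (ψ := φ)
    (fun g hg => hag le_rfl hg), hag le_rfl fxs_mem, hag (by norm_num) sS_mem,
    hag (by norm_num) tS_mem, hag (by norm_num) l01_mem, hag (by norm_num) l11_mem,
    hag (by norm_num) l02_mem, hag (by norm_num) l21_mem, hag (by norm_num) l12_mem,
    hag (by norm_num) l03_mem, f4_qmp, f6_qmp, ← Theta_map] at h
  rw [← hφ, ← Polynomial.coe_evalRingHom, h]
  unfold phi
  simp only [map_add, map_mul, map_pow, map_ofNat]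

end Helper44.BL
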