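import Pool.Agent.Helper44.BL.Theta

/-!
# BL-14: the top coefficients of `Theta` along a flow, over arbitrary `ZMod p`-algebras
-/

namespace Helper44.BL

open Polynomial

variable {p : ℕ} [Fact p.Prime] {A : Type} [CommRing A]

private theorem lin_natDegree (u v : A) : (sX v u).natDegree ≤ 1 := by
  unfold sX
  refine (natDegree_add_le _ _).trans (max_le ?_ ?_)
  · rw [natDegree_C]
    exact Nat.zero_le _
  · exact (natDegree_C_mul_le v X).trans natDegree_X_le

private theorem quint_natDegree (n0 n1 n2 n3 n4 n5 : A) :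
    (C n0 + C n1 * X + C n2 * X ^ 2 + C n3 * X ^ 3 + C n4 * X ^ 4 + C n5 * X ^ 5).natDegree ≤
      5 := by
  have h : ∀ (n : A) (k : ℕ), k ≤ 5 → (C n * X ^ k).natDegree ≤ 5 := fun n k hk =>
    (natDegree_C_mul_X_pow_le n k).trans hk
  refine natDegree_add_le_of_degree_le (natDegree_add_le_of_degree_le
    (natDegree_add_le_of_degree_le (natDegree_add_le_of_degree_le
    (natDegree_add_le_of_degree_le ?_ ?_) ?_) ?_) ?_) ?_
  · rw [natDegree_C]
    exact Nat.zero_le _
  · have := h n1 1 (by omega)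
    rwa [pow_one] at this
  · exact h n2 2 (by omega)
  · exact h n3 3 (by omega)
  · exact h n4 4 (by omega)
  · exact h n5 5 (by omega)

/-- degree `≤ (p - 4) + (p - 3) + 5` by `ThX_eq` and `NX_coeffs` -/
theorem ThX_natDegree (hp : 11 ≤ p) {c2 c3 : A} (h2 : 2 * c2 = 1) (h3 : 3 * c3 = 1)
    (α β g0 gx gy gxx gxy gyy s t l01 l11 l02 l21 l12 l03 : A) :
    (ThX p c2 c3 α β g0 gx gy gxx gxy gyy s t l01 l11 l02 l21 l12 l03).natDegree ≤
      2 * p - 2 := by
  rw [ThX_eq p hp]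
  obtain ⟨n0, n1, n2, n3, n4, n5, h, -, -⟩ :=
    NX_coeffs h2 h3 α β g0 gx gy gxx gxy gyy s t l01 l11 l02 l21 l12 l03
  rw [h]
  have e : 2 * p - 2 = (p - 4) * 1 + (p - 3) * 1 + 5 := by omega
  rw [e]
  exact natDegree_mul_le_of_le (natDegree_mul_le_of_le
    (natDegree_pow_le_of_le _ (lin_natDegree s α)) (natDegree_pow_le_of_le _ (lin_natDegree t β)))
    (quint_natDegree n0 n1 n2 n3 n4 n5)

/-- the product of the leading coefficients `α^(p-4)`, `β^(p-3)`, `n5` -/
theorem ThX_top2 (hp : 11 ≤ p) {c2 c3 : A} (h2 : 2 * c2 = 1) (h3 : 3 * c3 = 1)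
    (α β g0 gx gy gxx gxy gyy s t l01 l11 l02 l21 l12 l03 : A) :
    (ThX p c2 c3 α β g0 gx gy gxx gxy gyy s t l01 l11 l02 l21 l12 l03).coeff (2 * p - 2) =
      -(c2 * (α ^ (p - 2) * β ^ (p - 1) * (2 * g0 + (β * s - α * t)))) := by
  rw [ThX_eq p hp]
  obtain ⟨n0, n1, n2, n3, n4, n5, h, h5, -⟩ :=
    NX_coeffs h2 h3 α β g0 gx gy gxx gxy gyy s t l01 l11 l02 l21 l12 l03
  rw [h]
  have e : 2 * p - 2 = (p - 4) * 1 + (p - 3) * 1 + 5 := by omega
  have hc : ∀ u v : A, (sX v u).coeff 1 = v := by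
    intro u v
    unfold sX
    rw [coeff_add, coeff_C_mul, coeff_X_one, mul_one, coeff_C, if_neg one_ne_zero, zero_add]
  have h6 : (C n0 + C n1 * X + C n2 * X ^ 2 + C n3 * X ^ 3 + C n4 * X ^ 4 +
      C n5 * X ^ 5).coeff 5 = n5 := by
    simp [coeff_X_pow]
  rw [e, coeff_mul_add_eq_of_natDegree_le (natDegree_mul_le_of_le
    (natDegree_pow_le_of_le _ (lin_natDegree s α)) (natDegree_pow_le_of_le _ (lin_natDegree t β)))
    (quint_natDegree n0 n1 n2 n3 n4 n5),
    coeff_mul_add_eq_of_natDegree_le (natDegree_pow_le_of_le _ (lin_natDegree s α))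
    (natDegree_pow_le_of_le _ (lin_natDegree t β)),
    coeff_pow_of_natDegree_le (lin_natDegree s α), coeff_pow_of_natDegree_le (lin_natDegree t β),
    hc, hc, h6, h5]
  have e1 : p - 2 = (p - 4) + 2 := by omega
  have e2 : p - 1 = (p - 3) + 2 := by omega
  rw [e1, e2, pow_add, pow_add]
  ring

/-- in a domain of characteristic `p`: `coeff_N`, `NX_coeffs`; cancel `ω^5` -/
theorem ThX_top_domain {D : Type} [CommRing D] [IsDomain D] [CharP D p] (hp : 11 ≤ p)
    {c2 c3 : D} (h2 : 2 * c2 = 1) (h3 : 3 * c3 = 1)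
    (α β g0 gx gy gxx gxy gyy s t l01 l11 l02 l21 l12 l03 : D) (hω : β * s - α * t ≠ 0) :
    (ThX p c2 c3 α β g0 gx gy gxx gxy gyy s t l01 l11 l02 l21 l12 l03).coeff (p - 1) =
      -(c2 * ((β * s - α * t) ^ (p - 4) *
        S1 α β g0 gx gy gxx gxy gyy s t l01 l11 l02 l21 l12 l03)) := by
  rw [ThX_eq p hp]
  obtain ⟨n0, n1, n2, n3, n4, n5, h, -, h6⟩ :=
    NX_coeffs h2 h3 α β g0 gx gy gxx gxy gyy s t l01 l11 l02 l21 l12 l03
  rw [h]
  have h7 := coeff_N (p := p) hp α β s t n0 n1 n2 n3 n4 n5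
  rw [h6] at h7
  apply mul_left_cancel₀ (pow_ne_zero 5 hω)
  rw [h7]
  have e1 : (β * s - α * t) ^ (p - 1) = (β * s - α * t) ^ (p - 4) * (β * s - α * t) ^ 3 := by
    rw [← pow_add]
    congr 1
    omega
  rw [e1]
  ring

/-- The same over every `ZMod p`-algebra: specialise from the polynomial ring in 16 variables over
`ZMod p` (with `ThX_map`; `c2`, `c3` are the images of the inverses of `2`, `3` in `ZMod p`). -/
theorem ThX_top [Algebra (ZMod p) A] (hp : 11 ≤ p) {c2 c3 : A} (h2 : 2 * c2 = 1)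
    (h3 : 3 * c3 = 1) (α β g0 gx gy gxx gxy gyy s t l01 l11 l02 l21 l12 l03 : A) :
    (ThX p c2 c3 α β g0 gx gy gxx gxy gyy s t l01 l11 l02 l21 l12 l03).coeff (p - 1) =
      -(c2 * ((β * s - α * t) ^ (p - 4) *
        S1 α β g0 gx gy gxx gxy gyy s t l01 l11 l02 l21 l12 l03)) := by
  have h20 : (2 : ZMod p) ≠ 0 := by
    intro h0
    have : ((2 : ℕ) : ZMod p) = 0 := by exact_mod_cast h0
    rw [ZMod.natCast_eq_zero_iff] at this
    exact absurd (Nat.le_of_dvd (by norm_num) this) (by omega)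
  have h30 : (3 : ZMod p) ≠ 0 := by
    intro h0
    have : ((3 : ℕ) : ZMod p) = 0 := by exact_mod_cast h0
    rw [ZMod.natCast_eq_zero_iff] at this
    exact absurd (Nat.le_of_dvd (by norm_num) this) (by omega)
  let v : Fin 16 → A := ![α, β, g0, gx, gy, gxx, gxy, gyy, s, t, l01, l11, l02, l21, l12, l03]
  let D := MvPolynomial (Fin 16) (ZMod p)
  let f : D →+* A := (MvPolynomial.aeval v : D →ₐ[ZMod p] A).toRingHom
  have hf : ∀ i, f (MvPolynomial.X i) = v i := fun i => MvPolynomial.aeval_X v i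
  have hd2 : (2 : D) * MvPolynomial.C (2 : ZMod p)⁻¹ = 1 := by
    have : (2 : D) = MvPolynomial.C (2 : ZMod p) := (map_ofNat MvPolynomial.C 2).symm
    rw [this, ← map_mul, mul_inv_cancel₀ h20, map_one]
  have hd3 : (3 : D) * MvPolynomial.C (3 : ZMod p)⁻¹ = 1 := by
    have : (3 : D) = MvPolynomial.C (3 : ZMod p) := (map_ofNat MvPolynomial.C 3).symm
    rw [this, ← map_mul, mul_inv_cancel₀ h30, map_one]
  have hc2 : f (MvPolynomial.C (2 : ZMod p)⁻¹) = c2 := by
    have h4 := congrArg f hd2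
    rw [map_mul, map_ofNat, map_one] at h4
    calc f (MvPolynomial.C (2 : ZMod p)⁻¹) = (2 * c2) * f (MvPolynomial.C (2 : ZMod p)⁻¹) := by
          rw [h2, one_mul]
      _ = c2 * (2 * f (MvPolynomial.C (2 : ZMod p)⁻¹)) := by ring
      _ = c2 := by rw [h4, mul_one]
  have hc3 : f (MvPolynomial.C (3 : ZMod p)⁻¹) = c3 := by
    have h4 := congrArg f hd3
    rw [map_mul, map_ofNat, map_one] at h4
    calc f (MvPolynomial.C (3 : ZMod p)⁻¹) = (3 * c3) * f (MvPolynomial.C (3 : ZMod p)⁻¹) := by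
          rw [h3, one_mul]
      _ = c3 * (3 * f (MvPolynomial.C (3 : ZMod p)⁻¹)) := by ring
      _ = c3 := by rw [h4, mul_one]
  have hω : (MvPolynomial.X 1 : D) * MvPolynomial.X 8 - MvPolynomial.X 0 * MvPolynomial.X 9 ≠
      0 := by
    intro h0
    have h4 := congrArg (MvPolynomial.eval
      (fun i : Fin 16 => if i = 1 ∨ i = 8 then (1 : ZMod p) else 0)) h0
    rw [map_sub, map_mul, map_mul, MvPolynomial.eval_X, MvPolynomial.eval_X, MvPolynomial.eval_X,
      MvPolynomial.eval_X, map_zero, if_pos (by decide), if_pos (by decide), if_neg (by decide),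
      if_neg (by decide), mul_one, mul_zero, sub_zero] at h4
    exact one_ne_zero h4
  have key := ThX_top_domain (p := p) (D := D) hp hd2 hd3 (MvPolynomial.X 0) (MvPolynomial.X 1)
    (MvPolynomial.X 2) (MvPolynomial.X 3) (MvPolynomial.X 4) (MvPolynomial.X 5)
    (MvPolynomial.X 6) (MvPolynomial.X 7) (MvPolynomial.X 8) (MvPolynomial.X 9)
    (MvPolynomial.X 10) (MvPolynomial.X 11) (MvPolynomial.X 12) (MvPolynomial.X 13)
    (MvPolynomial.X 14) (MvPolynomial.X 15) hω
  have key2 := congrArg f key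
  rw [← coeff_map, ThX_map] at key2
  unfold S1 at key2 ⊢
  simp only [map_add, map_sub, map_mul, map_pow, map_ofNat, map_neg, hf, hc2, hc3] at key2
  exact key2

end Helper44.BL
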