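import Pool.Agent.Helper44.BL.Map

/-!
# BL-8: the leading coefficients of `f4` and `f6` over arbitrary `ZMod p`-algebras

Transfer from the field case (`top_f4`, `top_f6` of `HU.Fun`) through a universal ring, a
polynomial ring over `ZMod p`.
-/

namespace Helper44.BL

open Helper44.HU Helper44.HU.T4 Helper44.HU.Q Polynomial

section field

variable {K : Type} [Field K] [Infinite K]

/-- Over an infinite field: `HasTop` for the polynomial function `t ↦ f4 (g exp(t U))` is a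
statement on the polynomial `f4 (g exp(X U))`. -/
theorem top_f4_field (h2 : (2 : K) ≠ 0) (h3 : (3 : K) ≠ 0) {c2 c3 c4 : K} (e2 : 2 * c2 = 1)
    (e3 : 6 * c3 = 1) (e4 : 24 * c4 = 1) (g : Q K) (P : Par K) (hg : Low g) :
    (f4 (qmp Polynomial.C g * expX c2 c3 c4 P)).natDegree ≤ 4 ∧
      (f4 (qmp Polynomial.C g * expX c2 c3 c4 P)).coeff 4 = (g.u.e0 * P.v1 - g.v.e0 * P.v0) ^ 4 := by
  obtain ⟨q, k1, k2, k3⟩ := top_f4 h2 h3 g P hg
  have hF : f4 (qmp Polynomial.C g * expX c2 c3 c4 P) = q := by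
    apply Polynomial.funext
    intro t
    rw [← k3 t]
    have e := f4_qmp (Polynomial.evalRingHom t) (qmp Polynomial.C g * expX c2 c3 c4 P)
    rw [qmp_mul] at e
    have a1 : qmp (⇑(Polynomial.evalRingHom t)) (qmp Polynomial.C g) = g := by
      rw [qmp_qmp]
      have : (⇑(Polynomial.evalRingHom t) ∘ ⇑(Polynomial.C : K →+* K[X])) = fun x => x := by
        funext x
        simp
      rw [this, qmp_id]
    have a2 : qmp (⇑(Polynomial.evalRingHom t)) (expX c2 c3 c4 P) = expQ P.toQ t :=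
      expX_eval e2 e3 e4 P t
    rw [a1, a2] at e
    exact e.symm
  rw [hF]
  exact ⟨k1, k2⟩

theorem top_f6_field (h2 : (2 : K) ≠ 0) (h3 : (3 : K) ≠ 0) {c2 c3 c4 : K} (e2 : 2 * c2 = 1)
    (e3 : 6 * c3 = 1) (e4 : 24 * c4 = 1) (g : Q K) (P : Par K) (hg : Low g) :
    (f6 (qmp Polynomial.C g * expX c2 c3 c4 P)).natDegree ≤ 6 ∧
      (f6 (qmp Polynomial.C g * expX c2 c3 c4 P)).coeff 6 = (g.u.e0 * P.v1 - g.v.e0 * P.v0) ^ 6 := by
  obtain ⟨q, k1, k2, k3⟩ := top_f6 h2 h3 g P hg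
  have hF : f6 (qmp Polynomial.C g * expX c2 c3 c4 P) = q := by
    apply Polynomial.funext
    intro t
    rw [← k3 t]
    have e := f6_qmp (Polynomial.evalRingHom t) (qmp Polynomial.C g * expX c2 c3 c4 P)
    rw [qmp_mul] at e
    have a1 : qmp (⇑(Polynomial.evalRingHom t)) (qmp Polynomial.C g) = g := by
      rw [qmp_qmp]
      have : (⇑(Polynomial.evalRingHom t) ∘ ⇑(Polynomial.C : K →+* K[X])) = fun x => x := by
        funext x
        simp
      rw [this, qmp_id]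
    have a2 : qmp (⇑(Polynomial.evalRingHom t)) (expX c2 c3 c4 P) = expQ P.toQ t :=
      expX_eval e2 e3 e4 P t
    rw [a1, a2] at e
    exact e.symm
  rw [hF]
  exact ⟨k1, k2⟩

end field

section univ

variable {p : ℕ} [Fact p.Prime] (hp : 3 < p)

/-- Every `g` with `Low g` and every `P` over a `ZMod p`-algebra `A` come from a domain `D` of
characteristic `p` in which `2`, `3` are invertible (a polynomial ring in 38 variables over
`ZMod p`: 13 for `P` and 25 for `g`, the entries determined by `Low` being expressed by the others;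
one half is `c2`). -/
theorem exists_univ (hp : 3 < p) {A : Type} [CommRing A] [Algebra (ZMod p) A] (g : Q A)
    (P : Par A) (hg : Low g) : ∃ (D : Type) (_ : CommRing D) (_ : IsDomain D) (φ : D →+* A)
      (g' : Q D) (P' : Par D), Infinite D ∧ (2 : D) ≠ 0 ∧ (3 : D) ≠ 0 ∧
      (∃ c2 c3 c4 : D, 2 * c2 = 1 ∧ 6 * c3 = 1 ∧ 24 * c4 = 1) ∧
      Low g' ∧ qmp φ g' = g ∧ pmp φ P' = P := by
  have hz : ∀ n : ℕ, n = 2 ∨ n = 3 ∨ n = 6 ∨ n = 24 → ((n : ℕ) : ZMod p) ≠ 0 := by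
    intro n hn h
    have hd : p ∣ n := (ZMod.natCast_eq_zero_iff n p).1 h
    have hpp : p.Prime := Fact.out
    have h24 : p ∣ 24 := by
      rcases hn with rfl | rfl | rfl | rfl
      · exact hd.trans ⟨12, rfl⟩
      · exact hd.trans ⟨8, rfl⟩
      · exact hd.trans ⟨4, rfl⟩
      · exact hd
    have h1 : p ∣ 2 * 2 * 2 * 3 := h24
    rcases (Nat.Prime.dvd_mul hpp).1 h1 with h2 | h2
    · rcases (Nat.Prime.dvd_mul hpp).1 h2 with h3 | h3
      · rcases (Nat.Prime.dvd_mul hpp).1 h3 with h4 | h4 <;>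
          exact absurd (Nat.le_of_dvd (by norm_num) h4) (by omega)
      · exact absurd (Nat.le_of_dvd (by norm_num) h3) (by omega)
    · exact absurd (Nat.le_of_dvd (by norm_num) h2) (by omega)
  have z2 : (2 : ZMod p) ≠ 0 := by exact_mod_cast hz 2 (Or.inl rfl)
  have z3 : (3 : ZMod p) ≠ 0 := by exact_mod_cast hz 3 (Or.inr (Or.inl rfl))
  have z6 : (6 : ZMod p) ≠ 0 := by exact_mod_cast hz 6 (Or.inr (Or.inr (Or.inl rfl)))
  have z24 : (24 : ZMod p) ≠ 0 := by exact_mod_cast hz 24 (Or.inr (Or.inr (Or.inr rfl)))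
  obtain ⟨vals, hvals⟩ : ∃ vals : List A, vals = [P.v0, P.v1, P.z, P.w0, P.w1, P.q1, P.q2, P.q3,
    P.m0, P.m1, P.l, P.n0, P.n1, g.a.e2, g.a.e3, g.b.e2, g.b.e3, g.c.e2, g.c.e3, g.d.e1, g.d.e2,
    g.d.e3, g.u.e0, g.u.e1, g.u.e2, g.u.e3, g.v.e0, g.v.e1, g.v.e2, g.v.e3, g.r.e1, g.r.e2,
    g.r.e3, g.s.e1, g.s.e2, g.s.e3, g.x.e2, g.x.e3] := ⟨_, rfl⟩
  obtain ⟨φ, hX, hC⟩ : ∃ φ : MvPolynomial ℕ (ZMod p) →+* A,
      (∀ i, φ (MvPolynomial.X i) = vals.getD i 0) ∧
      (∀ c, φ (MvPolynomial.C c) = algebraMap (ZMod p) A c) :=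
    ⟨(MvPolynomial.aeval (fun i => vals.getD i 0) : MvPolynomial ℕ (ZMod p) →ₐ[ZMod p] A),
      fun i => MvPolynomial.aeval_X _ i, fun c => MvPolynomial.aeval_C _ c⟩
  subst hvals
  set H : MvPolynomial ℕ (ZMod p) := MvPolynomial.C (2 : ZMod p)⁻¹ with hH
  have hC2 : (2 : MvPolynomial ℕ (ZMod p)) = MvPolynomial.C (2 : ZMod p) :=
    (map_ofNat (MvPolynomial.C : ZMod p →+* MvPolynomial ℕ (ZMod p)) 2).symm
  have hC3 : (3 : MvPolynomial ℕ (ZMod p)) = MvPolynomial.C (3 : ZMod p) :=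
    (map_ofNat (MvPolynomial.C : ZMod p →+* MvPolynomial ℕ (ZMod p)) 3).symm
  have hC6 : (6 : MvPolynomial ℕ (ZMod p)) = MvPolynomial.C (6 : ZMod p) :=
    (map_ofNat (MvPolynomial.C : ZMod p →+* MvPolynomial ℕ (ZMod p)) 6).symm
  have hC24 : (24 : MvPolynomial ℕ (ZMod p)) = MvPolynomial.C (24 : ZMod p) :=
    (map_ofNat (MvPolynomial.C : ZMod p →+* MvPolynomial ℕ (ZMod p)) 24).symm
  have hH2 : 2 * H = 1 := by
    rw [hH, hC2, ← MvPolynomial.C_mul, mul_inv_cancel₀ z2, MvPolynomial.C_1]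
  have hφH : 2 * φ H = 1 := by
    have := congrArg φ hH2
    rw [map_mul, map_one, map_ofNat] at this
    exact this
  let X : ℕ → MvPolynomial ℕ (ZMod p) := MvPolynomial.X
  refine ⟨MvPolynomial ℕ (ZMod p), inferInstance, inferInstance, φ,
    ⟨⟨1, X 19 - X 22 * X 26, X 13, X 14⟩, ⟨0, H * X 22 ^ 2, X 15, X 16⟩,
     ⟨0, -(H * X 26 ^ 2), X 17, X 18⟩, ⟨1, X 19, X 20, X 21⟩, ⟨X 22, X 23, X 24, X 25⟩,
     ⟨X 26, X 27, X 28, X 29⟩, ⟨-X 26, X 30, X 31, X 32⟩, ⟨X 22, X 33, X 34, X 35⟩,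
     ⟨1, -(X 19 - X 22 * X 26) - X 19, X 36, X 37⟩⟩,
    ⟨X 0, X 1, X 2, X 3, X 4, X 5, X 6, X 7, X 8, X 9, X 10, X 11, X 12⟩, ?_, ?_, ?_, ?_, ?_, ?_, ?_⟩
  · exact Infinite.of_injective (fun n : ℕ => (MvPolynomial.X n : MvPolynomial ℕ (ZMod p)))
      (MvPolynomial.X_injective)
  · rw [hC2]
    intro h
    exact z2 ((MvPolynomial.C_injective ℕ (ZMod p)) (h.trans (MvPolynomial.C_0).symm))
  · rw [hC3]
    intro h
    exact z3 ((MvPolynomial.C_injective ℕ (ZMod p)) (h.trans (MvPolynomial.C_0).symm))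
  · refine ⟨H, MvPolynomial.C (6 : ZMod p)⁻¹, MvPolynomial.C (24 : ZMod p)⁻¹, hH2, ?_, ?_⟩
    · rw [hC6, ← MvPolynomial.C_mul, mul_inv_cancel₀ z6, MvPolynomial.C_1]
    · rw [hC24, ← MvPolynomial.C_mul, mul_inv_cancel₀ z24, MvPolynomial.C_1]
  · refine ⟨rfl, rfl, rfl, rfl, rfl, rfl, rfl, ?_, ?_, rfl, rfl⟩
    · show 2 * (H * X 22 ^ 2) = X 22 ^ 2
      linear_combination (X 22 ^ 2) * hH2
    · show 2 * (-(H * X 26 ^ 2)) = -X 26 ^ 2
      linear_combination (-X 26 ^ 2) * hH2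
  · refine Q.ext (T4.ext ?_ ?_ (hX 13) (hX 14)) (T4.ext ?_ ?_ (hX 15) (hX 16))
      (T4.ext ?_ ?_ (hX 17) (hX 18)) (T4.ext ?_ (hX 19) (hX 20) (hX 21))
      (T4.ext (hX 22) (hX 23) (hX 24) (hX 25)) (T4.ext (hX 26) (hX 27) (hX 28) (hX 29))
      (T4.ext ?_ (hX 30) (hX 31) (hX 32)) (T4.ext ?_ (hX 33) (hX 34) (hX 35))
      (T4.ext ?_ ?_ (hX 36) (hX 37))
    · show φ 1 = g.a.e0
      rw [hg.a0, map_one]
    · show φ (MvPolynomial.X 19 - MvPolynomial.X 22 * MvPolynomial.X 26) = g.a.e1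
      rw [hg.a1, map_sub, map_mul, hX, hX, hX]
      rfl
    · show φ 0 = g.b.e0
      rw [hg.b0, map_zero]
    · show φ (H * MvPolynomial.X 22 ^ 2) = g.b.e1
      rw [map_mul, map_pow, hX]
      have h1 := hg.b1
      show φ H * g.u.e0 ^ 2 = g.b.e1
      linear_combination (-φ H) * h1 + g.b.e1 * hφH
    · show φ 0 = g.c.e0
      rw [hg.c0, map_zero]
    · show φ (-(H * MvPolynomial.X 26 ^ 2)) = g.c.e1
      rw [map_neg, map_mul, map_pow, hX]
      have h1 := hg.c1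
      show -(φ H * g.v.e0 ^ 2) = g.c.e1
      linear_combination (-φ H) * h1 + g.c.e1 * hφH
    · show φ 1 = g.d.e0
      rw [hg.d0, map_one]
    · show φ (-MvPolynomial.X 26) = g.r.e0
      rw [hg.r0, map_neg, hX]
      rfl
    · show φ (MvPolynomial.X 22) = g.s.e0
      rw [hg.s0, hX]
      rfl
    · show φ 1 = g.x.e0
      rw [hg.x0, map_one]
    · show φ (-(MvPolynomial.X 19 - MvPolynomial.X 22 * MvPolynomial.X 26) -
        MvPolynomial.X 19) = g.x.e1
      rw [hg.x1, hg.a1, map_sub, map_neg, map_sub, map_mul, hX, hX, hX]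
      rfl
  · show (⟨φ (X 0), φ (X 1), φ (X 2), φ (X 3), φ (X 4), φ (X 5), φ (X 6), φ (X 7), φ (X 8),
      φ (X 9), φ (X 10), φ (X 11), φ (X 12)⟩ : Par A) = P
    have h0 : φ (X 0) = P.v0 := hX 0
    have h1 : φ (X 1) = P.v1 := hX 1
    have h2 : φ (X 2) = P.z := hX 2
    have h3 : φ (X 3) = P.w0 := hX 3
    have h4 : φ (X 4) = P.w1 := hX 4
    have h5 : φ (X 5) = P.q1 := hX 5
    have h6 : φ (X 6) = P.q2 := hX 6
    have h7 : φ (X 7) = P.q3 := hX 7
    have h8 : φ (X 8) = P.m0 := hX 8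
    have h9 : φ (X 9) = P.m1 := hX 9
    have h10 : φ (X 10) = P.l := hX 10
    have h11 : φ (X 11) = P.n0 := hX 11
    have h12 : φ (X 12) = P.n1 := hX 12
    rw [h0, h1, h2, h3, h4, h5, h6, h7, h8, h9, h10, h11, h12]

private theorem qmp_C_map {R S : Type} [CommRing R] [CommRing S] (φ : R →+* S) (g : Q R) :
    qmp (⇑(Polynomial.mapRingHom φ)) (qmp Polynomial.C g) = qmp Polynomial.C (qmp φ g) := by
  rw [qmp_qmp, qmp_qmp]
  congr 1
  funext x
  simp

private theorem inv_unique {A : Type} [CommRing A] {n a b : A} (ha : n * a = 1)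
    (hb : n * b = 1) : a = b := by
  linear_combination (-a) * hb + b * ha

theorem top_f4_ring (hp : 3 < p) {A : Type} [CommRing A] [Algebra (ZMod p) A] {c2 c3 c4 : A}
    (e2 : 2 * c2 = 1) (e3 : 6 * c3 = 1) (e4 : 24 * c4 = 1) (g : Q A) (P : Par A) (hg : Low g) :
    (f4 (qmp Polynomial.C g * expX c2 c3 c4 P)).natDegree ≤ 4 ∧
      (f4 (qmp Polynomial.C g * expX c2 c3 c4 P)).coeff 4 = (g.u.e0 * P.v1 - g.v.e0 * P.v0) ^ 4 := by
  obtain ⟨D, iD1, iD2, φ, g', P', hinf, z2, z3, ⟨d2, d3, d4, k2, k3, k4⟩, hg', hgg, hPP⟩ :=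
    exists_univ hp g P hg
  have hfun : ∀ {S : Type} [CommRing S] (ψ : D →+* S),
      f4 (qmp Polynomial.C (qmp ψ g') * expX (ψ d2) (ψ d3) (ψ d4) (pmp ψ P')) =
        (f4 (qmp Polynomial.C g' * expX d2 d3 d4 P')).map ψ := by
    intro S _ ψ
    have e := f4_qmp (Polynomial.mapRingHom ψ) (qmp Polynomial.C g' * expX d2 d3 d4 P')
    rw [qmp_mul, expX_map, qmp_C_map] at e
    rw [e, Polynomial.coe_mapRingHom]
  -- over the fraction field
  obtain ⟨K, iK, ι, hι⟩ : ∃ (K : Type) (_ : Field K) (ι : D →+* K), Function.Injective ι :=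
    ⟨FractionRing D, inferInstance, algebraMap _ _, IsFractionRing.injective _ _⟩
  have : Infinite K := Infinite.of_injective _ hι
  have y2 : (2 : K) ≠ 0 := by
    intro h
    apply z2
    apply hι
    rw [map_zero, map_ofNat]
    exact h
  have y3 : (3 : K) ≠ 0 := by
    intro h
    apply z3
    apply hι
    rw [map_zero, map_ofNat]
    exact h
  have x2 : 2 * ι d2 = 1 := by
    have := congrArg ι k2
    rw [map_mul, map_one, map_ofNat] at this
    exact this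
  have x3 : 6 * ι d3 = 1 := by
    have := congrArg ι k3
    rw [map_mul, map_one, map_ofNat] at this
    exact this
  have x4 : 24 * ι d4 = 1 := by
    have := congrArg ι k4
    rw [map_mul, map_one, map_ofNat] at this
    exact this
  have hK := top_f4_field y2 y3 x2 x3 x4 (qmp ι g') (pmp ι P') (low_qmp _ hg')
  rw [hfun ι, Polynomial.natDegree_map_eq_of_injective hι, Polynomial.coeff_map] at hK
  obtain ⟨hK1, hK2⟩ := hK
  have hD : (f4 (qmp Polynomial.C g' * expX d2 d3 d4 P')).coeff 4 =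
      (g'.u.e0 * P'.v1 - g'.v.e0 * P'.v0) ^ 4 := by
    apply hι
    have u0 : (qmp ι g').u.e0 = ι g'.u.e0 := rfl
    have v0 : (qmp ι g').v.e0 = ι g'.v.e0 := rfl
    have p0 : (pmp ι P').v0 = ι P'.v0 := rfl
    have p1 : (pmp ι P').v1 = ι P'.v1 := rfl
    rw [hK2, map_pow, map_sub, map_mul, map_mul, u0, v0, p0, p1]
  -- over `A`
  have w2 : φ d2 = c2 := by
    refine inv_unique (n := 2) ?_ e2
    have := congrArg φ k2
    rw [map_mul, map_one, map_ofNat] at this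
    exact this
  have w3 : φ d3 = c3 := by
    refine inv_unique (n := 6) ?_ e3
    have := congrArg φ k3
    rw [map_mul, map_one, map_ofNat] at this
    exact this
  have w4 : φ d4 = c4 := by
    refine inv_unique (n := 24) ?_ e4
    have := congrArg φ k4
    rw [map_mul, map_one, map_ofNat] at this
    exact this
  have hA := hfun φ
  rw [hgg, hPP, w2, w3, w4] at hA
  rw [hA]
  refine ⟨(Polynomial.natDegree_map_le).trans hK1, ?_⟩
  have u0 : φ g'.u.e0 = g.u.e0 := by rw [← hgg]; rfl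
  have v0 : φ g'.v.e0 = g.v.e0 := by rw [← hgg]; rfl
  have p0 : φ P'.v0 = P.v0 := by rw [← hPP]; rfl
  have p1 : φ P'.v1 = P.v1 := by rw [← hPP]; rfl
  rw [Polynomial.coeff_map, hD, map_pow, map_sub, map_mul, map_mul, u0, v0, p0, p1]

theorem top_f6_ring (hp : 3 < p) {A : Type} [CommRing A] [Algebra (ZMod p) A] {c2 c3 c4 : A}
    (e2 : 2 * c2 = 1) (e3 : 6 * c3 = 1) (e4 : 24 * c4 = 1) (g : Q A) (P : Par A) (hg : Low g) :
    (f6 (qmp Polynomial.C g * expX c2 c3 c4 P)).natDegree ≤ 6 ∧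
      (f6 (qmp Polynomial.C g * expX c2 c3 c4 P)).coeff 6 = (g.u.e0 * P.v1 - g.v.e0 * P.v0) ^ 6 := by
  obtain ⟨D, iD1, iD2, φ, g', P', hinf, z2, z3, ⟨d2, d3, d4, k2, k3, k4⟩, hg', hgg, hPP⟩ :=
    exists_univ hp g P hg
  have hfun : ∀ {S : Type} [CommRing S] (ψ : D →+* S),
      f6 (qmp Polynomial.C (qmp ψ g') * expX (ψ d2) (ψ d3) (ψ d4) (pmp ψ P')) =
        (f6 (qmp Polynomial.C g' * expX d2 d3 d4 P')).map ψ := by
    intro S _ ψ
    have e := f6_qmp (Polynomial.mapRingHom ψ) (qmp Polynomial.C g' * expX d2 d3 d4 P')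
    rw [qmp_mul, expX_map, qmp_C_map] at e
    rw [e, Polynomial.coe_mapRingHom]
  -- over the fraction field
  obtain ⟨K, iK, ι, hι⟩ : ∃ (K : Type) (_ : Field K) (ι : D →+* K), Function.Injective ι :=
    ⟨FractionRing D, inferInstance, algebraMap _ _, IsFractionRing.injective _ _⟩
  have : Infinite K := Infinite.of_injective _ hι
  have y2 : (2 : K) ≠ 0 := by
    intro h
    apply z2
    apply hι
    rw [map_zero, map_ofNat]
    exact h
  have y3 : (3 : K) ≠ 0 := by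
    intro h
    apply z3
    apply hι
    rw [map_zero, map_ofNat]
    exact h
  have x2 : 2 * ι d2 = 1 := by
    have := congrArg ι k2
    rw [map_mul, map_one, map_ofNat] at this
    exact this
  have x3 : 6 * ι d3 = 1 := by
    have := congrArg ι k3
    rw [map_mul, map_one, map_ofNat] at this
    exact this
  have x4 : 24 * ι d4 = 1 := by
    have := congrArg ι k4
    rw [map_mul, map_one, map_ofNat] at this
    exact this
  have hK := top_f6_field y2 y3 x2 x3 x4 (qmp ι g') (pmp ι P') (low_qmp _ hg')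
  rw [hfun ι, Polynomial.natDegree_map_eq_of_injective hι, Polynomial.coeff_map] at hK
  obtain ⟨hK1, hK2⟩ := hK
  have hD : (f6 (qmp Polynomial.C g' * expX d2 d3 d4 P')).coeff 6 =
      (g'.u.e0 * P'.v1 - g'.v.e0 * P'.v0) ^ 6 := by
    apply hι
    have u0 : (qmp ι g').u.e0 = ι g'.u.e0 := rfl
    have v0 : (qmp ι g').v.e0 = ι g'.v.e0 := rfl
    have p0 : (pmp ι P').v0 = ι P'.v0 := rfl
    have p1 : (pmp ι P').v1 = ι P'.v1 := rfl
    rw [hK2, map_pow, map_sub, map_mul, map_mul, u0, v0, p0, p1]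
  -- over `A`
  have w2 : φ d2 = c2 := by
    refine inv_unique (n := 2) ?_ e2
    have := congrArg φ k2
    rw [map_mul, map_one, map_ofNat] at this
    exact this
  have w3 : φ d3 = c3 := by
    refine inv_unique (n := 6) ?_ e3
    have := congrArg φ k3
    rw [map_mul, map_one, map_ofNat] at this
    exact this
  have w4 : φ d4 = c4 := by
    refine inv_unique (n := 24) ?_ e4
    have := congrArg φ k4
    rw [map_mul, map_one, map_ofNat] at this
    exact this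
  have hA := hfun φ
  rw [hgg, hPP, w2, w3, w4] at hA
  rw [hA]
  refine ⟨(Polynomial.natDegree_map_le).trans hK1, ?_⟩
  have u0 : φ g'.u.e0 = g.u.e0 := by rw [← hgg]; rfl
  have v0 : φ g'.v.e0 = g.v.e0 := by rw [← hgg]; rfl
  have p0 : φ P'.v0 = P.v0 := by rw [← hPP]; rfl
  have p1 : φ P'.v1 = P.v1 := by rw [← hPP]; rfl
  rw [Polynomial.coeff_map, hD, map_pow, map_sub, map_mul, map_mul, u0, v0, p0, p1]

end univ

end Helper44.BL
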