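import Pool.Agent.Helper44.BL.CoreA
import Pool.Agent.Helper44.BL.CoreB
import Pool.Agent.Helper44.BL.Univ
import Pool.Agent.Helper44.BL.ThetaTop

/-!
# BL-17: the coefficients of the flow of `phi` and the main properties of `phi`
-/

namespace Helper44.BL

open Sh Polynomial Helper44.HU Finset

variable {p : ℕ} [Fact p.Prime] {R : Type} [CommRing R] [Algebra (ZMod p) R]

private theorem am_inj {x y : R} (h : algebraMap R (Sh R) x = algebraMap R (Sh R) y) : x = y := by
  have h1 := congrArg (fun g : Sh R => g []) h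
  simpa using h1

private theorem c2_eq (hp : 11 ≤ p) : 2 * algebraMap R (Sh R) (iv p R 2) = 1 := by
  have h := iv_mul p R (k := 2) (by omega)
  have h1 := congrArg (algebraMap R (Sh R)) h
  rw [map_mul, map_one, map_natCast] at h1
  simpa [Nat.factorial] using h1

private theorem c3_eq (hp : 11 ≤ p) : 6 * algebraMap R (Sh R) (iv p R 3) = 1 := by
  have h := iv_mul p R (k := 3) (by omega)
  have h1 := congrArg (algebraMap R (Sh R)) h
  rw [map_mul, map_one, map_natCast] at h1
  simpa [Nat.factorial] using h1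

private theorem c4_eq (hp : 11 ≤ p) : 24 * algebraMap R (Sh R) (iv p R 4) = 1 := by
  have h := iv_mul p R (k := 4) (by omega)
  have h1 := congrArg (algebraMap R (Sh R)) h
  rw [map_mul, map_one, map_natCast] at h1
  simpa [Nat.factorial] using h1

private theorem c3'_eq (hp : 11 ≤ p) : 3 * algebraMap R (Sh R) (2 * iv p R 3) = 1 := by
  have h := third_iv (p := p) (R := R) hp
  have h1 := congrArg (algebraMap R (Sh R)) h
  rw [map_mul, map_one, map_ofNat] at h1
  exact h1

/-- degrees and leading coefficients of the invariants along the flow -/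
private theorem f46_top (hp : 11 ≤ p) {u : Module.End R (Sh R)} (hu : IsLF R u) {α β : R}
    {e : List Bool → R} (hco : Co u α β e) :
    ((f4 (qmp (fl p u) (GM R))).natDegree ≤ 4 ∧ (f4 (qmp (fl p u) (GM R))).coeff 4 =
        (algebraMap R (Sh R) β * sS R - algebraMap R (Sh R) α * tS R) ^ 4) ∧
      ((f6 (qmp (fl p u) (GM R))).natDegree ≤ 6 ∧ (f6 (qmp (fl p u) (GM R))).coeff 6 =
        (algebraMap R (Sh R) β * sS R - algebraMap R (Sh R) α * tS R) ^ 6) := by
  obtain ⟨P, hP, h0, h1⟩ := hu.exists_par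
  have hs : (GM R).u.e0 = sS R := GM_s
  have ht : (GM R).v.e0 = tS R := GM_t
  rw [hs, hco.s] at h0
  rw [ht, hco.t] at h1
  have e0 : (pmp (algebraMap R (Sh R)) P).v0 = algebraMap R (Sh R) α := h0.symm
  have e1 : (pmp (algebraMap R (Sh R)) P).v1 = algebraMap R (Sh R) β := h1.symm
  let _ := algSh p R
  have k4 := top_f4_ring (p := p) (by omega) (A := Sh R) (c2_eq hp) (c3_eq hp) (c4_eq hp) (GM R)
    (pmp (algebraMap R (Sh R)) P) GM_low
  have k6 := top_f6_ring (p := p) (by omega) (A := Sh R) (c2_eq hp) (c3_eq hp) (c4_eq hp) (GM R)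
    (pmp (algebraMap R (Sh R)) P) GM_low
  rw [← fl_GM hP, hs, ht, e0, e1] at k4 k6
  rw [mul_comm (algebraMap R (Sh R) β), mul_comm (algebraMap R (Sh R) α)]
  exact ⟨k4, k6⟩

/-- the first part of `phX` -/
private noncomputable def ph1 (p a b : ℕ) [Fact p.Prime] {R : Type} [CommRing R]
    [Algebra (ZMod p) R] (u : Module.End R (Sh R)) : (Sh R)[X] :=
  fl p u (fxs R) * f4 (qmp (fl p u) (GM R)) ^ a * f6 (qmp (fl p u) (GM R)) ^ b

private theorem ph1_natDegree (hp : 11 ≤ p) {a b : ℕ} (hab : 4 * a + 6 * b + 4 = p - 1)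
    {u : Module.End R (Sh R)} (hu : IsLF R u) {α β : R}
    {e : List Bool → R} (hco : Co u α β e) : (ph1 p a b u).natDegree ≤ p - 1 := by
  obtain ⟨⟨h4, -⟩, ⟨h6, -⟩⟩ := f46_top hp hu hco
  have hf := fl_fxs_natDegree (p := p) hu hco
  have h4' := Polynomial.natDegree_pow_le_of_le a h4
  have h6' := Polynomial.natDegree_pow_le_of_le b h6
  have h := Polynomial.natDegree_mul_le_of_le (Polynomial.natDegree_mul_le_of_le hf h4') h6'
  exact h.trans (by omega)

private theorem ph1_coeff (hp : 11 ≤ p) {a b : ℕ} (hab : 4 * a + 6 * b + 4 = p - 1)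
    {u : Module.End R (Sh R)} (hu : IsLF R u) {α β : R}
    {e : List Bool → R} (hco : Co u α β e) : (ph1 p a b u).coeff (p - 1) =
      5 * ((algebraMap R (Sh R) β * sS R - algebraMap R (Sh R) α * tS R) ^ (p - 4) *
        S1 (algebraMap R (Sh R) α) (algebraMap R (Sh R) β) (algebraMap R (Sh R) (e []))
          (algebraMap R (Sh R) (e [true])) (algebraMap R (Sh R) (e [false]))
          (algebraMap R (Sh R) (e [true, true]))
          (algebraMap R (Sh R) (e [true, false] + e [false, true]))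
          (algebraMap R (Sh R) (e [false, false])) (sS R) (tS R) (l01 R) (l11 R) (l02 R) (l21 R)
          (l12 R) (l03 R)) := by
  obtain ⟨⟨h4, k4⟩, ⟨h6, k6⟩⟩ := f46_top hp hu hco
  have hf := fl_fxs_natDegree (p := p) hu hco
  have h4' := Polynomial.natDegree_pow_le_of_le a h4
  have h6' := Polynomial.natDegree_pow_le_of_le b h6
  have e1 : p - 1 = 4 + a * 4 + b * 6 := by omega
  have e2 : p - 4 = 1 + a * 4 + b * 6 := by omega
  unfold ph1
  rw [e1, Polynomial.coeff_mul_add_eq_of_natDegree_le (Polynomial.natDegree_mul_le_of_le hf h4') h6',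
    Polynomial.coeff_mul_add_eq_of_natDegree_le hf h4', Polynomial.coeff_pow_of_natDegree_le h4,
    Polynomial.coeff_pow_of_natDegree_le h6, k4, k6, fl_fxs_coeff hp hu hco, e2]
  generalize algebraMap R (Sh R) β * sS R - algebraMap R (Sh R) α * tS R = w
  ring

/-- the second part of `phX` -/
private theorem phX_eq (hp : 11 ≤ p) (a b : ℕ) {u : Module.End R (Sh R)} (hu : IsLF R u)
    {α β : R} {e : List Bool → R} (hco : Co u α β e) : phX p a b u = ph1 p a b u +
      10 * ThX p (algebraMap R (Sh R) (iv p R 2)) (algebraMap R (Sh R) (2 * iv p R 3))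
        (algebraMap R (Sh R) α) (algebraMap R (Sh R) β) (algebraMap R (Sh R) (e []))
          (algebraMap R (Sh R) (e [true])) (algebraMap R (Sh R) (e [false]))
          (algebraMap R (Sh R) (e [true, true]))
          (algebraMap R (Sh R) (e [true, false] + e [false, true]))
          (algebraMap R (Sh R) (e [false, false])) (sS R) (tS R) (l01 R) (l11 R) (l02 R) (l21 R)
          (l12 R) (l03 R) := by
  unfold phX ph1 ThX
  rw [fl_sS hu hco, fl_tS hu hco, fl_l01 hu hco, fl_l11 hp hu hco, fl_l02 hp hu hco,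
    fl_l21 hp hu hco, fl_l12 hp hu hco, fl_l03 hp hu hco]

/-- The first part of `phX` has degree `≤ 4 + 4 a + 6 b = p - 1` and leading coefficient
`5 ω S1 ω^(4a+6b)` (`fl_GM`, `top_f4_ring`, `top_f6_ring` with `A = Sh R`,
`fl_fxs_natDegree`, `fl_fxs_coeff`); the second part is `10 ThX` with
`c2 = algebraMap (iv p R 2)`, `c3 = algebraMap (2 iv p R 3)` (`fl_sS, ..., fl_l03`), for which see
`ThX_natDegree`. -/
theorem phX_natDegree (hp : 11 ≤ p) {a b : ℕ} (hab : 4 * a + 6 * b + 4 = p - 1)
    {u : Module.End R (Sh R)} (hu : IsLF R u) : (phX p a b u).natDegree ≤ 2 * p - 2 := by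
  obtain ⟨α, β, e, hco⟩ := hu.exists_co
  rw [phX_eq hp a b hu hco]
  refine (Polynomial.natDegree_add_le_of_degree_le
    ((ph1_natDegree hp hab hu hco).trans (by omega)) ?_)
  refine Polynomial.natDegree_mul_le_of_le (m := 0) (n := 2 * p - 2) ?_
    (ThX_natDegree hp (c2_eq hp) (c3'_eq hp) _ _ _ _ _ _ _ _ _ _ _ _ _ _ _ _) |>.trans (by omega)
  rw [Polynomial.natDegree_ofNat]

/-- the two contributions `5 ω^(p-4) S1` and `- 10 c2 ω^(p-4) S1` cancel -/
theorem phX_coeff_mid (hp : 11 ≤ p) {a b : ℕ} (hab : 4 * a + 6 * b + 4 = p - 1)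
    {u : Module.End R (Sh R)} (hu : IsLF R u) : (phX p a b u).coeff (p - 1) = 0 := by
  obtain ⟨α, β, e, hco⟩ := hu.exists_co
  rw [phX_eq hp a b hu hco, Polynomial.coeff_add, ph1_coeff hp hab hu hco,
    Polynomial.coeff_ofNat_mul]
  let _ := algSh p R
  rw [ThX_top (p := p) (A := Sh R) hp (c2_eq hp) (c3'_eq hp)]
  have h2 : 2 * algebraMap R (Sh R) (iv p R 2) = 1 := c2_eq hp
  generalize S1 (algebraMap R (Sh R) α) (algebraMap R (Sh R) β) (algebraMap R (Sh R) (e []))
          (algebraMap R (Sh R) (e [true])) (algebraMap R (Sh R) (e [false]))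
          (algebraMap R (Sh R) (e [true, true]))
          (algebraMap R (Sh R) (e [true, false] + e [false, true]))
          (algebraMap R (Sh R) (e [false, false])) (sS R) (tS R) (l01 R) (l11 R) (l02 R) (l21 R)
          (l12 R) (l03 R) = S
  generalize (algebraMap R (Sh R) β * sS R - algebraMap R (Sh R) α * tS R) ^ (p - 4) = w
  linear_combination (-5 * w * S) * h2

/-- only the second part contributes (`ThX_top2`) -/
theorem phX_coeff_top (hp : 11 ≤ p) {a b : ℕ} (hab : 4 * a + 6 * b + 4 = p - 1)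
    {u : Module.End R (Sh R)} (hu : IsLF R u) {α β : R} {e : List Bool → R} (hco : Co u α β e) :
    (phX p a b u).coeff (2 * p - 2) = -((5 * (α ^ (p - 2) * β ^ (p - 1))) •
      (algebraMap R (Sh R) (2 * e []) + (β • sS R - α • tS R))) := by
  have h2 : 2 * algebraMap R (Sh R) (iv p R 2) = 1 := c2_eq hp
  have h1 : (ph1 p a b u).coeff (2 * p - 2) = 0 :=
    Polynomial.coeff_eq_zero_of_natDegree_lt
      (lt_of_le_of_lt (ph1_natDegree hp hab hu hco) (by omega))
  rw [phX_eq hp a b hu hco, Polynomial.coeff_add, h1, Polynomial.coeff_ofNat_mul,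
    ThX_top2 hp (c2_eq hp) (c3'_eq hp)]
  simp only [Algebra.smul_def, map_mul, map_pow, map_ofNat]
  linear_combination (-5 * (algebraMap R (Sh R) α ^ (p - 2) * algebraMap R (Sh R) β ^ (p - 1) *
    (2 * algebraMap R (Sh R) (e []) +
      (algebraMap R (Sh R) β * sS R - algebraMap R (Sh R) α * tS R)))) * h2

/-- `u^(p-1) φ = (p-1)! q_(p-1) = 0` by `flow_coeff`, `phX_mem`, `phX_coeff_zero` -/
theorem pow_phi (hp : 11 ≤ p) {a b : ℕ} (hab : 4 * a + 6 * b + 4 = p - 1)
    {u : Module.End R (Sh R)} (hu : IsLF R u) : (u ^ (p - 1)) (phi p a b R) = 0 := by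
  rw [← phX_coeff_zero a b u, ← flow_coeff hu (phX_mem hp a b hu) (p - 1),
    phX_coeff_mid hp hab hu, mul_zero]

/-- `H^p φ = q(p) = q(0) = φ` -/
theorem pow_p_phi (hp : 11 ≤ p) {a b : ℕ} {H : Module.End R (Sh R)} (hH : IsProd R H) :
    (H ^ p) (phi p a b R) = phi p a b R := by
  obtain ⟨u, hu, hlog⟩ := IsProd.exists_log hp hH
  rw [pow_phi_eq_eval hp a b hu hH hlog p]
  let _ := algSh p R
  rw [natCast_p p (Sh R), ← Polynomial.coeff_zero_eq_eval_zero, phX_coeff_zero]

/-- `∑_{n < p} H^n φ = ∑_{n < p} q(n) = -(q_(p-1) + q_(2p-2))` (`sum_eval`). The coordinates of the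
logarithm `u` of `H` are read off from `H s = s + α`, `H t = t + β`,
`H l01 = l01 + (α t - e []) + α β / 2` (`Co.s`, `Co.t`, `Co.l01`, `IsProd.exists_log`). So if
`H s = s + α`, `H t = t + β`, `H l01 = l01 + α t + γ` then `2 e [] = α β - 2 γ`. -/
theorem sum_phi (hp : 11 ≤ p) {a b : ℕ} (hab : 4 * a + 6 * b + 4 = p - 1)
    {H : Module.End R (Sh R)} (hH : IsProd R H) {α β γ : R}
    (hs : H (sS R) = sS R + algebraMap R (Sh R) α) (ht : H (tS R) = tS R + algebraMap R (Sh R) β)
    (hl : H (l01 R) = l01 R + α • tS R + algebraMap R (Sh R) γ) :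
    ∑ n ∈ range p, (H ^ n) (phi p a b R) = (5 * (α ^ (p - 2) * β ^ (p - 1))) •
      (algebraMap R (Sh R) (α * β - 2 * γ) + (β • sS R - α • tS R)) := by
  obtain ⟨u, hu, hlog⟩ := IsProd.exists_log hp hH
  obtain ⟨α', β', e, hco⟩ := hu.exists_co
  have key : ∀ g ∈ W R 10, H g = (fl p u g).eval 1 := by
    intro g hg
    have h := pow_eq_eval hp hu hlog hg 1
    rw [pow_one, Nat.cast_one] at h
    exact h
  have ea : α = α' := by
    have h := key (sS R) (W_mono (by omega) sS_mem)
    rw [hs, fl_sS hu hco, sX, eval_add, eval_C, eval_mul, eval_C, eval_X, mul_one] at h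
    exact am_inj (add_left_cancel h)
  have eb : β = β' := by
    have h := key (tS R) (W_mono (by omega) tS_mem)
    rw [ht, fl_tS hu hco, sX, eval_add, eval_C, eval_mul, eval_C, eval_X, mul_one] at h
    exact am_inj (add_left_cancel h)
  subst ea
  subst eb
  have ee : algebraMap R (Sh R) (2 * e []) = algebraMap R (Sh R) (α * β - 2 * γ) := by
    have h := key (l01 R) (W_mono (by omega) l01_mem)
    rw [hl, fl_l01 hu hco, l01X] at h
    simp only [eval_add, eval_C, eval_mul, eval_X, eval_pow, one_pow, mul_one] at h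
    rw [Algebra.smul_def] at h
    have h2 : 2 * algebraMap R (Sh R) (iv p R 2) = 1 := c2_eq hp
    simp only [map_sub, map_mul, map_ofNat]
    linear_combination 2 * h + (algebraMap R (Sh R) α * algebraMap R (Sh R) β) * h2
  have h1 : ∑ n ∈ range p, (H ^ n) (phi p a b R) =
      ∑ n ∈ range p, (phX p a b u).eval (n : Sh R) :=
    Finset.sum_congr rfl fun n _ => pow_phi_eq_eval hp a b hu hH hlog n
  let _ := algSh p R
  rw [h1, sum_eval p (Sh R) _ (phX_natDegree hp hab hu), phX_coeff_mid hp hab hu,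
    phX_coeff_top hp hab hu hco, ee, zero_add, neg_neg]

end Helper44.BL
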