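import Pool.Agent.Helper44.BL.CoreC
import Pool.Agent.Helper44.BL.Conj

/-!
# BL-23: the value of `H^p` on the function `fp`
-/

namespace Helper44.BL

open Sh Finset

section

variable {R : Type} [CommRing R]

/-- the function with `ll true f = φ`, `ll false f = 0`, `f [] = 0` -/
def left1 (φ : Sh R) : Sh R :=
  ⟨fun w => match w.reverse with
    | [] => 0
    | a :: v => if a then φ v.reverse else 0⟩

theorem left1_nil (φ : Sh R) : (left1 φ) [] = 0 := rfl

theorem ll_left1_true (φ : Sh R) : ll true (left1 φ) = φ := by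
  apply Sh.ext'
  intro w
  change (match (w ++ [true]).reverse with
    | [] => 0
    | a :: v => if a then φ v.reverse else 0) = φ w
  rw [List.reverse_append]
  simp

theorem ll_left1_false (φ : Sh R) : ll false (left1 φ) = 0 := by
  apply Sh.ext'
  intro w
  change (match (w ++ [false]).reverse with
    | [] => 0
    | a :: v => if a then φ v.reverse else 0) = 0
  rw [List.reverse_append]
  simp

private theorem h16_nil (A : Module.End R (Sh R)) (g : Sh R) : lprod A ([] : List R) g = g := rfl

private theorem h16_cons (A : Module.End R (Sh R)) (τ : R) (l : List R) (g : Sh R) :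
    lprod A (τ :: l) g = lprod A l g + τ • A (lprod A l g) := by
  rw [lprod, List.map_cons, List.prod_cons]
  rfl

/-- the value on a function whose second derivative is zero -/
private theorem h16_two (a : Bool) (l : List R) (g h : Sh R) (h1 : dl a g = h)
    (h2 : dl a h = 0) : lprod (d a) l g = g + l.sum • h := by
  induction l with
  | nil => rw [h16_nil, List.sum_nil, zero_smul, add_zero]
  | cons τ l ih =>
    rw [h16_cons, ih, map_add, map_smul, d_apply, d_apply, h1, h2, smul_zero, add_zero,
      List.sum_cons, add_smul]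
    abel

private theorem h16_ll (a b : Bool) (l : List R) (g : Sh R) :
    ll b (lprod (d a) l g) = lprod (d a) l (ll b g) := by
  induction l generalizing g with
  | nil => rfl
  | cons τ l ih =>
    rw [h16_cons, h16_cons, ll_add, ll_smul, d_ll, ih]

/-- the operator of `[x, y]` -/
def dc (R : Type) [CommRing R] : Module.End R (Sh R) := d true * d false - d false * d true

theorem isLF_dc : IsLF R (dc R) := IsLF.br (IsLF.gen true) (IsLF.gen false)

/-- `H0 = ∏_{ly} (1 + τ D_y) ∏_{lx} (1 + τ D_x)` -/
def H0 (lx ly : List R) : Module.End R (Sh R) := lprod (d false) ly * lprod (d true) lx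

/-- `H = (1 + η D_c) H0` -/
def HH (η : R) (lx ly : List R) : Module.End R (Sh R) := (1 + η • dc R) * H0 lx ly

theorem isProd_lprod (a : Bool) (l : List R) (hl : ∀ τ ∈ l, τ * τ = 0) :
    IsProd R (lprod (d a) l) := by
  induction l with
  | nil => exact IsProd.one
  | cons τ l ih =>
    have h := ih fun σ hσ => hl σ (List.mem_cons_of_mem _ hσ)
    exact IsProd.cons τ (hl τ List.mem_cons_self) (IsLF.gen a) h

theorem isProd_H0 {lx ly : List R} (hx : ∀ τ ∈ lx, τ * τ = 0) (hy : ∀ τ ∈ ly, τ * τ = 0) :
    IsProd R (H0 lx ly) := (isProd_lprod false ly hy).trans (isProd_lprod true lx hx)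

theorem isProd_HH {η : R} (hη : η * η = 0) {lx ly : List R} (hx : ∀ τ ∈ lx, τ * τ = 0)
    (hy : ∀ τ ∈ ly, τ * τ = 0) : IsProd R (HH η lx ly) :=
  IsProd.cons η hη isLF_dc (isProd_H0 hx hy)

/-- `H s = s + α`, `H t = t + β`, `H l01 = l01 + α t + (α β - η)` with `α = ∑ lx`, `β = ∑ ly`
(apply first the product over `lx`, then the product over `ly`, then `1 + η D_c`; the square zero
property is not needed here) -/
private theorem h16_H0_apply (lx ly : List R) (g : Sh R) :
    H0 lx ly g = lprod (d false) ly (lprod (d true) lx g) := rfl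

private theorem h16_HH_apply (η : R) (lx ly : List R) (g : Sh R) :
    HH η lx ly g = H0 lx ly g + η • (d true (d false (H0 lx ly g)) -
      d false (d true (H0 lx ly g))) := rfl

private theorem h16_H0_const (lx ly : List R) (c : R) :
    H0 lx ly (algebraMap R (Sh R) c) = algebraMap R (Sh R) c := by
  rw [h16_H0_apply, h16_two true lx _ 0 (dl_algebraMap true c) (dl_zero true), smul_zero,
    add_zero, h16_two false ly _ 0 (dl_algebraMap false c) (dl_zero false), smul_zero, add_zero]

private theorem h16_H0_sS (lx ly : List R) :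
    H0 lx ly (sS R) = sS R + algebraMap R (Sh R) lx.sum := by
  rw [h16_H0_apply, h16_two true lx _ 1 dl_sS_true (dl_one true),
    h16_two false ly _ 0 (by rw [dl_add, dl_smul, dl_one, dl_sS_false, smul_zero, add_zero])
      (dl_zero false), smul_zero, add_zero, algebraMap_eq]

private theorem h16_H0_tS (lx ly : List R) :
    H0 lx ly (tS R) = tS R + algebraMap R (Sh R) ly.sum := by
  rw [h16_H0_apply, h16_two true lx _ 0 dl_tS_true (dl_zero true), smul_zero, add_zero,
    h16_two false ly _ 1 dl_tS_false (dl_one false), algebraMap_eq]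

private theorem h16_H0_l01 (lx ly : List R) :
    H0 lx ly (l01 R) = l01 R + lx.sum • tS R + algebraMap R (Sh R) (lx.sum * ly.sum) := by
  have h1 : dl true (l01 R) = tS R := dl_intx_true _
  have h2 : dl false (l01 R) = 0 := dl_intx_false _
  rw [h16_H0_apply, h16_two true lx _ (tS R) h1 dl_tS_true,
    h16_two false ly _ (lx.sum • 1) (by rw [dl_add, dl_smul, dl_tS_false, h2, zero_add])
      (by rw [dl_smul, dl_one, smul_zero]), algebraMap_eq, smul_smul, mul_comm ly.sum]

private theorem h16_H0_comb (lx ly : List R) (k c a b : R) :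
    H0 lx ly (k • (algebraMap R (Sh R) c + (b • sS R - a • tS R))) =
      k • (algebraMap R (Sh R) c + (b • (sS R + algebraMap R (Sh R) lx.sum) -
        a • (tS R + algebraMap R (Sh R) ly.sum))) := by
  rw [map_smul, map_add, map_sub, map_smul, map_smul, h16_H0_const, h16_H0_sS, h16_H0_tS]

theorem HH_sS (η : R) (lx ly : List R) :
    HH η lx ly (sS R) = sS R + algebraMap R (Sh R) lx.sum := by
  rw [h16_HH_apply, h16_H0_sS]
  simp only [d_apply, dl_add, dl_algebraMap, dl_sS_true, dl_sS_false, dl_one, add_zero, dl_zero,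
    sub_self, smul_zero]

theorem HH_tS (η : R) (lx ly : List R) :
    HH η lx ly (tS R) = tS R + algebraMap R (Sh R) ly.sum := by
  rw [h16_HH_apply, h16_H0_tS]
  simp only [d_apply, dl_add, dl_algebraMap, dl_tS_true, dl_tS_false, dl_one, add_zero, dl_zero,
    sub_self, smul_zero]

theorem HH_l01 (η : R) (lx ly : List R) : HH η lx ly (l01 R) =
    l01 R + lx.sum • tS R + algebraMap R (Sh R) (lx.sum * ly.sum - η) := by
  have h1 : dl true (l01 R) = tS R := dl_intx_true _
  have h2 : dl false (l01 R) = 0 := dl_intx_false _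
  rw [h16_HH_apply, h16_H0_l01]
  simp only [d_apply, dl_add, dl_smul, dl_algebraMap, h1, h2, dl_tS_true, dl_tS_false, dl_one,
    add_zero, zero_add, zero_sub, smul_zero, map_sub]
  rw [smul_neg, ← algebraMap_eq η]
  abel

/-- Telescoping: `H - 1 = η D_c H0 + (Y - 1) X + (X - 1)`, `X - 1 = ∑ τ D_x X'` where `X'` is the
product over the following elements of the list. For every `g` commuting situation: the value at
`[]` of `(H - 1) g` is `η (D_y H0 (ll true g) - D_x H0 (ll false g)) [] + ∑_{lx} τ (X' (ll true g)) []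
+ ∑_{ly} τ (Y' X (ll false g)) []`. Here it is stated for `ll false g = 0`. The list `lx` is
traversed recursively. -/
def tel (l : List R) (g : Sh R) : R :=
  match l with
  | [] => 0
  | τ :: l => τ * (lprod (d true) l g) [] + tel l g

private theorem h16_val_zero (a : Bool) (l : List R) (g : Sh R) (hg : ll a g = 0) :
    (lprod (d a) l g) [] = g [] := by
  induction l with
  | nil => rfl
  | cons τ l ih =>
    rw [h16_cons, Sh.add_apply, Sh.smul_apply, ih, dl_nil, h16_ll, hg, map_zero, Sh.zero_apply,
      mul_zero, add_zero]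

private theorem h16_val_tel (l : List R) (g : Sh R) :
    (lprod (d true) l g) [] = g [] + tel l (ll true g) := by
  induction l with
  | nil => rw [h16_nil, tel, add_zero]
  | cons τ l ih =>
    rw [h16_cons, Sh.add_apply, Sh.smul_apply, ih, dl_nil, h16_ll, tel]
    ring

private theorem h16_H0_ll (lx ly : List R) (b : Bool) (g : Sh R) :
    ll b (H0 lx ly g) = H0 lx ly (ll b g) := by
  rw [h16_H0_apply, h16_H0_apply, h16_ll, h16_ll]

theorem HH_sub_one (η : R) (lx ly : List R) (g : Sh R) (hg : ll false g = 0) :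
    (HH η lx ly g - g) [] = η * (d false (H0 lx ly (ll true g))) [] + tel lx (ll true g) := by
  have h1 : (d true (d false (H0 lx ly g))) [] = (d false (H0 lx ly (ll true g))) [] := by
    rw [dl_nil, d_ll, h16_H0_ll]
  have h2 : (d false (d true (H0 lx ly g))) [] = 0 := by
    rw [dl_nil, d_ll, h16_H0_ll, hg, map_zero, map_zero, Sh.zero_apply]
  have h3 : (H0 lx ly g) [] = g [] + tel lx (ll true g) := by
    rw [h16_H0_apply, h16_val_zero false ly _ (by rw [h16_ll, hg, map_zero]), h16_val_tel]
  rw [h16_HH_apply, Sh.sub_apply, Sh.add_apply, Sh.smul_apply, Sh.sub_apply, h1, h2, h3]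
  ring

private theorem h16_nil_sum {ι : Type} (s : Finset ι) (g : ι → Sh R) :
    (∑ i ∈ s, g i) [] = ∑ i ∈ s, (g i) [] := map_sum (eps (R := R)) g s

/-- additivity of `tel` in the function -/
theorem tel_sum (l : List R) {ι : Type} (s : Finset ι) (g : ι → Sh R) :
    tel l (∑ i ∈ s, g i) = ∑ i ∈ s, tel l (g i) := by
  induction l with
  | nil => simp only [tel, Finset.sum_const_zero]
  | cons τ l ih =>
    simp only [tel]
    rw [ih, map_sum, h16_nil_sum, Finset.mul_sum, ← Finset.sum_add_distrib]

private theorem h16_tel_add (l : List R) (g h : Sh R) : tel l (g + h) = tel l g + tel l h := by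
  induction l with
  | nil => simp only [tel, add_zero]
  | cons τ l ih =>
    simp only [tel]
    rw [ih, map_add, Sh.add_apply]
    ring

private theorem h16_tel_smul (l : List R) (r : R) (g : Sh R) : tel l (r • g) = r * tel l g := by
  induction l with
  | nil => simp only [tel, mul_zero]
  | cons τ l ih =>
    simp only [tel]
    rw [ih, map_smul, Sh.smul_apply]
    ring

private theorem h16_tel_const (l : List R) (c : R) :
    tel l (algebraMap R (Sh R) c) = c * l.sum := by
  induction l with
  | nil => simp only [tel, List.sum_nil, mul_zero]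
  | cons τ l ih =>
    simp only [tel]
    rw [ih, h16_two true l _ 0 (dl_algebraMap true c) (dl_zero true), smul_zero, add_zero,
      algebraMap_nil, List.sum_cons]
    ring

private theorem h16_tel_tS (l : List R) : tel l (tS R) = 0 := by
  induction l with
  | nil => rfl
  | cons τ l ih =>
    simp only [tel]
    rw [ih, h16_two true l _ 0 dl_tS_true (dl_zero true), smul_zero, add_zero, add_zero, tS_nil,
      mul_zero]

end

variable {p : ℕ} [Fact p.Prime] {R : Type} [CommRing R] [Algebra (ZMod p) R]

/-- the function `f` -/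
def fp (p a b : ℕ) (R : Type) [CommRing R] : Sh R := left1 (phi p a b R)

/-- **The value of `H^p`.** `H^p f - f = ∑_{n < p} (H - 1) H^n f`, `ll true (H^n f) = H^n φ`,
`ll false (H^n f) = 0`, and `∑ H^n φ = 5 κ (αβ - 2 γ + β s - α t)` with `κ = α^(p-2) β^(p-1)`,
`γ = α β - η` (`sum_phi`, `HH_sub_one`). With `α^p = β^p = 0` the result is
`η 5 κ (-α) + ∑ τ 5 κ (2 η - αβ + β s(X')) = -5 η α^(p-1) β^(p-1) + 10 η α^(p-1) β^(p-1)`. -/
theorem eval_HH (hp : 11 ≤ p) {a b : ℕ} (hab : 4 * a + 6 * b + 4 = p - 1) {η : R}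
    (hη : η * η = 0) {lx ly : List R} (hx : ∀ τ ∈ lx, τ * τ = 0) (hy : ∀ τ ∈ ly, τ * τ = 0)
    (hxp : lx.length < p) (hyp : ly.length < p) :
    ((HH η lx ly) ^ p) (fp p a b R) [] = 5 * η * lx.sum ^ (p - 1) * ly.sum ^ (p - 1) := by
  have hH : IsProd R (HH η lx ly) := isProd_HH hη hx hy
  have hpow : ∀ (n : ℕ) (c : Bool) (g : Sh R),
      ll c (((HH η lx ly) ^ n) g) = ((HH η lx ly) ^ n) (ll c g) := by
    intro n c g
    induction n with
    | zero => rfl
    | succ n ih => rw [pow_succ', Module.End.mul_apply, Module.End.mul_apply, hH.map_ll, ih]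
  have hsum := sum_phi hp hab hH (HH_sS η lx ly) (HH_tS η lx ly) (HH_l01 η lx ly)
  have hstep : ∀ n : ℕ, (((HH η lx ly) ^ (n + 1)) (fp p a b R)) [] -
      (((HH η lx ly) ^ n) (fp p a b R)) [] =
      η * (d false (H0 lx ly (((HH η lx ly) ^ n) (phi p a b R)))) [] +
        tel lx (((HH η lx ly) ^ n) (phi p a b R)) := by
    intro n
    have h1 := HH_sub_one η lx ly (((HH η lx ly) ^ n) (fp p a b R)) (by
      rw [hpow, fp, ll_left1_false, map_zero])
    rw [hpow, fp, ll_left1_true, Sh.sub_apply] at h1
    rw [pow_succ', Module.End.mul_apply, fp]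
    exact h1
  have htel := Finset.sum_range_sub (fun n => (((HH η lx ly) ^ n) (fp p a b R)) []) p
  have h0 : (((HH η lx ly) ^ 0) (fp p a b R)) [] = 0 := rfl
  have hmain : (((HH η lx ly) ^ p) (fp p a b R)) [] =
      η * (d false (H0 lx ly (∑ n ∈ range p, ((HH η lx ly) ^ n) (phi p a b R)))) [] +
        tel lx (∑ n ∈ range p, ((HH η lx ly) ^ n) (phi p a b R)) := by
    simp only [hstep, h0, sub_zero] at htel
    rw [← htel, Finset.sum_add_distrib, tel_sum, map_sum, map_sum, h16_nil_sum, Finset.mul_sum]
  obtain ⟨q, hq⟩ : ∃ q, p = q + 2 := ⟨p - 2, by omega⟩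
  have hp1 : p - 1 = q + 1 := by omega
  have hp2 : p - 2 = q := by omega
  have hβ : ly.sum ^ p = 0 := sum_pow_zero ly hy hyp
  have hβ' : ly.sum ^ (q + 1) * ly.sum = 0 := by
    rw [← pow_succ, ← hβ, hq]
  rw [hmain, hsum, hp1, hp2]
  rw [h16_H0_comb]
  have e2 : (d false ((5 * (lx.sum ^ q * ly.sum ^ (q + 1))) •
      (algebraMap R (Sh R) (lx.sum * ly.sum - 2 * (lx.sum * ly.sum - η)) +
        (ly.sum • (sS R + algebraMap R (Sh R) lx.sum) -
          lx.sum • (tS R + algebraMap R (Sh R) ly.sum))))) [] =
      -(5 * (lx.sum ^ q * ly.sum ^ (q + 1)) * lx.sum) := by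
    simp only [d_apply, dl_smul, dl_add, dl_sub, dl_algebraMap, dl_sS_false, dl_tS_false,
      zero_add, add_zero, smul_zero, zero_sub, Sh.smul_apply, Sh.neg_apply, Sh.one_nil]
    ring
  rw [e2, sub_eq_add_neg (ly.sum • sS R), ← neg_smul, h16_tel_smul, h16_tel_add, h16_tel_add,
    h16_tel_smul, h16_tel_smul, h16_tel_const, h16_tel_tS]
  have e3 : 5 * (lx.sum ^ q * ly.sum ^ (q + 1)) *
      ((lx.sum * ly.sum - 2 * (lx.sum * ly.sum - η)) * lx.sum +
        (ly.sum * tel lx (sS R) + -lx.sum * 0)) =
      10 * η * lx.sum ^ (q + 1) * ly.sum ^ (q + 1) +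
        5 * lx.sum ^ q * (ly.sum ^ (q + 1) * ly.sum) * (tel lx (sS R) - lx.sum ^ 2) := by
    ring
  rw [e3, hβ']
  ring

end Helper44.BL
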