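import Pool.Agent.Helper44.BL.EvalA

/-!
# BL-24: the value of the conjugates of `D_c` on the function `fp`
-/

namespace Helper44.BL

open Sh Finset

variable {p : ℕ} [Fact p.Prime] {R : Type} [CommRing R] [Algebra (ZMod p) R]

/-- the inverse of `H0` -/
def H0i (lx ly : List R) : Module.End R (Sh R) :=
  lprod (d true) (lx.map fun τ => -τ) * lprod (d false) (ly.map fun τ => -τ)

theorem H0_mul_H0i {lx ly : List R} (hx : ∀ τ ∈ lx, τ * τ = 0) (hy : ∀ τ ∈ ly, τ * τ = 0) :
    H0 lx ly * H0i lx ly = 1 ∧ H0i lx ly * H0 lx ly = 1 := by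
  obtain ⟨h1, h2⟩ := lprod_inv (d true : Module.End R (Sh R)) lx hx
  obtain ⟨h3, h4⟩ := lprod_inv (d false : Module.End R (Sh R)) ly hy
  unfold H0 H0i
  constructor
  · rw [mul_assoc, ← mul_assoc (lprod (d true) lx), h1, one_mul, h3]
  · rw [mul_assoc, ← mul_assoc (lprod (d false) (ly.map fun τ => -τ)), h4, one_mul, h2]

private theorem isProd_pow {H : Module.End R (Sh R)} (h : IsProd R H) (m : ℕ) :
    IsProd R (H ^ m) := by
  induction m with
  | zero => rw [pow_zero]; exact IsProd.one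
  | succ m ih => rw [pow_succ]; exact ih.trans h

/-- `H0^p f = f`: the left removals agree by `pow_p_phi` (for `ll false` both are `0`), the values
at `[]` by `eval_HH` with `η = 0`. -/
theorem H0_pow_fp (hp : 11 ≤ p) {a b : ℕ} (hab : 4 * a + 6 * b + 4 = p - 1) {lx ly : List R}
    (hx : ∀ τ ∈ lx, τ * τ = 0) (hy : ∀ τ ∈ ly, τ * τ = 0) (hxp : lx.length < p)
    (hyp : ly.length < p) : ((H0 lx ly) ^ p) (fp p a b R) = fp p a b R := by
  have hP := isProd_H0 hx hy
  apply ext_ll
  · have h1 := eval_HH hp hab (η := (0 : R)) (by simp) hx hy hxp hyp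
    have h2 : HH (0 : R) lx ly = H0 lx ly := by
      unfold HH
      rw [zero_smul, add_zero, one_mul]
    rw [h2] at h1
    rw [h1]
    unfold fp
    rw [left1_nil]
    ring
  · intro c
    rw [(isProd_pow hP p).map_ll]
    unfold fp
    cases c with
    | true => rw [ll_left1_true, pow_p_phi hp hP]
    | false => rw [ll_left1_false, map_zero]

/-- `((1 + η C) H)^p = H^p + η ∑_{n < p} H^n C H^(p-n)` if `η^2 = 0` -/
theorem one_add_smul_mul_pow {B : Type} [Ring B] [Algebra R B] (η : R) (hη : η * η = 0) (C H : B)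
    (n : ℕ) : ((1 + η • C) * H) ^ n = H ^ n + η • ∑ i ∈ range n, H ^ i * C * H ^ (n - i) := by
  induction n with
  | zero => simp
  | succ n ih =>
    have e1 : ∑ i ∈ range (n + 1), H ^ i * C * H ^ (n + 1 - i) =
        (∑ i ∈ range n, H ^ i * C * H ^ (n - i)) * H + H ^ n * C * H := by
      rw [sum_range_succ, Nat.add_sub_cancel_left, pow_one, sum_mul]
      congr 1
      refine sum_congr rfl fun i hi => ?_
      have h1 : n + 1 - i = (n - i) + 1 := by
        have := mem_range.1 hi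
        omega
      rw [h1, pow_succ, ← mul_assoc]
    rw [pow_succ, ih, e1]
    set S := ∑ i ∈ range n, H ^ i * C * H ^ (n - i)
    have e2 : (η • S) * ((η • C) * H) = 0 := by
      rw [smul_mul_assoc, smul_mul_assoc, mul_smul_comm, smul_smul, hη, zero_smul]
    have e3 : (1 + η • C) * H = H + (η • C) * H := by rw [add_mul, one_mul]
    rw [e3, add_mul, mul_add, mul_add, e2, add_zero, smul_add, pow_succ,
      smul_mul_assoc, smul_mul_assoc, mul_smul_comm, ← mul_assoc]
    abel

/-- `η ε(∑_{n < p} H0^n D_c H0^(-n) f) = 5 η α^(p-1) β^(p-1)` -/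
theorem eval_Z (hp : 11 ≤ p) {a b : ℕ} (hab : 4 * a + 6 * b + 4 = p - 1) {η : R}
    (hη : η * η = 0) {lx ly : List R} (hx : ∀ τ ∈ lx, τ * τ = 0) (hy : ∀ τ ∈ ly, τ * τ = 0)
    (hxp : lx.length < p) (hyp : ly.length < p) :
    η * ((∑ n ∈ range p, H0 lx ly ^ n * dc R * H0i lx ly ^ n : Module.End R (Sh R))
      (fp p a b R)) [] = 5 * η * lx.sum ^ (p - 1) * ly.sum ^ (p - 1) := by
  obtain ⟨h1, h2⟩ := H0_mul_H0i hx hy
  have hf := H0_pow_fp hp hab hx hy hxp hyp
  have hc : Commute (H0i lx ly) (H0 lx ly) := h2.trans h1.symm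
  have key : ∀ i ∈ range p, (H0 lx ly ^ i * dc R * H0 lx ly ^ (p - i)) (fp p a b R) =
      (H0 lx ly ^ i * dc R * H0i lx ly ^ i) (fp p a b R) := by
    intro i hi
    have hi' : i ≤ p := (mem_range.1 hi).le
    have e : H0 lx ly ^ (p - i) = H0i lx ly ^ i * H0 lx ly ^ p := by
      have e1 : H0 lx ly ^ p = H0 lx ly ^ i * H0 lx ly ^ (p - i) := by
        rw [← pow_add, Nat.add_sub_cancel' hi']
      rw [e1, ← mul_assoc, ← hc.mul_pow, h2, one_pow, one_mul]
    rw [Module.End.mul_apply, e, Module.End.mul_apply (H0i lx ly ^ i), hf,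
      ← Module.End.mul_apply]
  have h3 := eval_HH hp hab hη hx hy hxp hyp
  have h4 : (HH η lx ly ^ p) (fp p a b R) = fp p a b R +
      η • (∑ n ∈ range p, H0 lx ly ^ n * dc R * H0i lx ly ^ n : Module.End R (Sh R))
        (fp p a b R) := by
    unfold HH
    rw [one_add_smul_mul_pow η hη, LinearMap.add_apply, LinearMap.smul_apply, hf,
      LinearMap.sum_apply, LinearMap.sum_apply, sum_congr rfl key]
  rw [h4, Sh.add_apply, Sh.smul_apply] at h3
  have h5 : (fp p a b R) [] = 0 := left1_nil _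
  rw [h5, zero_add] at h3
  exact h3

end Helper44.BL
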