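import Pool.Agent.Helper44.BL.Lie
import Pool.Agent.Helper44.BL.Iv

/-!
# BL-4: truncated exponentials and flows on the shuffle algebra
-/

namespace Helper44.BL

open Sh Polynomial Finset

variable (p : ℕ) [Fact p.Prime] {R : Type} [CommRing R] [Algebra (ZMod p) R]

/-- The algebra structure over the prime field. Not an instance (use `letI := algSh p R` when a
theorem on rings `A` with `[Algebra (ZMod p) A]` is applied to `A = Sh R`). -/
@[reducible] noncomputable def algSh (R : Type) [CommRing R] [Algebra (ZMod p) R] :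
    Algebra (ZMod p) (Sh R) :=
  ((algebraMap R (Sh R)).comp (algebraMap (ZMod p) R)).toAlgebra

/-- truncated exponential -/
noncomputable def E10 (u : Module.End R (Sh R)) : Module.End R (Sh R) :=
  ∑ k ∈ range 10, iv p R k • u ^ k

/-- the flow `∑ X^k u^k g / k!` (truncated) -/
noncomputable def fl (u : Module.End R (Sh R)) (g : Sh R) : (Sh R)[X] :=
  ∑ k ∈ range 10, C (iv p R k • (u ^ k) g) * X ^ k

variable {p}

theorem fl_coeff (u : Module.End R (Sh R)) (g : Sh R) (k : ℕ) :
    (fl p u g).coeff k = if k < 10 then iv p R k • (u ^ k) g else 0 := by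
  unfold fl
  rw [Polynomial.finsetSum_coeff]
  simp only [Polynomial.coeff_C_mul_X_pow]
  rw [Finset.sum_ite_eq]
  simp only [Finset.mem_range]

theorem fl_natDegree (u : Module.End R (Sh R)) (g : Sh R) : (fl p u g).natDegree ≤ 9 := by
  rw [Polynomial.natDegree_le_iff_coeff_eq_zero]
  intro N hN
  rw [fl_coeff, if_neg (by omega)]

theorem fl_coeff_zero (u : Module.End R (Sh R)) (g : Sh R) : (fl p u g).coeff 0 = g := by
  rw [fl_coeff, if_pos (by omega), iv_zero, one_smul, pow_zero]
  rfl

private theorem bl4_natmul (u : Module.End R (Sh R)) (n : ℕ) (x : Sh R) :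
    u ((n : Sh R) * x) = (n : Sh R) * u x := by
  rw [← nsmul_eq_mul, ← nsmul_eq_mul, map_nsmul]

/-- The polynomials `q` with `dq/dX = u q` (coefficientwise), for an element `u` of the Lie
algebra. This is a subalgebra because `u` is a derivation. -/
def flowAlg {u : Module.End R (Sh R)} (hu : IsLF R u) : Subalgebra R (Sh R)[X] where
  carrier := {q | ∀ k : ℕ, ((k + 1 : ℕ) : Sh R) * q.coeff (k + 1) = u (q.coeff k)}
  mul_mem' := by
    intro q r hq hr k
    have e1 : ∀ (q : (Sh R)[X]) (k : ℕ), ((k + 1 : ℕ) : Sh R) * q.coeff (k + 1) =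
        (derivative q).coeff k := by
      intro q k
      rw [coeff_derivative, mul_comm, Nat.cast_add, Nat.cast_one]
    rw [e1, derivative_mul, coeff_add, coeff_mul, coeff_mul, coeff_mul, map_sum,
      ← Finset.sum_add_distrib]
    refine Finset.sum_congr rfl fun x _ => ?_
    rw [← e1, ← e1, hq x.1, hr x.2, hu.leibniz]
  add_mem' := by
    intro q r hq hr k
    rw [coeff_add, coeff_add, map_add, mul_add, hq k, hr k]
  algebraMap_mem' := by
    intro r k
    rw [Polynomial.algebraMap_apply, coeff_C, coeff_C, if_neg (by omega), mul_zero]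
    split_ifs
    · exact (hu.map_const r).symm
    · exact (map_zero u).symm

theorem mem_flowAlg {u : Module.End R (Sh R)} (hu : IsLF R u) {q : (Sh R)[X]} :
    q ∈ flowAlg hu ↔ ∀ k : ℕ, ((k + 1 : ℕ) : Sh R) * q.coeff (k + 1) = u (q.coeff k) := Iff.rfl

/-- `k! q_k = u^k q_0` -/
theorem flow_coeff {u : Module.End R (Sh R)} (hu : IsLF R u) {q : (Sh R)[X]}
    (hq : q ∈ flowAlg hu) (k : ℕ) :
    (k.factorial : Sh R) * q.coeff k = (u ^ k) (q.coeff 0) := by
  induction k with
  | zero => rw [Nat.factorial_zero, Nat.cast_one, one_mul, pow_zero]; rfl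
  | succ k ih =>
    rw [pow_succ', Module.End.mul_apply, ← ih, bl4_natmul, ← (mem_flowAlg hu).1 hq k,
      Nat.factorial_succ, Nat.cast_mul]
    ring

private theorem bl4_nat_smul (n : ℕ) (r : R) (x : Sh R) :
    (n : Sh R) * (r • x) = ((n : R) * r) • x := by
  rw [← nsmul_eq_mul, ← Nat.cast_smul_eq_nsmul R, smul_smul]

/-- (`u^10 g = 0` by `IsLF.pow_map_W` and `W_zero`) -/
theorem fl_mem (hp : 11 ≤ p) {u : Module.End R (Sh R)} (hu : IsLF R u) {g : Sh R}
    (hg : g ∈ W R 10) : fl p u g ∈ flowAlg hu := by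
  rw [mem_flowAlg]
  intro k
  rw [fl_coeff, fl_coeff]
  by_cases h1 : k + 1 < 10
  · rw [if_pos h1, if_pos (by omega), bl4_nat_smul, iv_succ p R (by omega), map_smul, pow_succ',
      Module.End.mul_apply]
  · rw [if_neg h1, mul_zero]
    by_cases h2 : k < 10
    · rw [if_pos h2, map_smul, ← Module.End.mul_apply, ← pow_succ']
      have hk : k + 1 = 10 := by omega
      have h3 := hu.pow_map_W 10 hg
      rw [hk, W_zero h3, smul_zero]
    · rw [if_neg h2, map_zero]

/-- the polynomial `∑ n^k X^k / k!` -/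
private noncomputable def bl4_e (p : ℕ) [Fact p.Prime] (R : Type) [CommRing R]
    [Algebra (ZMod p) R] (n : R) : R[X] :=
  ∑ k ∈ range 10, C (iv p R k * n ^ k) * X ^ k

private theorem bl4_e_coeff (n : R) (k : ℕ) :
    (bl4_e p R n).coeff k = if k < 10 then iv p R k * n ^ k else 0 := by
  unfold bl4_e
  rw [Polynomial.finsetSum_coeff]
  simp only [Polynomial.coeff_C_mul_X_pow]
  rw [Finset.sum_ite_eq]
  simp only [Finset.mem_range]

private theorem bl4_e_aeval (n : R) (u : Module.End R (Sh R)) :
    aeval u (bl4_e p R n) = ∑ k ∈ range 10, (iv p R k * n ^ k) • u ^ k := by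
  unfold bl4_e
  rw [map_sum]
  refine Finset.sum_congr rfl fun k _ => ?_
  rw [map_mul, map_pow, aeval_X, aeval_C, Algebra.smul_def]

private theorem bl4_iv (hp : 11 ≤ p) {i j : ℕ} (h : i + j < 10) :
    iv p R i * iv p R j = (((i + j).choose i : ℕ) : R) * iv p R (i + j) := by
  have h1 := iv_mul p R (k := i) (by omega)
  have h2 := iv_mul p R (k := j) (by omega)
  have h3 := iv_mul p R (k := i + j) (by omega)
  have h4 : (((i + j).choose i : ℕ) : R) * (i.factorial : R) * (j.factorial : R) =
      ((i + j).factorial : R) := by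
    rw [← Nat.add_choose_mul_factorial_mul_factorial i j, Nat.cast_mul, Nat.cast_mul,
      Nat.choose_symm_add]
  calc iv p R i * iv p R j = iv p R i * iv p R j * (((i + j).factorial : R) * iv p R (i + j)) := by
        rw [h3, mul_one]
    _ = iv p R i * iv p R j * ((((i + j).choose i : ℕ) : R) * (i.factorial : R) *
        (j.factorial : R) * iv p R (i + j)) := by rw [h4]
    _ = ((i.factorial : R) * iv p R i) * ((j.factorial : R) * iv p R j) *
        ((((i + j).choose i : ℕ) : R) * iv p R (i + j)) := by ring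
    _ = (((i + j).choose i : ℕ) : R) * iv p R (i + j) := by rw [h1, h2]; ring

private theorem bl4_dvd (hp : 11 ≤ p) (n : R) :
    X ^ 10 ∣ bl4_e p R 1 * bl4_e p R n - bl4_e p R (n + 1) := by
  rw [X_pow_dvd_iff]
  intro m hm
  rw [coeff_sub, coeff_mul, bl4_e_coeff, if_pos hm, sub_eq_zero, add_comm n 1,
    (Commute.all (1 : R) n).add_pow', Finset.mul_sum]
  refine Finset.sum_congr rfl fun x hx => ?_
  rw [HasAntidiagonal.mem_antidiagonal] at hx
  rw [bl4_e_coeff, bl4_e_coeff, if_pos (by omega), if_pos (by omega), one_pow, mul_one,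
    one_mul, nsmul_eq_mul, ← mul_assoc, bl4_iv hp (by omega), hx]
  ring

private theorem bl4_kill {u : Module.End R (Sh R)} (hu : IsLF R u) {g : Sh R}
    (hg : g ∈ W R 10) {P : R[X]} (hP : X ^ 10 ∣ P) : aeval u P g = 0 := by
  obtain ⟨Q, rfl⟩ := hP
  rw [mul_comm, map_mul, map_pow, aeval_X, Module.End.mul_apply,
    W_zero (hu.pow_map_W 10 hg), map_zero]

private theorem bl4_eval (u : Module.End R (Sh R)) (g : Sh R) (n : ℕ) :
    (fl p u g).eval (n : Sh R) = aeval u (bl4_e p R (n : R)) g := by
  rw [bl4_e_aeval]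
  unfold fl
  rw [Polynomial.eval_finsetSum, LinearMap.sum_apply]
  refine Finset.sum_congr rfl fun k _ => ?_
  rw [eval_mul, eval_C, eval_pow, eval_X, LinearMap.smul_apply, mul_comm, ← Nat.cast_pow,
    bl4_nat_smul, Nat.cast_pow, mul_comm]

/-- Let `H` be equal to `exp u` on functions of weight `< 10`. Then `H^n g` is the value at `n` of
the flow. Proof by induction: `exp(u)(∑ n^k u^k g / k!) = ∑ (n + 1)^k u^k g / k!` (binomial
theorem and `u^10 = 0` on `W R 10`). -/
theorem pow_eq_eval (hp : 11 ≤ p) {u : Module.End R (Sh R)} (hu : IsLF R u)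
    {H : Module.End R (Sh R)} (hH : ∀ g ∈ W R 10, H g = E10 p u g) {g : Sh R} (hg : g ∈ W R 10)
    (n : ℕ) : (H ^ n) g = (fl p u g).eval (n : Sh R) := by
  induction n with
  | zero =>
    rw [pow_zero, Nat.cast_zero, ← coeff_zero_eq_eval_zero, fl_coeff_zero]
    rfl
  | succ n ih =>
    have hW : aeval u (bl4_e p R (n : R)) g ∈ W R 10 := by
      rw [bl4_e_aeval, LinearMap.sum_apply]
      refine Submodule.sum_mem _ fun k _ => ?_
      rw [LinearMap.smul_apply]
      exact Submodule.smul_mem _ _ (W_mono (Nat.sub_le 10 k) (hu.pow_map_W k hg))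
    have hE : E10 p u = aeval u (bl4_e p R (1 : R)) := by
      rw [bl4_e_aeval]
      unfold E10
      refine Finset.sum_congr rfl fun k _ => ?_
      rw [one_pow, mul_one]
    rw [pow_succ', Module.End.mul_apply, ih, bl4_eval, hH _ hW, hE, ← Module.End.mul_apply,
      ← map_mul, bl4_eval, Nat.cast_add, Nat.cast_one]
    have h1 := bl4_kill hu hg (bl4_dvd (p := p) hp (n : R))
    rw [map_sub, LinearMap.sub_apply, sub_eq_zero] at h1
    exact h1

end Helper44.BL
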