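import Pool.Agent.Helper44.HU.Fun

/-!
# BL-7: functoriality of the ring `Q K` and of the functions `f4`, `f6`; the exponential over
polynomial rings
-/

namespace Helper44.BL

open Helper44.HU Helper44.HU.T4 Helper44.HU.Q

/-- coefficientwise map -/
def t4mp {K L : Type} (φ : K → L) (a : T4 K) : T4 L := ⟨φ a.e0, φ a.e1, φ a.e2, φ a.e3⟩

/-- entrywise map -/
def qmp {K L : Type} (φ : K → L) (g : Q K) : Q L where
  a := t4mp φ g.a
  b := t4mp φ g.b
  c := t4mp φ g.c
  d := t4mp φ g.d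
  u := t4mp φ g.u
  v := t4mp φ g.v
  r := t4mp φ g.r
  s := t4mp φ g.s
  x := t4mp φ g.x

/-- coordinatewise map -/
def pmp {K L : Type} (φ : K → L) (P : Par K) : Par L where
  v0 := φ P.v0
  v1 := φ P.v1
  z := φ P.z
  w0 := φ P.w0
  w1 := φ P.w1
  q1 := φ P.q1
  q2 := φ P.q2
  q3 := φ P.q3
  m0 := φ P.m0
  m1 := φ P.m1
  l := φ P.l
  n0 := φ P.n0
  n1 := φ P.n1

theorem qmp_qmp {K L M : Type} (φ : K → L) (ψ : L → M) (g : Q K) :
    qmp ψ (qmp φ g) = qmp (ψ ∘ φ) g := rfl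

theorem pmp_pmp {K L M : Type} (φ : K → L) (ψ : L → M) (P : Par K) :
    pmp ψ (pmp φ P) = pmp (ψ ∘ φ) P := rfl

theorem qmp_id {K : Type} (g : Q K) : qmp (fun x => x) g = g := rfl

section hom

variable {K L : Type} [CommRing K] [CommRing L] (φ : K →+* L)

private theorem t4mp_add (a b : T4 K) : t4mp φ (a + b) = t4mp φ a + t4mp φ b := by
  ext <;> simp [t4mp]

private theorem t4mp_neg (a : T4 K) : t4mp φ (-a) = -t4mp φ a := by
  ext <;> simp [t4mp]

private theorem t4mp_mul (a b : T4 K) : t4mp φ (a * b) = t4mp φ a * t4mp φ b := by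
  ext <;> simp [t4mp]

private theorem t4mp_one : t4mp φ (1 : T4 K) = 1 := by
  ext <;> simp [t4mp]

private theorem t4mp_zero : t4mp φ (0 : T4 K) = 0 := by
  ext <;> simp [t4mp]

private theorem t4mp_tau : t4mp φ (tau : T4 K) = tau := by
  ext <;> simp [t4mp]

private theorem t4mp_C (k : K) : t4mp φ (T4.C k) = T4.C (φ k) := by
  ext <;> simp [t4mp]

private theorem qmp_a (g : Q K) : (qmp φ g).a = t4mp φ g.a := rfl
private theorem qmp_b (g : Q K) : (qmp φ g).b = t4mp φ g.b := rfl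
private theorem qmp_c (g : Q K) : (qmp φ g).c = t4mp φ g.c := rfl
private theorem qmp_d (g : Q K) : (qmp φ g).d = t4mp φ g.d := rfl
private theorem qmp_u (g : Q K) : (qmp φ g).u = t4mp φ g.u := rfl
private theorem qmp_v (g : Q K) : (qmp φ g).v = t4mp φ g.v := rfl
private theorem qmp_r (g : Q K) : (qmp φ g).r = t4mp φ g.r := rfl
private theorem qmp_s (g : Q K) : (qmp φ g).s = t4mp φ g.s := rfl
private theorem qmp_x (g : Q K) : (qmp φ g).x = t4mp φ g.x := rfl

theorem qmp_mul (g h : Q K) : qmp φ (g * h) = qmp φ g * qmp φ h := by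
  ext1 <;> simp only [qmp_a, qmp_b, qmp_c, qmp_d, qmp_u, qmp_v, qmp_r, qmp_s, qmp_x, mul_a, mul_b,
    mul_c, mul_d, mul_u, mul_v, mul_r, mul_s, mul_x, t4mp_add, t4mp_mul, t4mp_tau]

theorem qmp_add (g h : Q K) : qmp φ (g + h) = qmp φ g + qmp φ h := by
  ext1 <;> simp only [qmp_a, qmp_b, qmp_c, qmp_d, qmp_u, qmp_v, qmp_r, qmp_s, qmp_x, add_a, add_b,
    add_c, add_d, add_u, add_v, add_r, add_s, add_x, t4mp_add]

theorem qmp_one : qmp φ (1 : Q K) = 1 := by
  ext1 <;> simp only [qmp_a, qmp_b, qmp_c, qmp_d, qmp_u, qmp_v, qmp_r, qmp_s, qmp_x, one_a, one_b,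
    one_c, one_d, one_u, one_v, one_r, one_s, one_x, t4mp_one, t4mp_zero]

theorem qmp_smul (a : T4 K) (g : Q K) : qmp φ (a • g) = t4mp φ a • qmp φ g := by
  ext1 <;> simp only [qmp_a, qmp_b, qmp_c, qmp_d, qmp_u, qmp_v, qmp_r, qmp_s, qmp_x, smul_a,
    smul_b, smul_c, smul_d, smul_u, smul_v, smul_r, smul_s, smul_x, t4mp_mul]

theorem qmp_toQ (P : Par K) : qmp φ P.toQ = (pmp φ P).toQ := by
  ext1 <;> ext1 <;> simp [qmp, t4mp, Par.toQ, pmp, map_ofNat]

theorem f4_qmp (g : Q K) : f4 (qmp φ g) = φ (f4 g) := by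
  simp only [f4, fdsc, fG2, fGR, fTP, fa, fb, fD, fB1, fB2, tr, qmp, t4mp, add_e3, map_add,
    map_sub, map_mul, map_ofNat]

theorem f6_qmp (g : Q K) : f6 (qmp φ g) = φ (f6 g) := by
  simp only [f6, fdsc, fG2, fG3, fGR, fTP, fa, fb, fD, fB1, fB2, fB3, tr, qmp, t4mp, add_e3,
    map_add, map_sub, map_mul, map_ofNat]

theorem low_qmp {g : Q K} (hg : Low g) : Low (qmp φ g) where
  a0 := by have h := congrArg φ hg.a0; rwa [_root_.map_one] at h
  b0 := by have h := congrArg φ hg.b0; rwa [_root_.map_zero] at h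
  c0 := by have h := congrArg φ hg.c0; rwa [_root_.map_zero] at h
  d0 := by have h := congrArg φ hg.d0; rwa [_root_.map_one] at h
  x0 := by have h := congrArg φ hg.x0; rwa [_root_.map_one] at h
  r0 := by have h := congrArg φ hg.r0; rwa [map_neg] at h
  s0 := congrArg φ hg.s0
  b1 := by have h := congrArg φ hg.b1; rwa [map_mul, map_ofNat, map_pow] at h
  c1 := by have h := congrArg φ hg.c1; rwa [map_mul, map_ofNat, map_neg, map_pow] at h
  a1 := by have h := congrArg φ hg.a1; rwa [map_sub, map_mul] at h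
  x1 := by have h := congrArg φ hg.x1; rwa [map_sub, map_neg] at h

end hom

section expX

variable {A : Type} [CommRing A]

open Polynomial in
/-- `exp(X U)` over `A[X]`, for `U = P.toQ`; `c2, c3, c4` are the inverses of `2, 6, 24` -/
noncomputable def expX (c2 c3 c4 : A) (P : Par A) : Q A[X] :=
  1 + T4.C (X : A[X]) • qmp Polynomial.C P.toQ +
    T4.C (Polynomial.C c2 * X ^ 2 : A[X]) • qmp Polynomial.C (P.toQ * P.toQ) +
    T4.C (Polynomial.C c3 * X ^ 3 : A[X]) • qmp Polynomial.C (P.toQ * P.toQ * P.toQ) +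
    T4.C (Polynomial.C c4 * X ^ 4 : A[X]) • qmp Polynomial.C (P.toQ * P.toQ * P.toQ * P.toQ)

open Polynomial in
/-- naturality of `expX` -/
theorem expX_map {B : Type} [CommRing B] (φ : A →+* B) (c2 c3 c4 : A) (P : Par A) :
    qmp (Polynomial.mapRingHom φ) (expX c2 c3 c4 P) =
      expX (φ c2) (φ c3) (φ c4) (pmp φ P) := by
  have hC : ∀ g : Q A, qmp (Polynomial.mapRingHom φ) (qmp Polynomial.C g) =
      qmp Polynomial.C (qmp φ g) := by
    intro g
    rw [qmp_qmp, qmp_qmp]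
    have e : (⇑(Polynomial.mapRingHom φ) ∘ ⇑(Polynomial.C : A →+* A[X])) =
        (⇑(Polynomial.C : B →+* B[X]) ∘ ⇑φ) := by
      funext x
      simp
    rw [e]
  simp only [expX, qmp_add, qmp_one, qmp_smul, t4mp_C, hC]
  simp only [qmp_mul, qmp_toQ]
  simp only [Polynomial.coe_mapRingHom, Polynomial.map_mul, Polynomial.map_pow, Polynomial.map_X,
    Polynomial.map_C]

open Polynomial in
/-- over a field the value at `t` is `expQ` -/
theorem expX_eval {K : Type} [Field K] {c2 c3 c4 : K} (h2 : 2 * c2 = 1) (h3 : 6 * c3 = 1)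
    (h4 : 24 * c4 = 1) (P : Par K) (t : K) :
    qmp (fun q : K[X] => q.eval t) (expX c2 c3 c4 P) = expQ P.toQ t := by
  have e0 : (fun q : K[X] => q.eval t) = ⇑(Polynomial.evalRingHom t) := by
    funext q
    rfl
  have hC : ∀ g : Q K, qmp (Polynomial.evalRingHom t) (qmp Polynomial.C g) = g := by
    intro g
    rw [qmp_qmp]
    have e : (⇑(Polynomial.evalRingHom t) ∘ ⇑(Polynomial.C : K →+* K[X])) = fun x => x := by
      funext x
      simp
    rw [e, qmp_id]
  have k2 : c2 * t ^ 2 = t ^ 2 / 2 := by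
    have h : (2 : K) ≠ 0 := fun h => by rw [h, zero_mul] at h2; exact zero_ne_one h2
    rw [eq_div_iff h]
    linear_combination t ^ 2 * h2
  have k3 : c3 * t ^ 3 = t ^ 3 / 6 := by
    have h : (6 : K) ≠ 0 := fun h => by rw [h, zero_mul] at h3; exact zero_ne_one h3
    rw [eq_div_iff h]
    linear_combination t ^ 3 * h3
  have k4 : c4 * t ^ 4 = t ^ 4 / 24 := by
    have h : (24 : K) ≠ 0 := fun h => by rw [h, zero_mul] at h4; exact zero_ne_one h4
    rw [eq_div_iff h]
    linear_combination t ^ 4 * h4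
  rw [e0]
  simp only [expX, qmp_add, qmp_one, qmp_smul, t4mp_C, hC]
  simp only [Polynomial.coe_evalRingHom, Polynomial.eval_mul, Polynomial.eval_pow,
    Polynomial.eval_X, Polynomial.eval_C, k2, k3, k4, expQ]

end expX

end Helper44.BL
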