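import Pool.Agent.Helper44.BL.Exp
import Pool.Agent.Helper44.BL.Map

/-!
# BL-9: the generic matrix over the shuffle algebra
-/

set_option linter.unusedSimpArgs false

namespace Helper44.BL

open Sh Helper44.HU Helper44.HU.T4 Helper44.HU.Q

section

variable (R : Type) [CommRing R]

/-- the coordinates of the letters: `x` has `v = (1, 0)`, `y` has `v = (0, 1)` -/
def letP (a : Bool) : Par R where
  v0 := if a then 1 else 0
  v1 := if a then 0 else 1
  z := 0
  w0 := 0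
  w1 := 0
  q1 := 0
  q2 := 0
  q3 := 0
  m0 := 0
  m1 := 0
  l := 0
  n0 := 0
  n1 := 0

/-- the matrix of a word (the head of the list is the last letter) -/
def gw : List Bool → Q R
  | [] => 1
  | a :: w => gw w * (letP R a).toQ

/-- the functions on words given by an entry of the matrix -/
def ent (φ : Q R → T4 R) : T4 (Sh R) :=
  ⟨⟨fun w => (φ (gw R w)).e0⟩, ⟨fun w => (φ (gw R w)).e1⟩, ⟨fun w => (φ (gw R w)).e2⟩,
    ⟨fun w => (φ (gw R w)).e3⟩⟩

/-- the generic matrix -/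
def GM : Q (Sh R) where
  a := ent R Q.a
  b := ent R Q.b
  c := ent R Q.c
  d := ent R Q.d
  u := ent R Q.u
  v := ent R Q.v
  r := ent R Q.r
  s := ent R Q.s
  x := ent R Q.x

end

variable {R : Type} [CommRing R]

section aux

variable {A B : Type} [CommRing A] [CommRing B] [Algebra R A] [Algebra R B]

private theorem gm_const (ψ : A →ₗ[R] B) (g : A) (r : R) :
    ψ (g * algebraMap R A r) = ψ g * algebraMap R B r := by
  rw [mul_comm, ← Algebra.smul_def, map_smul, Algebra.smul_def, mul_comm]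

private theorem t4_const_mul (ψ : A →ₗ[R] B) (x : T4 A) (y : T4 R) :
    t4mp ψ (x * t4mp (algebraMap R A) y) = t4mp ψ x * t4mp (algebraMap R B) y := by
  ext1 <;> simp only [t4mp, mul_e0, mul_e1, mul_e2, mul_e3, map_add, gm_const]

private theorem t4_add (ψ : A →ₗ[R] B) (x y : T4 A) :
    t4mp ψ (x + y) = t4mp ψ x + t4mp ψ y := by
  ext1 <;> simp only [t4mp, add_e0, add_e1, add_e2, add_e3, map_add]

private theorem t4_tau (ψ : A →ₗ[R] B) (x : T4 A) :
    t4mp ψ (tau * x) = tau * t4mp ψ x := by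
  ext1 <;> simp only [t4mp, mul_e0, mul_e1, mul_e2, mul_e3, tau_e0, tau_e1, tau_e2, tau_e3,
    zero_mul, one_mul, zero_add, add_zero, map_zero]

/-- a linear map commutes with the multiplication by a constant matrix -/
theorem qmp_mul_const (ψ : A →ₗ[R] B) (G : Q A) (U : Q R) :
    qmp ψ (G * qmp (algebraMap R A) U) = qmp ψ G * qmp (algebraMap R B) U := by
  ext1 <;>
    simp only [qmp, mul_a, mul_b, mul_c, mul_d, mul_u, mul_v, mul_r, mul_s, mul_x, t4_add, t4_tau,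
      t4_const_mul]

end aux

/-- evaluation at a word -/
def evl (w : List Bool) : Sh R →ₗ[R] R where
  toFun g := g w
  map_add' _ _ := rfl
  map_smul' _ _ := rfl

theorem qmp_evl_GM (w : List Bool) : qmp (evl w) (GM R) = gw R w := rfl

private theorem t4_ext_evl {x y : T4 (Sh R)} (h : ∀ w, t4mp (evl w) x = t4mp (evl w) y) :
    x = y := by
  ext1
  · exact Sh.ext' fun w => congrArg T4.e0 (h w)
  · exact Sh.ext' fun w => congrArg T4.e1 (h w)
  · exact Sh.ext' fun w => congrArg T4.e2 (h w)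
  · exact Sh.ext' fun w => congrArg T4.e3 (h w)

private theorem q_ext_evl {x y : Q (Sh R)} (h : ∀ w, qmp (evl w) x = qmp (evl w) y) :
    x = y := by
  ext1
  · exact t4_ext_evl fun w => congrArg Q.a (h w)
  · exact t4_ext_evl fun w => congrArg Q.b (h w)
  · exact t4_ext_evl fun w => congrArg Q.c (h w)
  · exact t4_ext_evl fun w => congrArg Q.d (h w)
  · exact t4_ext_evl fun w => congrArg Q.u (h w)
  · exact t4_ext_evl fun w => congrArg Q.v (h w)
  · exact t4_ext_evl fun w => congrArg Q.r (h w)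
  · exact t4_ext_evl fun w => congrArg Q.s (h w)
  · exact t4_ext_evl fun w => congrArg Q.x (h w)

/-- `D_a G = G U_a` (by definition of `gw`; the product with a constant matrix) -/
theorem GM_d (a : Bool) : qmp (Sh.d a) (GM R) =
    GM R * qmp (algebraMap R (Sh R)) (letP R a).toQ := by
  apply q_ext_evl
  intro w
  rw [qmp_mul_const, qmp_evl_GM]
  rfl

/-- the matrix of a letter -/
private theorem letQ (a : Bool) : qmp (algebraMap R (Sh R)) (letP R a).toQ =
    ⟨0, 0, 0, 0, T4.C (if a then 1 else 0), T4.C (if a then 0 else 1),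
      T4.C (-(if a then 0 else 1)), T4.C (if a then 1 else 0), 0⟩ := by
  ext1 <;> ext1 <;>
    simp only [qmp, t4mp, Par.toQ, letP, zero_e0, zero_e1, zero_e2, zero_e3, C_e0, C_e1, C_e2,
      C_e3, map_zero, neg_zero, mul_zero, map_neg] <;>
    cases a <;> simp

private theorem dA0 (a : Bool) : dl a (GM R).a.e0 = 0 := by
  have h := congrArg (fun q : Q (Sh R) => q.a.e0) (GM_d (R := R) a)
  change dl a (GM R).a.e0 = _ at h
  rw [letQ] at h
  simpa using h
private theorem dB0 (a : Bool) : dl a (GM R).b.e0 = 0 := by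
  have h := congrArg (fun q : Q (Sh R) => q.b.e0) (GM_d (R := R) a)
  change dl a (GM R).b.e0 = _ at h
  rw [letQ] at h
  simpa using h
private theorem dC0 (a : Bool) : dl a (GM R).c.e0 = 0 := by
  have h := congrArg (fun q : Q (Sh R) => q.c.e0) (GM_d (R := R) a)
  change dl a (GM R).c.e0 = _ at h
  rw [letQ] at h
  simpa using h
private theorem dD0 (a : Bool) : dl a (GM R).d.e0 = 0 := by
  have h := congrArg (fun q : Q (Sh R) => q.d.e0) (GM_d (R := R) a)
  change dl a (GM R).d.e0 = _ at h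
  rw [letQ] at h
  simpa using h
private theorem dX0 (a : Bool) : dl a (GM R).x.e0 = 0 := by
  have h := congrArg (fun q : Q (Sh R) => q.x.e0) (GM_d (R := R) a)
  change dl a (GM R).x.e0 = _ at h
  rw [letQ] at h
  simpa using h

private theorem A0 : (GM R).a.e0 = 1 := Sh.ext_dl rfl fun a => dA0 a
private theorem B0 : (GM R).b.e0 = 0 := Sh.ext_dl rfl fun a => dB0 a
private theorem C0 : (GM R).c.e0 = 0 := Sh.ext_dl rfl fun a => dC0 a
private theorem D0 : (GM R).d.e0 = 1 := Sh.ext_dl rfl fun a => dD0 a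
private theorem X0 : (GM R).x.e0 = 1 := Sh.ext_dl rfl fun a => dX0 a

private theorem dU0 (a : Bool) : dl a (GM R).u.e0 = if a then 1 else 0 := by
  have h := congrArg (fun q : Q (Sh R) => q.u.e0) (GM_d (R := R) a)
  change dl a (GM R).u.e0 = _ at h
  rw [letQ] at h
  simpa [A0, B0] using h
private theorem dV0 (a : Bool) : dl a (GM R).v.e0 = if a then 0 else 1 := by
  have h := congrArg (fun q : Q (Sh R) => q.v.e0) (GM_d (R := R) a)
  change dl a (GM R).v.e0 = _ at h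
  rw [letQ] at h
  simpa [C0, D0] using h
private theorem dR0 (a : Bool) : dl a (GM R).r.e0 = -(if a then 0 else 1) := by
  have h := congrArg (fun q : Q (Sh R) => q.r.e0) (GM_d (R := R) a)
  change dl a (GM R).r.e0 = _ at h
  rw [letQ] at h
  simpa [X0] using h
private theorem dS0 (a : Bool) : dl a (GM R).s.e0 = if a then 1 else 0 := by
  have h := congrArg (fun q : Q (Sh R) => q.s.e0) (GM_d (R := R) a)
  change dl a (GM R).s.e0 = _ at h
  rw [letQ] at h
  simpa [X0] using h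

/-- the functions `s` and `t` -/
theorem GM_s : (GM R).u.e0 = Sh.dlt [true] := by
  refine Sh.ext_dl ?_ fun a => ?_
  · simp [Sh.dlt]; rfl
  · rw [dU0]
    apply Sh.ext'
    intro w
    cases a <;> cases w <;> simp [Sh.dlt]

theorem GM_t : (GM R).v.e0 = Sh.dlt [false] := by
  refine Sh.ext_dl ?_ fun a => ?_
  · simp [Sh.dlt]; rfl
  · rw [dV0]
    apply Sh.ext'
    intro w
    cases a <;> cases w <;> simp [Sh.dlt]

private theorem R0 : (GM R).r.e0 = -(GM R).v.e0 := by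
  refine Sh.ext_dl ?_ fun a => ?_
  · show (0 : R) = -0
    rw [neg_zero]
  · rw [dR0, dl_neg, dV0]

private theorem S0 : (GM R).s.e0 = (GM R).u.e0 := by
  refine Sh.ext_dl rfl fun a => ?_
  rw [dS0, dU0]

private theorem dA1 (a : Bool) : dl a (GM R).a.e1 = (GM R).u.e0 * (-(if a then 0 else 1)) := by
  have h := congrArg (fun q : Q (Sh R) => q.a.e1) (GM_d (R := R) a)
  change dl a (GM R).a.e1 = _ at h
  rw [letQ] at h
  simpa using h
private theorem dB1 (a : Bool) : dl a (GM R).b.e1 = (GM R).u.e0 * (if a then 1 else 0) := by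
  have h := congrArg (fun q : Q (Sh R) => q.b.e1) (GM_d (R := R) a)
  change dl a (GM R).b.e1 = _ at h
  rw [letQ] at h
  simpa using h
private theorem dC1 (a : Bool) : dl a (GM R).c.e1 = (GM R).v.e0 * (-(if a then 0 else 1)) := by
  have h := congrArg (fun q : Q (Sh R) => q.c.e1) (GM_d (R := R) a)
  change dl a (GM R).c.e1 = _ at h
  rw [letQ] at h
  simpa using h
private theorem dD1 (a : Bool) : dl a (GM R).d.e1 = (GM R).v.e0 * (if a then 1 else 0) := by
  have h := congrArg (fun q : Q (Sh R) => q.d.e1) (GM_d (R := R) a)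
  change dl a (GM R).d.e1 = _ at h
  rw [letQ] at h
  simpa using h
private theorem dX1 (a : Bool) : dl a (GM R).x.e1 = (GM R).r.e0 * (if a then 1 else 0) +
    (GM R).s.e0 * (if a then 0 else 1) := by
  have h := congrArg (fun q : Q (Sh R) => q.x.e1) (GM_d (R := R) a)
  change dl a (GM R).x.e1 = _ at h
  rw [letQ] at h
  simpa using h

/-- the relations at low order (use `Sh.ext_dl` and `GM_d`; weights 0, 1 and 2) -/
theorem GM_low : Low (GM R) where
  a0 := A0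
  b0 := B0
  c0 := C0
  d0 := D0
  x0 := X0
  r0 := R0
  s0 := S0
  b1 := by
    refine Sh.ext_dl ?_ fun a => ?_
    · show (2 : Sh R) [] * 0 = (((GM R).u.e0 : Sh R) ^ 2) []
      rw [pow_two, mul_zero]
      show (0 : R) = 0 * 0
      rw [mul_zero]
    · rw [two_mul, dl_add, dB1, pow_two, dl_mul, dU0]
      ring
  c1 := by
    refine Sh.ext_dl ?_ fun a => ?_
    · show (2 : Sh R) [] * 0 = -((((GM R).v.e0 : Sh R) ^ 2) [])
      rw [pow_two, mul_zero]
      show (0 : R) = -(0 * 0)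
      rw [mul_zero, neg_zero]
    · rw [two_mul, dl_add, dC1, pow_two, dl_neg, dl_mul, dV0]
      ring
  a1 := by
    refine Sh.ext_dl ?_ fun a => ?_
    · show (0 : R) = 0 - 0 * 0
      rw [mul_zero, sub_zero]
    · rw [dA1, dl_sub, dD1, dl_mul, dU0, dV0]
      ring
  x1 := by
    refine Sh.ext_dl ?_ fun a => ?_
    · show (0 : R) = -0 - 0
      rw [neg_zero, sub_zero]
    · rw [dX1, dl_sub, dl_neg, dA1, dD1, R0, S0]
      ring

/-- the matrices of weight `m` -/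
private structure Wt (m : ℕ) (g : Q R) : Prop where
  e0 : m ≠ 0 → g.a.e0 = 0 ∧ g.b.e0 = 0 ∧ g.c.e0 = 0 ∧ g.d.e0 = 0 ∧ g.x.e0 = 0
  e1 : m ≠ 2 → g.a.e1 = 0 ∧ g.b.e1 = 0 ∧ g.c.e1 = 0 ∧ g.d.e1 = 0 ∧ g.x.e1 = 0
  e2 : m ≠ 4 → g.a.e2 = 0 ∧ g.b.e2 = 0 ∧ g.c.e2 = 0 ∧ g.d.e2 = 0 ∧ g.x.e2 = 0
  e3 : m ≠ 6 → g.a.e3 = 0 ∧ g.b.e3 = 0 ∧ g.c.e3 = 0 ∧ g.d.e3 = 0 ∧ g.x.e3 = 0
  o0 : m ≠ 1 → g.u.e0 = 0 ∧ g.v.e0 = 0 ∧ g.r.e0 = 0 ∧ g.s.e0 = 0
  o1 : m ≠ 3 → g.u.e1 = 0 ∧ g.v.e1 = 0 ∧ g.r.e1 = 0 ∧ g.s.e1 = 0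
  o2 : m ≠ 5 → g.u.e2 = 0 ∧ g.v.e2 = 0 ∧ g.r.e2 = 0 ∧ g.s.e2 = 0
  o3 : m ≠ 7 → g.u.e3 = 0 ∧ g.v.e3 = 0 ∧ g.r.e3 = 0 ∧ g.s.e3 = 0

private theorem letQ' (a : Bool) : (letP R a).toQ =
    ⟨0, 0, 0, 0, T4.C (if a then 1 else 0), T4.C (if a then 0 else 1),
      T4.C (-(if a then 0 else 1)), T4.C (if a then 1 else 0), 0⟩ := by
  ext1 <;> ext1 <;>
    simp only [Par.toQ, letP, zero_e0, zero_e1, zero_e2, zero_e3, C_e0, C_e1, C_e2,
      C_e3, neg_zero, mul_zero]

private theorem wt_gw (w : List Bool) : Wt w.length (gw R w) := by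
  induction w with
  | nil =>
    constructor <;> intro h <;> simp [gw] at h ⊢
  | cons a w ih =>
    rw [List.length_cons]
    show Wt (w.length + 1) (gw R w * (letP R a).toQ)
    rw [letQ']
    constructor
    · intro _
      simp
    · intro h
      obtain ⟨h1, h2, h3, h4⟩ := ih.o0 (by omega)
      simp [h1, h2, h3, h4]
    · intro h
      obtain ⟨h1, h2, h3, h4⟩ := ih.o1 (by omega)
      simp [h1, h2, h3, h4]
    · intro h
      obtain ⟨h1, h2, h3, h4⟩ := ih.o2 (by omega)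
      simp [h1, h2, h3, h4]
    · intro h
      obtain ⟨h1, h2, h3, h4, h5⟩ := ih.e0 (by omega)
      simp [h1, h2, h3, h4, h5]
    · intro h
      obtain ⟨h1, h2, h3, h4, h5⟩ := ih.e1 (by omega)
      simp [h1, h2, h3, h4, h5]
    · intro h
      obtain ⟨h1, h2, h3, h4, h5⟩ := ih.e2 (by omega)
      simp [h1, h2, h3, h4, h5]
    · intro h
      obtain ⟨h1, h2, h3, h4, h5⟩ := ih.e3 (by omega)
      simp [h1, h2, h3, h4, h5]

/-- all entries have weight `< 8`: for `|w| = 2 k` the nonzero entries of `gw w` are `a, b, c, d, x`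
at `τ^k`, for `|w| = 2 k + 1` they are `u, v, r, s` at `τ^k` -/
theorem gw_eq_zero (w : List Bool) (hw : 8 ≤ w.length) : gw R w = 0 := by
  have h := wt_gw (R := R) w
  obtain ⟨a0, b0, c0, d0, x0⟩ := h.e0 (by omega)
  obtain ⟨a1, b1, c1, d1, x1⟩ := h.e1 (by omega)
  obtain ⟨a2, b2, c2, d2, x2⟩ := h.e2 (by omega)
  obtain ⟨a3, b3, c3, d3, x3⟩ := h.e3 (by omega)
  obtain ⟨u0, v0, r0, s0⟩ := h.o0 (by omega)
  obtain ⟨u1, v1, r1, s1⟩ := h.o1 (by omega)
  obtain ⟨u2, v2, r2, s2⟩ := h.o2 (by omega)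
  obtain ⟨u3, v3, r3, s3⟩ := h.o3 (by omega)
  ext1 <;> ext1 <;> assumption

/-- the bracket of two elements of the 13-dimensional Lie algebra -/
theorem exists_bracket (P P' : Par R) : ∃ P'' : Par R,
    P''.toQ = P.toQ * P'.toQ - P'.toQ * P.toQ := by
  refine ⟨{
    v0 := 0
    v1 := 0
    z := P'.v0 * P.v1 - P.v0 * P'.v1
    w0 := 3 * (P.z * P'.v0 - P'.z * P.v0)
    w1 := 3 * (P.z * P'.v1 - P'.z * P.v1)
    q1 := P.v0 * P'.w1 - P.w0 * P'.v1 - P'.v0 * P.w1 + P'.w0 * P.v1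
    q2 := 2 * (P.w0 * P'.v0 - P.v0 * P'.w0)
    q3 := 2 * (P.v1 * P'.w1 - P.w1 * P'.v1)
    m0 := 3 * P.z * P'.w0 - 3 * P'.z * P.w0 + P.q1 * P'.v0 - P'.q1 * P.v0 + P.q2 * P'.v1 -
      P'.q2 * P.v1
    m1 := 3 * P.z * P'.w1 - 3 * P'.z * P.w1 - P.q1 * P'.v1 + P'.q1 * P.v1 + P.q3 * P'.v0 -
      P'.q3 * P.v0
    l := -P.v0 * P'.m1 + P.w0 * P'.w1 - P.m0 * P'.v1 + P'.v0 * P.m1 - P'.w0 * P.w1 + P'.m0 * P.v1
    n0 := 3 * P.z * P'.m0 - 3 * P'.z * P.m0 + P.q1 * P'.w0 - P'.q1 * P.w0 + 3 * P.l * P'.v0 -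
      3 * P'.l * P.v0 + P.q2 * P'.w1 - P'.q2 * P.w1
    n1 := 3 * P.z * P'.m1 - 3 * P'.z * P.m1 - P.q1 * P'.w1 + P'.q1 * P.w1 + 3 * P.l * P'.v1 -
      3 * P'.l * P.v1 + P.q3 * P'.w0 - P'.q3 * P.w0 }, ?_⟩
  ext1 <;> ext1 <;>
    simp only [Par.toQ, sub_a, sub_b, sub_c, sub_d, sub_u, sub_v, sub_r, sub_s, sub_x, mul_a,
      mul_b, mul_c, mul_d, mul_u, mul_v, mul_r, mul_s, mul_x, sub_e0, sub_e1, sub_e2, sub_e3,
      add_e0, add_e1, add_e2, add_e3, mul_e0, mul_e1, mul_e2, mul_e3, tau_e0, tau_e1, tau_e2,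
      tau_e3] <;>
    ring

private theorem st_of_eq {u : Module.End R (Sh R)} {P : Par R}
    (h : qmp u (GM R) = GM R * qmp (algebraMap R (Sh R)) P.toQ) :
    qmp u (GM R) = GM R * qmp (algebraMap R (Sh R)) P.toQ ∧
      u (GM R).u.e0 = algebraMap R (Sh R) P.v0 ∧ u (GM R).v.e0 = algebraMap R (Sh R) P.v1 := by
  refine ⟨h, ?_, ?_⟩
  · have h1 := congrArg (fun q : Q (Sh R) => q.u.e0) h
    have h2 : u (GM R).u.e0 = _ := h1
    rw [h2]
    simp [A0, B0, qmp, t4mp, Par.toQ]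
  · have h1 := congrArg (fun q : Q (Sh R) => q.v.e0) h
    have h2 : u (GM R).v.e0 = _ := h1
    rw [h2]
    simp [C0, D0, qmp, t4mp, Par.toQ]

private theorem qmp_zeroQ : qmp (algebraMap R (Sh R)) (0 : Q R) = 0 := by
  ext1 <;> ext1 <;> exact map_zero _

private theorem qmp_subQ (x y : Q R) : qmp (algebraMap R (Sh R)) (x - y) =
    qmp (algebraMap R (Sh R)) x - qmp (algebraMap R (Sh R)) y := by
  ext1 <;> ext1 <;> exact map_sub _ _ _

private theorem par_add (P P' : Par R) : P.toQ + P'.toQ = (⟨P.v0 + P'.v0, P.v1 + P'.v1,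
    P.z + P'.z, P.w0 + P'.w0, P.w1 + P'.w1, P.q1 + P'.q1, P.q2 + P'.q2, P.q3 + P'.q3,
    P.m0 + P'.m0, P.m1 + P'.m1, P.l + P'.l, P.n0 + P'.n0, P.n1 + P'.n1⟩ : Par R).toQ := by
  ext1 <;> ext1 <;> simp only [Par.toQ, add_a, add_b, add_c, add_d, add_u, add_v,
      add_r, add_s, add_x, add_e0, add_e1, add_e2, add_e3] <;> ring

private theorem par_smul (r : R) (P : Par R) : T4.C r • P.toQ = (⟨r * P.v0, r * P.v1, r * P.z,
    r * P.w0, r * P.w1, r * P.q1, r * P.q2, r * P.q3, r * P.m0, r * P.m1, r * P.l, r * P.n0,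
    r * P.n1⟩ : Par R).toQ := by
  ext1 <;> ext1 <;> simp only [Par.toQ, smul_a, smul_b, smul_c, smul_d, smul_u, smul_v, smul_r,
    smul_s, smul_x, mul_e0, mul_e1, mul_e2, mul_e3, C_e0, C_e1, C_e2, C_e3] <;> ring

private theorem t4_C (r : R) : t4mp (algebraMap R (Sh R)) (T4.C r) =
    T4.C (algebraMap R (Sh R) r) := by
  ext1 <;> simp only [t4mp, C_e0, C_e1, C_e2, C_e3, map_zero]

private theorem t4_smulE (r : R) (u : Module.End R (Sh R)) (y : T4 (Sh R)) :
    t4mp (r • u) y = T4.C (algebraMap R (Sh R) r) * t4mp u y := by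
  have h : ∀ y : Sh R, (r • u) y = algebraMap R (Sh R) r * u y := fun y => by
    rw [LinearMap.smul_apply, Algebra.smul_def]
  ext1 <;> simp only [t4mp, mul_e0, mul_e1, mul_e2, mul_e3, C_e0, C_e1, C_e2, C_e3, zero_mul,
    add_zero, h]

private theorem qmp_smulE (r : R) (u : Module.End R (Sh R)) (y : Q (Sh R)) :
    qmp (r • u) y = T4.C (algebraMap R (Sh R) r) • qmp u y := by
  ext1 <;> exact t4_smulE r u _

/-- The Lie algebra acts on the generic matrix by right multiplication. (Induction on `IsLF`; the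
sum and the scalar multiple of `Par.toQ` are again of this form; `u (G U) = (u G) U` for a constant
matrix `U`.) -/
theorem IsLF.exists_par {u : Module.End R (Sh R)} (hu : IsLF R u) : ∃ P : Par R,
    qmp u (GM R) = GM R * qmp (algebraMap R (Sh R)) P.toQ ∧
      u (GM R).u.e0 = algebraMap R (Sh R) P.v0 ∧ u (GM R).v.e0 = algebraMap R (Sh R) P.v1 := by
  suffices H : ∃ P : Par R, qmp u (GM R) = GM R * qmp (algebraMap R (Sh R)) P.toQ by
    obtain ⟨P, hP⟩ := H
    exact ⟨P, st_of_eq hP⟩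
  induction hu with
  | gen a => exact ⟨letP R a, GM_d a⟩
  | zero =>
    refine ⟨⟨0, 0, 0, 0, 0, 0, 0, 0, 0, 0, 0, 0, 0⟩, ?_⟩
    have h : (⟨0, 0, 0, 0, 0, 0, 0, 0, 0, 0, 0, 0, 0⟩ : Par R).toQ = 0 := by
      ext1 <;> ext1 <;> simp [Par.toQ]
    rw [h, qmp_zeroQ, mul_zero]
    rfl
  | @add u v _ _ ih1 ih2 =>
    obtain ⟨P, hP⟩ := ih1
    obtain ⟨P', hP'⟩ := ih2
    refine ⟨⟨P.v0 + P'.v0, P.v1 + P'.v1, P.z + P'.z, P.w0 + P'.w0, P.w1 + P'.w1, P.q1 + P'.q1,
      P.q2 + P'.q2, P.q3 + P'.q3, P.m0 + P'.m0, P.m1 + P'.m1, P.l + P'.l, P.n0 + P'.n0,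
      P.n1 + P'.n1⟩, ?_⟩
    have h1 : qmp (u + v) (GM R) = qmp u (GM R) + qmp v (GM R) := rfl
    rw [h1, hP, hP', ← mul_add, ← qmp_add, par_add]
  | @smul r u _ ih =>
    obtain ⟨P, hP⟩ := ih
    refine ⟨⟨r * P.v0, r * P.v1, r * P.z, r * P.w0, r * P.w1, r * P.q1, r * P.q2, r * P.q3,
      r * P.m0, r * P.m1, r * P.l, r * P.n0, r * P.n1⟩, ?_⟩
    rw [qmp_smulE, hP, ← mul_smul_comm, ← par_smul, qmp_smul, t4_C]
  | @br u v _ _ ih1 ih2 =>
    obtain ⟨P, hP⟩ := ih1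
    obtain ⟨P', hP'⟩ := ih2
    obtain ⟨P'', hP''⟩ := exists_bracket P P'
    refine ⟨P'', ?_⟩
    have h1 : qmp (u * v - v * u) (GM R) = qmp u (qmp v (GM R)) - qmp v (qmp u (GM R)) := rfl
    rw [h1, hP, hP', qmp_mul_const, qmp_mul_const, hP, hP', hP'', qmp_subQ, mul_sub, mul_assoc,
      mul_assoc, ← qmp_mul, ← qmp_mul]

private theorem flow5 {p : ℕ} [Fact p.Prime] [Algebra (ZMod p) R] {u : Module.End R (Sh R)}
    {y : Sh R} (h : (u ^ 5) y = 0) : fl p u y = Polynomial.C y + Polynomial.X * Polynomial.C (u y) +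
      Polynomial.C (algebraMap R (Sh R) (iv p R 2)) * Polynomial.X ^ 2 * Polynomial.C ((u ^ 2) y) +
      Polynomial.C (algebraMap R (Sh R) (iv p R 3)) * Polynomial.X ^ 3 * Polynomial.C ((u ^ 3) y) +
      Polynomial.C (algebraMap R (Sh R) (iv p R 4)) * Polynomial.X ^ 4 *
        Polynomial.C ((u ^ 4) y) := by
  have h5 : ∀ k, 5 ≤ k → (u ^ k) y = 0 := by
    intro k hk
    obtain ⟨j, rfl⟩ := Nat.exists_eq_add_of_le hk
    rw [add_comm, pow_add, Module.End.mul_apply, h, map_zero]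
  unfold fl
  simp only [Finset.sum_range_succ, Finset.sum_range_zero, zero_add]
  rw [h5 5 (by omega), h5 6 (by omega), h5 7 (by omega), h5 8 (by omega), h5 9 (by omega),
    iv_zero, iv_one, one_smul, one_smul, smul_zero, smul_zero, smul_zero, smul_zero, smul_zero,
    Polynomial.C_0, zero_mul, zero_mul, zero_mul, zero_mul, zero_mul, pow_zero, pow_zero,
    pow_one, pow_one, Module.End.one_apply, Algebra.smul_def, Algebra.smul_def, Algebra.smul_def,
    Polynomial.C_mul, Polynomial.C_mul, Polynomial.C_mul]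
  ring

private theorem t4_flow {p : ℕ} [Fact p.Prime] [Algebra (ZMod p) R] {u : Module.End R (Sh R)}
    {y : T4 (Sh R)} (h : t4mp (⇑(u ^ 5)) y = 0) : t4mp (fl p u) y = t4mp Polynomial.C y +
      T4.C Polynomial.X * t4mp Polynomial.C (t4mp u y) +
      T4.C (Polynomial.C (algebraMap R (Sh R) (iv p R 2)) * Polynomial.X ^ 2) *
        t4mp Polynomial.C (t4mp (⇑(u ^ 2)) y) +
      T4.C (Polynomial.C (algebraMap R (Sh R) (iv p R 3)) * Polynomial.X ^ 3) *
        t4mp Polynomial.C (t4mp (⇑(u ^ 3)) y) +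
      T4.C (Polynomial.C (algebraMap R (Sh R) (iv p R 4)) * Polynomial.X ^ 4) *
        t4mp Polynomial.C (t4mp (⇑(u ^ 4)) y) := by
  ext1
  · have h0 : (u ^ 5) y.e0 = 0 := congrArg T4.e0 h
    simp only [t4mp, add_e0, mul_e0, C_e0]
    exact flow5 h0
  · have h0 : (u ^ 5) y.e1 = 0 := congrArg T4.e1 h
    simp only [t4mp, add_e1, mul_e1, C_e0, C_e1, zero_mul, add_zero]
    exact flow5 h0
  · have h0 : (u ^ 5) y.e2 = 0 := congrArg T4.e2 h
    simp only [t4mp, add_e2, mul_e2, C_e0, C_e1, C_e2, zero_mul, add_zero]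
    exact flow5 h0
  · have h0 : (u ^ 5) y.e3 = 0 := congrArg T4.e3 h
    simp only [t4mp, add_e3, mul_e3, C_e0, C_e1, C_e2, C_e3, zero_mul, add_zero]
    exact flow5 h0

private theorem gm_flow {p : ℕ} [Fact p.Prime] [Algebra (ZMod p) R] {u : Module.End R (Sh R)}
    {y : Q (Sh R)} (h : qmp (⇑(u ^ 5)) y = 0) : qmp (fl p u) y = qmp Polynomial.C y +
      T4.C (Polynomial.X : Polynomial (Sh R)) • qmp Polynomial.C (qmp u y) +
      T4.C (Polynomial.C (algebraMap R (Sh R) (iv p R 2)) * Polynomial.X ^ 2) •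
        qmp Polynomial.C (qmp (⇑(u ^ 2)) y) +
      T4.C (Polynomial.C (algebraMap R (Sh R) (iv p R 3)) * Polynomial.X ^ 3) •
        qmp Polynomial.C (qmp (⇑(u ^ 3)) y) +
      T4.C (Polynomial.C (algebraMap R (Sh R) (iv p R 4)) * Polynomial.X ^ 4) •
        qmp Polynomial.C (qmp (⇑(u ^ 4)) y) := by
  ext1
  · exact t4_flow (congrArg Q.a h)
  · exact t4_flow (congrArg Q.b h)
  · exact t4_flow (congrArg Q.c h)
  · exact t4_flow (congrArg Q.d h)
  · exact t4_flow (congrArg Q.u h)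
  · exact t4_flow (congrArg Q.v h)
  · exact t4_flow (congrArg Q.r h)
  · exact t4_flow (congrArg Q.s h)
  · exact t4_flow (congrArg Q.x h)

private theorem top_smul_zero (D : R) (a : T4 R) (ha : a.e0 = 0) :
    (⟨0, 0, 0, D⟩ : T4 R) * a = 0 := by
  ext <;> simp [ha]

/-- `U^5 = 0` (over a commutative ring) -/
private theorem par_fifth (P : Par R) : P.toQ * P.toQ * P.toQ * P.toQ * P.toQ = 0 := by
  have h4 : P.toQ * P.toQ * P.toQ * P.toQ = (⟨0, 0, P.T, 0⟩ : T4 R) • (P.toQ * P.toQ) +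
      (⟨0, 0, 0, P.D⟩ : T4 R) • P.toQ := by
    rw [P.cube, add_mul, smul_mul_assoc, smul_mul_assoc, one_mul]
  have hTT : (⟨0, 0, P.T, 0⟩ : T4 R) * ⟨0, 0, P.T, 0⟩ = 0 := by
    ext <;> simp
  have hTD : (⟨0, 0, P.T, 0⟩ : T4 R) * ⟨0, 0, 0, P.D⟩ = 0 := by
    ext <;> simp
  have hD : (⟨0, 0, 0, P.D⟩ : T4 R) • (P.toQ * P.toQ) = 0 := by
    obtain ⟨h1, h2, h3, h4, h5, h6, h7, h8, h9⟩ := P.sq_low
    have e1 : (P.toQ * P.toQ).a.e0 = 0 := by rw [h1]
    have e2 : (P.toQ * P.toQ).b.e0 = 0 := by rw [h2]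
    have e3 : (P.toQ * P.toQ).c.e0 = 0 := by rw [h3]
    have e4 : (P.toQ * P.toQ).d.e0 = 0 := by rw [h4]
    have e5 : (P.toQ * P.toQ).u.e0 = 0 := by rw [h5]
    have e6 : (P.toQ * P.toQ).v.e0 = 0 := by rw [h6]
    have e7 : (P.toQ * P.toQ).r.e0 = 0 := by rw [h7]
    have e8 : (P.toQ * P.toQ).s.e0 = 0 := by rw [h8]
    have e9 : (P.toQ * P.toQ).x.e0 = 0 := by rw [h9]
    apply Q.ext
    · exact top_smul_zero _ _ e1
    · exact top_smul_zero _ _ e2
    · exact top_smul_zero _ _ e3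
    · exact top_smul_zero _ _ e4
    · exact top_smul_zero _ _ e5
    · exact top_smul_zero _ _ e6
    · exact top_smul_zero _ _ e7
    · exact top_smul_zero _ _ e8
    · exact top_smul_zero _ _ e9
  rw [h4, add_mul, smul_mul_assoc, smul_mul_assoc, P.cube, smul_add, smul_smul, smul_smul,
    hTT, hTD, hD, zero_smul, zero_smul, add_zero, add_zero]

/-- The flow of the generic matrix: `u^k G = G U^k`, `U^5 = 0`. The constants are the inverses of
`2, 6, 24`. -/
theorem fl_GM {p : ℕ} [Fact p.Prime] [Algebra (ZMod p) R] {u : Module.End R (Sh R)} {P : Par R}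
    (hP : qmp u (GM R) = GM R * qmp (algebraMap R (Sh R)) P.toQ) :
    qmp (fl p u) (GM R) = qmp Polynomial.C (GM R) *
      expX (algebraMap R (Sh R) (iv p R 2)) (algebraMap R (Sh R) (iv p R 3))
        (algebraMap R (Sh R) (iv p R 4)) (pmp (algebraMap R (Sh R)) P) := by
  set φ : R →+* Sh R := algebraMap R (Sh R) with hφ
  have hpow : ∀ k : ℕ, qmp (u ^ k) (GM R) = GM R * qmp φ (P.toQ ^ k) := by
    intro k
    induction k with
    | zero =>
      rw [pow_zero, pow_zero, qmp_one, mul_one]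
      rfl
    | succ k ih =>
      have h1 : qmp (u ^ (k + 1)) (GM R) = qmp u (qmp (u ^ k) (GM R)) := by
        rw [pow_succ']
        rfl
      rw [h1, ih, qmp_mul_const, hP, mul_assoc, ← qmp_mul, ← pow_succ']
  have h5 : qmp (⇑(u ^ 5)) (GM R) = 0 := by
    have h : P.toQ ^ 5 = 0 := by
      rw [← par_fifth P]
      simp only [pow_succ, pow_zero, one_mul]
    rw [hpow, h, qmp_zeroQ, mul_zero]
  rw [gm_flow h5, hpow, hpow, hpow, hP]
  unfold expX
  simp only [mul_add, mul_one, mul_smul_comm]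
  rw [← qmp_toQ]
  simp only [← qmp_mul]
  simp only [pow_succ, pow_zero, one_mul, mul_assoc, hφ]

end Helper44.BL
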