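import Pool.Agent.Helper44.BL.Sh

/-!
# BL-1: the Lie algebra generated by the two derivations of the shuffle algebra
-/

namespace Helper44.BL

open Sh

section

variable (R : Type) [CommRing R]

/-- functions supported on words of length `< n` -/
def W (n : ℕ) : Submodule R (Sh R) where
  carrier := {g | ∀ w : List Bool, n ≤ w.length → g w = 0}
  zero_mem' := fun w _ => rfl
  add_mem' := by
    intro g h hg hh w hw
    rw [Sh.add_apply, hg w hw, hh w hw, add_zero]
  smul_mem' := by
    intro r g hg w hw
    rw [Sh.smul_apply, hg w hw, mul_zero]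

/-- The Lie algebra (over `R`) generated by the two derivations `d true` (letter `x`) and
`d false` (letter `y`) of `Sh R`. -/
inductive IsLF : Module.End R (Sh R) → Prop
  | gen (a : Bool) : IsLF (d a)
  | zero : IsLF 0
  | add {u v} : IsLF u → IsLF v → IsLF (u + v)
  | smul (r : R) {u} : IsLF u → IsLF (r • u)
  | br {u v} : IsLF u → IsLF v → IsLF (u * v - v * u)

end

variable {R : Type} [CommRing R]

theorem mem_W {n : ℕ} {g : Sh R} : g ∈ W R n ↔ ∀ w : List Bool, n ≤ w.length → g w = 0 := Iff.rfl

theorem W_zero {g : Sh R} (hg : g ∈ W R 0) : g = 0 := by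
  apply Sh.ext'
  intro w
  exact hg w (Nat.zero_le _)

theorem W_mono {m n : ℕ} (h : m ≤ n) {g : Sh R} (hg : g ∈ W R m) : g ∈ W R n :=
  fun w hw => hg w (h.trans hw)

theorem one_mem_W : (1 : Sh R) ∈ W R 1 := by
  intro w hw
  cases w with
  | nil => simp at hw
  | cons a w => rfl

private theorem dl_mem_W {n : ℕ} {g : Sh R} (hg : g ∈ W R n) (a : Bool) :
    dl a g ∈ W R (n - 1) := by
  intro w hw
  exact hg (a :: w) (by rw [List.length_cons]; omega)

private theorem mul_W_aux (w : List Bool) : ∀ (m n : ℕ) (g h : Sh R), g ∈ W R m → h ∈ W R n →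
    m + n ≤ w.length + 1 → (g * h) w = 0 := by
  induction w with
  | nil =>
    intro m n g h hg hh hmn
    rw [Sh.mul_nil]
    rcases Nat.eq_zero_or_pos m with hm | hm
    · subst hm
      rw [hg [] (Nat.zero_le _), zero_mul]
    · have hn : n = 0 := by simp at hmn; omega
      subst hn
      rw [hh [] (Nat.zero_le _), mul_zero]
  | cons a w ih =>
    intro m n g h hg hh hmn
    rw [List.length_cons] at hmn
    rw [Sh.mul_cons]
    rcases Nat.eq_zero_or_pos m with hm | hm
    · subst hm
      have h0 : g = 0 := Sh.ext' fun w => hg w (Nat.zero_le _)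
      subst h0
      rw [dl_zero, zero_mul, zero_mul, Sh.zero_apply, zero_add]
    · rcases Nat.eq_zero_or_pos n with hn | hn
      · subst hn
        have h0 : h = 0 := Sh.ext' fun w => hh w (Nat.zero_le _)
        subst h0
        rw [dl_zero, mul_zero, mul_zero, Sh.zero_apply, zero_add]
      · rw [ih (m - 1) n _ _ (dl_mem_W hg a) hh (by omega),
          ih m (n - 1) _ _ hg (dl_mem_W hh a) (by omega), add_zero]

/-- supports in lengths `< m + 1` and `< n + 1`: the product has support in lengths `< m + n + 1`
(induction on the word, generalizing the functions and `m`, `n`; use `mul_cons`) -/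
theorem mul_mem_W {m n : ℕ} {g h : Sh R} (hg : g ∈ W R (m + 1)) (hh : h ∈ W R (n + 1)) :
    g * h ∈ W R (m + n + 1) := by
  intro w hw
  exact mul_W_aux w (m + 1) (n + 1) g h hg hh (by omega)

/-- the left removal: `ll a g (v) = g (a v)`, i.e. removal of the *first* letter of the word, which
is the last element of the list -/
def ll (a : Bool) (g : Sh R) : Sh R := ⟨fun w => g (w ++ [a])⟩

@[simp] theorem ll_apply (a : Bool) (g : Sh R) (w : List Bool) : ll a g w = g (w ++ [a]) := rfl
@[simp] theorem ll_add (a : Bool) (g h : Sh R) : ll a (g + h) = ll a g + ll a h := rfl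
@[simp] theorem ll_sub (a : Bool) (g h : Sh R) : ll a (g - h) = ll a g - ll a h := rfl
@[simp] theorem ll_zero (a : Bool) : ll a (0 : Sh R) = 0 := rfl
@[simp] theorem ll_smul (a : Bool) (r : R) (g : Sh R) : ll a (r • g) = r • ll a g := rfl

/-- two functions agree if they agree at the empty word and their left removals agree -/
theorem ext_ll {g h : Sh R} (h0 : g [] = h []) (h1 : ∀ a, ll a g = ll a h) : g = h := by
  apply Sh.ext'
  intro w
  rcases List.eq_nil_or_concat w with hw | ⟨v, a, hw⟩
  · rw [hw]; exact h0
  · rw [hw, List.concat_eq_append]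
    exact congrArg (fun k : Sh R => k v) (h1 a)

theorem d_ll (a b : Bool) (g : Sh R) : ll b (d a g) = d a (ll b g) := rfl

/-- the value at the empty word of the last and of the first removal agree -/
theorem dl_nil (a : Bool) (g : Sh R) : (d a g) [] = (ll a g) [] := rfl

namespace IsLF

variable {u v : Module.End R (Sh R)}

theorem neg (hu : IsLF R u) : IsLF R (-u) := by
  have h := IsLF.smul (-1 : R) hu
  rwa [neg_one_smul] at h

theorem sub (hu : IsLF R u) (hv : IsLF R v) : IsLF R (u - v) := by
  rw [sub_eq_add_neg]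
  exact IsLF.add hu (neg hv)

/-- elements of the Lie algebra are derivations -/
theorem leibniz (hu : IsLF R u) (g h : Sh R) : u (g * h) = u g * h + g * u h := by
  induction hu generalizing g h with
  | gen a => exact dl_mul a g h
  | zero => simp
  | add _ _ ih1 ih2 =>
    rw [LinearMap.add_apply, LinearMap.add_apply, LinearMap.add_apply, ih1, ih2]
    ring
  | smul r _ ih =>
    rw [LinearMap.smul_apply, LinearMap.smul_apply, LinearMap.smul_apply, ih, smul_add,
      smul_mul_assoc, mul_smul_comm]
  | br _ _ ih1 ih2 =>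
    simp only [LinearMap.sub_apply, Module.End.mul_apply, ih1, ih2, map_add]
    ring

theorem map_one (hu : IsLF R u) : u 1 = 0 := by
  have h := hu.leibniz 1 1
  rw [one_mul, mul_one, one_mul] at h
  exact left_eq_add.mp h

theorem map_const (hu : IsLF R u) (r : R) : u (algebraMap R (Sh R) r) = 0 := by
  rw [algebraMap_eq, map_smul, hu.map_one, smul_zero]

/-- elements of the Lie algebra lower the weight -/
theorem map_W (hu : IsLF R u) {n : ℕ} {g : Sh R} (hg : g ∈ W R n) : u g ∈ W R (n - 1) := by
  induction hu generalizing n g with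
  | gen a => exact dl_mem_W hg a
  | zero => exact Submodule.zero_mem _
  | add _ _ ih1 ih2 => exact Submodule.add_mem _ (ih1 hg) (ih2 hg)
  | smul r _ ih => exact Submodule.smul_mem _ r (ih hg)
  | br _ _ ih1 ih2 =>
    exact Submodule.sub_mem _ (W_mono (Nat.sub_le _ _) (ih1 (ih2 hg)))
      (W_mono (Nat.sub_le _ _) (ih2 (ih1 hg)))

theorem pow_map_W (hu : IsLF R u) (k : ℕ) {n : ℕ} {g : Sh R} (hg : g ∈ W R n) :
    (u ^ k) g ∈ W R (n - k) := by
  induction k generalizing n g with
  | zero => rw [pow_zero]; exact hg
  | succ k ih =>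
    rw [pow_succ, Module.End.mul_apply]
    have h := ih (hu.map_W hg)
    rwa [Nat.sub_sub, add_comm 1 k] at h

theorem map_ll (hu : IsLF R u) (a : Bool) (g : Sh R) : ll a (u g) = u (ll a g) := by
  induction hu generalizing g with
  | gen b => rfl
  | zero => rfl
  | add _ _ ih1 ih2 =>
    rw [LinearMap.add_apply, LinearMap.add_apply, ll_add, ih1, ih2]
  | smul r _ ih =>
    rw [LinearMap.smul_apply, LinearMap.smul_apply, ll_smul, ih]
  | br _ _ ih1 ih2 =>
    simp only [LinearMap.sub_apply, Module.End.mul_apply, ll_sub, ih1, ih2]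

end IsLF

end Helper44.BL
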