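import Pool.Agent.Helper44.BL.EvalB
import Pool.Agent.Helper44.BL.Ann

/-!
# BL-25: some `zet p i j` is not in the Engel ideal (`p ≥ 11`)
-/

namespace Helper44.BL

open Sh Finset

variable {p : ℕ} [Fact p.Prime]

/-- `p - 5` is even and at least six, so it is `4 a + 6 b` -/
theorem exists_ab' (hp : 11 ≤ p) : ∃ a b : ℕ, 4 * a + 6 * b + 4 = p - 1 := by
  have hodd : p % 2 = 1 := by
    rcases (Fact.out : p.Prime).eq_two_or_odd with h | h
    · omega
    · exact h
  rcases Nat.lt_or_ge ((p - 5) % 4) 1 with h | h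
  · exact ⟨(p - 5) / 4, 0, by omega⟩
  · exact ⟨(p - 11) / 4, 1, by omega⟩

/-- the function `fp` lies in `N0`: `ll true fp = φ`, `ll false fp = 0`, and `u^(p-1) φ = 0`
(`pow_phi`) -/
theorem fp_mem_N0 (hp : 11 ≤ p) {a b : ℕ} (hab : 4 * a + 6 * b + 4 = p - 1) {R : Type}
    [CommRing R] [Algebra (ZMod p) R] (A : Act p R) : fp p a b R ∈ A.N0 := by
  intro c
  cases c
  · intro z
    rw [fp, ll_left1_false, map_zero]
  · intro z
    rw [fp, ll_left1_true]
    exact pow_phi hp hab (A.isLF z)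

/-- **Part (B).** Take the ring of `exists_dual` with `2 (p - 1) + 1` elements, `η` the first,
`lx` the next `p - 1`, `ly` the others. If all `zet p i j` were in the Engel ideal then
`D (zet p i j) fp = 0` (`Act.engel`), so `∑_n H0^n D_c H0^(-n)` kills `fp` (`conj_pow`,
`Act.map_zet`) and `5 η α^(p-1) β^(p-1) = 0` (`eval_Z`); but this is
`5 ((p-1)!)^2 η ∏ τ ≠ 0` (`sum_pow_eq`). -/
theorem exists_zet_not_mem (hp : 11 ≤ p) : ∃ i < p, ∃ j < p, zet p i j ∉ engel p := by
  by_contra hcon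
  have hall : ∀ i < p, ∀ j < p, zet p i j ∈ engel p := by
    intro i hi j hj
    by_contra h
    exact hcon ⟨i, hi, j, hj, h⟩
  have hprime : p.Prime := Fact.out
  obtain ⟨a, b, hab⟩ := exists_ab' hp
  obtain ⟨q, hq⟩ : ∃ q, q = p - 1 := ⟨_, rfl⟩
  obtain ⟨R, hR, hA, τ, hsq, hprod⟩ := exists_dual p (1 + (q + q))
  obtain ⟨A⟩ := exists_act p R
  have hN0 := fp_mem_N0 hp hab A
  obtain ⟨η, hηdef⟩ : ∃ η, η = τ (Fin.castAdd (q + q) 0) := ⟨_, rfl⟩
  obtain ⟨lx, hlx⟩ : ∃ lx : List R,
      lx = List.ofFn (fun i : Fin q => τ (Fin.natAdd 1 (Fin.castAdd q i))) := ⟨_, rfl⟩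
  obtain ⟨ly, hly⟩ : ∃ ly : List R,
      ly = List.ofFn (fun i : Fin q => τ (Fin.natAdd 1 (Fin.natAdd q i))) := ⟨_, rfl⟩
  have hη : η * η = 0 := by rw [hηdef]; exact hsq _
  have hx : ∀ t ∈ lx, t * t = 0 := by
    intro t ht
    rw [hlx, List.mem_ofFn] at ht
    obtain ⟨i, rfl⟩ := ht
    exact hsq _
  have hy : ∀ t ∈ ly, t * t = 0 := by
    intro t ht
    rw [hly, List.mem_ofFn] at ht
    obtain ⟨i, rfl⟩ := ht
    exact hsq _
  have hxl : lx.length = q := by rw [hlx, List.length_ofFn]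
  have hyl : ly.length = q := by rw [hly, List.length_ofFn]
  have hxp : lx.length < p := by omega
  have hyp : ly.length < p := by omega
  have hval := eval_Z hp hab hη hx hy hxp hyp
  have hzero : ((∑ n ∈ range p, H0 lx ly ^ n * dc R * H0i lx ly ^ n : Module.End R (Sh R))
      (fp p a b R)) = 0 := by
    have h1 : (∑ n ∈ range p, H0 lx ly ^ n * dc R * H0i lx ly ^ n : Module.End R (Sh R)) =
        ∑ i ∈ range p, ∑ j ∈ range p, (lx.sum ^ i * ly.sum ^ j) • A.D (zet p i j) := by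
      have h2 : ∀ n ∈ range p, (H0 lx ly ^ n * dc R * H0i lx ly ^ n : Module.End R (Sh R)) =
          ∑ i ∈ range p, ∑ j ∈ range p, (lx.sum ^ i * ly.sum ^ j) •
            arrE p (R := R) (d true) (d false) (dc R) n i j := fun n _ =>
        conj_pow (p := p) (d true) (d false) (dc R) lx ly hx hy hxp hyp n
      rw [Finset.sum_congr rfl h2, Finset.sum_comm]
      refine Finset.sum_congr rfl fun i _ => ?_
      rw [Finset.sum_comm]
      refine Finset.sum_congr rfl fun j _ => ?_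
      rw [A.map_zet, Finset.smul_sum]
      rfl
    rw [h1, LinearMap.sum_apply]
    refine Finset.sum_eq_zero fun i hi => ?_
    rw [LinearMap.sum_apply]
    refine Finset.sum_eq_zero fun j hj => ?_
    rw [LinearMap.smul_apply, A.engel hN0 (hall i (mem_range.1 hi) j (mem_range.1 hj)), smul_zero]
  rw [hzero, Sh.zero_apply, mul_zero, ← hq] at hval
  have hsx := sum_pow_eq lx hx
  have hsy := sum_pow_eq ly hy
  rw [hxl] at hsx
  rw [hyl] at hsy
  rw [hsx, hsy] at hval
  have hpr : ∏ i, τ i = η * (lx.prod * ly.prod) := by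
    rw [Fin.prod_univ_add, Fin.prod_univ_add, Fin.prod_univ_one, hlx, hly, List.prod_ofFn,
      List.prod_ofFn, hηdef]
  have hnd : ¬ p ∣ 5 * (q.factorial * q.factorial) := by
    intro h
    rcases (Nat.Prime.dvd_mul hprime).1 h with h | h
    · exact absurd (Nat.le_of_dvd (by norm_num) h) (by omega)
    · rcases (Nat.Prime.dvd_mul hprime).1 h with h | h <;>
      · rw [Nat.Prime.dvd_factorial hprime] at h
        omega
  apply hprod
  apply nat_cancel p R hnd
  rw [hpr, mul_zero]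
  push_cast
  calc (5 : R) * ((q.factorial : R) * (q.factorial : R)) * (η * (lx.prod * ly.prod))
      = 5 * η * ((q.factorial : R) * lx.prod) * ((q.factorial : R) * ly.prod) := by ring
    _ = 0 := hval.symm

end Helper44.BL
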