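import Mathlib

/-!
# The shuffle algebra on two letters (problem MP_803beb_al)

`Sh R` is the set of functions from words to `R`. Words are stored **reversed**: the head of the
list is the last letter of the word; `true` stands for the letter `x`, `false` for `y`.
The product is the shuffle product, characterised by the fact that `dl a` (remove the last letter
`a`) is a derivation. `R` is a commutative ring.
-/

namespace Helper44.BL

/-- functions on words -/
@[ext] structure Sh (R : Type) where
  f : List Bool → R

namespace Sh

variable {R : Type} [CommRing R]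

instance : CoeFun (Sh R) (fun _ => List Bool → R) := ⟨Sh.f⟩

theorem ext' {g h : Sh R} (H : ∀ w, g w = h w) : g = h := Sh.ext (funext H)

instance : Zero (Sh R) := ⟨⟨fun _ => 0⟩⟩
instance : Add (Sh R) := ⟨fun g h => ⟨fun w => g w + h w⟩⟩
instance : Neg (Sh R) := ⟨fun g => ⟨fun w => -g w⟩⟩
instance : Sub (Sh R) := ⟨fun g h => ⟨fun w => g w - h w⟩⟩
instance : SMul R (Sh R) := ⟨fun r g => ⟨fun w => r * g w⟩⟩
instance : SMul ℕ (Sh R) := ⟨fun n g => ⟨fun w => n • g w⟩⟩
instance : SMul ℤ (Sh R) := ⟨fun n g => ⟨fun w => n • g w⟩⟩
instance : One (Sh R) := ⟨⟨fun w => match w with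
  | [] => 1
  | _ :: _ => 0⟩⟩

/-- removal of the last letter -/
def dl (a : Bool) (g : Sh R) : Sh R := ⟨fun w => g (a :: w)⟩

/-- the shuffle product, as a function of words -/
def mulAux : List Bool → Sh R → Sh R → R
  | [], g, h => g [] * h []
  | a :: w, g, h => mulAux w (dl a g) h + mulAux w g (dl a h)

instance : Mul (Sh R) := ⟨fun g h => ⟨fun w => mulAux w g h⟩⟩

@[simp] theorem zero_apply (w : List Bool) : (0 : Sh R) w = 0 := rfl
@[simp] theorem add_apply (g h : Sh R) (w : List Bool) : (g + h) w = g w + h w := rfl
@[simp] theorem neg_apply (g : Sh R) (w : List Bool) : (-g) w = -g w := rfl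
@[simp] theorem sub_apply (g h : Sh R) (w : List Bool) : (g - h) w = g w - h w := rfl
@[simp] theorem smul_apply (r : R) (g : Sh R) (w : List Bool) : (r • g) w = r * g w := rfl
@[simp] theorem one_nil : (1 : Sh R) [] = 1 := rfl
@[simp] theorem one_cons (a : Bool) (w : List Bool) : (1 : Sh R) (a :: w) = 0 := rfl
@[simp] theorem dl_apply (a : Bool) (g : Sh R) (w : List Bool) : dl a g w = g (a :: w) := rfl
@[simp] theorem mul_nil (g h : Sh R) : (g * h) [] = g [] * h [] := rfl
theorem mul_cons (a : Bool) (w : List Bool) (g h : Sh R) :
    (g * h) (a :: w) = (dl a g * h) w + (g * dl a h) w := rfl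

instance : AddCommGroup (Sh R) where
  add_assoc a b c := by ext1; funext w; simp [add_assoc]
  zero_add a := by ext1; funext w; simp
  add_zero a := by ext1; funext w; simp
  add_comm a b := by ext1; funext w; simp [add_comm]
  neg_add_cancel a := by ext1; funext w; simp
  sub_eq_add_neg a b := by ext1; funext w; simp [sub_eq_add_neg]
  nsmul := fun n g => n • g
  nsmul_zero g := by ext1; funext w; exact zero_smul ℕ _
  nsmul_succ n g := by ext1; funext w; exact succ_nsmul (g w) n
  zsmul := fun n g => n • g
  zsmul_zero' g := by ext1; funext w; exact zero_smul ℤ _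
  zsmul_succ' n g := by ext1; funext w; exact SubNegMonoid.zsmul_succ' n (g w)
  zsmul_neg' n g := by ext1; funext w; exact SubNegMonoid.zsmul_neg' n (g w)

instance : Module R (Sh R) where
  one_smul a := by ext1; funext w; simp
  mul_smul r s a := by ext1; funext w; simp [mul_assoc]
  smul_zero r := by ext1; funext w; simp
  smul_add r a b := by ext1; funext w; simp [mul_add]
  add_smul r s a := by ext1; funext w; simp [add_mul]
  zero_smul a := by ext1; funext w; simp

@[simp] theorem dl_add (a : Bool) (g h : Sh R) : dl a (g + h) = dl a g + dl a h := rfl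
@[simp] theorem dl_zero (a : Bool) : dl a (0 : Sh R) = 0 := rfl
@[simp] theorem dl_neg (a : Bool) (g : Sh R) : dl a (-g) = -dl a g := rfl
@[simp] theorem dl_sub (a : Bool) (g h : Sh R) : dl a (g - h) = dl a g - dl a h := rfl
@[simp] theorem dl_smul (a : Bool) (r : R) (g : Sh R) : dl a (r • g) = r • dl a g := rfl
@[simp] theorem dl_one (a : Bool) : dl a (1 : Sh R) = 0 := rfl
theorem dl_mul (a : Bool) (g h : Sh R) : dl a (g * h) = dl a g * h + g * dl a h := rfl

/-- two functions agree if they agree at the empty word and their derivatives agree -/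
theorem ext_dl {g h : Sh R} (h0 : g [] = h []) (h1 : ∀ a, dl a g = dl a h) : g = h := by
  apply ext'
  intro w
  cases w with
  | nil => exact h0
  | cons a w => exact congrArg (fun k : Sh R => k w) (h1 a)

private theorem add_mul' (w : List Bool) : ∀ (g h k : Sh R), ((g + h) * k) w = (g * k) w + (h * k) w := by
  induction w with
  | nil => intro g h k; simp [add_mul]
  | cons a w ih =>
    intro g h k
    simp only [mul_cons, dl_add, ih]
    ring

private theorem mul_comm' (w : List Bool) : ∀ (g h : Sh R), (g * h) w = (h * g) w := by
  induction w with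
  | nil => intro g h; simp [mul_comm]
  | cons a w ih =>
    intro g h
    simp only [mul_cons]
    rw [ih, ih g]
    ring

private theorem smul_mul' (w : List Bool) : ∀ (r : R) (g h : Sh R), ((r • g) * h) w = r * (g * h) w := by
  induction w with
  | nil => intro r g h; simp [mul_assoc]
  | cons a w ih =>
    intro r g h
    simp only [mul_cons, dl_smul, ih]
    ring

private theorem zero_mul' (w : List Bool) : ∀ (g : Sh R), ((0 : Sh R) * g) w = 0 := by
  induction w with
  | nil => intro g; simp
  | cons a w ih =>
    intro g
    simp only [mul_cons, dl_zero, ih, add_zero]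

private theorem one_mul' (w : List Bool) : ∀ (g : Sh R), ((1 : Sh R) * g) w = g w := by
  induction w with
  | nil => intro g; simp
  | cons a w ih =>
    intro g
    simp only [mul_cons, dl_one, ih, zero_mul', zero_add, dl_apply]

private theorem mul_assoc' (w : List Bool) : ∀ (g h k : Sh R), (g * h * k) w = (g * (h * k)) w := by
  induction w with
  | nil => intro g h k; simp [mul_assoc]
  | cons a w ih =>
    intro g h k
    have e1 : ∀ x y z : Sh R, ((x + y) * z) w = (x * z) w + (y * z) w := fun x y z => add_mul' w x y z
    have e2 : ∀ x y z : Sh R, (x * (y + z)) w = (x * y) w + (x * z) w := by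
      intro x y z
      rw [mul_comm', e1, mul_comm' w y, mul_comm' w z]
    simp only [mul_cons, dl_mul, e1, e2, ih]
    ring

instance : CommRing (Sh R) :=
  { (inferInstance : AddCommGroup (Sh R)) with
    mul := (· * ·)
    one := 1
    left_distrib := by
      intro a b c
      apply ext'; intro w
      rw [mul_comm', add_mul', mul_comm' w b, mul_comm' w c]; rfl
    right_distrib := by
      intro a b c
      apply ext'; intro w
      rw [add_mul']; rfl
    zero_mul := fun a => ext' fun w => zero_mul' w a
    mul_zero := fun a => ext' fun w => by rw [mul_comm', zero_mul']; rfl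
    mul_assoc := fun a b c => ext' fun w => mul_assoc' w a b c
    one_mul := fun a => ext' fun w => one_mul' w a
    mul_one := fun a => ext' fun w => by rw [mul_comm', one_mul']
    mul_comm := fun a b => ext' fun w => mul_comm' w a b }

instance : Algebra R (Sh R) :=
  Algebra.ofModule
    (fun r g h => ext' fun w => smul_mul' w r g h)
    (fun r g h => ext' fun w => by rw [mul_comm', smul_mul', mul_comm' w h]; rfl)

theorem algebraMap_eq (r : R) : algebraMap R (Sh R) r = r • (1 : Sh R) := Algebra.algebraMap_eq_smul_one r

@[simp] theorem dl_algebraMap (a : Bool) (r : R) : dl a (algebraMap R (Sh R) r) = 0 := by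
  rw [algebraMap_eq, dl_smul, dl_one, smul_zero]

@[simp] theorem algebraMap_nil (r : R) : (algebraMap R (Sh R) r) [] = r := by
  rw [algebraMap_eq, smul_apply, one_nil, mul_one]

/-- removal of the last letter, as a linear map -/
def d (a : Bool) : Module.End R (Sh R) where
  toFun := dl a
  map_add' _ _ := rfl
  map_smul' _ _ := rfl

@[simp] theorem d_apply (a : Bool) (g : Sh R) : d a g = dl a g := rfl

/-- the value at the empty word -/
def eps : Sh R →ₐ[R] R where
  toFun g := g []
  map_one' := rfl
  map_mul' _ _ := rfl
  map_zero' := rfl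
  map_add' _ _ := rfl
  commutes' r := algebraMap_nil r

theorem eps_apply (g : Sh R) : eps g = g [] := rfl

/-- the function which is `1` at the word `v` and `0` elsewhere -/
def dlt (v : List Bool) : Sh R := ⟨fun w => if w = v then 1 else 0⟩

end Sh

end Helper44.BL
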