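import Pool.Agent.Helper44.BL.Tr

/-!
# BL-12: the function `fxs` (integer tables)
-/

namespace Helper44.BL

open Sh Tr

def F0 : Tr :=
  n [] (n [] (n [] (n [] o (n [] (n [] o (n [] o (n [] o (n [] o (n [(1, 1440)] o o))))) (n []
    o (n [] (n [] o (n [] o (n [(1, 8640)] o o))) (n [] (n [] o (n [(1, -10080)] o o)) o)))))
    (n [] (n [] (n [] o (n [] o (n [] o (n [] o (n [(1, -2880)] o o))))) (n [] o (n [] o (n []
    (n [] o (n [(1, 7200)] o o)) (n [] (n [(1, -4320)] o o) o))))) (n [] (n [] (n [] o (n [] o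
    (n [] o (n [(1, -5760)] o o)))) (n [] (n [] o (n [] o (n [(1, -5088)] o o))) (n [] (n [] o
    (n [(1, 22944)] o o)) (n [] (n [(1, -10656)] o o) o)))) (n [] (n [] (n [] o (n [] o (n [(1,
    3648)] o o))) (n [] (n [] o (n [(1, -11424)] o o)) (n [] (n [(1, 13536)] o o) o))) (n [] (n
    [] (n [] o (n [(1, -8640)] o o)) (n [] (n [(1, 1440)] o o) o)) o))))) (n [] (n [] (n [] (n
    [] o (n [] o (n [] o (n [] o (n [(1, -4320)] o o))))) (n [] o (n [] (n [] o (n [] o (n [(1,
    -5952)] o o))) (n [] (n [] o (n [(1, 16032)] o o)) (n [] (n [(1, -5760)] o o) o))))) (n []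
    (n [] (n [] o (n [] o (n [] o (n [(1, 4128)] o o)))) (n [] (n [] o (n [] o (n [(1, -192)] o
    o))) (n [] (n [] o (n [(1, -17088)] o o)) (n [] (n [(1, 16032)] o o) o)))) (n [] (n [] (n
    [] o (n [] o (n [(1, -5184)] o o))) (n [] (n [] o (n [(1, 9312)] o o)) (n [] (n [(1, 3840)]
    o o) o))) (n [] (n [] (n [] o (n [(1, 3264)] o o)) (n [] (n [(1, -12672)] o o) o)) (n [] (n
    [] (n [(1, -1440)] o o) o) o))))) (n [] (n [] (n [] (n [] o (n [] o (n [] o (n [(1, 7392)]
    o o)))) (n [] (n [] o (n [] o (n [(1, 4032)] o o))) (n [] (n [] o (n [(1, -19008)] o o)) (n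
    [] (n [(1, 14784)] o o) o)))) (n [] (n [] (n [] o (n [] o (n [(1, 2592)] o o))) (n [] (n []
    o (n [(1, -4800)] o o)) (n [] (n [(1, -17280)] o o) o))) (n [] (n [] (n [] o (n [(1, -288)]
    o o)) (n [] (n [(1, -384)] o o) o)) (n [] (n [] (n [(1, 12960)] o o) o) o)))) (n [] (n []
    (n [] (n [] o (n [] o (n [(1, -2496)] o o))) (n [] (n [] o (n [(1, 6912)] o o)) (n [] (n
    [(1, -10176)] o o) o))) (n [] (n [] (n [] o (n [(1, 9984)] o o)) (n [] (n [(1, 5856)] o o)
    o)) (n [] (n [] (n [(1, -15840)] o o) o) o))) (n [] (n [] (n [] (n [] o (n [(1, -4320)] o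
    o)) (n [] (n [(1, 5760)] o o) o)) (n [] (n [] (n [(1, 4320)] o o) o) o)) o))))) (n [] (n []
    (n [] (n [] (n [] o (n [] o (n [] o (n [] o (n [(1, 5760)] o o))))) (n [] (n [] o (n [] o
    (n [] o (n [(1, -1440)] o o)))) (n [] (n [] o (n [] o (n [(1, 192)] o o))) (n [] (n [] o (n
    [(1, -8832)] o o)) (n [] (n [(1, 4320)] o o) o))))) (n [] (n [] (n [] o (n [] o (n [] o (n
    [(1, -9024)] o o)))) (n [] (n [] o (n [] o (n [(1, 6912)] o o))) (n [] (n [] o (n [(1,
    288)] o o)) (n [] (n [(1, -5376)] o o) o)))) (n [] (n [] (n [] o (n [] o (n [(1, -3840)] o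
    o))) (n [] (n [] o (n [(1, 1920)] o o)) (n [] (n [(1, 288)] o o) o))) (n [] (n [] (n [] o
    (n [(1, 8064)] o o)) (n [] (n [(1, -7872)] o o) o)) (n [] (n [] (n [(1, 8640)] o o) o)
    o))))) (n [] (n [] (n [] (n [] o (n [] o (n [] o (n [(1, 1824)] o o)))) (n [] (n [] o (n []
    o (n [(1, -3744)] o o))) (n [] (n [] o (n [(1, 4800)] o o)) (n [] (n [(1, -5760)] o o)
    o)))) (n [] (n [] (n [] o (n [] o (n [(1, -2112)] o o))) (n [] (n [] o (n [(1, 3072)] o o))
    (n [] (n [(1, -1344)] o o) o))) (n [] (n [] (n [] o (n [(1, -3840)] o o)) (n [] (n [(1,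
    9504)] o o) o)) (n [] (n [] (n [(1, -2400)] o o) o) o)))) (n [] (n [] (n [] (n [] o (n [] o
    (n [(1, 5472)] o o))) (n [] (n [] o (n [(1, 192)] o o)) (n [] (n [(1, 19392)] o o) o))) (n
    [] (n [] (n [] o (n [(1, -11040)] o o)) (n [] (n [(1, 7488)] o o) o)) (n [] (n [] (n [(1,
    -17184)] o o) o) o))) (n [] (n [] (n [] (n [] o (n [(1, 5376)] o o)) (n [] (n [(1, -20640)]
    o o) o)) (n [] (n [] (n [(1, 864)] o o) o) o)) (n [] (n [] (n [] (n [(1, 10080)] o o) o) o)
    o))))) (n [] (n [] (n [] (n [] (n [] o (n [] o (n [] o (n [(1, 2880)] o o)))) (n [] (n [] o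
    (n [] o (n [(1, -4800)] o o))) (n [] (n [] o (n [(1, 3744)] o o)) (n [] (n [(1, -3264)] o
    o) o)))) (n [] (n [] (n [] o (n [] o (n [(1, 3456)] o o))) (n [] (n [] o (n [(1, -960)] o
    o)) (n [] (n [(1, 8160)] o o) o))) (n [] (n [] (n [] o (n [(1, -5760)] o o)) (n [] (n [(1,
    12864)] o o) o)) (n [] (n [] (n [(1, -16320)] o o) o) o)))) (n [] (n [] (n [] (n [] o (n []
    o (n [(1, 1344)] o o))) (n [] (n [] o (n [(1, -5856)] o o)) (n [] (n [(1, -5568)] o o) o)))
    (n [] (n [] (n [] o (n [(1, 2688)] o o)) (n [] (n [(1, -5952)] o o) o)) (n [] (n [] (n [(1,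
    16224)] o o) o) o))) (n [] (n [] (n [] (n [] o (n [(1, 3264)] o o)) (n [] (n [(1, 960)] o
    o) o)) (n [] (n [] (n [(1, -7680)] o o) o) o)) (n [] (n [] (n [] (n [(1, 576)] o o) o) o)
    o)))) (n [] (n [] (n [] (n [] (n [] o (n [] o (n [(1, -2880)] o o))) (n [] (n [] o (n [(1,
    1632)] o o)) (n [] (n [(1, -10848)] o o) o))) (n [] (n [] (n [] o (n [(1, 5568)] o o)) (n
    [] (n [(1, -10272)] o o) o)) (n [] (n [] (n [(1, 15360)] o o) o) o))) (n [] (n [] (n [] (n
    [] o (n [(1, 1440)] o o)) (n [] (n [(1, 9600)] o o) o)) (n [] (n [] (n [(1, -384)] o o) o)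
    o)) (n [] (n [] (n [] (n [(1, -9216)] o o) o) o) o))) (n [] (n [] (n [] (n [] (n [] o (n
    [(1, -5760)] o o)) (n [] (n [(1, 4320)] o o) o)) (n [] (n [] (n [(1, 2880)] o o) o) o)) (n
    [] (n [] (n [] (n [(1, -1440)] o o) o) o) o)) o))))

def F1 : Tr :=
  n [] (n [] (n [] (n [(137, -40320)] (n [] o (n [] o (n [] o (n [] o (n [(3, 5760)] o o)))))
    (n [(59, -17760)] (n [] o (n [] o (n [] o (n [(3, -1440)] o o)))) (n [(23, 12000)] (n [] o
    (n [] o (n [(3, 192)] o o))) (n [(11, 6624)] (n [] o (n [(3, -8832)] o o)) (n [(5, 10080)]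
    (n [(3, 4320)] o o) o))))) (n [(97, -50688), (109, -50688), (127, -50304), (131, -49920)]
    (n [(59, 60000)] (n [] o (n [] o (n [] o (n [(3, -9024)] o o)))) (n [(23, 12864)] (n [] o
    (n [] o (n [(3, 6912)] o o))) (n [(11, 6720)] (n [] o (n [(3, 288)] o o)) (n [(5, -1440)]
    (n [(3, -5376)] o o) (n [(2, 1440)] o o))))) (n [(41, -384), (47, -384), (53, -41472)] (n
    [(23, 74208)] (n [] o (n [] o (n [(3, -3840)] o o))) (n [(11, -24864)] (n [] o (n [(3,
    1920)] o o)) (n [(5, 6144)] (n [(3, 288)] o o) o))) (n [(17, -13248), (19, -13248)] (n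
    [(11, 23040)] (n [] o (n [(3, 8064)] o o)) (n [(5, -24864)] (n [(3, -7872)] o o) (n [(2,
    8640)] o o))) (n [(7, -11520)] (n [(5, 10080)] (n [(3, 8640)] o o) (n [(2, -10080)] o o))
    o))))) (n [] (n [(97, 129600), (109, 129600), (127, 50880), (131, -27840)] (n [(59,
    -40800)] (n [] o (n [] o (n [] o (n [(3, 1824)] o o)))) (n [(23, -45600)] (n [] o (n [] o
    (n [(3, -3744)] o o))) (n [(11, 10272)] (n [] o (n [(3, 4800)] o o)) (n [(5, -13152)] (n
    [(3, -5760)] o o) (n [(2, -2880)] o o))))) (n [(41, 5376), (47, 5376), (53, 47808)] (n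
    [(23, 24192)] (n [] o (n [] o (n [(3, -2112)] o o))) (n [(11, -11904)] (n [] o (n [(3,
    3072)] o o)) (n [(5, 7104)] (n [(3, -1344)] o o) o))) (n [(17, -7392), (19, -7392)] (n
    [(11, -6432)] (n [] o (n [(3, -3840)] o o)) (n [(5, 17376)] (n [(3, 9504)] o o) o)) (n [(7,
    1440)] (n [(5, -21408)] (n [(3, -2400)] o o) (n [(2, 7200)] o o)) (n [] (n [(2, -4320)] o
    o) o))))) (n [(73, -36288), (83, -40896), (89, -1728), (103, -40896), (107, -1728), (113,
    81216)] (n [(41, 7680), (47, 7680), (53, -34560)] (n [(23, -69024)] (n [] o (n [] o (n [(3,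
    5472)] o o))) (n [(11, 1632)] (n [] o (n [(3, 192)] o o)) (n [(5, 1344)] (n [(3, 19392)] o
    o) (n [(2, -5760)] o o)))) (n [(17, 62976), (19, 62976)] (n [(11, -6528)] (n [] o (n [(3,
    -11040)] o o)) (n [(5, -7392)] (n [(3, 7488)] o o) (n [(2, -5088)] o o))) (n [(7, -12096)]
    (n [(5, -3552)] (n [(3, -17184)] o o) (n [(2, 22944)] o o)) (n [] (n [(2, -10656)] o o)
    o)))) (n [(31, -26784), (37, 14112), (43, 14112)] (n [(17, -50976), (19, -50976)] (n [(11,
    1440)] (n [] o (n [(3, 5376)] o o)) (n [(5, 4800)] (n [(3, -20640)] o o) (n [(2, 3648)] o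
    o))) (n [(7, 33696)] (n [(5, 4800)] (n [(3, 864)] o o) (n [(2, -11424)] o o)) (n [] (n [(2,
    13536)] o o) o))) (n [(13, 8640)] (n [(7, -11520)] (n [(5, 10080)] (n [(3, 10080)] o o) (n
    [(2, -8640)] o o)) (n [] (n [(2, 1440)] o o) o)) o))))) (n [] (n [] (n [(97, -99072), (109,
    -99072), (127, 46464), (131, 192000)] (n [(59, -1440)] (n [] o (n [] o (n [] o (n [(3,
    2880)] o o)))) (n [(23, 12096)] (n [] o (n [] o (n [(3, -4800)] o o))) (n [(11, -12096)] (n
    [] o (n [(3, 3744)] o o)) (n [(5, -5568)] (n [(3, -3264)] o o) (n [(2, -4320)] o o))))) (n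
    [(41, 32640), (47, 32640), (53, 74880)] (n [(23, -60960)] (n [] o (n [] o (n [(3, 3456)] o
    o))) (n [(11, 672)] (n [] o (n [(3, -960)] o o)) (n [(5, -7776)] (n [(3, 8160)] o o) o)))
    (n [(17, 6336), (19, 6336)] (n [(11, -54528)] (n [] o (n [(3, -5760)] o o)) (n [(5, 23808)]
    (n [(3, 12864)] o o) (n [(2, -5952)] o o))) (n [(7, 23040)] (n [(5, -20544)] (n [(3,
    -16320)] o o) (n [(2, 16032)] o o)) (n [] (n [(2, -5760)] o o) o))))) (n [(73, -10752),
    (83, 116736), (89, 67968), (103, 116736), (107, 67968), (113, -157056)] (n [(41, -61440),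
    (47, -61440), (53, -56640)] (n [(23, 20928)] (n [] o (n [] o (n [(3, 1344)] o o))) (n [(11,
    34752)] (n [] o (n [(3, -5856)] o o)) (n [(5, -4704)] (n [(3, -5568)] o o) (n [(2, 4128)] o
    o)))) (n [(17, -22944), (19, -22944)] (n [(11, -15072)] (n [] o (n [(3, 2688)] o o)) (n
    [(5, 7872)] (n [(3, -5952)] o o) (n [(2, -192)] o o))) (n [(7, -2208)] (n [(5, 15936)] (n
    [(3, 16224)] o o) (n [(2, -17088)] o o)) (n [] (n [(2, 16032)] o o) o)))) (n [(31, 17568),
    (37, 11616), (43, 11616)] (n [(17, -4992), (19, -4992)] (n [(11, 34752)] (n [] o (n [(3,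
    3264)] o o)) (n [(5, -3552)] (n [(3, 960)] o o) (n [(2, -5184)] o o))) (n [(7, -57408)] (n
    [(5, 9888)] (n [(3, -7680)] o o) (n [(2, 9312)] o o)) (n [] (n [(2, 3840)] o o) o))) (n
    [(13, -1440)] (n [(7, 48096)] (n [(5, -15360)] (n [(3, 576)] o o) (n [(2, 3264)] o o)) (n
    [] (n [(2, -12672)] o o) o)) (n [] (n [] (n [(2, -1440)] o o) o) o))))) (n [] (n [(73,
    55104), (83, -86592), (89, -95808), (103, -86592), (107, -95808), (113, 27456)] (n [(41,
    16128), (47, 16128), (53, 9984)] (n [(23, 19296)] (n [] o (n [] o (n [(3, -2880)] o o))) (n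
    [(11, -11808)] (n [] o (n [(3, 1632)] o o)) (n [(5, 7968)] (n [(3, -10848)] o o) (n [(2,
    7392)] o o)))) (n [(17, -17088), (19, -17088)] (n [(11, 48000)] (n [] o (n [(3, 5568)] o
    o)) (n [(5, -6720)] (n [(3, -10272)] o o) (n [(2, 4032)] o o))) (n [(7, -10176)] (n [(5,
    29568)] (n [(3, 15360)] o o) (n [(2, -19008)] o o)) (n [] (n [(2, 14784)] o o) o)))) (n
    [(31, 24288), (37, -102624), (43, -102624)] (n [(17, 32928), (19, 32928)] (n [(11, -5088)]
    (n [] o (n [(3, 1440)] o o)) (n [(5, -21024)] (n [(3, 9600)] o o) (n [(2, 2592)] o o))) (n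
    [(7, 28128)] (n [(5, 1632)] (n [(3, -384)] o o) (n [(2, -4800)] o o)) (n [] (n [(2,
    -17280)] o o) o))) (n [(13, 9408)] (n [(7, -6144)] (n [(5, -1344)] (n [(3, -9216)] o o) (n
    [(2, -288)] o o)) (n [] (n [(2, -384)] o o) o)) (n [] (n [] (n [(2, 12960)] o o) o) o))))
    (n [(67, 47040), (71, 17472), (79, -12096), (101, -12096)] (n [(31, -15072), (37, 76896),
    (43, 76896)] (n [(17, 14400), (19, 14400)] (n [(11, -19584)] (n [] o (n [(3, -5760)] o o))
    (n [(5, 9696)] (n [(3, 4320)] o o) (n [(2, -2496)] o o))) (n [(7, 7104)] (n [(5, -26400)]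
    (n [(3, 2880)] o o) (n [(2, 6912)] o o)) (n [] (n [(2, -10176)] o o) o))) (n [(13, -25248)]
    (n [(7, -18912)] (n [(5, -3456)] (n [(3, -1440)] o o) (n [(2, 9984)] o o)) (n [] (n [(2,
    5856)] o o) o)) (n [] (n [] (n [(2, -15840)] o o) o) o))) (n [] (n [(13, 8640)] (n [(7,
    -11520)] (n [(5, 10080)] o (n [(2, -4320)] o o)) (n [] (n [(2, 5760)] o o) o)) (n [] (n []
    (n [(2, 4320)] o o) o) o)) o))))

def F2 : Tr :=
  n [] (n [] (n [(253, 6912), (274, -357120), (291, 49536), (295, 126720), (327, 49536), (381,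
    102528), (393, 155520)] (n [(177, -43200)] (n [] o (n [] o (n [] o (n [(9, 2880)] o o))))
    (n [(69, 6432)] (n [] o (n [] o (n [(9, -4800)] o o))) (n [(33, -12192)] (n [] o (n [(9,
    3744)] o o)) (n [(15, -4512)] (n [(9, -3264)] o o) (n [(6, 1440)] o o))))) (n [(115,
    115008), (118, -85440), (121, -79680), (123, 14592), (141, 14592), (159, 99456)] (n [(69,
    -61920)] (n [] o (n [] o (n [(9, 3456)] o o))) (n [(33, 14208)] (n [] o (n [(9, -960)] o
    o)) (n [(15, -8832)] (n [(9, 8160)] o o) (n [(6, -1440)] o o)))) (n [(46, -17472), (51,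
    12288), (55, -3648), (57, 12288)] (n [(33, -34848)] (n [] o (n [(9, -5760)] o o)) (n [(15,
    22752)] (n [(9, 12864)] o o) (n [(6, -5760)] o o))) (n [(21, 32832), (25, 7584)] (n [(15,
    -18048)] (n [(9, -16320)] o o) (n [(6, 7200)] o o)) (n [(10, 8640)] (n [(6, -1440)] o o)
    o))))) (n [(161, -399360), (187, 172032), (194, -142848), (205, 20736), (209, 172032),
    (218, -142848), (219, -31872), (235, 20736), (249, 112896), (254, 5376), (262, 153600),
    (265, 73728), (267, 60672), (309, 112896), (321, 60672), (339, -188544)] (n [(115, -91584),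
    (118, 92160), (121, 71616), (123, 6720), (141, 6720), (159, -62400)] (n [(69, 1056)] (n []
    o (n [] o (n [(9, 1344)] o o))) (n [(33, 23904)] (n [] o (n [(9, -5856)] o o)) (n [(15,
    864)] (n [(9, -5568)] o o) (n [(6, -4896)] o o)))) (n [(46, 73536), (51, -40512), (55,
    -17280), (57, -40512)] (n [(33, -5952)] (n [] o (n [(9, 2688)] o o)) (n [(15, 3840)] (n
    [(9, -5952)] o o) (n [(6, 6720)] o o))) (n [(21, -11808), (22, 6048), (25, -14880)] (n
    [(15, 25440)] (n [(9, 16224)] o o) (n [(6, -16800)] o o)) (n [(10, -1440)] (n [(6, 10656)]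
    o o) (n [(4, 1440)] o o))))) (n [(77, 8064), (82, -2496), (85, -11712), (93, -1152), (94,
    -2496), (95, -11712), (106, -1728), (111, -17664), (129, -17664)] (n [(46, 113856), (51,
    -2304), (55, -53952), (57, -2304)] (n [(33, 480)] (n [] o (n [(9, 3264)] o o)) (n [(15,
    -5472)] (n [(9, 960)] o o) (n [(6, -9024)] o o))) (n [(21, -51840), (22, 13248), (25,
    6432)] (n [(15, 13248)] (n [(9, -7680)] o o) (n [(6, 11232)] o o)) (n [(10, 192)] (n [(6,
    4128)] o o) o))) (n [(34, -12384), (35, 2304), (38, -12384), (39, -29664)] (n [(21, 45216),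
    (22, -4896), (25, 864)] (n [(15, -29280)] (n [(9, 576)] o o) (n [(6, 11328)] o o)) (n [(10,
    -16032)] (n [(6, -20544)] o o) (n [(4, 8640)] o o))) (n [(14, -14400)] (n [(10, 8640)] (n
    [(6, 7200)] o o) (n [(4, -10080)] o o)) o))))) (n [] (n [(161, 190464), (187, -50304),
    (194, 335232), (205, -147072), (209, -50304), (218, 335232), (219, -62976), (235, -147072),
    (249, -148992), (254, 87936), (262, -159360), (265, -74496), (267, -124416), (309,
    -148992), (321, -124416), (339, 10752)] (n [(115, 34368), (118, 110400), (121, -73152),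
    (123, -66816), (141, -66816), (159, 66432)] (n [(69, 37152)] (n [] o (n [] o (n [(9,
    -2880)] o o))) (n [(33, -11520)] (n [] o (n [(9, 1632)] o o)) (n [(15, 3840)] (n [(9,
    -10848)] o o) (n [(6, 9216)] o o)))) (n [(46, -16320), (51, -1536), (55, 24000), (57,
    -1536)] (n [(33, 35040)] (n [] o (n [(9, 5568)] o o)) (n [(15, -12768)] (n [(9, -10272)] o
    o) (n [(6, 288)] o o))) (n [(21, -14016), (22, 26880), (25, -6048)] (n [(15, 4608)] (n [(9,
    15360)] o o) (n [(6, -14208)] o o)) (n [(10, -3264)] (n [(6, 9024)] o o) (n [(4, -2880)] o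
    o))))) (n [(77, 177024), (82, 78720), (85, -123072), (93, 37824), (94, 78720), (95,
    -123072), (106, -61440), (111, -88512), (129, -88512)] (n [(46, -8256), (51, 4416), (55,
    -21888), (57, 4416)] (n [(33, 10752)] (n [] o (n [(9, 1440)] o o)) (n [(15, -7296)] (n [(9,
    9600)] o o) (n [(6, 480)] o o))) (n [(21, 33312), (22, -46752), (25, 15264)] (n [(15,
    -11808)] (n [(9, -384)] o o) (n [(6, -1728)] o o)) (n [(10, 12000)] (n [(6, -18624)] o o)
    o))) (n [(34, -3168), (35, 25728), (38, -3168), (39, 36384)] (n [(21, -17280), (22,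
    -17856), (25, 19488)] (n [(15, 32064)] (n [(9, -9216)] o o) (n [(6, -4128)] o o)) (n [(10,
    -22656)] (n [(6, 9120)] o o) o)) (n [(14, 1440)] (n [(10, 5280)] (n [(6, 10560)] o o) (n
    [(4, 7200)] o o)) (n [] (n [(4, -4320)] o o) o))))) (n [(119, -16512), (133, -16512), (143,
    -8448), (146, -31872), (155, 29184), (166, -44544), (178, -19200), (185, 48768), (201,
    -34560), (206, -44544), (213, 16128), (214, -19200), (215, 48768), (226, 44160), (237,
    66816), (303, 66816)] (n [(77, -95232), (82, -80448), (85, 101184), (93, 24960), (94,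
    -80448), (95, 101184), (106, -41664), (111, 67200), (129, 67200)] (n [(46, -128064), (51,
    44928), (55, 72768), (57, 44928)] (n [(33, -19872)] (n [] o (n [(9, -5760)] o o)) (n [(15,
    7584)] (n [(9, 4320)] o o) (n [(6, 2976)] o o))) (n [(21, -2880), (22, -13824), (25,
    -8352)] (n [(15, -4800)] (n [(9, 2880)] o o) (n [(6, 7104)] o o)) (n [(10, -7488)] (n [(6,
    9216)] o o) (n [(4, -5760)] o o)))) (n [(34, 23328), (35, -55296), (38, 23328), (39,
    -26208)] (n [(21, -4896), (22, 19872), (25, 5088)] (n [(15, -12000)] (n [(9, -1440)] o o)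
    (n [(6, -1056)] o o)) (n [(10, 13344)] (n [(6, 13344)] o o) (n [(4, -5088)] o o))) (n [(14,
    -14784)] (n [(10, -13248)] (n [(6, -33024)] o o) (n [(4, 22944)] o o)) (n [] (n [(4,
    -10656)] o o) o)))) (n [(49, -8640), (62, -36096), (65, 9408), (74, 16128), (86, 16128),
    (87, 47040)] (n [(34, -25056), (35, 27264), (38, -25056), (39, 2208)] (n [(21, -8640), (22,
    17280), (25, -25440)] (n [(15, 576)] o (n [(6, 1056)] o o)) (n [(10, 16704)] (n [(6,
    -14880)] o o) (n [(4, 3648)] o o))) (n [(14, 42144)] (n [(10, -9312)] (n [(6, 5184)] o o)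
    (n [(4, -11424)] o o)) (n [] (n [(4, 13536)] o o) o))) (n [(26, 17280)] (n [(14, -14400)]
    (n [(10, 8640)] (n [(6, 10080)] o o) (n [(4, -8640)] o o)) (n [] (n [(4, 1440)] o o) o))
    o))))

def F3 : Tr :=
  n [] (n [(483, 126336), (506, -81792), (548, -144000), (561, 1920), (575, 142848), (582,
    122688), (590, 98880), (605, -82176), (615, -129216), (627, 1920), (654, 122688), (657,
    68160), (705, -129216), (747, -72000), (762, 216384), (786, 310080), (795, -82368), (801,
    -167232), (927, -72000), (963, -167232), (1017, -217536)] (n [(345, 232512), (354,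
    -176640), (363, -114048), (369, -1152), (423, -1152), (477, 178944)] (n [(207, 13248)] (n
    [] o (n [] o (n [(27, -2880)] o o))) (n [(99, -16896)] (n [] o (n [(27, 1632)] o o)) (n
    [(45, -384)] (n [(27, -10848)] o o) (n [(18, 12096)] o o)))) (n [(138, -29376), (153,
    -4032), (165, 5280), (171, -4032)] (n [(99, 21120)] (n [] o (n [(27, 5568)] o o)) (n [(45,
    -5280)] (n [(27, -10272)] o o) (n [(18, -4512)] o o))) (n [(63, -11904), (66, 7680), (75,
    -3072)] (n [(45, -672)] (n [(27, 15360)] o o) (n [(18, -10464)] o o)) (n [(30, 6336)] (n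
    [(18, 5760)] o o) (n [(12, -1440)] o o))))) (n [(230, -50112), (231, 100800), (236, 50400),
    (242, 13248), (246, 49152), (255, -91200), (275, 8832), (279, 30240), (282, 49152), (285,
    -91200), (318, -22464), (333, -78240), (387, -78240)] (n [(138, -77184), (153, 44064),
    (165, 51168), (171, 44064)] (n [(99, 6720)] (n [] o (n [(27, 1440)] o o)) (n [(45, -4416)]
    (n [(27, 9600)] o o) (n [(18, 3936)] o o))) (n [(63, 20928), (66, -10752), (75, -1344)] (n
    [(45, -16128)] (n [(27, -384)] o o) (n [(18, -2688)] o o)) (n [(30, -3264)] (n [(18,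
    -10464)] o o) (n [(12, -1440)] o o)))) (n [(92, -7200), (102, -12096), (105, 30240), (110,
    -14112), (114, -12096), (117, 44640), (125, 8832)] (n [(63, -25728), (66, -2112), (75,
    -1344)] (n [(45, 31200)] (n [(27, -9216)] o o) (n [(18, -9888)] o o)) (n [(30, 2688)] (n
    [(18, 21984)] o o) (n [(12, -5760)] o o))) (n [(42, 16704), (44, -5760), (50, 5760)] (n
    [(30, -14400)] (n [(18, -5760)] o o) (n [(12, 14400)] o o)) (n [(20, 4320)] (n [(12,
    -5760)] o o) o))))) (n [(322, -113280), (357, 17664), (374, 97536), (385, 9600), (388,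
    -116352), (399, 17664), (410, 41664), (418, 97536), (425, -35136), (429, -165504), (436,
    -116352), (438, -9408), (465, 76224), (470, 41664), (475, -35136), (498, 43584), (508,
    -74496), (524, -32640), (530, 59712), (534, 51648), (555, 11328), (603, -12480), (618,
    43584), (639, 26304), (642, 51648), (645, 11328), (678, 14784), (711, 65088), (909, 65088)]
    (n [(230, -176064), (231, -32448), (236, -7200), (242, 122304), (246, 83328), (255, 20160),
    (275, -960), (279, -53088), (282, 83328), (285, 20160), (318, -96576), (333, -4896), (387,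
    -4896)] (n [(138, 1728), (153, -7488), (165, -22368), (171, -7488)] (n [(99, -2304)] (n []
    o (n [(27, -5760)] o o)) (n [(45, 5760)] (n [(27, 4320)] o o) (n [(18, 4320)] o o))) (n
    [(63, 2688), (66, 28608), (75, -10176)] (n [(45, 3840)] (n [(27, 2880)] o o) (n [(18,
    1248)] o o)) (n [(30, 2880)] (n [(18, 3648)] o o) (n [(12, -10656)] o o)))) (n [(92,
    24960), (102, 13056), (105, 27552), (110, -34656), (114, 13056), (117, -13632), (125,
    8832)] (n [(63, -19392), (66, -11520), (75, -19968)] (n [(45, -4704)] (n [(27, -1440)] o o)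
    (n [(18, 1632)] o o)) (n [(30, 4224)] (n [(18, 7392)] o o) (n [(12, 1632)] o o))) (n [(42,
    -7680), (44, 9600), (50, -3072)] (n [(30, -10560)] (n [(18, -16800)] o o) (n [(12, 6144)] o
    o)) (n [(20, -1440)] o (n [(8, 1440)] o o))))) (n [(147, -51072), (154, -38784), (164,
    -22080), (170, 40512), (175, -7872), (186, -62208), (188, -22080), (190, 40512), (195,
    54720), (212, 960), (222, 46464), (258, 46464), (261, 12480)] (n [(92, 146400), (102,
    -96576), (105, 29088), (110, -82080), (114, -96576), (117, 35808), (125, 18624)] (n [(63,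
    24768), (66, -29184), (75, 35904)] (n [(45, -9216)] o (n [(18, 4320)] o o)) (n [(30,
    -4224)] (n [(18, -13920)] o o) (n [(12, -5376)] o o))) (n [(42, -36288), (44, 11712), (50,
    -192)] (n [(30, 33600)] (n [(18, -2496)] o o) (n [(12, -192)] o o)) (n [(20, -8448)] (n
    [(12, 17664)] o o) o))) (n [(68, -9504), (70, 9888), (76, -9504), (78, 5760)] (n [(42,
    44544), (44, -6912), (50, -2496)] (n [(30, -17280)] (n [(18, 10656)] o o) (n [(12, 2688)] o
    o)) (n [(20, 1248)] (n [(12, -19104)] o o) (n [(8, 8640)] o o))) (n [(28, -8640)] (n [(20,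
    4320)] (n [(12, 7200)] o o) (n [(8, -10080)] o o)) o))))

def F4 : Tr :=
  n [] (n [] (n [(414, -11520), (459, 5760), (513, 5760)] (n [(297, -8640)] (n [] o (n [(81,
    -5760)] o o)) (n [(135, -1440)] (n [(81, 4320)] o o) (n [(54, 1440)] o o))) (n [(189,
    5760), (198, 2880)] (n [(135, -1440)] (n [(81, 2880)] o o) (n [(54, 2880)] o o)) (n [(90,
    2880)] (n [(54, -7200)] o o) (n [(36, 1440)] o o)))) (n [(276, 2880), (306, 2880), (342,
    2880), (351, -8640)] (n [(189, 5760), (198, 2880)] (n [(135, -1440)] (n [(81, -1440)] o o)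
    (n [(54, 7200)] o o)) (n [(90, 2880)] (n [(54, -2880)] o o) (n [(36, -2880)] o o))) (n
    [(126, -11520), (132, 2880)] (n [(90, 2880)] (n [(54, -1440)] o o) (n [(36, -4320)] o o))
    (n [(60, -4320)] (n [(36, 5760)] o o) o)))) (n [] (n [(276, 2880), (306, 2880), (342,
    2880), (351, -8640)] (n [(189, 5760), (198, 2880)] (n [(135, -1440)] o (n [(54, 5760)] o
    o)) (n [(90, 2880)] (n [(54, -4320)] o o) (n [(36, -1440)] o o))) (n [(126, -11520), (132,
    2880)] (n [(90, 2880)] (n [(54, -2880)] o o) (n [(36, -2880)] o o)) (n [(60, -4320)] (n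
    [(36, 7200)] o o) (n [(24, -1440)] o o)))) (n [(184, 5760), (204, -11520), (228, -11520),
    (234, 17280)] (n [(126, -11520), (132, 2880)] (n [(90, 2880)] (n [(54, 1440)] o o) (n [(36,
    -7200)] o o)) (n [(60, -4320)] (n [(36, 2880)] o o) (n [(24, 2880)] o o))) (n [(84, 17280),
    (88, -8640)] (n [(60, -4320)] (n [(36, 1440)] o o) (n [(24, 4320)] o o)) (n [(40, 5760)] (n
    [(24, -5760)] o o) o))))

theorem F0_step : (((F0.opTT).tcut 3).tsub F1).isZ = true := by
  decide +kernel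

theorem F1_step : (((F1.opTT).tcut 2).tsub F2).isZ = true := by
  decide +kernel

theorem F2_step : (((F2.opTT).tcut 1).tsub F3).isZ = true := by
  decide +kernel

theorem F3_step : (((F3.opTT).tcut 0).tsub F4).isZ = true := by
  decide +kernel

end Helper44.BL
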