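import Pool.Agent.Helper44.BL.Coord

/-!
# BL-11: computing with functions on words whose values are integer polynomials

A polynomial is a list of pairs (code of a monomial, coefficient); the variables are coded by
primes, monomials by products. `Tr` is a finitely supported function on words (reversed, as in
`Sh`) with values in the polynomials. Everything is structurally recursive and is evaluated by the
kernel.
-/

namespace Helper44.BL

open Sh

/-- polynomials -/
abbrev Pol := List (ℕ × ℤ)

def mergeAux (m : ℕ) (c : ℤ) (rec : Pol → Pol) : Pol → Pol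
  | [] => (m, c) :: rec []
  | (n, d) :: q =>
    bif Nat.blt m n then (m, c) :: rec ((n, d) :: q)
    else bif Nat.beq m n then (bif (c + d == 0) then rec q else (m, c + d) :: rec q)
    else (n, d) :: mergeAux m c rec q

/-- sum -/
def padd : Pol → Pol → Pol
  | [] => fun q => q
  | (m, c) :: p => mergeAux m c (padd p)

/-- opposite -/
def pneg (p : Pol) : Pol := p.map fun x => (x.1, -x.2)

/-- product with a monomial -/
def pmon (m : ℕ) (c : ℤ) (p : Pol) : Pol := p.map fun x => (m * x.1, c * x.2)

/-- product -/
def pmul : Pol → Pol → Pol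
  | [], _ => []
  | (m, c) :: p, q => padd (pmon m c q) (pmul p q)

/-- functions on words -/
inductive Tr
  | o : Tr
  | n (p : Pol) (l r : Tr) : Tr

namespace Tr

/-- value at a word -/
def get : Tr → List Bool → Pol
  | o, _ => []
  | n p _ _, [] => p
  | n _ l r, a :: w => if a then l.get w else r.get w

/-- removal of the last letter -/
def tD (a : Bool) : Tr → Tr
  | o => o
  | n _ l r => if a then l else r

def tadd : Tr → Tr → Tr
  | o, t => t
  | n p l r, t => match t with
    | o => n p l r
    | n p' l' r' => n (padd p p') (tadd l l') (tadd r r')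

def tneg : Tr → Tr
  | o => o
  | n p l r => n (pneg p) (tneg l) (tneg r)

def tsub (s t : Tr) : Tr := tadd s (tneg t)

def tmon (m : ℕ) (c : ℤ) : Tr → Tr
  | o => o
  | n p l r => n (pmon m c p) (tmon m c l) (tmon m c r)

def mulIn (a : Pol) (f1 f2 : Tr → Tr) : Tr → Tr
  | o => o
  | n b l r => n (pmul a b) (tadd (f1 (n b l r)) (mulIn a f1 f2 l))
      (tadd (f2 (n b l r)) (mulIn a f1 f2 r))

/-- the shuffle product -/
def tmul : Tr → Tr → Tr
  | o => fun _ => o
  | n a l r => mulIn a (tmul l) (tmul r)

/-- is the function zero? -/
def isZ : Tr → Bool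
  | o => true
  | n p l r => (match p with
    | [] => true
    | _ => false) && isZ l && isZ r

/-- remove the values at words of length `< m` -/
def tcut : ℕ → Tr → Tr
  | 0, t => t
  | _ + 1, o => o
  | m + 1, n _ l r => n [] (tcut m l) (tcut m r)

/-- a bound for the length of the words in the support -/
def depth : Tr → ℕ
  | o => 0
  | n _ l r => 1 + max (depth l) (depth r)

/-- the constant with polynomial `p` -/
def tC (p : Pol) : Tr := n p o o

/-- the operators `opW` -/
def opWT : List Bool → Tr → Tr
  | [] => fun t => tsub (tD true (tD false t)) (tD false (tD true t))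
  | z :: w => fun t => tsub (opWT w (tD z t)) (tD z (opWT w t))

/-- the prime which codes the variable `e w` -/
def vcode : List Bool → ℕ
  | [] => 5
  | [true] => 7
  | [false] => 11
  | [true, true] => 13
  | [false, true] => 17
  | [true, false] => 19
  | [false, false] => 23
  | [true, true, true] => 29
  | [false, true, true] => 31
  | [true, false, true] => 37
  | [false, false, true] => 41
  | [true, true, false] => 43
  | [false, true, false] => 47
  | [true, false, false] => 53
  | [false, false, false] => 59
  | [true, true, true, true] => 61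
  | [false, true, true, true] => 67
  | [true, false, true, true] => 71
  | [false, false, true, true] => 73
  | [true, true, false, true] => 79
  | [false, true, false, true] => 83
  | [true, false, false, true] => 89
  | [false, false, false, true] => 97
  | [true, true, true, false] => 101
  | [false, true, true, false] => 103
  | [true, false, true, false] => 107
  | [false, false, true, false] => 109
  | [true, true, false, false] => 113
  | [false, true, false, false] => 127
  | [true, false, false, false] => 131
  | [false, false, false, false] => 137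
  | _ => 1

/-- the operator `opT`: `2` codes `α`, `3` codes `β` -/
def opTT (t : Tr) : Tr :=
  tadd (tmon 2 1 (tD true t)) (tadd (tmon 3 1 (tD false t))
    (W4.foldr (fun w acc => tadd (tmon (vcode w) 1 (opWT w t)) acc) o))

end Tr

/-! ### Evaluation -/

section eval

variable {R : Type} [CommRing R] (v : ℕ → R)

/-- value of a monomial (`0` for the code `0`, so that it is multiplicative) -/
def evM (m : ℕ) : R := if m = 0 then 0 else (m.primeFactorsList.map v).prod

theorem evM_mul (m m' : ℕ) : evM v (m * m') = evM v m * evM v m' := by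
  unfold evM
  by_cases h : m = 0
  · rw [if_pos h, h, zero_mul, if_pos rfl, zero_mul]
  · by_cases h' : m' = 0
    · rw [if_pos h', h', mul_zero, if_pos rfl, mul_zero]
    · rw [if_neg h, if_neg h', if_neg (mul_ne_zero h h'),
        ((Nat.perm_primeFactorsList_mul h h').map v).prod_eq, List.map_append, List.prod_append]

theorem evM_one : evM v 1 = 1 := by
  unfold evM
  rw [if_neg one_ne_zero, Nat.primeFactorsList_one]
  rfl

theorem evM_prime {q : ℕ} (hq : q.Prime) : evM v q = v q := by
  unfold evM
  rw [if_neg hq.ne_zero, Nat.primeFactorsList_prime hq]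
  simp

/-- value of a polynomial -/
def evP (p : Pol) : R := (p.map fun x => (x.2 : R) * evM v x.1).sum

theorem evP_nil : evP v [] = 0 := rfl

theorem evP_cons (x : ℕ × ℤ) (p : Pol) : evP v (x :: p) = (x.2 : R) * evM v x.1 + evP v p := by
  unfold evP
  rw [List.map_cons, List.sum_cons]

private theorem evP_mergeAux (m : ℕ) (c : ℤ) (rec : Pol → Pol) (E : R)
    (h : ∀ q, evP v (rec q) = E + evP v q) (q : Pol) :
    evP v (mergeAux m c rec q) = (c : R) * evM v m + E + evP v q := by
  induction q with
  | nil =>
    have e : mergeAux m c rec [] = (m, c) :: rec [] := rfl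
    rw [e, evP_cons, h]
    ring
  | cons x q ih =>
    obtain ⟨n, d⟩ := x
    have e : mergeAux m c rec ((n, d) :: q) =
      bif Nat.blt m n then (m, c) :: rec ((n, d) :: q)
      else bif Nat.beq m n then (bif (c + d == 0) then rec q else (m, c + d) :: rec q)
      else (n, d) :: mergeAux m c rec q := rfl
    rw [e]
    cases h1 : Nat.blt m n with
    | true =>
      rw [cond_true, evP_cons, h]
      ring
    | false =>
      rw [cond_false]
      cases h2 : Nat.beq m n with
      | true =>
        rw [cond_true]
        have hmn : m = n := Nat.eq_of_beq_eq_true h2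
        subst hmn
        cases h3 : (c + d == 0) with
        | true =>
          rw [cond_true, h, evP_cons]
          have h4 : c + d = 0 := by simpa using h3
          have h5 : (c : R) + (d : R) = 0 := by
            have := congrArg (fun z : ℤ => (z : R)) h4
            simpa using this
          simp only
          linear_combination (-(evM v m)) * h5
        | false =>
          rw [cond_false, evP_cons, evP_cons, h]
          push_cast
          ring
      | false =>
        rw [cond_false, evP_cons, ih, evP_cons]
        ring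

theorem evP_padd (p q : Pol) : evP v (padd p q) = evP v p + evP v q := by
  induction p generalizing q with
  | nil =>
    have e : padd [] q = q := rfl
    rw [e, evP_nil, zero_add]
  | cons x p ih =>
    obtain ⟨m, c⟩ := x
    have e : padd ((m, c) :: p) q = mergeAux m c (padd p) q := rfl
    rw [e, evP_mergeAux v m c (padd p) (evP v p) ih, evP_cons]

theorem evP_pneg (p : Pol) : evP v (pneg p) = -evP v p := by
  induction p with
  | nil =>
    have e : pneg [] = [] := rfl
    rw [e, evP_nil, neg_zero]
  | cons x p ih =>
    have e : pneg (x :: p) = (x.1, -x.2) :: pneg p := rfl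
    rw [e, evP_cons, evP_cons, ih]
    push_cast
    ring

theorem evP_pmon (m : ℕ) (c : ℤ) (p : Pol) : evP v (pmon m c p) = (c : R) * evM v m * evP v p := by
  induction p with
  | nil =>
    have e : pmon m c [] = [] := rfl
    rw [e, evP_nil, mul_zero]
  | cons x p ih =>
    have e : pmon m c (x :: p) = (m * x.1, c * x.2) :: pmon m c p := rfl
    rw [e, evP_cons, evP_cons, ih]
    simp only [evM_mul]
    push_cast
    ring

theorem evP_pmul (p q : Pol) : evP v (pmul p q) = evP v p * evP v q := by
  induction p with
  | nil =>
    have e : pmul [] q = [] := rfl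
    rw [e, evP_nil, zero_mul]
  | cons x p ih =>
    obtain ⟨m, c⟩ := x
    have e : pmul ((m, c) :: p) q = padd (pmon m c q) (pmul p q) := rfl
    rw [e, evP_padd, evP_pmon, ih, evP_cons]
    ring

/-- the function on words -/
def toSh (t : Tr) : Sh R := ⟨fun w => evP v (t.get w)⟩

theorem toSh_o : toSh v Tr.o = 0 := rfl

theorem toSh_nil (t : Tr) : (toSh v t) [] = evP v (t.get []) := rfl

theorem dl_toSh (a : Bool) (t : Tr) : dl a (toSh v t) = toSh v (t.tD a) := by
  apply Sh.ext'
  intro w
  cases t with
  | o => rfl
  | n p l r => cases a <;> rfl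

theorem toSh_tadd (s t : Tr) : toSh v (s.tadd t) = toSh v s + toSh v t := by
  induction s generalizing t with
  | o =>
    have e : Tr.tadd Tr.o t = t := rfl
    rw [e, toSh_o, zero_add]
  | n p l r ihl ihr =>
    cases t with
    | o =>
      have e : Tr.tadd (Tr.n p l r) Tr.o = Tr.n p l r := rfl
      rw [e, toSh_o, add_zero]
    | n p' l' r' =>
      apply ext_dl
      · exact evP_padd v p p'
      · intro a
        rw [dl_add, dl_toSh, dl_toSh, dl_toSh]
        cases a
        · exact ihr r'
        · exact ihl l'

theorem toSh_tneg (t : Tr) : toSh v t.tneg = -toSh v t := by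
  induction t with
  | o =>
    have e : Tr.tneg Tr.o = Tr.o := rfl
    rw [e, toSh_o, neg_zero]
  | n p l r ihl ihr =>
    apply ext_dl
    · exact evP_pneg v p
    · intro a
      rw [dl_neg, dl_toSh, dl_toSh]
      cases a
      · exact ihr
      · exact ihl

theorem toSh_tsub (s t : Tr) : toSh v (s.tsub t) = toSh v s - toSh v t := by
  rw [Tr.tsub, toSh_tadd, toSh_tneg, sub_eq_add_neg]

theorem toSh_tmon (m : ℕ) (c : ℤ) (t : Tr) :
    toSh v (t.tmon m c) = ((c : R) * evM v m) • toSh v t := by
  induction t with
  | o =>
    have e : Tr.tmon m c Tr.o = Tr.o := rfl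
    rw [e, toSh_o, smul_zero]
  | n p l r ihl ihr =>
    apply ext_dl
    · exact evP_pmon v m c p
    · intro a
      rw [dl_smul, dl_toSh, dl_toSh]
      cases a
      · exact ihr
      · exact ihl

private theorem toSh_mulIn (a : Pol) (l r : Tr) (hl : ∀ t, toSh v (l.tmul t) = toSh v l * toSh v t)
    (hr : ∀ t, toSh v (r.tmul t) = toSh v r * toSh v t) (t : Tr) :
    toSh v (Tr.mulIn a (Tr.tmul l) (Tr.tmul r) t) = toSh v (Tr.n a l r) * toSh v t := by
  induction t with
  | o =>
    have e : Tr.mulIn a (Tr.tmul l) (Tr.tmul r) Tr.o = Tr.o := rfl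
    rw [e, toSh_o, mul_zero]
  | n b l' r' ihl ihr =>
    apply ext_dl
    · exact evP_pmul v a b
    · intro c
      rw [dl_mul, dl_toSh, dl_toSh, dl_toSh]
      cases c
      · have e : (Tr.mulIn a (Tr.tmul l) (Tr.tmul r) (Tr.n b l' r')).tD false =
          Tr.tadd (Tr.tmul r (Tr.n b l' r')) (Tr.mulIn a (Tr.tmul l) (Tr.tmul r) r') := rfl
        rw [e, toSh_tadd, hr, ihr]
        rfl
      · have e : (Tr.mulIn a (Tr.tmul l) (Tr.tmul r) (Tr.n b l' r')).tD true =
          Tr.tadd (Tr.tmul l (Tr.n b l' r')) (Tr.mulIn a (Tr.tmul l) (Tr.tmul r) l') := rfl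
        rw [e, toSh_tadd, hl, ihl]
        rfl

/-- use `Sh.ext_dl` -/
theorem toSh_tmul (s t : Tr) : toSh v (s.tmul t) = toSh v s * toSh v t := by
  induction s generalizing t with
  | o =>
    have e : Tr.tmul Tr.o t = Tr.o := rfl
    rw [e, toSh_o, zero_mul]
  | n a l r ihl ihr =>
    exact toSh_mulIn v a l r ihl ihr t

theorem toSh_tC (p : Pol) : toSh v (Tr.tC p) = algebraMap R (Sh R) (evP v p) := by
  apply ext_dl
  · rw [algebraMap_nil]
    rfl
  · intro a
    rw [dl_algebraMap, dl_toSh]
    cases a <;> rfl

theorem toSh_isZ {t : Tr} (h : t.isZ = true) : toSh v t = 0 := by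
  induction t with
  | o => rfl
  | n p l r ihl ihr =>
    cases p with
    | cons x p =>
      have e : Tr.isZ (Tr.n (x :: p) l r) = ((false && l.isZ) && r.isZ) := rfl
      rw [e] at h
      simp at h
    | nil =>
      have e : Tr.isZ (Tr.n [] l r) = ((true && l.isZ) && r.isZ) := rfl
      rw [e, Bool.true_and, Bool.and_eq_true] at h
      apply ext_dl
      · rfl
      · intro a
        rw [dl_toSh, dl_zero]
        cases a
        · exact ihr h.2
        · exact ihl h.1

private theorem get_tcut (m : ℕ) : ∀ (t : Tr) (w : List Bool), m ≤ w.length →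
    (t.tcut m).get w = t.get w := by
  induction m with
  | zero =>
    intro t w _
    cases t <;> rfl
  | succ m ih =>
    intro t w hw
    cases t with
    | o => rfl
    | n p l r =>
      cases w with
      | nil => simp at hw
      | cons a w =>
        have hw' : m ≤ w.length := by
          rw [List.length_cons] at hw
          omega
        cases a
        · exact ih r w hw'
        · exact ih l w hw'

theorem toSh_tcut (m : ℕ) (t : Tr) : toSh v t - toSh v (t.tcut m) ∈ W R m := by
  intro w hw
  rw [Sh.sub_apply]
  show evP v (t.get w) - evP v ((t.tcut m).get w) = 0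
  rw [get_tcut m t w hw, sub_self]

private theorem get_depth (t : Tr) : ∀ w : List Bool, t.depth ≤ w.length → t.get w = [] := by
  induction t with
  | o => intro w _; rfl
  | n p l r ihl ihr =>
    intro w hw
    have e : Tr.depth (Tr.n p l r) = 1 + max (Tr.depth l) (Tr.depth r) := rfl
    rw [e] at hw
    cases w with
    | nil =>
      simp at hw
    | cons a w =>
      rw [List.length_cons] at hw
      cases a
      · exact ihr w (by omega)
      · exact ihl w (by omega)

theorem toSh_mem (t : Tr) {n : ℕ} (h : t.depth ≤ n) : toSh v t ∈ W R n := by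
  intro w hw
  show evP v (t.get w) = 0
  rw [get_depth t w (h.trans hw)]
  rfl

theorem toSh_opWT (w : List Bool) (t : Tr) : toSh v (Tr.opWT w t) = opW w (toSh v t) := by
  induction w generalizing t with
  | nil =>
    have e : Tr.opWT [] t = Tr.tsub (Tr.tD true (Tr.tD false t)) (Tr.tD false (Tr.tD true t)) := rfl
    have e2 : opW (R := R) [] (toSh v t) = d true (d false (toSh v t)) - d false (d true (toSh v t)) :=
      rfl
    rw [e, e2, toSh_tsub, d_apply, d_apply, d_apply, d_apply, dl_toSh, dl_toSh, dl_toSh, dl_toSh]
  | cons z w ih =>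
    have e : Tr.opWT (z :: w) t = Tr.tsub (Tr.opWT w (Tr.tD z t)) (Tr.tD z (Tr.opWT w t)) := rfl
    have e2 : opW (R := R) (z :: w) (toSh v t) = opW w (d z (toSh v t)) - d z (opW w (toSh v t)) :=
      rfl
    rw [e, e2, toSh_tsub, d_apply, d_apply, dl_toSh, ih, ← ih t, dl_toSh]

private theorem vcode_prime : ∀ w ∈ W4, (Tr.vcode w).Prime := by
  decide +kernel

private theorem toSh_fold (t : Tr) (L : List (List Bool)) (hL : ∀ w ∈ L, (Tr.vcode w).Prime) :
    toSh v (L.foldr (fun w acc => Tr.tadd (Tr.tmon (Tr.vcode w) 1 (Tr.opWT w t)) acc) Tr.o) =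
      (L.map fun w => v (Tr.vcode w) • (opW w : Module.End R (Sh R))).sum (toSh v t) := by
  induction L with
  | nil => rfl
  | cons w L ih =>
    rw [List.foldr_cons, toSh_tadd, toSh_tmon, toSh_opWT,
      ih (fun w hw => hL w (List.mem_cons_of_mem _ hw)),
      evM_prime v (hL w List.mem_cons_self), List.map_cons, List.sum_cons, LinearMap.add_apply,
      LinearMap.smul_apply, Int.cast_one, one_mul]

/-- (`vcode w` is a prime for all `w ∈ W4`, by `decide` or `norm_num`) -/
theorem toSh_opTT (t : Tr) :
    toSh v t.opTT = opT (v 2) (v 3) (fun w => v (Tr.vcode w)) (toSh v t) := by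
  rw [Tr.opTT, toSh_tadd, toSh_tadd, toSh_fold v t W4 vcode_prime, toSh_tmon, toSh_tmon,
    evM_prime v Nat.prime_two, evM_prime v Nat.prime_three, opT, LinearMap.add_apply,
    LinearMap.add_apply, LinearMap.smul_apply, LinearMap.smul_apply, d_apply, d_apply, dl_toSh,
    dl_toSh, Int.cast_one, one_mul, one_mul, add_assoc]

/-- One step: if `u` has the coordinates `v`, `g` agrees with the tree `t` up to `W R m`, the tree
has depth `≤ k`, and `t'` is the tree `cut m' (opTT t)`, then `u g` agrees with `t'` up to
`W R m'`. -/
theorem toSh_step {u : Module.End R (Sh R)} (hu : IsLF R u)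
    (hco : Co u (v 2) (v 3) fun w => v (Tr.vcode w)) {g : Sh R} {t t' : Tr} {m m' k : ℕ}
    (hg : g - toSh v t ∈ W R m) (hk : t.depth ≤ k) (hm : m - 1 ≤ m') (hkm : k - 7 ≤ m')
    (h : ((t.opTT.tcut m').tsub t').isZ = true) : u g - toSh v t' ∈ W R m' := by
  have h1 : u (g - toSh v t) ∈ W R m' := W_mono hm (hu.map_W hg)
  have h2 := W_mono hkm (hco.rem k (toSh v t) (toSh_mem v t hk))
  have h3 := toSh_tcut v m' t.opTT
  have h4 := toSh_isZ v h
  rw [toSh_tsub, sub_eq_zero] at h4
  rw [← h4]
  rw [toSh_opTT] at h3
  have e : u g - toSh v (t.opTT.tcut m') = u (g - toSh v t) +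
      ((u (toSh v t) - opT (v 2) (v 3) (fun w => v (Tr.vcode w)) (toSh v t)) +
      (opT (v 2) (v 3) (fun w => v (Tr.vcode w)) (toSh v t) - toSh v (t.opTT.tcut m'))) := by
    rw [map_sub]
    abel
  rw [e]
  exact add_mem h1 (add_mem h2 h3)

end eval

end Helper44.BL
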